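import Pool.Agent.TRC.Defs
import Pool.Agent.ExpMax.INV
import Pool.Agent.ExpMax.BASIC
import Pool.Agent.ExpMax.EXTC

/-!
# Project TRC: elementary lemmas on `E`
-/

set_option autoImplicit false

noncomputable section

open MeasureTheory Set Filter
open scoped ENNReal RealInnerProductSpace Topology

namespace Pool.Agent.TRC

open Pool.Agent.ExpMax

section

variable {F : Type} [NormedAddCommGroup F] [InnerProductSpace ℝ F] [FiniteDimensional ℝ F]
    [MeasurableSpace F] [BorelSpace F]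

theorem prb_prob (hn : 1 ≤ Module.finrank ℝ F) : IsProbabilityMeasure (prb F) :=
  (tINV F hn).1

/-- The extension only depends on the class of the function. -/
theorem E_toLp {f : Metric.sphere (0 : F) 1 → ℂ} (hf : MemLp f 2 (prb F)) (y : F) :
    E (hf.toLp f) y = Ext f y := by
  unfold E ExpMax.Ext
  refine integral_congr_ae ?_
  filter_upwards [hf.coeFn_toLp] with ω hω
  rw [hω]

theorem norm_sq_eq (f : H F) : ‖f‖ ^ 2 = ∫ ω, ‖f ω‖ ^ 2 ∂(prb F) := by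
  have h := L2.inner_def (𝕜 := ℂ) f f
  have h1 : (inner ℂ f f : ℂ) = ((‖f‖ ^ 2 : ℝ) : ℂ) := by
    rw [inner_self_eq_norm_sq_to_K]
    simp
  rw [h1] at h
  have h2 : ∫ ω, inner ℂ (f ω) (f ω) ∂(prb F) = ((∫ ω, ‖f ω‖ ^ 2 ∂(prb F) : ℝ) : ℂ) := by
    rw [← integral_complex_ofReal]
    refine integral_congr_ae (Filter.Eventually.of_forall fun ω => ?_)
    simp only
    rw [inner_self_eq_norm_sq_to_K]
    simp
  rw [h2] at h
  exact_mod_cast h

theorem norm_toLp {f : Metric.sphere (0 : F) 1 → ℂ} (hf : MemLp f 2 (prb F)) :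
    ‖hf.toLp f‖ ^ 2 = ∫ ω, ‖f ω‖ ^ 2 ∂(prb F) := by
  rw [norm_sq_eq]
  refine integral_congr_ae ?_
  filter_upwards [hf.coeFn_toLp] with ω hω
  rw [hω]

/-- The character `ω ↦ exp (i ⟪ω, y⟫)`. -/
def chf (y : F) (ω : Metric.sphere (0 : F) 1) : ℂ :=
  Complex.exp (Complex.I * ((⟪(ω : F), y⟫ : ℝ) : ℂ))

theorem chf_norm (y : F) (ω : Metric.sphere (0 : F) 1) : ‖chf y ω‖ = 1 := by
  unfold chf
  rw [mul_comm, Complex.norm_exp_ofReal_mul_I]

theorem chf_cont (y : F) : Continuous (chf y : Metric.sphere (0 : F) 1 → ℂ) := by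
  unfold chf
  fun_prop

theorem chf_memLp (hn : 1 ≤ Module.finrank ℝ F) (y : F) :
    MemLp (chf y : Metric.sphere (0 : F) 1 → ℂ) 2 (prb F) := by
  have := prb_prob hn
  refine MemLp.of_bound (chf_cont y).aestronglyMeasurable 1 ?_
  exact Filter.Eventually.of_forall fun ω => (chf_norm y ω).le

open Classical in
/-- The character as an element of `H F`. -/
def ch (y : F) : H F :=
  if h : MemLp (chf y : Metric.sphere (0 : F) 1 → ℂ) 2 (prb F) then h.toLp _ else 0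

theorem ch_eq (hn : 1 ≤ Module.finrank ℝ F) (y : F) : ch y = (chf_memLp hn y).toLp _ := by
  unfold ch
  rw [dif_pos (chf_memLp hn y)]

theorem norm_ch (hn : 1 ≤ Module.finrank ℝ F) (y : F) : ‖ch y‖ = 1 := by
  have := prb_prob hn
  have h : ‖ch y‖ ^ 2 = 1 := by
    rw [ch_eq hn, norm_toLp]
    simp [chf_norm]
  nlinarith [norm_nonneg (ch y)]

theorem E_eq (hn : 1 ≤ Module.finrank ℝ F) (g : H F) (y : F) : E g y = inner ℂ (ch y) g := by
  rw [L2.inner_def, ch_eq hn]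
  unfold E ExpMax.Ext
  refine integral_congr_ae ?_
  filter_upwards [(chf_memLp hn y).coeFn_toLp] with ω hω
  rw [hω]
  simp only [chf, RCLike.inner_apply]
  congr 1
  rw [← Complex.exp_conj]
  congr 1
  simp

theorem norm_E_le (hn : 1 ≤ Module.finrank ℝ F) (g : H F) (y : F) : ‖E g y‖ ≤ ‖g‖ := by
  rw [E_eq hn]
  calc ‖inner ℂ (ch y) g‖ ≤ ‖ch y‖ * ‖g‖ := norm_inner_le_norm _ _
    _ = ‖g‖ := by rw [norm_ch hn, one_mul]

theorem E_add (hn : 1 ≤ Module.finrank ℝ F) (g h : H F) (y : F) :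
    E (g + h) y = E g y + E h y := by
  rw [E_eq hn, E_eq hn, E_eq hn, inner_add_right]

theorem E_sub (hn : 1 ≤ Module.finrank ℝ F) (g h : H F) (y : F) :
    E (g - h) y = E g y - E h y := by
  rw [E_eq hn, E_eq hn, E_eq hn, inner_sub_right]

theorem E_smul (hn : 1 ≤ Module.finrank ℝ F) (c : ℂ) (g : H F) (y : F) :
    E (c • g) y = c * E g y := by
  rw [E_eq hn, E_eq hn, inner_smul_right]

theorem E_zero (hn : 1 ≤ Module.finrank ℝ F) (y : F) : E (0 : H F) y = 0 := by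
  rw [E_eq hn, inner_zero_right]

theorem E_neg (hn : 1 ≤ Module.finrank ℝ F) (g : H F) (y : F) : E (-g) y = -E g y := by
  rw [E_eq hn, E_eq hn, inner_neg_right]

theorem E_sum (hn : 1 ≤ Module.finrank ℝ F) {ι : Type} (s : Finset ι) (g : ι → H F) (y : F) :
    E (∑ i ∈ s, g i) y = ∑ i ∈ s, E (g i) y := by
  rw [E_eq hn, inner_sum]
  exact Finset.sum_congr rfl fun i _ => (E_eq hn _ _).symm

theorem integrable_coe (hn : 1 ≤ Module.finrank ℝ F) (f : H F) :
    Integrable (fun ω => f ω) (prb F) := by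
  have := prb_prob hn
  exact (Lp.memLp f).integrable (by norm_num)

theorem continuous_E (hn : 1 ≤ Module.finrank ℝ F) (g : H F) : Continuous (E g) :=
  (tEXTC tINV F hn _ (integrable_coe hn g)).1

theorem E_lip (hn : 1 ≤ Module.finrank ℝ F) (g : H F) (y y' : F) :
    ‖E g y - E g y'‖ ≤ ‖g‖ * ‖y - y'‖ := by
  have := prb_prob hn
  have h1 := (tEXTC tINV F hn _ (integrable_coe hn g)).2.2 y y'
  have h2 : ∫ ω, ‖g ω‖ ∂(prb F) ≤ ‖g‖ := by
    have h3 := (Lp.memLp g)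
    have h4 : (∫ ω, ‖g ω‖ ∂(prb F)) ^ 2 ≤ ∫ ω, ‖g ω‖ ^ 2 ∂(prb F) := by
      have h5 : 0 ≤ ∫ ω, (‖g ω‖ - ∫ ω, ‖g ω‖ ∂(prb F)) ^ 2 ∂(prb F) :=
        integral_nonneg fun _ => sq_nonneg _
      set m := ∫ ω, ‖g ω‖ ∂(prb F) with hm
      have h6 : Integrable (fun ω => ‖g ω‖ ^ 2) (prb F) := h3.integrable_norm_pow (by norm_num)
      have h7 : Integrable (fun ω => ‖g ω‖) (prb F) := (integrable_coe hn g).norm
      have h8 : ∫ ω, (‖g ω‖ - m) ^ 2 ∂(prb F) = (∫ ω, ‖g ω‖ ^ 2 ∂(prb F)) - m ^ 2 := by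
        have e : (fun ω => (‖g ω‖ - m) ^ 2) = fun ω => (‖g ω‖ ^ 2 - 2 * m * ‖g ω‖) + m ^ 2 := by
          funext ω
          ring
        have e1 : ∫ ω, ((‖g ω‖ ^ 2 - 2 * m * ‖g ω‖) + m ^ 2) ∂(prb F) =
            (∫ ω, (‖g ω‖ ^ 2 - 2 * m * ‖g ω‖) ∂(prb F)) + ∫ _ω, m ^ 2 ∂(prb F) :=
          integral_add (h6.sub (h7.const_mul _)) (integrable_const _)
        have e2 : ∫ ω, (‖g ω‖ ^ 2 - 2 * m * ‖g ω‖) ∂(prb F) =
            (∫ ω, ‖g ω‖ ^ 2 ∂(prb F)) - ∫ ω, 2 * m * ‖g ω‖ ∂(prb F) :=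
          integral_sub h6 (h7.const_mul _)
        rw [e, e1, e2, integral_const_mul, ← hm]
        simp
        ring
      linarith
    rw [← norm_sq_eq] at h4
    exact abs_le_of_sq_le_sq' h4 (norm_nonneg _) |>.2
  exact h1.trans (mul_le_mul_of_nonneg_right h2 (norm_nonneg _))

theorem J_nonneg (q : ℝ) (f : H F) : 0 ≤ J q f :=
  integral_nonneg fun _ => Real.rpow_nonneg (norm_nonneg _) _

theorem J_smul (hn : 1 ≤ Module.finrank ℝ F) (q : ℝ) (c : ℂ) (f : H F) :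
    J q (c • f) = ‖c‖ ^ q * J q f := by
  unfold J
  rw [← integral_const_mul]
  congr 1
  funext y
  rw [E_smul hn, norm_mul, Real.mul_rpow (norm_nonneg _) (norm_nonneg _)]

/-- The constant function `1`. -/
theorem exists_one (hn : 1 ≤ Module.finrank ℝ F) :
    ∃ o : H F, ‖o‖ = 1 ∧ ∀ y, E o y = ((u0 y : ℝ) : ℂ) := by
  refine ⟨ch 0, norm_ch hn 0, fun y => ?_⟩
  rw [ch_eq hn, E_toLp, ← (tBASIC tINV F hn).1 y]
  congr 1
  funext ω
  simp [chf]

theorem J_one {o : H F} (ho : ∀ y, E o y = ((u0 y : ℝ) : ℂ)) (q : ℝ) : J q o = A F q := by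
  unfold J A
  congr 1
  funext y
  rw [ho, Complex.norm_real, Real.norm_eq_abs]

/-- `E f` is real: its norm is the absolute value of its real part. -/
theorem Rl.norm_eq {f : H F} (h : Rl f) (y : F) : ‖E f y‖ = |(E f y).re| := by
  have h1 : E f y = (((E f y).re : ℝ) : ℂ) := by
    apply Complex.ext
    · simp
    · simpa using h y
  conv_lhs => rw [h1]
  rw [Complex.norm_real, Real.norm_eq_abs]

end

end Pool.Agent.TRC
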