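import Pool.Agent.TRC.Eng

/-!
# Project TRC (MP_9044d4_an): targets, part 2 (one variable, numbers, assembly)

`Bes n φ φ'`: `φ r = u0 (r e)` in dimension `n`, `φ'` its derivative; `a n φ q` is the radial
integral of `|φ| ^ q`.
-/

set_option autoImplicit false

noncomputable section

open MeasureTheory Set Filter
open scoped ENNReal RealInnerProductSpace Topology

namespace Pool.Agent.TRC

open Pool.Agent.ExpMax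

/-! ### The Bessel type function -/

/-- BES. Proof: `φ r = ∫ cos (r ⟪ω, e⟫)`, `φ' r = - ∫ ⟪ω, e⟫ sin (r ⟪ω, e⟫)` (differentiation under
the integral sign; everything is bounded). Differential equation: `φ'' r = - ∫ ⟪ω, e⟫ ^ 2 cos`, and
`tROTD` summed over an orthonormal basis of the complement of `e` gives
`r ∫ (1 - ⟪ω, e⟫ ^ 2) cos (r ⟪ω, e⟫) = (n - 1) ∫ ⟪ω, e⟫ sin (r ⟪ω, e⟫)`, that is
`r (φ + φ'') = - (n - 1) φ'`. Taylor: the moments `m_k = ∫ ⟪ω, e⟫ ^ (2 k)` satisfy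
`m_{k+1} (2 k + n) = (2 k + 1) m_k`, `m_0 = 1` (compare the Taylor coefficients at `r = 0` of the
identity above, or differentiate it; e.g. divide by `r` and differentiate `2 k` times at `0`), so
`m_k / (2 k)! = 1 / W n k`; and `|cos x - Σ_{k ≤ N} (-1) ^ k x ^ (2 k) / (2 k)!| ≤
|x| ^ (2 N + 2) / (2 N + 2)!`, the same for `sin` (Taylor with remainder, derivatives bounded by
`1`, `taylor_mean_remainder_bound`, or induction). For `φ'` note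
`(2 k + 2) / W n (k + 1) = 1 / (n W (n + 2) k)`. -/
def T_BES : Prop := ∀ (F : Type) [NormedAddCommGroup F] [InnerProductSpace ℝ F]
  [FiniteDimensional ℝ F] [MeasurableSpace F] [BorelSpace F], 2 ≤ Module.finrank ℝ F →
  ∀ e : F, ‖e‖ = 1 → ∃ φ' : ℝ → ℝ, Bes (Module.finrank ℝ F) (fun r => u0 (r • e)) φ'

/-- RDI. Polar coordinates. Proof: `u0` is radial (`tBASIC`), `integral_fun_norm_addHaar`: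
`ω = n vol (unit ball)`. -/
def T_RDI : Prop := ∀ (F : Type) [NormedAddCommGroup F] [InnerProductSpace ℝ F]
  [FiniteDimensional ℝ F] [MeasurableSpace F] [BorelSpace F], 2 ≤ Module.finrank ℝ F →
  ∃ ω : ℝ, 0 < ω ∧ ∀ e : F, ‖e‖ = 1 → ∀ q : ℝ, 0 < q →
    A F q = ω * a (Module.finrank ℝ F) (fun r => u0 (r • e)) q

/-- TAI. The decay. Proof: let `m = (n - 1) / 2`, `κ = m (m - 1) = (n - 1) (n - 3) / 4 ≥ 0`,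
`ψ = r ^ m φ`; `ψ' = r ^ m (φ' + (m / r) φ)`, `ψ'' = - (1 - κ / r ^ 2) ψ`. For `r ^ 2 > κ` the
function `e r = ψ' ^ 2 / (1 - κ / r ^ 2) + ψ ^ 2` has the derivative
`- (2 κ / r ^ 3) ψ' ^ 2 / (1 - κ / r ^ 2) ^ 2 ≤ 0`. So for `r ≥ R`: `ψ r ^ 2 ≤ e R` and
`ψ' r ^ 2 ≤ (1 - κ / r ^ 2) e R ≤ e R`. To avoid real powers write `ψ ^ 2 = r ^ (n - 1) φ ^ 2` and
`e r = r ^ (n - 1) ((φ' + (m / r) φ) ^ 2 / (1 - κ / r ^ 2) + φ ^ 2)`. -/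
def T_TAI : Prop := ∀ (n : ℕ) (φ φ' : ℝ → ℝ), 3 ≤ n → Bes n φ φ' → ∀ R D : ℝ, 0 < R →
  ((n : ℝ) - 1) * ((n : ℝ) - 3) / 4 < R ^ 2 →
  R ^ (n - 1) * ((φ' R + ((n : ℝ) - 1) / (2 * R) * φ R) ^ 2 /
    (1 - ((n : ℝ) - 1) * ((n : ℝ) - 3) / 4 / R ^ 2) + φ R ^ 2) ≤ D →
  ∀ r, R ≤ r → r ^ (n - 1) * φ r ^ 2 ≤ D ∧
    r ^ (n - 1) * (φ' r + ((n : ℝ) - 1) / (2 * r) * φ r) ^ 2 ≤ D

/-- DEC. Decay with some constant. Proof: T_TAI with some `R` (and continuity on `[0, R]`);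
`|φ'| ≤ |φ' + (m / r) φ| + (m / r) |φ|`. Hypothesis: T_TAI. -/
def T_DEC : Prop := ∀ (n : ℕ) (φ φ' : ℝ → ℝ), 3 ≤ n → Bes n φ φ' → ∃ C : ℝ, 0 < C ∧
  ∀ r, 1 ≤ r → r ^ (n - 1) * φ r ^ 2 ≤ C ∧ r ^ (n - 1) * φ' r ^ 2 ≤ C

/-- ITG. Integrability. Proof: for `r ≥ 1`, `|φ r| ^ q r ^ (n - 1) ≤ |φ r| ^ 4 r ^ (n - 1) ≤
C ^ 2 / r ^ (n - 1)` (`|φ| ≤ 1`), and `n - 1 ≥ 2`; continuous near `0`. The same for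
`|φ| ^ q φ' ^ 2 r ^ (n - 1)` (`q ≥ 4`, and `φ' ^ 2` is bounded). Hypothesis: T_DEC. -/
def T_ITG : Prop := ∀ (n : ℕ) (φ φ' : ℝ → ℝ), 3 ≤ n → Bes n φ φ' → ∀ q : ℝ, 4 ≤ q →
  IntegrableOn (fun r => |φ r| ^ q * r ^ (n - 1)) (Ioi 0) ∧
  IntegrableOn (fun r => |φ r| ^ q * φ' r ^ 2 * r ^ (n - 1)) (Ioi 0) ∧ 0 < a n φ q

/-- TLR. The tail. Proof: `φ ^ (2 m) r ^ (n - 1) ≤ D ^ m r ^ (n - 1 - m (n - 1))` for `r ≥ R`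
(T_TAI), `integral_Ioi_rpow_of_lt`. Hypotheses: T_TAI, T_ITG. -/
def T_TLR : Prop := ∀ (n m : ℕ) (φ φ' : ℝ → ℝ), 3 ≤ n → 2 ≤ m → Bes n φ φ' → ∀ R D : ℝ, 0 < R →
  ((n : ℝ) - 1) * ((n : ℝ) - 3) / 4 < R ^ 2 →
  R ^ (n - 1) * ((φ' R + ((n : ℝ) - 1) / (2 * R) * φ R) ^ 2 /
    (1 - ((n : ℝ) - 1) * ((n : ℝ) - 3) / 4 / R ^ 2) + φ R ^ 2) ≤ D →
  (∫ r in (0 : ℝ)..R, φ r ^ (2 * m) * r ^ (n - 1)) ≤ a n φ (2 * m) ∧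
    a n φ (2 * m) ≤ (∫ r in (0 : ℝ)..R, φ r ^ (2 * m) * r ^ (n - 1)) +
      D ^ m / (((m * (n - 1) - n : ℕ) : ℝ) * R ^ (m * (n - 1) - n))

/-- IDN. An identity. Proof: `(|φ| ^ (p - 2) φ φ' r ^ (n - 1))' = (p - 1) |φ| ^ (p - 2) φ' ^ 2
r ^ (n - 1) - |φ| ^ p r ^ (n - 1)` for `r > 0` (by the equation `(r ^ (n - 1) φ')' =
- r ^ (n - 1) φ`; `x ↦ |x| ^ (p - 2) x` has the derivative `(p - 1) |x| ^ (p - 2)`), and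
`|φ| ^ (p - 2) φ φ' r ^ (n - 1)` tends to `0` at `0` and at infinity (T_DEC).
Hypotheses: T_DEC, T_ITG. -/
def T_IDN : Prop := ∀ (n : ℕ) (φ φ' : ℝ → ℝ), 3 ≤ n → Bes n φ φ' → ∀ p : ℝ, 6 ≤ p →
  (p - 1) * ∫ r in Ioi (0 : ℝ), |φ r| ^ (p - 2) * φ' r ^ 2 * r ^ (n - 1) = a n φ p

/-- PRT. The same on an interval, exponent `8`. -/
def T_PRT : Prop := ∀ (n : ℕ) (φ φ' : ℝ → ℝ), 3 ≤ n → Bes n φ φ' → ∀ R : ℝ, 0 < R →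
  7 * ∫ r in (0 : ℝ)..R, φ r ^ 6 * φ' r ^ 2 * r ^ (n - 1) =
    (∫ r in (0 : ℝ)..R, φ r ^ 8 * r ^ (n - 1)) + φ R ^ 7 * φ' R * R ^ (n - 1)

/-- The inequality between neighbouring exponents, for all large exponents. -/
def Bg (n : ℕ) : Prop := ∀ φ φ' : ℝ → ℝ, Bes n φ φ' → ∀ p : ℝ, 8 ≤ p →
  a n φ (p - 2) ≤ a n φ p * (1 + (2 * (n : ℝ) - 1) / (p - 1))

/-- BIG. Sufficient conditions for `Bg`. Proof: let `c = φ r₁ > 0` and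
`K r = φ ^ 2 - 1 + (2 n - 1) φ' ^ 2` for `r < r₁`, `K r = φ ^ 2 - 1` for `r ≥ r₁`. `φ` decreases on
`[0, r₂]`, so `φ ≥ c` on `[0, r₁]`, and `|φ| ≤ c` on `[r₁, r₂]`; for `r ≥ r₂` the function
`φ ^ 2 + φ' ^ 2` is nonincreasing (its derivative is `- 2 (n - 1) φ' ^ 2 / r`), so `|φ| ≤ c`. Hence
`|φ| ^ (p - 2) K ≥ c ^ (p - 8) φ ^ 6 K` for all `r > 0` (`K ≥ 0` for `r < r₁`, `K ≤ 0` for
`r ≥ r₁`, `p ≥ 8`). By T_IDN `a n φ p (1 + (2 n - 1) / (p - 1)) - a n φ (p - 2) =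
∫ |φ| ^ (p - 2) (φ ^ 2 - 1 + (2 n - 1) φ' ^ 2) r ^ (n - 1) ≥ ∫ |φ| ^ (p - 2) K r ^ (n - 1) ≥
c ^ (p - 8) ∫ φ ^ 6 K r ^ (n - 1)`, and by T_PRT the last integral is
`a 8 - a 6 + (2 n - 1) / 7 (∫_0^{r₁} φ ^ 8 r ^ (n - 1) + φ(r₁) ^ 7 φ'(r₁) r₁ ^ (n - 1)) ≥ 0`.
Hypotheses: T_ITG, T_IDN, T_PRT. -/
def T_BIG : Prop := ∀ (n : ℕ) (φ φ' : ℝ → ℝ), 3 ≤ n → Bes n φ φ' → ∀ r₁ r₂ : ℝ, 0 < r₁ →
  r₁ ≤ r₂ → (∀ r, 0 ≤ r → r ≤ r₂ → φ' r ≤ 0) → 0 < φ r₁ → -φ r₁ ≤ φ r₂ →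
  φ r₂ ^ 2 + φ' r₂ ^ 2 ≤ φ r₁ ^ 2 →
  (∀ r, 0 ≤ r → r ≤ r₁ → 0 ≤ φ r ^ 2 + (2 * (n : ℝ) - 1) * φ' r ^ 2 - 1) →
  a n φ 6 - a n φ 8 ≤ (2 * (n : ℝ) - 1) / 7 * ((∫ r in (0 : ℝ)..r₁, φ r ^ 8 * r ^ (n - 1)) +
    φ r₁ ^ 7 * φ' r₁ * r₁ ^ (n - 1)) →
  ∀ p : ℝ, 8 ≤ p → a n φ (p - 2) ≤ a n φ p * (1 + (2 * (n : ℝ) - 1) / (p - 1))

/-! ### Numbers -/

/-- ENG. The moments by integer arithmetic. Proof: `R = u / v`. For `0 ≤ x ≤ 1` the number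
`P n N (R x)` differs from `evL (cofs n u v b N) x / 2 ^ b` by at most `(N + 1) / 2 ^ b` (each
coefficient is rounded by less than `1 / 2 ^ b`) and from `φ (R x)` by at most
`R ^ (2 N + 2) / W n (N + 1)`; so `|φ (R x) - y| ≤ δ` for `y = evL .. x / 2 ^ b`, and
`|φ ^ m - y ^ m| ≤ m δ (1 + δ) ^ (m - 1)` as `|φ| ≤ 1`, `|y| ≤ 1 + δ`. `evL` is multiplicative:
`evL (mulL p q) x = evL p x * evL q x`, `evL (powL p m) x = evL p x ^ m`, and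
`∫_0^1 evL l x x ^ (n - 1) = itg n l` (`n ≥ 1`). Substitute `r = R x`. -/
def T_ENG : Prop := ∀ (n : ℕ) (φ φ' : ℝ → ℝ), 1 ≤ n → Bes n φ φ' → ∀ (u v b N m : ℕ), 0 < u →
  0 < v → ∀ R δ : ℝ, R = (u : ℝ) / v → δ = ((N : ℝ) + 1) / 2 ^ b + R ^ (2 * N + 2) / W n (N + 1) →
  |(∫ r in (0 : ℝ)..R, φ r ^ m * r ^ (n - 1)) -
    R ^ n * ((itg n (powL (cofs n u v b N) m) : ℚ) : ℝ) / 2 ^ (b * m)| ≤
      R ^ n / n * (m * δ * (1 + δ) ^ (m - 1))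

/-- The moments for `n = 3` (there `a 4 = 2 a 6`). -/
def T_VA3 : Prop := ∀ φ φ' : ℝ → ℝ, Bes 3 φ φ' →
  0.39258 ≤ a 3 φ 6 ∧ a 3 φ 6 ≤ 0.39292 ∧ 0.261798 ≤ a 3 φ 8 ∧ a 3 φ 8 ≤ 0.261801 ∧
    a 3 φ 10 ≤ 0.190896

/-- The moments for `n = 4`. -/
def T_VA4 : Prop := ∀ φ φ' : ℝ → ℝ, Bes 4 φ φ' →
  a 4 φ 4 ≤ 1.6423 ∧ 0.75024 ≤ a 4 φ 6 ∧ a 4 φ 6 ≤ 0.75028 ∧ 0.44023 ≤ a 4 φ 8 ∧
    a 4 φ 8 ≤ 0.44024 ∧ a 4 φ 10 ≤ 0.28911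

/-- The moments for `n = 5`. -/
def T_VA5 : Prop := ∀ φ φ' : ℝ → ℝ, Bes 5 φ φ' →
  a 5 φ 4 ≤ 4.8664 ∧ 1.9244 ≤ a 5 φ 6 ∧ a 5 φ 6 ≤ 1.92442 ∧ 0.98975 ≤ a 5 φ 8 ∧
    a 5 φ 8 ≤ 0.98976 ∧ a 5 φ 10 ≤ 0.58526

/-- The moments for `n = 6`. -/
def T_VA6 : Prop := ∀ φ φ' : ℝ → ℝ, Bes 6 φ φ' →
  a 6 φ 4 ≤ 18.4708 ∧ 6.18135 ≤ a 6 φ 6 ∧ a 6 φ 6 ≤ 6.18137 ∧ 2.78508 ≤ a 6 φ 8 ∧
    a 6 φ 8 ≤ 2.78509 ∧ a 6 φ 10 ≤ 1.48286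

/-- The moments for `n = 7`. Proof (all `T_VAn`): T_ENG with `u = 10`, `v = 1`, `b = 64`, `N = 26`,
`m = 4, 6, 8, 10` (`decide +kernel` for the rational inequalities, a few seconds each; keep
the list computations in separate lemmas) and T_TLR with `R = 10` and
`D = 1.0001, 2.5567, 9.1001, 41.515, 231.33` for `n = 3, 4, 5, 6, 7` (`φ 10` and `φ' 10` from
`Bes.tay`, `Bes.tay'` with `N = 26`). The numbers are (`∫_0^10`, bound of the tail):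
`n = 3`: m = 6: 0.392580, 3.34e-4; m = 8: 0.2617987, 2.0e-6; m = 10: 0.19089538, 1.5e-8.
`n = 4`: m = 4: 1.609556, 0.03269; m = 6: 0.7502447, 3.4e-5; m = 8: 0.44023051, 5.4e-8; m = 10:
0.28910420. `n = 5`: 4.838767, 0.02761; 1.9244041, 1.1e-5; 0.98975633; 0.58525292.
`n = 6`: 18.427663, 0.0431; 6.1813566, 8e-6; 2.7850858; 1.4828510.
`n = 7`: 84.685306, 0.1071; 23.8452301, 1.2e-5; 9.4111684; 4.5118331. -/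
def T_VA7 : Prop := ∀ φ φ' : ℝ → ℝ, Bes 7 φ φ' →
  a 7 φ 4 ≤ 84.7924 ∧ 23.84523 ≤ a 7 φ 6 ∧ a 7 φ 6 ≤ 23.84525 ∧ 9.41116 ≤ a 7 φ 8 ∧
    a 7 φ 8 ≤ 9.41117 ∧ a 7 φ 10 ≤ 4.51184

/-- A46. The exact relation for `n = 3`. Proof: `φ r = sin r / r` (uniqueness from `Bes.tay`:
`P 3 N r → sin r / r`, `W 3 k = (2 k + 1)!`). Claim `∫_0^∞ (sin^4 r / r^2 - 2 sin^6 r / r^4) = 0`.
Integration by parts twice: `∫ sin^6 / r^4 = 2 ∫ sin^5 cos / r^3 = ∫ (5 sin^4 cos^2 - sin^6) / r^2 =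
∫ (5 sin^4 - 6 sin^6) / r^2`. So the claim is `∫ (12 sin^6 - 9 sin^4) / r^2 = 0`, and
`12 sin^6 r - 9 sin^4 r = (3 - 9 cos (2 r) + 9 cos (4 r) - 3 cos (6 r)) / 8 =
(9 (1 - cos (2 r)) - 9 (1 - cos (4 r)) + 3 (1 - cos (6 r))) / 8`;
`∫_0^∞ (1 - cos (λ r)) / r^2 = λ ∫_0^∞ (1 - cos r) / r^2` (substitution) and
`9 * 2 - 9 * 4 + 3 * 6 = 0`. Hypothesis: T_ITG (optional). -/
def T_A46 : Prop := ∀ φ φ' : ℝ → ℝ, Bes 3 φ φ' → a 3 φ 4 = 2 * a 3 φ 6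

/-- KI3. `Bg 3`. Proof: T_BIG with `r₁ = 9/4`, `r₂ = 61/20`. Needed: `φ' ≤ 0` on `[0, r₂]`: by
`Bes.tay'` with `N = 3` (`- φ' r ≥ (r / n) (P (n + 2) 3 r - r ^ 8 / W (n + 2) 4)`, the bracket is
positive there: it is at least `1 - x / (2 (n + 2)) + x ^ 2 / (8 (n + 2) (n + 4)) - ..`,
`x = r ^ 2`); numerical values of `φ`, `φ'` at `r₁`, `r₂` (`Bes.tay`, `Bes.tay'`, `N = 8`):
`φ r₁ = 0.34581`, `φ r₂ ^ 2 + φ' r₂ ^ 2 = 0.11402 ≤ φ r₁ ^ 2 = 0.11958`;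
`K r = φ ^ 2 + (2 n - 1) φ' ^ 2 - 1 ≥ 0` on `[0, r₁]`: `K r / r ^ 2 ≥ 0.0111` there; bound
`φ ≥ P_-`, `- φ' ≥ (r / n) P'_-` with nonnegative lower Taylor polynomials (subtract the error term from
`Bes.tay`, `Bes.tay'`, `N = 5`), `K ≥ r ^ 2 S (r ^ 2)` with a polynomial `S`, positive on
`[0, r₁ ^ 2]` (subdivide the interval, or Bernstein coefficients). Last condition:
T_VA3 and `∫_0^{r₁} φ ^ 8 r ^ 2` from T_ENG (`u = 9`, `v = 4`, `b = 40`, `N = 14`, `m = 8`): the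
right side is `0.18594`, the left side at most `0.13113`. Hypotheses: T_BIG, T_VA3, T_ENG. -/
def T_KI3 : Prop := Bg 3

/-- KI4. `Bg 4`. Proof: as T_KI3 with `r₁ = 5/2`, `r₂ = 3`: `φ r₁ = 0.39768`,
`φ r₂ ^ 2 + φ' r₂ ^ 2 = 0.15611 ≤ 0.15815`, `K r / r ^ 2 ≥ 0.0079`, last condition:
`0.43004 ≥ 0.31006`. Hypotheses: T_BIG, T_VA4, T_ENG. -/
def T_KI4 : Prop := Bg 4

/-- KI5. `Bg 5`. Proof: as T_KI3 with `r₁ = 11/4`, `r₂ = 63/20`: `φ r₁ = 0.42172`,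
`φ r₂ ^ 2 + φ' r₂ ^ 2 = 0.17485 ≤ 0.17785`, `K r / r ^ 2 ≥ 0.0046`, last condition:
`1.20460 ≥ 0.93467`. Hypotheses: T_BIG, T_VA5, T_ENG. -/
def T_KI5 : Prop := Bg 5

/-- KI6. `Bg 6`. Proof: as T_KI3 with `r₁ = 3`, `r₂ = 17/5`: `φ r₁ = 0.43208`,
`φ r₂ ^ 2 + φ' r₂ ^ 2 = 0.17244 ≤ 0.18669`, `K r / r ^ 2 ≥ 0.0018`, last condition:
`3.97063 ≥ 3.39629`. Hypotheses: T_BIG, T_VA6, T_ENG. -/
def T_KI6 : Prop := Bg 6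

/-- KI7. `Bg 7`. Proof: as T_KI3 with `r₁ = 16/5`, `r₂ = 7/2`: `φ r₁ = 0.44731`,
`φ r₂ ^ 2 + φ' r₂ ^ 2 = 0.19757 ≤ 0.20009`, `K r / r ^ 2 ≥ 0.0014`, last condition:
`14.73308 ≥ 14.43409`. Hypotheses: T_BIG, T_VA7, T_ENG. -/
def T_KI7 : Prop := Bg 7

/-! ### Exponents between `6` and `8` -/

/-- PW. A pointwise inequality. Proof: let `h s = s ^ θ (1 + κ s)`. The line
`α + β s` is the tangent of `h` at `s₁` (`α + β s₁ = s₁ ^ θ (1 + κ s₁)`,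
`β = θ s₁ ^ (θ - 1) (1 + κ s₁) + κ s₁ ^ θ`). `h'' = θ s ^ (θ - 2) (θ - 1 + κ (1 + θ) s)`: `h` is
concave on `[0, s_c]` and convex on `[s_c, 1]`, `s_c = (1 - θ) / (κ (1 + θ)) ≥ s₁` (if `s_c ≥ 1`
or `κ = 0`: concave on `[0, 1]`). So `h ≤` line on `[0, s_c]`; at `s = 1` by hypothesis
`1 + κ ≤ α + β`; on `[s_c, 1]` by convexity. Cases `θ = 0`: `α = 1`, `β = κ`; `θ = 1`: then
`κ = 0`. -/
def T_PW : Prop := ∀ θ s₁ κ t α β : ℝ, 0 ≤ θ → θ ≤ 1 → 0 < s₁ → s₁ < 1 → 0 ≤ κ →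
  κ * (1 + θ) * s₁ ≤ 1 - θ → t = s₁ ^ θ → α = t * ((1 - θ) - θ * κ * s₁) →
  β = t * (θ / s₁ + (1 + θ) * κ) → 1 + κ ≤ α + β →
  ∀ s : ℝ, 0 ≤ s → s ≤ 1 → s ^ θ * (1 + κ * s) ≤ α + β * s

/-- The Hermite polynomial: value `x₂` and slope `y₂` at `s₂`, value `x₃` and slope `y₃` at
`s₃`. -/
def Hm (s₂ s₃ x₂ y₂ x₃ y₃ s : ℝ) : ℝ :=
  (x₂ * (1 + 2 * (s - s₂) / (s₃ - s₂)) + y₂ * (s - s₂)) * ((s₃ - s) / (s₃ - s₂)) ^ 2 +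
  (x₃ * (1 + 2 * (s₃ - s) / (s₃ - s₂)) + y₃ * (s - s₃)) * ((s - s₂) / (s₃ - s₂)) ^ 2

/-- HRM. Hermite interpolation from below. Proof: `f s = s ^ (1 + θ)` has
`f'''' = (1 + θ) θ (θ - 1) (θ - 2) s ^ (θ - 3) ≥ 0` on `s > 0`. For `s > 0`, `s ≠ s₂, s₃` let
`g x = f x - Hm x - λ (x - s₂) ^ 2 (x - s₃) ^ 2` with `λ` such that `g s = 0`; `g` has zeros at
`s`, `s₂`, `s₃` and `g'` at `s₂`, `s₃`: by Rolle `g'` has 4 zeros, ..., `g''''` has a zero `ξ`: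
`λ = f'''' ξ / 24 ≥ 0`. `s = 0` by continuity. (The cases `θ = 0`, `θ = 1`: equality; or
include them in the general argument.) -/
def T_HRM : Prop := ∀ θ s₂ s₃ : ℝ, 0 ≤ θ → θ ≤ 1 → 0 < s₂ → s₂ < s₃ → ∀ s : ℝ, 0 ≤ s →
  Hm s₂ s₃ (s₂ ^ (1 + θ)) ((1 + θ) * s₂ ^ θ) (s₃ ^ (1 + θ)) ((1 + θ) * s₃ ^ θ) s ≤ s ^ (1 + θ)

/-- LBD. Lower bound of the moments. Proof: T_HRM with `s = φ ^ 2`, times `φ ^ 4 r ^ (n - 1)`,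
integrated: `|φ| ^ (6 + 2 θ) = φ ^ 4 (φ ^ 2) ^ (1 + θ)`. The left side is the integral of the
polynomial `Hm`, whose coefficients are written out: `h = s₃ - s₂`,
`h00 = (1 + 2 (s - s₂) / h) ((s₃ - s) / h) ^ 2` etc. Stated as: for every polynomial
`c₀ + c₁ s + c₂ s ^ 2 + c₃ s ^ 3` equal to `Hm`. Hypotheses: T_HRM, T_ITG. -/
def T_LBD : Prop := ∀ (n : ℕ) (φ φ' : ℝ → ℝ), 3 ≤ n → Bes n φ φ' → ∀ θ s₂ s₃ c₀ c₁ c₂ c₃ : ℝ,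
  0 ≤ θ → θ ≤ 1 → 0 < s₂ → s₂ < s₃ →
  (∀ s : ℝ, Hm s₂ s₃ (s₂ ^ (1 + θ)) ((1 + θ) * s₂ ^ θ) (s₃ ^ (1 + θ)) ((1 + θ) * s₃ ^ θ) s =
    c₀ + c₁ * s + c₂ * s ^ 2 + c₃ * s ^ 3) →
  c₀ * a n φ 4 + c₁ * a n φ 6 + c₂ * a n φ 8 + c₃ * a n φ 10 ≤ a n φ (6 + 2 * θ)

/-- The inequality for the exponents `6 + 2 θ`, `0 ≤ θ ≤ 1`, in dimension `n`. -/
def Mid (n : ℕ) : Prop := ∀ φ φ' : ℝ → ℝ, Bes n φ φ' →
  a n φ 4 ≤ a n φ 6 * (1 + (2 * (n : ℝ) - 1) / 5) ∧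
  ∀ θ : ℝ, 0 ≤ θ → θ ≤ 1 → ∃ κ α β : ℝ, 0 ≤ κ ∧ 0 ≤ α ∧ 0 ≤ β ∧
    (∀ s : ℝ, 0 ≤ s → s ≤ 1 → s ^ θ * (1 + κ * s) ≤ α + β * s) ∧
    α * a n φ 4 + β * a n φ 6 ≤ (1 + (2 * (n : ℝ) - 1) / (5 + 2 * θ) + κ) * a n φ (6 + 2 * θ)

/-- NN4. Proof (general scheme, parameters `s₁`, `s₂`, `s₃`, `κ₀`): let `κ = κ₀ (1 - θ) ^ 2`,
`t = s₁ ^ θ`, `α`, `β` as in T_PW. Divide the inequality by `t` and multiply it by `5 + 2 θ`: to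
show, with `T₂ = (s₂ / s₁) ^ θ`, `T₃ = (s₃ / s₁) ^ θ` and the lower bound of T_LBD,
`(5 + 2 θ) ((1 - θ - θ κ s₁) a 4 + (θ / s₁ + (1 + θ) κ) a 6) ≤
(5 + 2 θ + 2 n - 1 + (5 + 2 θ) κ) (C₂ T₂ + C₃ T₃)`,
where `C₂`, `C₃` are linear in `θ`: `C₂ = Σ_j (s₂ [h00]_j + (1 + θ) [h10]_j) a (4 + 2 j)`,
`C₃ = Σ_j (s₃ [h01]_j + (1 + θ) [h11]_j) a (4 + 2 j)`, `h00`, `h10`, `h01`, `h11` the four Hermite
basis polynomials (the coefficients of `x₂`, `y₂`, `x₃`, `y₃` in `Hm`) and `[h]_j` the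
coefficient of `s ^ j`. `C₂, C₃ > 0` (check at `θ = 0` and `θ = 1`). Use
`T₂ ≥ 1 + θ x₂ + (θ x₂) ^ 2 / 2 + (θ x₂) ^ 3 / 6` and the same for `T₃`
(`exp y ≥ 1 + y + y ^ 2 / 2 + y ^ 3 / 6` for all real `y`), where `x₂ ≤ log (s₂ / s₁)`,
`x₃ ≤ log (s₃ / s₁)` are rational. It remains a polynomial of degree 7 in `θ` which is linear in
`a 4, .., a 10`; all its Bernstein coefficients on `[0, 1]` are positive for the values of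
T_VAn (smallest one `0.729` for `n = 4`). The first inequality is the case `θ = 0`, or directly.
Parameters `n = 4`: `s₁ = 0.46`, `s₂ = 0.22`, `s₃ = 0.7`, `κ₀ = 0`, `x₂ = -0.738`, `x₃ = 0.419`. The
condition `1 + κ ≤ α + β` for `κ = 0` is `1 ≤ s₁ ^ θ (1 - θ + θ / s₁)` (weighted AM-GM).
Hypotheses: T_PW, T_LBD, T_VA4, T_ITG. -/
def T_NN4 : Prop := Mid 4

/-- NN5. As T_NN4: `s₁ = 2/5`, `s₂ = 1/5`, `s₃ = 16/25`, `κ₀ = 0`, `x₂ = -0.694`, `x₃ = 0.47`;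
smallest Bernstein coefficient `2.29`. Hypotheses: T_PW, T_LBD, T_VA5, T_ITG. -/
def T_NN5 : Prop := Mid 5

/-- NN6. As T_NN4: `s₁ = 1/3`, `s₂ = 0.18`, `s₃ = 0.59`, `κ₀ = 0`, `x₂ = -0.617`, `x₃ = 0.57`;
smallest Bernstein coefficient `5.09`. Hypotheses: T_PW, T_LBD, T_VA6, T_ITG. -/
def T_NN6 : Prop := Mid 6

/-- EN3. The condition at `s = 1`. Proof: `s₁ = 3/8`, `κ = 9/5 (1 - θ) ^ 2`, `t = s₁ ^ θ`. The claim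
is `t ((1 - θ) (1 + 0) + θ / s₁) - 1 ≥ κ (1 - t (1 + θ - θ s₁))`; for `θ ≤ 1/2` bound `t` from below by
a Taylor polynomial of `exp (- θ log (8/3))` of degree 5 (`0.98 ≤ log (8/3) ≤ 0.981`), for
`θ ≥ 1/2` by `t = s₁ exp ((1 - θ) log (8/3)) ≥ s₁ (1 + y + y ^ 2 / 2 + y ^ 3 / 6)`,
`y = 0.98 (1 - θ)`. The left side minus the right side is increasing in `t`. It is at least
`0.045 θ (1 - θ) ^ 2`. -/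
def T_EN3 : Prop := ∀ θ : ℝ, 0 ≤ θ → θ ≤ 1 → ∀ t κ : ℝ, t = (3 / 8 : ℝ) ^ θ →
  κ = 9 / 5 * (1 - θ) ^ 2 →
  1 + κ ≤ t * ((1 - θ) - θ * κ * (3 / 8)) + t * (θ / (3 / 8) + (1 + θ) * κ)

/-- EN7. As T_EN3 with `s₁ = 7/25`, `κ = 8/5 (1 - θ) ^ 2`, `1.272 ≤ log (25/7) ≤ 1.273`; the
difference is at least `0.41 θ (1 - θ) ^ 2`. -/
def T_EN7 : Prop := ∀ θ : ℝ, 0 ≤ θ → θ ≤ 1 → ∀ t κ : ℝ, t = (7 / 25 : ℝ) ^ θ →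
  κ = 8 / 5 * (1 - θ) ^ 2 →
  1 + κ ≤ t * ((1 - θ) - θ * κ * (7 / 25)) + t * (θ / (7 / 25) + (1 + θ) * κ)

/-- NN3. As T_NN4: `s₁ = 3/8`, `s₂ = 1/6`, `s₃ = 3/4`, `κ₀ = 9/5`, `x₂ = -0.811`, `x₃ = 0.693`, with
`a 4 = 2 a 6` (T_A46): the polynomial is `θ` times a polynomial of degree 6 (linear in
`a 6, a 8, a 10`) whose Bernstein coefficients are at least `0.58`. The condition
`1 + κ ≤ α + β` is T_EN3; `κ (1 + θ) s₁ ≤ 1 - θ` since `κ₀ s₁ (1 - θ) (1 + θ) ≤ 1`.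
Hypotheses: T_PW, T_LBD, T_VA3, T_A46, T_EN3, T_ITG. -/
def T_NN3 : Prop := Mid 3

/-- NN7. As T_NN4: `s₁ = 0.28`, `s₂ = 0.155`, `s₃ = 0.535`, `κ₀ = 8/5`, `x₂ = -0.592`,
`x₃ = 0.647`; smallest Bernstein coefficient `4.30`. The condition `1 + κ ≤ α + β` is T_EN7.
Hypotheses: T_PW, T_LBD, T_VA7, T_EN7, T_ITG. -/
def T_NN7 : Prop := Mid 7

/-! ### Assembly -/

/-- SX6. The exponent `6`. Proof: T_ALT for `p = 6`. In the second case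
`J 6 f (1 + (2 n - 1) / 5) ≤ J 4 f ≤ A F 4 ≤ A F 6 (1 + (2 n - 1) / 5)` (T_I4; T_RDI, T_BES and
`Mid`), so `J 6 f ≤ A F 6` in both cases, and `f` is a maximizer. Integrability: T_IQ.
Hypotheses: T_I4, T_IQ, T_ALT, T_RDI, T_BES. -/
def T_SX6 : Prop := ∀ (F : Type) [NormedAddCommGroup F] [InnerProductSpace ℝ F]
  [FiniteDimensional ℝ F] [MeasurableSpace F] [BorelSpace F], 3 ≤ Module.finrank ℝ F →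
  Mid (Module.finrank ℝ F) → Sharp F 6

/-- SXP. The exponents between `6` and `8`. Proof: let `p = 6 + 2 θ`, `f` from T_ALT, `M = J p f`,
`u = E f`, `|u| ≤ 1`. `M ≥ A F p` (T_IQ: the constant function). In the second case, with
`s = |u| ^ 2`, `|u| ^ (p - 2) = |u| ^ 4 s ^ θ ≤ |u| ^ 4 (α + β s) - κ |u| ^ p`, so
`M c ≤ J (p - 2) f ≤ α J 4 f + β J 6 f - κ M ≤ α A F 4 + β A F 6 - κ M`
(`c = 1 + (2 n - 1) / (p - 1)`; T_I4 and T_SX6), and by `Mid` (T_RDI, T_BES)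
`(c + κ) M ≤ (c + κ) A F p`. Hypotheses: T_I4, T_IQ, T_ALT, T_RDI, T_BES, T_SX6. -/
def T_SXP : Prop := ∀ (F : Type) [NormedAddCommGroup F] [InnerProductSpace ℝ F]
  [FiniteDimensional ℝ F] [MeasurableSpace F] [BorelSpace F], 3 ≤ Module.finrank ℝ F →
  Mid (Module.finrank ℝ F) → ∀ p : ℝ, 6 ≤ p → p ≤ 8 → Sharp F p

/-- SXA. All exponents `p ≥ 6`. Proof: induction on `k` for `p ≤ 8 + 2 k`; for `p > 8`: T_ALT; in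
the second case `M (1 + (2 n - 1) / (p - 1)) ≤ J (p - 2) f ≤ A F (p - 2) ≤
A F p (1 + (2 n - 1) / (p - 1))` (`Sharp F (p - 2)` and `Bg`, T_RDI, T_BES). Hypotheses: T_IQ,
T_ALT, T_RDI, T_BES, T_SXP. -/
def T_SXA : Prop := ∀ (F : Type) [NormedAddCommGroup F] [InnerProductSpace ℝ F]
  [FiniteDimensional ℝ F] [MeasurableSpace F] [BorelSpace F], 3 ≤ Module.finrank ℝ F →
  Mid (Module.finrank ℝ F) → Bg (Module.finrank ℝ F) → ∀ p : ℝ, 6 ≤ p → Sharp F p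

/-- FNP. From the sphere to the sections. Proof: see the end of `SPH4/FIN4.lean` (`p_FIN4`, which
uses `FIN4_ell`, valid for every exponent `p > 0`; `tINV`, `tBASIC`, `tELL tSLICE`, `tNORMS`):
`Sharp (Fd d) p` gives the hypothesis `hcore` for `f` in `L^2` (`MemLp.toLp`). -/
def T_FNP : Prop := ∀ (d : ℕ) (p : ℝ), 2 ≤ d → 4 ≤ p → Sharp (Fd d) p → 0 < A (Fd d) p →
  ∀ α γ : ℝ, α ≠ 0 → γ ≠ 0 → IsMaximizer α 0 γ p (expTau : Pt d → ℂ)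

end Pool.Agent.TRC
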