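import Pool.Agent.TRC.Targets
import Pool.Agent.TRC.Targets2
import Pool.Agent.TRC.Lem

/-!
# Project TRC: assembly
-/

set_option autoImplicit false

noncomputable section

open MeasureTheory Set Filter
open scoped ENNReal RealInnerProductSpace Topology

namespace Pool.Agent.TRC

open Pool.Agent.ExpMax

theorem finrank_Fd (d : ℕ) : Module.finrank ℝ (Fd d) = d + 1 := by
  have h : Module.finrank ℝ (Fd d) = Module.finrank ℝ (ℝ × Ed d) :=
    LinearEquiv.finrank_eq (WithLp.linearEquiv 2 ℝ (ℝ × Ed d))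
  rw [h, Module.finrank_prod, Module.finrank_self, finrank_euclideanSpace_fin]
  ring

/-- DRV from its hypotheses. -/
theorem p_DRV (hIQ : T_IQ) (hORB : T_ORB) (hEUL : T_EUL) (hLIM : T_LIM) : T_DRV := by
  intro F _ _ _ _ _ hn p f hp hf hR e v c he hev
  obtain ⟨g, s, hg, hs, hs0, hg1, hg2⟩ := hORB F hn p f hf hR e v c he hev
  obtain ⟨-, -, hA, o, ho, hJo⟩ := hIQ F hn p (by linarith)
  have hJ : 0 < J p f := by
    have h1 := hf.max o
    rw [hJo, ho, Real.one_rpow, mul_one] at h1
    linarith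
  exact hLIM F hn p f g s _ hp hJ hf.norm_one hR (hEUL F hn p f (by linarith) hf hR)
    (fun k => ⟨(hg k).1.norm_one, (hg k).2.1,
      hEUL F hn p (g k) (by linarith) (hg k).1 (hg k).2.1, (hg k).2.2⟩) hs hs0 hg1 hg2

theorem J_translate {F : Type} [NormedAddCommGroup F] [InnerProductSpace ℝ F]
    [FiniteDimensional ℝ F] [MeasurableSpace F] [BorelSpace F] (q : ℝ) (f g : H F) (b : F)
    (h : ∀ y, E g y = E f (y + b)) : J q g = J q f := by
  unfold J
  simp_rw [h]
  exact integral_add_right_eq_self (fun y => ‖E f y‖ ^ q) b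

/-- ALT from its hypotheses. -/
theorem p_ALT (hIQ : T_IQ) (hEXI : T_EXI) (hSYR : T_SYR) (hBAR : T_BAR) (hMOD : T_MOD)
    (hDIF : T_DIF) (hRDF : T_RDF) (hGEO : T_GEO) (hTRA : T_TRA) : T_ALT := by
  intro F _ _ _ _ _ hn p hp
  have h1n : 1 ≤ Module.finrank ℝ F := by omega
  obtain ⟨f0, hf0⟩ := hEXI F hn p (by linarith)
  obtain ⟨f1, hf1, hR1, -⟩ := hSYR F hn p f0 (by linarith) hf0
  have hne : f1 ≠ 0 := by
    intro h
    have := hf1.norm_one
    rw [h, norm_zero] at this
    norm_num at this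
  obtain ⟨b, hb⟩ := hBAR F hn f1 hne hR1
  obtain ⟨f, hfn, hfE⟩ := (hMOD F h1n f1).1 b
  have hJ : ∀ q, J q f = J q f1 := fun q => J_translate q f1 f b hfE
  have hR : Rl f := fun y => by rw [hfE]; exact hR1 _
  have hf : IsMx p f := ⟨by rw [hfn]; exact hf1.norm_one, fun g => by rw [hJ]; exact hf1.max g⟩
  have hC : Cen (E f) := by
    have : E f = fun y => E f1 (y + b) := funext hfE
    rw [this]
    exact hb
  refine ⟨f, hf, ?_⟩
  by_cases hRad : Rad (E f)
  · left
    have h2 := hRDF F (by omega) f hRad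
    have h3 : ‖E f 0‖ ≤ 1 := by
      have := norm_E_le h1n f 0
      rwa [hf.norm_one] at this
    have h4 : J p f = A F p * ‖E f 0‖ ^ p := by
      unfold J A
      rw [← integral_mul_const]
      congr 1
      funext y
      rw [h2 y, norm_mul, Complex.norm_real, Real.norm_eq_abs,
        Real.mul_rpow (abs_nonneg _) (norm_nonneg _)]
    rw [h4]
    have h5 : ‖E f 0‖ ^ p ≤ 1 := Real.rpow_le_one (norm_nonneg _) h3 (by linarith)
    have h6 : 0 < A F p := (hIQ F hn p (by linarith)).2.2.1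
    nlinarith
  · right
    obtain ⟨e, he, hinj⟩ := hGEO F (by omega) (E f) (hDIF F h1n f) hR hC hRad
    exact hTRA F hn p f hp hf hR e he hinj

theorem sharp_of {F : Type} [NormedAddCommGroup F] [InnerProductSpace ℝ F]
    [FiniteDimensional ℝ F] [MeasurableSpace F] [BorelSpace F] (hIQ : T_IQ)
    (hn : 3 ≤ Module.finrank ℝ F) {p : ℝ} (hp : 4 ≤ p) {f : H F} (hf : IsMx p f)
    (h : J p f ≤ A F p) : Sharp F p := by
  intro g
  refine ⟨((hIQ F hn p hp).1 g).1, (hf.max g).trans ?_⟩
  exact mul_le_mul_of_nonneg_right h (Real.rpow_nonneg (norm_nonneg _) _)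

/-- Transfer of the one dimensional inequalities. -/
theorem transfer {F : Type} [NormedAddCommGroup F] [InnerProductSpace ℝ F]
    [FiniteDimensional ℝ F] [MeasurableSpace F] [BorelSpace F] (hBES : T_BES) (hRDI : T_RDI)
    (hn : 3 ≤ Module.finrank ℝ F) : ∃ (ω : ℝ) (φ φ' : ℝ → ℝ), 0 < ω ∧
      Bes (Module.finrank ℝ F) φ φ' ∧
      ∀ q : ℝ, 0 < q → A F q = ω * a (Module.finrank ℝ F) φ q := by
  have h1n : 2 ≤ Module.finrank ℝ F := by omega
  have hnt : Nontrivial F := Module.nontrivial_of_finrank_pos (R := ℝ) (by omega)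
  obtain ⟨e, he⟩ := exists_norm_eq F (zero_le_one (α := ℝ))
  obtain ⟨φ', hφ⟩ := hBES F h1n e he
  obtain ⟨ω, hω, h⟩ := hRDI F h1n
  exact ⟨ω, fun r => u0 (r • e), φ', hω, hφ, fun q hq => h e he q hq⟩

theorem p_SX6 (hI4 : T_I4) (hIQ : T_IQ) (hALT : T_ALT) (hRDI : T_RDI) (hBES : T_BES) :
    T_SX6 := by
  intro F _ _ _ _ _ hn hM
  obtain ⟨f, hf, h⟩ := hALT F hn 6 le_rfl
  refine sharp_of hIQ hn (by norm_num) hf ?_
  rcases h with h | h
  · exact h
  · obtain ⟨ω, φ, φ', hω, hB, hA⟩ := transfer hBES hRDI hn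
    obtain ⟨h1, -⟩ := hM φ φ' hB
    have h4 : J 4 f ≤ A F 4 := by
      have := ((hI4 F hn).1 f).2
      rwa [hf.norm_one, Real.one_rpow, mul_one] at this
    have e1 : (6 : ℝ) - 2 = 4 := by norm_num
    have e2 : (6 : ℝ) - 1 = 5 := by norm_num
    rw [e1, e2] at h
    have h5 : A F 4 ≤ A F 6 * (1 + (2 * (Module.finrank ℝ F : ℝ) - 1) / 5) := by
      rw [hA 4 (by norm_num), hA 6 (by norm_num), mul_assoc]
      exact mul_le_mul_of_nonneg_left h1 hω.le
    have hc : 0 < 1 + (2 * (Module.finrank ℝ F : ℝ) - 1) / 5 := by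
      have : (3 : ℝ) ≤ Module.finrank ℝ F := by exact_mod_cast hn
      have h6 : 0 ≤ (2 * (Module.finrank ℝ F : ℝ) - 1) / 5 := by
        apply div_nonneg <;> linarith
      linarith
    have h7 := (h.trans h4).trans h5
    exact le_of_mul_le_mul_right h7 hc

theorem p_SXP (hI4 : T_I4) (hIQ : T_IQ) (hALT : T_ALT) (hRDI : T_RDI) (hBES : T_BES)
    (hSX6 : T_SX6) : T_SXP := by
  intro F _ _ _ _ _ hn hM p hp6 hp8
  have h1n : 1 ≤ Module.finrank ℝ F := by omega
  obtain ⟨f, hf, h⟩ := hALT F hn p hp6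
  refine sharp_of hIQ hn (by linarith) hf ?_
  rcases h with h | h
  · exact h
  · obtain ⟨ω, φ, φ', hω, hB, hA⟩ := transfer hBES hRDI hn
    obtain ⟨-, h1⟩ := hM φ φ' hB
    obtain ⟨κ, α, β, hκ, hα, hβ, hpt, hin⟩ := h1 ((p - 6) / 2) (by linarith) (by linarith)
    have e0 : 6 + 2 * ((p - 6) / 2) = p := by ring
    have e1 : 5 + 2 * ((p - 6) / 2) = p - 1 := by ring
    rw [e0, e1] at hin
    have h4 : J 4 f ≤ A F 4 := by
      have := ((hI4 F hn).1 f).2
      rwa [hf.norm_one, Real.one_rpow, mul_one] at this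
    have h6 : J 6 f ≤ A F 6 := by
      have := (hSX6 F hn hM f).2
      rwa [hf.norm_one, Real.one_rpow, mul_one] at this
    have hle : ∀ y, ‖E f y‖ ≤ 1 := fun y => by
      have := norm_E_le h1n f y
      rwa [hf.norm_one] at this
    -- the pointwise inequality, integrated
    have hI : ∀ q : ℝ, 4 ≤ q → Integrable fun y => ‖E f y‖ ^ q := fun q hq =>
      ((hIQ F hn q hq).1 f).1
    have hJ : J (p - 2) f + κ * J p f ≤ α * J 4 f + β * J 6 f := by
      unfold J
      rw [← integral_const_mul, ← integral_const_mul, ← integral_const_mul,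
        ← integral_add (hI _ (by linarith)) ((hI _ (by linarith)).const_mul _),
        ← integral_add ((hI _ (by norm_num)).const_mul _) ((hI _ (by norm_num)).const_mul _)]
      refine integral_mono ((hI _ (by linarith)).add ((hI _ (by linarith)).const_mul _))
        (((hI _ (by norm_num)).const_mul _).add ((hI _ (by norm_num)).const_mul _)) fun y => ?_
      simp only
      rcases (norm_nonneg (E f y)).eq_or_lt with h0 | h0
      · rw [← h0, Real.zero_rpow (by linarith), Real.zero_rpow (by linarith),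
          Real.zero_rpow (by norm_num), Real.zero_rpow (by norm_num)]
        simp
      · set x := ‖E f y‖ with hx
        have hs0 : 0 ≤ x ^ 2 := sq_nonneg _
        have hs1 : x ^ 2 ≤ 1 := pow_le_one₀ h0.le (hle y)
        have h7 := hpt (x ^ 2) hs0 hs1
        have e2 : (x ^ 2) ^ ((p - 6) / 2) = x ^ (p - 6) := by
          rw [← Real.rpow_natCast x 2, ← Real.rpow_mul h0.le]
          congr 1
          push_cast
          ring
        rw [e2] at h7
        have e3 : x ^ (p - 2) = x ^ (4 : ℝ) * x ^ (p - 6) := by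
          rw [← Real.rpow_add h0]
          congr 1
          ring
        have e4 : x ^ p = x ^ (4 : ℝ) * x ^ (p - 6) * x ^ 2 := by
          rw [← Real.rpow_natCast x 2, ← Real.rpow_add h0, ← Real.rpow_add h0]
          congr 1
          push_cast
          ring
        have e5 : x ^ (6 : ℝ) = x ^ (4 : ℝ) * x ^ 2 := by
          rw [← Real.rpow_natCast x 2, ← Real.rpow_add h0]
          congr 1
          norm_num
        rw [e3, e4, e5]
        have h8 : 0 ≤ x ^ (4 : ℝ) := Real.rpow_nonneg h0.le _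
        have h9 := mul_le_mul_of_nonneg_left h7 h8
        nlinarith [h9]
    obtain ⟨-, -, -, o, ho, hJo⟩ := hIQ F hn p (by linarith)
    have hin' : α * A F 4 + β * A F 6 ≤
        (1 + (2 * (Module.finrank ℝ F : ℝ) - 1) / (p - 1) + κ) * A F p := by
      rw [hA 4 (by norm_num), hA 6 (by norm_num), hA p (by linarith)]
      nlinarith [mul_le_mul_of_nonneg_left hin hω.le]
    have hc : 0 < 1 + (2 * (Module.finrank ℝ F : ℝ) - 1) / (p - 1) + κ := by
      have : (3 : ℝ) ≤ Module.finrank ℝ F := by exact_mod_cast hn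
      have h6 : 0 ≤ (2 * (Module.finrank ℝ F : ℝ) - 1) / (p - 1) := by
        apply div_nonneg <;> linarith
      linarith
    have h10 : J p f * (1 + (2 * (Module.finrank ℝ F : ℝ) - 1) / (p - 1) + κ) ≤
        A F p * (1 + (2 * (Module.finrank ℝ F : ℝ) - 1) / (p - 1) + κ) := by
      have h11 := mul_le_mul_of_nonneg_left h4 hα
      have h12 := mul_le_mul_of_nonneg_left h6 hβ
      nlinarith
    exact le_of_mul_le_mul_right h10 hc

theorem p_SXA (hIQ : T_IQ) (hALT : T_ALT) (hRDI : T_RDI) (hBES : T_BES) (hSXP : T_SXP) :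
    T_SXA := by
  intro F _ _ _ _ _ hn hM hG
  have key : ∀ k : ℕ, ∀ p : ℝ, 6 ≤ p → p ≤ 8 + 2 * k → Sharp F p := by
    intro k
    induction k with
    | zero =>
      intro p hp hp8
      exact hSXP F hn hM p hp (by simpa using hp8)
    | succ k ih =>
      intro p hp hpk
      by_cases h8 : p ≤ 8
      · exact hSXP F hn hM p hp h8
      · push Not at h8
        obtain ⟨f, hf, h⟩ := hALT F hn p hp
        refine sharp_of hIQ hn (by linarith) hf ?_
        rcases h with h | h
        · exact h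
        · obtain ⟨ω, φ, φ', hω, hB, hA⟩ := transfer hBES hRDI hn
          have h1 := hG φ φ' hB p h8.le
          have h2 : J (p - 2) f ≤ A F (p - 2) := by
            have := (ih (p - 2) (by linarith) (by push_cast at hpk; linarith) f).2
            rwa [hf.norm_one, Real.one_rpow, mul_one] at this
          have h5 : A F (p - 2) ≤
              A F p * (1 + (2 * (Module.finrank ℝ F : ℝ) - 1) / (p - 1)) := by
            rw [hA (p - 2) (by linarith), hA p (by linarith), mul_assoc]
            exact mul_le_mul_of_nonneg_left h1 hω.le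
          have hc : 0 < 1 + (2 * (Module.finrank ℝ F : ℝ) - 1) / (p - 1) := by
            have : (3 : ℝ) ≤ Module.finrank ℝ F := by exact_mod_cast hn
            have h6 : 0 ≤ (2 * (Module.finrank ℝ F : ℝ) - 1) / (p - 1) := by
              apply div_nonneg <;> linarith
            linarith
          exact le_of_mul_le_mul_right ((h.trans h2).trans h5) hc
  intro p hp
  obtain ⟨k, hk⟩ := exists_nat_ge p
  exact key k p hp (by linarith)

/-- The theorem for the round sections, from the targets. -/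
theorem main_of (hI4 : T_I4) (hIQ : T_IQ) (hALT : T_ALT) (hRDI : T_RDI) (hBES : T_BES)
    (hM : ∀ n, 3 ≤ n → n ≤ 7 → Mid n) (hG : ∀ n, 3 ≤ n → n ≤ 7 → Bg n) (hFNP : T_FNP)
    (d : ℕ) (hd : 2 ≤ d) (hd6 : d ≤ 6) (p : ℝ) (hp : 6 ≤ p) (α γ : ℝ) (hα : α ≠ 0)
    (hγ : γ ≠ 0) : IsMaximizer α 0 γ p (expTau : Pt d → ℂ) := by
  have hn : 3 ≤ Module.finrank ℝ (Fd d) := by rw [finrank_Fd]; omega
  have hn7 : Module.finrank ℝ (Fd d) ≤ 7 := by rw [finrank_Fd]; omega
  have hS6 := p_SX6 hI4 hIQ hALT hRDI hBES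
  have hSP := p_SXP hI4 hIQ hALT hRDI hBES hS6
  have hSA := p_SXA hIQ hALT hRDI hBES hSP
  have hSh : Sharp (Fd d) p := hSA (Fd d) hn (hM _ hn hn7) (hG _ hn hn7) p hp
  exact hFNP d p hd (by linarith) hSh (hIQ (Fd d) hn p (by linarith)).2.2.1 α γ hα hγ

end Pool.Agent.TRC
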