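import Pool.Agent.TRC.Targets2

/-!
# Project TRC: the target A46 (an exact relation between two moments, `n = 3`)
-/

set_option autoImplicit false

noncomputable section

open MeasureTheory Set Filter Pool.Agent.ExpMax
open scoped Topology

namespace Pool.Agent.TRC

namespace A46_

theorem W3 (k : ℕ) : W 3 k = ((2 * k + 1).factorial : ℝ) := by
  induction k with
  | zero => simp [W]
  | succ k ih =>
    have h1 : W 3 (k + 1) = W 3 k * ((2 * (k : ℝ) + 2) * (((3 : ℕ) : ℝ) + 2 * k)) := by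
      unfold W
      rw [Finset.prod_range_succ]
    have h2 : ((2 * (k + 1) + 1).factorial : ℝ) =
        (2 * (k : ℝ) + 3) * ((2 * (k : ℝ) + 2) * ((2 * k + 1).factorial : ℝ)) := by
      have h3 : (2 * (k + 1) + 1).factorial =
          (2 * k + 1 + 1 + 1) * ((2 * k + 1 + 1) * (2 * k + 1).factorial) := by
        rw [show 2 * (k + 1) + 1 = 2 * k + 1 + 1 + 1 by ring, Nat.factorial_succ (2 * k + 1 + 1),
          Nat.factorial_succ (2 * k + 1)]
      rw [h3]
      push_cast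
      ring
    rw [h1, ih, h2]
    push_cast
    ring

theorem phi_eq {φ φ' : ℝ → ℝ} (h : Bes 3 φ φ') {r : ℝ} (hr : 0 < r) :
    φ r = Real.sin r / r := by
  have h1 : Tendsto (fun N : ℕ => r * P 3 N r) atTop (𝓝 (Real.sin r)) := by
    have hs := (Real.hasSum_sin r).tendsto_sum_nat
    have hs' := (tendsto_add_atTop_iff_nat 1).2 hs
    refine hs'.congr fun N => ?_
    unfold P
    rw [Finset.mul_sum]
    refine Finset.sum_congr rfl fun k _ => ?_
    rw [W3]
    ring
  have h2 : Tendsto (fun N : ℕ => |r| ^ (2 * N + 2) / W 3 (N + 1)) atTop (𝓝 0) := by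
    have h3 := (FloorSemiring.tendsto_pow_div_factorial_atTop |r|)
    have h4 : Tendsto (fun N : ℕ => 2 * N + 3) atTop atTop :=
      tendsto_atTop_mono (fun N => by simp only [id]; omega) tendsto_id
    have h5 := (h3.comp h4).const_mul (|r|⁻¹)
    rw [mul_zero] at h5
    refine h5.congr fun N => ?_
    have hr' : |r| ≠ 0 := abs_ne_zero.2 hr.ne'
    rw [W3]
    have e : 2 * (N + 1) + 1 = 2 * N + 3 := by ring
    rw [e]
    simp only [Function.comp]
    rw [show 2 * N + 3 = (2 * N + 2) + 1 by ring, pow_succ]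
    field_simp
  have h6 : Tendsto (fun N : ℕ => P 3 N r) atTop (𝓝 (φ r)) := by
    rw [tendsto_iff_dist_tendsto_zero]
    refine squeeze_zero (fun _ => dist_nonneg) (fun N => ?_) h2
    rw [Real.dist_eq, abs_sub_comm]
    exact h.tay N r
  have h7 := tendsto_nhds_unique h1 (h6.const_mul r)
  rw [h7]
  field_simp

/-- an integrability criterion -/
theorem io {g : ℝ → ℝ} (hg : Measurable g) {D : ℝ}
    (h0 : ∀ r, 0 < r → r ≤ 1 → |g r| ≤ D) (h1 : ∀ r, 1 ≤ r → |g r| ≤ D * r ^ (-2 : ℝ)) :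
    IntegrableOn g (Ioi 0) := by
  have h2 : (Ioi (0 : ℝ)) = Ioc 0 1 ∪ Ioi 1 := (Ioc_union_Ioi_eq_Ioi zero_le_one).symm
  rw [h2]
  refine IntegrableOn.union ?_ ?_
  · have hc : IntegrableOn (fun _ : ℝ => D) (Ioc (0 : ℝ) 1) :=
      integrableOn_const (by simp)
    refine Integrable.mono' hc hg.aestronglyMeasurable ?_
    refine (ae_restrict_iff' measurableSet_Ioc).2 (Eventually.of_forall fun r hr => ?_)
    rw [Real.norm_eq_abs]
    exact h0 r hr.1 hr.2
  · have hc : IntegrableOn (fun r : ℝ => D * r ^ (-2 : ℝ)) (Ioi 1) :=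
      (integrableOn_Ioi_rpow_of_lt (by norm_num) zero_lt_one).const_mul D
    refine Integrable.mono' hc hg.aestronglyMeasurable ?_
    refine (ae_restrict_iff' measurableSet_Ioi).2 (Eventually.of_forall fun r hr => ?_)
    rw [Real.norm_eq_abs]
    exact h1 r (le_of_lt hr)

theorem rm2 {r : ℝ} (hr : 0 < r) : r ^ (-2 : ℝ) = (r ^ 2)⁻¹ := by
  rw [Real.rpow_neg hr.le]
  norm_num

/-- the function `(1 - cos r) / r^2` -/
def hh (r : ℝ) : ℝ := (1 - Real.cos r) / r ^ 2

theorem hh_int : IntegrableOn hh (Ioi 0) := by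
  have hm : Measurable hh := by
    unfold hh
    fun_prop
  refine io hm (D := 2) (fun r hr _ => ?_) (fun r hr => ?_)
  · unfold hh
    have h1 : 1 - r ^ 2 / 2 ≤ Real.cos r := Real.one_sub_sq_div_two_le_cos
    have h2 := Real.cos_le_one r
    rw [abs_of_nonneg (by apply div_nonneg <;> [linarith; positivity]), div_le_iff₀ (by positivity)]
    nlinarith [sq_nonneg r]
  · have hr0 : 0 < r := by linarith
    unfold hh
    rw [rm2 hr0, abs_div, abs_of_pos (show (0 : ℝ) < r ^ 2 by positivity), div_eq_mul_inv]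
    refine mul_le_mul_of_nonneg_right ?_ (by positivity)
    have h1 := Real.neg_one_le_cos r
    have h2 := Real.cos_le_one r
    rw [abs_le]
    constructor <;> linarith

/-- the scaled functions -/
theorem hc_int (l : ℝ) (hl : 0 < l) :
    IntegrableOn (fun r => (1 - Real.cos (l * r)) / r ^ 2) (Ioi 0) ∧
      ∫ r in Ioi (0 : ℝ), (1 - Real.cos (l * r)) / r ^ 2 = l * ∫ r in Ioi (0 : ℝ), hh r := by
  have e : (fun r => (1 - Real.cos (l * r)) / r ^ 2) = fun r => l ^ 2 * hh (l * r) := by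
    funext r
    unfold hh
    by_cases hr : r = 0
    · simp [hr]
    · field_simp
  rw [e]
  constructor
  · have h1 := (integrableOn_Ioi_comp_mul_left_iff hh 0 hl).2 (by rw [mul_zero]; exact hh_int)
    exact h1.const_mul _
  · rw [integral_const_mul, integral_comp_mul_left_Ioi hh 0 hl, mul_zero, smul_eq_mul]
    field_simp

/-- the combination of squares -/
def GG (r : ℝ) : ℝ := (12 * Real.sin r ^ 6 - 9 * Real.sin r ^ 4) / r ^ 2

theorem trig (r : ℝ) : 12 * Real.sin r ^ 6 - 9 * Real.sin r ^ 4 =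
    9 / 8 * (1 - Real.cos (2 * r)) - 9 / 8 * (1 - Real.cos (4 * r)) +
      3 / 8 * (1 - Real.cos (6 * r)) := by
  have h2 : Real.cos (2 * r) = 1 - 2 * Real.sin r ^ 2 := by
    rw [Real.cos_two_mul, Real.cos_sq']
    ring
  have h4 : Real.cos (4 * r) = 2 * (1 - 2 * Real.sin r ^ 2) ^ 2 - 1 := by
    rw [show 4 * r = 2 * (2 * r) by ring, Real.cos_two_mul, h2]
  have h6 : Real.cos (6 * r) = 4 * (1 - 2 * Real.sin r ^ 2) ^ 3 - 3 * (1 - 2 * Real.sin r ^ 2) := by
    rw [show 6 * r = 3 * (2 * r) by ring, Real.cos_three_mul, h2]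
  rw [h2, h4, h6]
  ring

theorem GG_int : IntegrableOn GG (Ioi 0) ∧ ∫ r in Ioi (0 : ℝ), GG r = 0 := by
  obtain ⟨i2, e2⟩ := hc_int 2 (by norm_num)
  obtain ⟨i4, e4⟩ := hc_int 4 (by norm_num)
  obtain ⟨i6, e6⟩ := hc_int 6 (by norm_num)
  have e : GG = fun r => (9 / 8 * ((1 - Real.cos (2 * r)) / r ^ 2) -
      9 / 8 * ((1 - Real.cos (4 * r)) / r ^ 2)) + 3 / 8 * ((1 - Real.cos (6 * r)) / r ^ 2) := by
    funext r
    unfold GG
    rw [trig]
    ring
  have j2 : IntegrableOn (fun r => 9 / 8 * ((1 - Real.cos (2 * r)) / r ^ 2)) (Ioi (0 : ℝ)) :=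
    i2.const_mul _
  have j4 : IntegrableOn (fun r => 9 / 8 * ((1 - Real.cos (4 * r)) / r ^ 2)) (Ioi (0 : ℝ)) :=
    i4.const_mul _
  have j6 : IntegrableOn (fun r => 3 / 8 * ((1 - Real.cos (6 * r)) / r ^ 2)) (Ioi (0 : ℝ)) :=
    i6.const_mul _
  have j24 : IntegrableOn (fun r => 9 / 8 * ((1 - Real.cos (2 * r)) / r ^ 2) -
      9 / 8 * ((1 - Real.cos (4 * r)) / r ^ 2)) (Ioi (0 : ℝ)) := j2.sub j4
  rw [e]
  constructor
  · exact j24.add j6
  · have k1 := integral_add j24 j6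
    have k2 := integral_sub j2 j4
    rw [integral_const_mul, integral_const_mul, e2, e4] at k2
    rw [integral_const_mul, e6, k2] at k1
    rw [k1]
    ring

/-- the two integrands -/
def s4 (r : ℝ) : ℝ := Real.sin r ^ 4 / r ^ 2

/-- the two integrands -/
def s6 (r : ℝ) : ℝ := Real.sin r ^ 6 / r ^ 4

theorem abs_sin_le {r : ℝ} (hr : 0 < r) : |Real.sin r| ≤ r := by
  have := Real.abs_sin_le_abs (x := r)
  rwa [abs_of_pos hr] at this

theorem s4_int : IntegrableOn s4 (Ioi 0) := by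
  have hm : Measurable s4 := by
    unfold s4
    fun_prop
  refine io hm (D := 1) (fun r hr h1 => ?_) (fun r hr => ?_)
  · unfold s4
    rw [abs_div, abs_pow, abs_of_pos (show (0 : ℝ) < r ^ 2 by positivity),
      div_le_iff₀ (by positivity)]
    have h2 := abs_sin_le hr
    have h3 : |Real.sin r| ^ 4 ≤ r ^ 4 := pow_le_pow_left₀ (abs_nonneg _) h2 4
    nlinarith [pow_le_one₀ hr.le h1 (n := 2), sq_nonneg r]
  · have hr0 : 0 < r := by linarith
    unfold s4
    rw [rm2 hr0, abs_div, abs_pow, abs_of_pos (show (0 : ℝ) < r ^ 2 by positivity), div_eq_mul_inv]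
    refine mul_le_mul_of_nonneg_right ?_ (by positivity)
    exact pow_le_one₀ (abs_nonneg _) (Real.abs_sin_le_one r)

theorem s6_int : IntegrableOn s6 (Ioi 0) := by
  have hm : Measurable s6 := by
    unfold s6
    fun_prop
  refine io hm (D := 1) (fun r hr h1 => ?_) (fun r hr => ?_)
  · unfold s6
    rw [abs_div, abs_pow, abs_of_pos (show (0 : ℝ) < r ^ 4 by positivity),
      div_le_iff₀ (by positivity)]
    have h2 := abs_sin_le hr
    have h3 : |Real.sin r| ^ 6 ≤ r ^ 6 := pow_le_pow_left₀ (abs_nonneg _) h2 6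
    nlinarith [pow_le_one₀ hr.le h1 (n := 2), pow_nonneg hr.le 4]
  · have hr0 : 0 < r := by linarith
    unfold s6
    rw [rm2 hr0, abs_div, abs_pow, abs_of_pos (show (0 : ℝ) < r ^ 4 by positivity), div_eq_mul_inv]
    have h1 : |Real.sin r| ^ 6 ≤ 1 := pow_le_one₀ (abs_nonneg _) (Real.abs_sin_le_one r)
    have h2 : (r ^ 4)⁻¹ ≤ (r ^ 2)⁻¹ :=
      inv_anti₀ (by positivity) (pow_le_pow_right₀ hr (by norm_num))
    exact mul_le_mul h1 h2 (by positivity) (by norm_num)

/-- the boundary term -/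
def bb (r : ℝ) : ℝ := 2 / 3 * (Real.sin r ^ 6 / r ^ 3) + 2 * (Real.sin r ^ 5 * Real.cos r / r ^ 2)

theorem bb_der {r : ℝ} (hr : 0 < r) : HasDerivAt bb (s4 r - 2 * s6 r - GG r) r := by
  have h0 : r ≠ 0 := hr.ne'
  have hs := Real.hasDerivAt_sin r
  have hc := Real.hasDerivAt_cos r
  have h1 := ((hs.pow 6).div (hasDerivAt_pow 3 r) (pow_ne_zero 3 h0)).const_mul (2 / 3 : ℝ)
  have h2 := (((hs.pow 5).mul hc).div (hasDerivAt_pow 2 r) (pow_ne_zero 2 h0)).const_mul (2 : ℝ)
  have h3 := h1.add h2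
  refine h3.congr_deriv ?_
  unfold s4 s6 GG
  have hcs : Real.cos r ^ 2 = 1 - Real.sin r ^ 2 := Real.cos_sq' r
  simp only [Pi.pow_apply, Pi.mul_apply]
  push_cast
  field_simp
  ring_nf
  rw [hcs]
  ring

theorem bb_bd {r : ℝ} (hr : 0 < r) : |bb r| ≤ 3 * r ^ 3 ∧ |bb r| ≤ 3 * (1 / r ^ 2 + 1 / r ^ 3) := by
  have hs := abs_sin_le hr
  have hs1 := Real.abs_sin_le_one r
  have hc1 := Real.abs_cos_le_one r
  have e : |bb r| ≤ 2 / 3 * (|Real.sin r| ^ 6 / r ^ 3) + 2 * (|Real.sin r| ^ 5 / r ^ 2) := by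
    unfold bb
    refine (abs_add_le _ _).trans ?_
    have h5 : |Real.sin r| ^ 5 * |Real.cos r| ≤ |Real.sin r| ^ 5 :=
      mul_le_of_le_one_right (by positivity) hc1
    have ha : |2 / 3 * (Real.sin r ^ 6 / r ^ 3)| = 2 / 3 * (|Real.sin r| ^ 6 / r ^ 3) := by
      rw [abs_mul, abs_of_pos (show (0 : ℝ) < 2 / 3 by norm_num), abs_div, abs_pow,
        abs_of_pos (show (0 : ℝ) < r ^ 3 by positivity)]
    have hb : |2 * (Real.sin r ^ 5 * Real.cos r / r ^ 2)| =
        2 * (|Real.sin r| ^ 5 * |Real.cos r| / r ^ 2) := by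
      rw [abs_mul, abs_of_pos (show (0 : ℝ) < 2 by norm_num), abs_div, abs_mul, abs_pow,
        abs_of_pos (show (0 : ℝ) < r ^ 2 by positivity)]
    rw [ha, hb]
    gcongr
  constructor
  · refine e.trans ?_
    have h6 : |Real.sin r| ^ 6 / r ^ 3 ≤ r ^ 6 / r ^ 3 := by gcongr
    have h5 : |Real.sin r| ^ 5 / r ^ 2 ≤ r ^ 5 / r ^ 2 := by gcongr
    have e6 : r ^ 6 / r ^ 3 = r ^ 3 := by field_simp
    have e5 : r ^ 5 / r ^ 2 = r ^ 3 := by field_simp
    have h3 : 0 ≤ r ^ 3 := by positivity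
    rw [e6] at h6
    rw [e5] at h5
    linarith
  · refine e.trans ?_
    have h6 : |Real.sin r| ^ 6 / r ^ 3 ≤ 1 / r ^ 3 := by
      gcongr
      exact pow_le_one₀ (abs_nonneg _) hs1
    have h5 : |Real.sin r| ^ 5 / r ^ 2 ≤ 1 / r ^ 2 := by
      gcongr
      exact pow_le_one₀ (abs_nonneg _) hs1
    have h2 : 0 ≤ 1 / r ^ 2 := by positivity
    have h3 : 0 ≤ 1 / r ^ 3 := by positivity
    linarith

theorem bb_zero : bb 0 = 0 := by
  simp [bb]

theorem main_int : ∫ r in Ioi (0 : ℝ), (s4 r - 2 * s6 r - GG r) = 0 := by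
  have hc : ContinuousWithinAt bb (Ici 0) 0 := by
    have h1 : Tendsto (fun r : ℝ => 3 * |r| ^ 3) (𝓝[Ici 0] 0) (𝓝 0) := by
      have h2 : Continuous fun r : ℝ => 3 * |r| ^ 3 := by fun_prop
      have h3 := (h2.tendsto 0).mono_left (nhdsWithin_le_nhds (s := Ici (0 : ℝ)))
      simpa using h3
    have h4 : Tendsto bb (𝓝[Ici 0] 0) (𝓝 0) := by
      refine squeeze_zero_norm' ?_ h1
      filter_upwards [self_mem_nhdsWithin] with r hr
      rw [Real.norm_eq_abs]
      rcases eq_or_lt_of_le (show (0 : ℝ) ≤ r from hr) with h0 | h0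
      · rw [← h0, bb_zero]
        simp
      · rw [abs_of_pos h0]
        exact (bb_bd h0).1
    unfold ContinuousWithinAt
    rw [bb_zero]
    exact h4
  have hi : IntegrableOn (fun r => s4 r - 2 * s6 r - GG r) (Ioi 0) :=
    (s4_int.sub (s6_int.const_mul 2)).sub GG_int.1
  have ht : Tendsto bb atTop (𝓝 0) := by
    have h1 : Tendsto (fun r : ℝ => 3 * (1 / r ^ 2 + 1 / r ^ 3)) atTop (𝓝 0) := by
      have h2 : Tendsto (fun r : ℝ => 1 / r ^ 2) atTop (𝓝 0) := by
        simp_rw [one_div]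
        exact tendsto_inv_atTop_zero.comp (tendsto_pow_atTop (by norm_num))
      have h3 : Tendsto (fun r : ℝ => 1 / r ^ 3) atTop (𝓝 0) := by
        simp_rw [one_div]
        exact tendsto_inv_atTop_zero.comp (tendsto_pow_atTop (by norm_num))
      simpa using (h2.add h3).const_mul 3
    refine squeeze_zero_norm' ?_ h1
    filter_upwards [eventually_gt_atTop 0] with r hr
    rw [Real.norm_eq_abs]
    exact (bb_bd hr).2
  have h := integral_Ioi_of_hasDerivAt_of_tendsto hc (fun x hx => bb_der hx) hi ht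
  rw [h, bb_zero, sub_zero]

end A46_

theorem p_A46 : T_A46 := by
  intro φ φ' h
  have e4 : a 3 φ 4 = ∫ r in Ioi (0 : ℝ), A46_.s4 r := by
    unfold a
    refine setIntegral_congr_fun measurableSet_Ioi fun r hr => ?_
    have hr' : (0 : ℝ) < r := hr
    have h1 : |φ r| ^ (4 : ℝ) = φ r ^ 4 := by
      rw [show (4 : ℝ) = ((4 : ℕ) : ℝ) by norm_num, Real.rpow_natCast, ← abs_pow,
        abs_of_nonneg (by positivity)]
    show |φ r| ^ (4 : ℝ) * r ^ (3 - 1) = A46_.s4 r
    rw [h1, A46_.phi_eq h hr']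
    unfold A46_.s4
    field_simp
  have e6 : a 3 φ 6 = ∫ r in Ioi (0 : ℝ), A46_.s6 r := by
    unfold a
    refine setIntegral_congr_fun measurableSet_Ioi fun r hr => ?_
    have hr' : (0 : ℝ) < r := hr
    have h1 : |φ r| ^ (6 : ℝ) = φ r ^ 6 := by
      rw [show (6 : ℝ) = ((6 : ℕ) : ℝ) by norm_num, Real.rpow_natCast, ← abs_pow,
        abs_of_nonneg (by positivity)]
    show |φ r| ^ (6 : ℝ) * r ^ (3 - 1) = A46_.s6 r
    rw [h1, A46_.phi_eq h hr']
    unfold A46_.s6
    field_simp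
  have hm := A46_.main_int
  have j6 : IntegrableOn (fun r => 2 * A46_.s6 r) (Ioi (0 : ℝ)) := A46_.s6_int.const_mul 2
  have j46 : IntegrableOn (fun r => A46_.s4 r - 2 * A46_.s6 r) (Ioi (0 : ℝ)) :=
    A46_.s4_int.sub j6
  have k1 := integral_sub j46 A46_.GG_int.1
  have k2 := integral_sub A46_.s4_int j6
  rw [integral_const_mul] at k2
  rw [hm, k2, A46_.GG_int.2] at k1
  rw [e4, e6]
  linarith

end Pool.Agent.TRC
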