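import Pool.Agent.TRC.Targets2
import Pool.Agent.ExpMax.DECAY
import Pool.Agent.ExpMax.INV
import Pool.Agent.ExpMax.BASIC
import Pool.Agent.ExpMax.ROTD

/-!
# Project TRC: target BES, the Bessel type function

The Taylor bounds come from the differential equation: if `(-1) ^ N (P n N - φ) ≥ 0` then
`(-1) ^ N r ^ (n - 1) (φ' - P n (N + 1)')` is nondecreasing, hence nonnegative, and then
`(-1) ^ (N + 1) (P n (N + 1) - φ) ≥ 0`.
-/

set_option autoImplicit false

noncomputable section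

open MeasureTheory Set Filter
open scoped ENNReal RealInnerProductSpace Topology

namespace Pool.Agent.TRC

open Pool.Agent.ExpMax

namespace BES_

theorem W_zero (n : ℕ) : W n 0 = 1 := by
  unfold W
  simp

theorem W_succ (n k : ℕ) : W n (k + 1) = W n k * ((2 * (k : ℝ) + 2) * ((n : ℝ) + 2 * k)) := by
  unfold W
  rw [Finset.prod_range_succ]

theorem W_pos (n k : ℕ) (hn : 1 ≤ n) : 0 < W n k := by
  have hn' : (1 : ℝ) ≤ n := by exact_mod_cast hn
  unfold W
  refine Finset.prod_pos fun j _ => ?_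
  positivity

theorem W_shift (n k : ℕ) : (n : ℝ) * W (n + 2) k = W n k * ((n : ℝ) + 2 * k) := by
  induction k with
  | zero =>
    rw [W_zero, W_zero]
    push_cast
    ring
  | succ k ih =>
    rw [W_succ, W_succ, ← mul_assoc, ih]
    push_cast
    ring

theorem P_zero (n : ℕ) (r : ℝ) : P n 0 r = 1 := by
  unfold P
  simp [W_zero]

theorem P_succ (n N : ℕ) (r : ℝ) :
    P n (N + 1) r = P n N r + (-1) ^ (N + 1) * r ^ (2 * (N + 1)) / W n (N + 1) := by
  unfold P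
  rw [Finset.sum_range_succ]

theorem P_at_zero (n N : ℕ) : P n N 0 = 1 := by
  induction N with
  | zero => exact P_zero n 0
  | succ N ih =>
    rw [P_succ, ih, zero_pow (by omega)]
    simp

theorem P_neg (n N : ℕ) (r : ℝ) : P n N (-r) = P n N r := by
  unfold P
  refine Finset.sum_congr rfl fun k _ => ?_
  rw [Even.neg_pow (even_two_mul k)]

/-- the derivative of `P n (N + 1)` -/
def Dn (n N : ℕ) (r : ℝ) : ℝ := -(r / n * P (n + 2) N r)

theorem Dn_zero (n : ℕ) (r : ℝ) : Dn n 0 r = -(r / n) := by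
  unfold Dn
  rw [P_zero, mul_one]

theorem Dn_succ (n N : ℕ) (hn : 1 ≤ n) (r : ℝ) :
    Dn n (N + 1) r = Dn n N r +
      (-1) ^ N * r ^ (2 * N + 3) / (W n (N + 1) * ((n : ℝ) + 2 * (N + 1))) := by
  have hn' : (n : ℝ) ≠ 0 := by
    have : (1 : ℝ) ≤ n := by exact_mod_cast hn
    linarith
  have h := W_shift n (N + 1)
  have hW : W (n + 2) (N + 1) ≠ 0 := (W_pos (n + 2) (N + 1) (by omega)).ne'
  push_cast at h
  rw [← h]
  unfold Dn
  rw [P_succ]
  field_simp
  ring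

theorem Dn_at_zero (n N : ℕ) : Dn n N 0 = 0 := by
  unfold Dn
  simp

theorem P_deriv (n N : ℕ) (hn : 1 ≤ n) (r : ℝ) : HasDerivAt (P n (N + 1)) (Dn n N r) r := by
  induction N with
  | zero =>
    have h : P n (0 + 1) = fun r : ℝ => 1 + -(r ^ 2) / (2 * (n : ℝ)) := by
      funext s
      rw [P_succ, P_zero, W_succ, W_zero]
      simp
    rw [h, Dn_zero]
    have h1 := (((hasDerivAt_pow 2 r).neg).div_const (2 * (n : ℝ))).const_add 1
    refine h1.congr_deriv ?_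
    have hn' : (n : ℝ) ≠ 0 := by
      have : (1 : ℝ) ≤ n := by exact_mod_cast hn
      linarith
    field_simp
    push_cast
    ring
  | succ N ih =>
    have h : P n (N + 1 + 1) = fun r => P n (N + 1) r +
        (-1) ^ (N + 1 + 1) * r ^ (2 * (N + 1 + 1)) / W n (N + 1 + 1) := by
      funext s
      rw [P_succ]
    rw [h, Dn_succ n N hn]
    have h1 := ih.add (((hasDerivAt_pow (2 * (N + 1 + 1)) r).const_mul
      ((-1 : ℝ) ^ (N + 1 + 1))).div_const (W n (N + 1 + 1)))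
    refine h1.congr_deriv ?_
    have hW : W n (N + 1) ≠ 0 := (W_pos n (N + 1) hn).ne'
    have hn' : (1 : ℝ) ≤ n := by exact_mod_cast hn
    have h2 : (n : ℝ) + 2 * ((N : ℝ) + 1) ≠ 0 := by positivity
    have h3 : (2 : ℝ) * ((N : ℝ) + 1) + 2 ≠ 0 := by positivity
    have h4 : 2 * (N + 1 + 1) - 1 = 2 * N + 3 := by omega
    rw [W_succ n (N + 1), h4]
    push_cast
    field_simp
    ring

/-- the equation for `P` -/
theorem G_deriv (m N : ℕ) (r : ℝ) : HasDerivAt (fun r => r ^ (m + 1) * Dn (m + 2) N r)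
    (-(r ^ (m + 1) * P (m + 2) N r)) r := by
  induction N with
  | zero =>
    have h : (fun r => r ^ (m + 1) * Dn (m + 2) 0 r) =
        fun r : ℝ => -(r ^ (m + 2) / ((m + 2 : ℕ) : ℝ)) := by
      funext s
      rw [Dn_zero]
      ring
    rw [h, P_zero]
    have h1 := ((hasDerivAt_pow (m + 2) r).div_const ((m + 2 : ℕ) : ℝ)).neg
    refine h1.congr_deriv ?_
    have h2 : ((m + 2 : ℕ) : ℝ) ≠ 0 := by positivity
    have h3 : m + 2 - 1 = m + 1 := by omega
    rw [h3]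
    field_simp
  | succ N ih =>
    have h : (fun r => r ^ (m + 1) * Dn (m + 2) (N + 1) r) =
        fun r : ℝ => r ^ (m + 1) * Dn (m + 2) N r + (-1) ^ N * r ^ (m + 2 * N + 4) /
          (W (m + 2) (N + 1) * (((m + 2 : ℕ) : ℝ) + 2 * (N + 1))) := by
      funext s
      rw [Dn_succ _ _ (by omega)]
      ring
    rw [h, P_succ]
    have h1 := ih.add (((hasDerivAt_pow (m + 2 * N + 4) r).const_mul
      ((-1 : ℝ) ^ N)).div_const (W (m + 2) (N + 1) * (((m + 2 : ℕ) : ℝ) + 2 * (N + 1))))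
    refine h1.congr_deriv ?_
    have hW : W (m + 2) (N + 1) ≠ 0 := (W_pos (m + 2) (N + 1) (by omega)).ne'
    have h2 : ((m + 2 : ℕ) : ℝ) + 2 * ((N : ℝ) + 1) ≠ 0 := by positivity
    have h4 : m + 2 * N + 4 - 1 = m + 1 + 2 * (N + 1) := by omega
    rw [h4]
    push_cast at h2 ⊢
    field_simp
    ring

theorem mono_ge (g g' : ℝ → ℝ) (hc : Continuous g) (hd : ∀ r, 0 < r → HasDerivAt g (g' r) r)
    (hg : ∀ r, 0 < r → 0 ≤ g' r) (h0 : g 0 = 0) : ∀ r, 0 ≤ r → 0 ≤ g r := by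
  have hm : MonotoneOn g (Ici 0) := by
    refine monotoneOn_of_deriv_nonneg (convex_Ici 0) hc.continuousOn ?_ ?_
    · rw [interior_Ici]
      exact fun r hr => (hd r hr).differentiableAt.differentiableWithinAt
    · rw [interior_Ici]
      intro r hr
      rw [(hd r hr).deriv]
      exact hg r hr
  intro r hr
  rw [← h0]
  exact hm (mem_Ici.2 (le_refl 0)) (mem_Ici.2 hr) hr

theorem P_cont (n N : ℕ) : Continuous (P n N) := by
  unfold P
  fun_prop

theorem Dn_cont (n N : ℕ) : Continuous (Dn n N) := by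
  unfold Dn
  have := P_cont (n + 2) N
  fun_prop

/-- alternating bounds -/
theorem alt (m : ℕ) (φ φ' : ℝ → ℝ) (der : ∀ r, HasDerivAt φ (φ' r) r)
    (ode : ∀ r, 0 < r →
      HasDerivAt φ' (-φ r - ((((m + 2 : ℕ) : ℝ) - 1) / r) * φ' r) r)
    (cont : Continuous φ') (le1 : ∀ r, φ r ≤ 1) (h0 : φ 0 = 1) (h0' : φ' 0 = 0) (N : ℕ) :
    (∀ r, 0 ≤ r → 0 ≤ (-1) ^ N * (P (m + 2) N r - φ r)) ∧
    (∀ r, 0 ≤ r → 0 ≤ (-1) ^ N * (φ' r - Dn (m + 2) N r)) := by
  have hφc : Continuous φ := continuous_iff_continuousAt.2 fun r => (der r).continuousAt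
  have step : ∀ N, (∀ r, 0 ≤ r → 0 ≤ (-1) ^ N * (P (m + 2) N r - φ r)) →
      (∀ r, 0 ≤ r → 0 ≤ (-1) ^ N * (φ' r - Dn (m + 2) N r)) := by
    intro N hA r hr
    rcases hr.eq_or_lt with h | h
    · rw [← h, h0', Dn_at_zero]
      simp
    have h1 := mono_ge (fun r => (-1) ^ N * (r ^ (m + 1) * φ' r - r ^ (m + 1) * Dn (m + 2) N r))
      (fun r => (-1) ^ N * (r ^ (m + 1) * (P (m + 2) N r - φ r)))
      (by
        have := Dn_cont (m + 2) N
        fun_prop)
      (fun r hr => by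
        have k1 := ((hasDerivAt_pow (m + 1) r).mul (ode r hr)).sub (G_deriv m N r)
        refine (k1.const_mul ((-1 : ℝ) ^ N)).congr_deriv ?_
        have k2 : m + 1 - 1 = m := by omega
        rw [k2]
        push_cast
        field_simp
        ring)
      (fun r hr => by
        have k1 := mul_nonneg (pow_nonneg hr.le (m + 1)) (hA r hr.le)
        calc (0 : ℝ) ≤ r ^ (m + 1) * ((-1) ^ N * (P (m + 2) N r - φ r)) := k1
          _ = _ := by ring)
      (by simp) r h.le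
    have h2 : 0 < r ^ (m + 1) := pow_pos h _
    have h3 : 0 ≤ r ^ (m + 1) * ((-1) ^ N * (φ' r - Dn (m + 2) N r)) := by
      calc (0 : ℝ) ≤ (-1) ^ N * (r ^ (m + 1) * φ' r - r ^ (m + 1) * Dn (m + 2) N r) := h1
        _ = _ := by ring
    exact nonneg_of_mul_nonneg_right h3 h2
  induction N with
  | zero =>
    have hA : ∀ r, 0 ≤ r → 0 ≤ (-1) ^ 0 * (P (m + 2) 0 r - φ r) := by
      intro r _
      rw [P_zero, pow_zero, one_mul]
      linarith [le1 r]
    exact ⟨hA, step 0 hA⟩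
  | succ N ih =>
    have hA : ∀ r, 0 ≤ r → 0 ≤ (-1) ^ (N + 1) * (P (m + 2) (N + 1) r - φ r) := by
      intro r hr
      have h1 := mono_ge (fun r => (-1) ^ (N + 1) * (P (m + 2) (N + 1) r - φ r))
        (fun r => (-1) ^ N * (φ' r - Dn (m + 2) N r))
        (by
          have := P_cont (m + 2) (N + 1)
          fun_prop)
        (fun r hr => by
          have k1 := (P_deriv (m + 2) N (by omega) r).sub (der r)
          refine (k1.const_mul ((-1 : ℝ) ^ (N + 1))).congr_deriv ?_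
          ring)
        (fun r hr => ih.2 r hr.le)
        (by
          rw [P_at_zero, h0]
          simp) r hr
      exact h1
    exact ⟨hA, step (N + 1) hA⟩

theorem sgn_abs (N : ℕ) (x y : ℝ) (h0 : 0 ≤ (-1) ^ N * x) (h1 : (-1) ^ N * x ≤ y) : |x| ≤ y := by
  rcases neg_one_pow_eq_or ℝ N with h | h
  · rw [h, one_mul] at h0 h1
    rw [abs_of_nonneg h0]
    exact h1
  · rw [h] at h0 h1
    rw [abs_of_nonpos (by linarith)]
    linarith

theorem taylor (m : ℕ) (φ φ' : ℝ → ℝ) (der : ∀ r, HasDerivAt φ (φ' r) r)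
    (ode : ∀ r, 0 < r →
      HasDerivAt φ' (-φ r - ((((m + 2 : ℕ) : ℝ) - 1) / r) * φ' r) r)
    (cont : Continuous φ') (le1 : ∀ r, φ r ≤ 1) (h0 : φ 0 = 1) (h0' : φ' 0 = 0) (N : ℕ) (r : ℝ)
    (hr : 0 ≤ r) :
    |φ r - P (m + 2) N r| ≤ |r| ^ (2 * N + 2) / W (m + 2) (N + 1) ∧
    |φ' r + r / ((m + 2 : ℕ) : ℝ) * P (m + 2 + 2) N r| ≤
      |r| / ((m + 2 : ℕ) : ℝ) * (|r| ^ (2 * N + 2) / W (m + 2 + 2) (N + 1)) := by
  have hA := alt m φ φ' der ode cont le1 h0 h0' N
  have hB := alt m φ φ' der ode cont le1 h0 h0' (N + 1)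
  have sq : ((-1 : ℝ) ^ N) * (-1) ^ N = 1 := by
    rw [← mul_pow]
    simp
  rw [abs_of_nonneg hr]
  constructor
  · rw [abs_sub_comm]
    have h1 := hA.1 r hr
    have h2 := hB.1 r hr
    refine sgn_abs N _ _ h1 ?_
    rw [P_succ] at h2
    have h3 : (-1 : ℝ) ^ (N + 1) * (P (m + 2) N r + (-1) ^ (N + 1) * r ^ (2 * (N + 1)) /
        W (m + 2) (N + 1) - φ r) = -((-1) ^ N * (P (m + 2) N r - φ r)) +
        ((-1) ^ N * (-1) ^ N) * (r ^ (2 * N + 2) / W (m + 2) (N + 1)) := by ring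
    rw [h3, sq] at h2
    linarith
  · have h1 := hA.2 r hr
    have h2 := hB.2 r hr
    have e1 : φ' r + r / ((m + 2 : ℕ) : ℝ) * P (m + 2 + 2) N r = φ' r - Dn (m + 2) N r := by
      unfold Dn
      ring
    rw [e1]
    refine sgn_abs N _ _ h1 ?_
    rw [Dn_succ _ _ (by omega)] at h2
    have h3 : (-1 : ℝ) ^ (N + 1) * (φ' r - (Dn (m + 2) N r + (-1) ^ N * r ^ (2 * N + 3) /
        (W (m + 2) (N + 1) * (((m + 2 : ℕ) : ℝ) + 2 * (N + 1))))) =
        -((-1) ^ N * (φ' r - Dn (m + 2) N r)) + ((-1) ^ N * (-1) ^ N) *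
          (r ^ (2 * N + 3) / (W (m + 2) (N + 1) * (((m + 2 : ℕ) : ℝ) + 2 * (N + 1)))) := by ring
    rw [h3, sq, one_mul] at h2
    have h4 := W_shift (m + 2) (N + 1)
    push_cast at h4
    have h5 : r / ((m + 2 : ℕ) : ℝ) * (r ^ (2 * N + 2) / W (m + 2 + 2) (N + 1)) =
        r ^ (2 * N + 3) / (W (m + 2) (N + 1) * (((m + 2 : ℕ) : ℝ) + 2 * (N + 1))) := by
      push_cast
      rw [← h4]
      have k1 : W (m + 2 + 2) (N + 1) ≠ 0 := (W_pos _ _ (by omega)).ne'
      have k2 : (m : ℝ) + 2 ≠ 0 := by positivity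
      field_simp
      ring
    rw [h5]
    linarith

end BES_

open BES_ in
theorem p_BES : T_BES := by
  intro F _ _ _ _ _ hn e he
  have hn1 : 1 ≤ Module.finrank ℝ F := by omega
  have hP : IsProbabilityMeasure (prb F) := (tINV F hn1).1
  have hR := tROTD tINV F hn1
  obtain ⟨-, -, hrad, habs, -, -, -⟩ := tBASIC tINV F hn1
  set i₀ : Fin (Module.finrank ℝ F) := ⟨0, by omega⟩ with hi₀
  set b : F := stdOrthonormalBasis ℝ F i₀ with hb
  have hb1 : ‖b‖ = 1 := (stdOrthonormalBasis ℝ F).orthonormal.1 i₀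
  have hU : (fun r : ℝ => u0 (r • e)) =
      fun r : ℝ => ∫ ω, ⟪(ω : F), b⟫ ^ 0 * Real.cos (r * ⟪(ω : F), b⟫) ∂(prb F) := by
    funext r
    have h1 : u0 (r • e) = u0 (r • b) := hrad _ _ (by rw [norm_smul, norm_smul, he, hb1])
    rw [h1]
    simp only [u0, pow_zero, one_mul, real_inner_smul_right]
  set U1 : ℝ → ℝ := fun r => -∫ ω, ⟪(ω : F), b⟫ ^ 1 * Real.sin (r * ⟪(ω : F), b⟫) ∂(prb F)
    with hU1
  have hdU : ∀ r, HasDerivAt (fun r : ℝ => u0 (r • e)) (U1 r) r := by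
    intro r
    rw [hU]
    exact DECAY_derivCos (DECAY_meas b) (DECAY_le hb1) 0 r
  have hdU1 : ∀ r, HasDerivAt U1
      (-∫ ω, ⟪(ω : F), b⟫ ^ 2 * Real.cos (r * ⟪(ω : F), b⟫) ∂(prb F)) r := fun r =>
    (DECAY_derivSin (DECAY_meas b) (DECAY_le hb1) 1 r).neg
  have hode : ∀ r, 0 < r → HasDerivAt U1
      (-u0 (r • e) - (((Module.finrank ℝ F : ℝ) - 1) / r) * U1 r) r := by
    intro r hr
    refine (hdU1 r).congr_deriv ?_
    have h1 := DECAY_ode hP hn hR i₀ r hr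
    have h2 : u0 (r • e) = ∫ ω, ⟪(ω : F), b⟫ ^ 0 * Real.cos (r * ⟪(ω : F), b⟫) ∂(prb F) :=
      congrFun hU r
    rw [← hb, ← h2] at h1
    have h3 : -∫ ω, ⟪(ω : F), b⟫ ^ 1 * Real.sin (r * ⟪(ω : F), b⟫) ∂(prb F) = U1 r := rfl
    rw [h3] at h1
    linarith
  have hc1 : Continuous U1 := continuous_iff_continuousAt.2 fun r => (hdU1 r).continuousAt
  have hle : ∀ r : ℝ, |u0 (r • e)| ≤ 1 := fun r => habs _
  have h00 : u0 ((0 : ℝ) • e) = 1 := by
    have h : u0 ((0 : ℝ) • e) =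
        ∫ ω, ⟪(ω : F), b⟫ ^ 0 * Real.cos (0 * ⟪(ω : F), b⟫) ∂(prb F) := congrFun hU 0
    rw [h]
    simp
  have h01 : U1 0 = 0 := by simp [hU1]
  have hev : ∀ r : ℝ, u0 ((-r) • e) = u0 (r • e) := fun r =>
    hrad _ _ (by rw [norm_smul, norm_smul, norm_neg])
  have hod : ∀ r : ℝ, U1 (-r) = -U1 r := by
    intro r
    simp only [hU1, neg_mul, Real.sin_neg, mul_neg, integral_neg]
  obtain ⟨m, hm⟩ : ∃ m, Module.finrank ℝ F = m + 2 := ⟨Module.finrank ℝ F - 2, by omega⟩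
  rw [hm] at hode ⊢
  have key := taylor m (fun r : ℝ => u0 (r • e)) U1 hdU hode hc1
    (fun r => (abs_le.1 (hle r)).2) h00 h01
  refine ⟨U1, hdU, hode, hc1, hle, fun N r => ?_, fun N r => ?_⟩
  · rcases le_total 0 r with h | h
    · exact (key N r h).1
    · have h1 := (key N (-r) (by linarith)).1
      rw [P_neg, abs_neg] at h1
      simp only [hev] at h1
      exact h1
  · rcases le_total 0 r with h | h
    · exact (key N r h).2
    · have h1 := (key N (-r) (by linarith)).2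
      rw [P_neg, abs_neg, hod] at h1
      refine le_trans (le_of_eq ?_) h1
      rw [← abs_neg]
      congr 1
      ring

end Pool.Agent.TRC
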