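import Pool.Agent.TRC.Targets2

/-!
# Project TRC: target BIG (sufficient conditions for the large exponents)
-/

set_option autoImplicit false

noncomputable section

open MeasureTheory Set Filter
open scoped ENNReal RealInnerProductSpace Topology

namespace Pool.Agent.TRC

open Pool.Agent.ExpMax

theorem BIG_anti {n : ℕ} {φ φ' : ℝ → ℝ} (hB : Bes n φ φ') {r₂ : ℝ}
    (h : ∀ r, 0 ≤ r → r ≤ r₂ → φ' r ≤ 0) : AntitoneOn φ (Icc 0 r₂) := by
  apply antitoneOn_of_deriv_nonpos (convex_Icc 0 r₂)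
  · exact fun r _ => (hB.der r).continuousAt.continuousWithinAt
  · exact fun r _ => (hB.der r).differentiableAt.differentiableWithinAt
  · intro r hr
    rw [interior_Icc] at hr
    rw [(hB.der r).deriv]
    exact h r hr.1.le hr.2.le

theorem BIG_energy {n : ℕ} {φ φ' : ℝ → ℝ} (hn : 3 ≤ n) (hB : Bes n φ φ') {r₂ : ℝ} (h0 : 0 < r₂) :
    AntitoneOn (fun r => φ r ^ 2 + φ' r ^ 2) (Ici r₂) := by
  have hd : ∀ r, 0 < r → HasDerivAt (fun r => φ r ^ 2 + φ' r ^ 2)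
      (-(2 * ((n : ℝ) - 1) / r * φ' r ^ 2)) r := by
    intro r hr
    have h1 := (hB.der r).pow 2
    have h2 := (hB.ode r hr).pow 2
    have h3 := h1.add h2
    refine h3.congr_deriv ?_
    field_simp
    ring
  apply antitoneOn_of_deriv_nonpos (convex_Ici r₂)
  · intro r hr
    exact (hd r (lt_of_lt_of_le h0 hr)).continuousAt.continuousWithinAt
  · intro r hr
    rw [interior_Ici] at hr
    exact (hd r (lt_trans h0 hr)).differentiableAt.differentiableWithinAt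
  · intro r hr
    rw [interior_Ici] at hr
    have hr0 : 0 < r := lt_trans h0 hr
    rw [(hd r hr0).deriv]
    have hn1 : (0 : ℝ) ≤ (n : ℝ) - 1 := by
      have : (3 : ℝ) ≤ n := by exact_mod_cast hn
      linarith
    have : 0 ≤ 2 * ((n : ℝ) - 1) / r * φ' r ^ 2 := by positivity
    linarith

theorem BIG_pow6 (x : ℝ) {q : ℝ} (hq : 8 ≤ q) : |x| ^ (q - 2) = |x| ^ (q - 8) * x ^ 6 := by
  have e : q - 2 = (q - 8) + 6 := by ring
  rw [e, Real.rpow_add_of_nonneg (abs_nonneg x) (by linarith) (by norm_num)]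
  congr 1
  have h : |x| ^ (6 : ℝ) = |x| ^ (6 : ℕ) := by
    rw [← Real.rpow_natCast]
    norm_num
  rw [h, (show Even 6 by decide).pow_abs]

theorem BIG_pow8 (x : ℝ) {q : ℝ} (hq : 8 ≤ q) : |x| ^ q = |x| ^ (q - 8) * x ^ 8 := by
  have e : q = (q - 8) + 8 := by ring
  conv_lhs => rw [e]
  rw [Real.rpow_add_of_nonneg (abs_nonneg x) (by linarith) (by norm_num)]
  congr 1
  have h : |x| ^ (8 : ℝ) = |x| ^ (8 : ℕ) := by
    rw [← Real.rpow_natCast]
    norm_num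
  rw [h, (show Even 8 by decide).pow_abs]

theorem p_BIG (h1 : T_ITG) (h2 : T_IDN) (h3 : T_PRT) : T_BIG := by
  intro n φ φ' hn hB r₁ r₂ h0 h12 hneg hc hc2 hen hK hnum p hp
  have hn3 : (3 : ℝ) ≤ n := by exact_mod_cast hn
  set m : ℝ := 2 * (n : ℝ) - 1 with hm
  have hm0 : 0 ≤ m := by rw [hm]; linarith
  have hr2 : 0 < r₂ := lt_of_lt_of_le h0 h12
  have hanti := BIG_anti hB hneg
  have hpos : ∀ r, 0 < r → r ≤ r₁ → φ r₁ ≤ φ r := fun r hr hr1 =>
    hanti ⟨hr.le, hr1.trans h12⟩ ⟨h0.le, h12⟩ hr1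
  have hle : ∀ r, r₁ ≤ r → |φ r| ≤ φ r₁ := by
    intro r hr
    rcases le_total r r₂ with hr2' | hr2'
    · rw [abs_le]
      refine ⟨hc2.trans ?_, ?_⟩
      · exact hanti ⟨h0.le.trans hr, hr2'⟩ ⟨hr2.le, le_refl _⟩ hr2'
      · exact hanti ⟨h0.le, h12⟩ ⟨h0.le.trans hr, hr2'⟩ hr
    · have h := BIG_energy hn hB hr2 (Set.mem_Ici.mpr (le_refl r₂)) (Set.mem_Ici.mpr hr2') hr2'
      simp only at h
      apply abs_le_of_sq_le_sq _ hc.le
      nlinarith [sq_nonneg (φ' r)]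
  set Cc : ℝ := φ r₁ ^ (p - 8) with hCc
  have hCc0 : 0 ≤ Cc := Real.rpow_nonneg hc.le _
  have hp8 : 0 ≤ p - 8 := by linarith
  -- the pointwise inequality
  have hpt : ∀ r ∈ Ioi (0 : ℝ),
      Cc * (φ r ^ 8 * r ^ (n - 1) - φ r ^ 6 * r ^ (n - 1) +
        m * (Iic r₁).indicator (fun r => φ r ^ 6 * φ' r ^ 2 * r ^ (n - 1)) r) ≤
      |φ r| ^ p * r ^ (n - 1) - |φ r| ^ (p - 2) * r ^ (n - 1) +
        m * (|φ r| ^ (p - 2) * φ' r ^ 2 * r ^ (n - 1)) := by
    intro r hr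
    have hr0 : (0 : ℝ) < r := hr
    have hw : 0 ≤ r ^ (n - 1) := by positivity
    have h6 : 0 ≤ φ r ^ 6 := (show Even 6 by decide).pow_nonneg _
    rw [BIG_pow8 (φ r) hp, BIG_pow6 (φ r) hp]
    set X : ℝ := |φ r| ^ (p - 8) with hX
    have hX0 : 0 ≤ X := Real.rpow_nonneg (abs_nonneg _) _
    have hq : φ r ^ 2 ≤ 1 := by
      have := hB.le1 r
      rw [← sq_abs]
      nlinarith [abs_nonneg (φ r)]
    rcases le_or_gt r r₁ with hr1 | hr1
    · rw [Set.indicator_of_mem (Set.mem_Iic.mpr hr1)]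
      have hXC : Cc ≤ X := by
        apply Real.rpow_le_rpow hc.le _ hp8
        exact (hpos r hr0 hr1).trans (le_abs_self _)
      have hk := hK r hr0.le hr1
      have key : 0 ≤ (X - Cc) * (φ r ^ 6 * ((φ r ^ 2 + m * φ' r ^ 2 - 1) * r ^ (n - 1))) := by
        apply mul_nonneg (by linarith)
        apply mul_nonneg h6
        exact mul_nonneg hk hw
      nlinarith [key]
    · rw [Set.indicator_of_notMem (by simpa using hr1)]
      have hXC : X ≤ Cc := by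
        apply Real.rpow_le_rpow (abs_nonneg _) _ hp8
        exact hle r hr1.le
      have key : 0 ≤ (Cc - X) * (φ r ^ 6 * ((1 - φ r ^ 2) * r ^ (n - 1))) := by
        apply mul_nonneg (by linarith)
        apply mul_nonneg h6
        exact mul_nonneg (by linarith) hw
      have key2 : 0 ≤ m * (X * φ r ^ 6 * φ' r ^ 2 * r ^ (n - 1)) := by positivity
      nlinarith [key, key2]
  -- integrability
  have i1 : IntegrableOn (fun r => |φ r| ^ p * r ^ (n - 1)) (Ioi 0) :=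
    (h1 n φ φ' hn hB p (by linarith)).1
  have i2 : IntegrableOn (fun r => |φ r| ^ (p - 2) * r ^ (n - 1)) (Ioi 0) :=
    (h1 n φ φ' hn hB (p - 2) (by linarith)).1
  have i3 : IntegrableOn (fun r => |φ r| ^ (p - 2) * φ' r ^ 2 * r ^ (n - 1)) (Ioi 0) :=
    (h1 n φ φ' hn hB (p - 2) (by linarith)).2.1
  have e8 : ∀ x : ℝ, |x| ^ (8 : ℝ) = x ^ 8 := by
    intro x
    have := BIG_pow8 x (le_refl (8 : ℝ))
    simpa using this
  have e6 : ∀ x : ℝ, |x| ^ (6 : ℝ) = x ^ 6 := by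
    intro x
    have := BIG_pow6 x (le_refl (8 : ℝ))
    have e : (8 : ℝ) - 2 = 6 := by norm_num
    rw [e] at this
    simpa using this
  have j1 : IntegrableOn (fun r => φ r ^ 8 * r ^ (n - 1)) (Ioi 0) := by
    have := (h1 n φ φ' hn hB 8 (by norm_num)).1
    simpa only [e8] using this
  have j2 : IntegrableOn (fun r => φ r ^ 6 * r ^ (n - 1)) (Ioi 0) := by
    have := (h1 n φ φ' hn hB 6 (by norm_num)).1
    simpa only [e6] using this
  have j3' : IntegrableOn (fun r => φ r ^ 6 * φ' r ^ 2 * r ^ (n - 1)) (Ioi 0) := by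
    have := (h1 n φ φ' hn hB 6 (by norm_num)).2.1
    simpa only [e6] using this
  have j3 : IntegrableOn ((Iic r₁).indicator (fun r => φ r ^ 6 * φ' r ^ 2 * r ^ (n - 1)))
      (Ioi 0) := j3'.indicator measurableSet_Iic
  have a8 : a n φ 8 = ∫ r in Ioi (0 : ℝ), φ r ^ 8 * r ^ (n - 1) := by
    unfold a
    simp only [e8]
  have a6 : a n φ 6 = ∫ r in Ioi (0 : ℝ), φ r ^ 6 * r ^ (n - 1) := by
    unfold a
    simp only [e6]
  have hind : ∫ r in Ioi (0 : ℝ), (Iic r₁).indicator (fun r => φ r ^ 6 * φ' r ^ 2 * r ^ (n - 1)) r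
      = ∫ r in (0 : ℝ)..r₁, φ r ^ 6 * φ' r ^ 2 * r ^ (n - 1) := by
    rw [setIntegral_indicator measurableSet_Iic, Set.Ioi_inter_Iic,
      intervalIntegral.integral_of_le h0.le]
  -- the integrated inequality
  have hint := setIntegral_mono_on
    (((j1.sub j2).add (j3.const_mul m)).const_mul Cc) ((i1.sub i2).add (i3.const_mul m))
    measurableSet_Ioi hpt
  have k1 : IntegrableOn (fun r => φ r ^ 8 * r ^ (n - 1) - φ r ^ 6 * r ^ (n - 1)) (Ioi 0) :=
    j1.sub j2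
  have k2 : IntegrableOn (fun r => |φ r| ^ p * r ^ (n - 1) - |φ r| ^ (p - 2) * r ^ (n - 1))
      (Ioi 0) := i1.sub i2
  have L : ∫ r in Ioi (0 : ℝ), Cc * (φ r ^ 8 * r ^ (n - 1) - φ r ^ 6 * r ^ (n - 1) +
        m * (Iic r₁).indicator (fun r => φ r ^ 6 * φ' r ^ 2 * r ^ (n - 1)) r) =
      Cc * (a n φ 8 - a n φ 6 + m * ∫ r in (0 : ℝ)..r₁, φ r ^ 6 * φ' r ^ 2 * r ^ (n - 1)) := by
    rw [integral_const_mul, integral_add k1 (j3.const_mul m), integral_sub j1 j2,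
      integral_const_mul, hind, a8, a6]
  have R : ∫ r in Ioi (0 : ℝ), (|φ r| ^ p * r ^ (n - 1) - |φ r| ^ (p - 2) * r ^ (n - 1) +
        m * (|φ r| ^ (p - 2) * φ' r ^ 2 * r ^ (n - 1))) =
      a n φ p - a n φ (p - 2) +
        m * ∫ r in Ioi (0 : ℝ), |φ r| ^ (p - 2) * φ' r ^ 2 * r ^ (n - 1) := by
    rw [integral_add k2 (i3.const_mul m), integral_sub i1 i2, integral_const_mul]
    rfl
  have hint' : Cc * (a n φ 8 - a n φ 6 +
      m * ∫ r in (0 : ℝ)..r₁, φ r ^ 6 * φ' r ^ 2 * r ^ (n - 1)) ≤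
      a n φ p - a n φ (p - 2) +
        m * ∫ r in Ioi (0 : ℝ), |φ r| ^ (p - 2) * φ' r ^ 2 * r ^ (n - 1) := by
    rw [← L, ← R]
    exact hint
  have hI := h2 n φ φ' hn hB p (by linarith)
  have hP := h3 n φ φ' hn hB r₁ h0
  have hp1 : 0 < p - 1 := by linarith
  have hIe : ∫ r in Ioi (0 : ℝ), |φ r| ^ (p - 2) * φ' r ^ 2 * r ^ (n - 1) =
      a n φ p / (p - 1) := by
    rw [eq_div_iff hp1.ne', mul_comm]
    exact hI
  rw [hIe] at hint'
  have hnn : 0 ≤ Cc * (a n φ 8 - a n φ 6 +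
      m * ∫ r in (0 : ℝ)..r₁, φ r ^ 6 * φ' r ^ 2 * r ^ (n - 1)) := by
    apply mul_nonneg hCc0
    rw [← hP] at hnum
    linarith
  have e : a n φ p * (1 + m / (p - 1)) = a n φ p + m * (a n φ p / (p - 1)) := by ring
  rw [e]
  linarith

end Pool.Agent.TRC
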