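import Pool.Agent.TRC.Targets

set_option autoImplicit false

noncomputable section

open MeasureTheory Set Filter
open scoped ENNReal Topology

namespace Pool.Agent.TRC

open Pool.Agent.ExpMax

/-- the elementary inequality -/
theorem BL_ineq (p : ℝ) (hp : 0 < p) (ε : ℝ) (hε : 0 < ε) :
    ∃ K : ℝ, 0 ≤ K ∧ ∀ a b : ℂ, |‖a + b‖ ^ p - ‖a‖ ^ p - ‖b‖ ^ p| ≤ ε * ‖a‖ ^ p + K * ‖b‖ ^ p := by
  have hcont : ContinuousAt (fun x : ℝ => x ^ p) 1 :=
    Real.continuousAt_rpow_const 1 p (Or.inl one_ne_zero)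
  obtain ⟨δ, hδ, hball⟩ := Metric.continuousAt_iff.1 hcont ε hε
  have hδ2 : 0 < δ / 2 := by positivity
  set K1 : ℝ := (2 / δ + 1) ^ p with hK1
  have hbase : 1 ≤ 2 / δ + 1 := by
    have : 0 < 2 / δ := by positivity
    linarith
  have hK1one : 1 ≤ K1 := Real.one_le_rpow hbase hp.le
  refine ⟨3 * K1, by positivity, ?_⟩
  intro a b
  have hna : 0 ≤ ‖a‖ := norm_nonneg a
  have hnb : 0 ≤ ‖b‖ := norm_nonneg b
  have ha : 0 ≤ ‖a‖ ^ p := Real.rpow_nonneg hna p
  have hb : 0 ≤ ‖b‖ ^ p := Real.rpow_nonneg hnb p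
  have hab : 0 ≤ ‖a + b‖ ^ p := Real.rpow_nonneg (norm_nonneg _) p
  by_cases hcase : ‖b‖ ≤ δ / 2 * ‖a‖
  · have hmain : |‖a + b‖ ^ p - ‖a‖ ^ p| ≤ ε * ‖a‖ ^ p := by
      rcases eq_or_lt_of_le hna with h0 | hpos
      · have hb0 : ‖b‖ = 0 := by
          rw [← h0, mul_zero] at hcase
          exact le_antisymm hcase hnb
        have h1 : a = 0 := norm_eq_zero.1 h0.symm
        have h2 : b = 0 := norm_eq_zero.1 hb0
        rw [h1, h2, add_zero, norm_zero, sub_self, abs_zero]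
        have := Real.rpow_nonneg (le_refl (0 : ℝ)) p
        positivity
      · set s : ℝ := ‖a + b‖ / ‖a‖ with hs
        have hsa : ‖a + b‖ = s * ‖a‖ := by
          rw [hs]
          field_simp
        have hs0 : 0 ≤ s := by positivity
        have h1 : |‖a + b‖ - ‖a‖| ≤ ‖b‖ := by
          have := abs_norm_sub_norm_le (a + b) a
          simpa using this
        have h2 : |s - 1| ≤ δ / 2 := by
          have h3 : ‖a + b‖ - ‖a‖ = (s - 1) * ‖a‖ := by
            rw [hsa]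
            ring
          rw [h3, abs_mul, abs_of_pos hpos] at h1
          have h4 : |s - 1| * ‖a‖ ≤ δ / 2 * ‖a‖ := h1.trans hcase
          exact le_of_mul_le_mul_right h4 hpos
        have h3 : |s ^ p - 1| < ε := by
          have h4 := hball (x := s) (by
            rw [Real.dist_eq]
            linarith)
          simpa [Real.dist_eq] using h4
        rw [hsa, Real.mul_rpow hs0 hna]
        have h5 : s ^ p * ‖a‖ ^ p - ‖a‖ ^ p = (s ^ p - 1) * ‖a‖ ^ p := by ring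
        rw [h5, abs_mul, abs_of_nonneg ha]
        exact mul_le_mul_of_nonneg_right h3.le ha
    have h6 : |‖a + b‖ ^ p - ‖a‖ ^ p - ‖b‖ ^ p| ≤ |‖a + b‖ ^ p - ‖a‖ ^ p| + ‖b‖ ^ p := by
      have := abs_sub (‖a + b‖ ^ p - ‖a‖ ^ p) (‖b‖ ^ p)
      rwa [abs_of_nonneg hb] at this
    have h7 : ‖b‖ ^ p ≤ 3 * K1 * ‖b‖ ^ p := by
      have h8 : 1 ≤ 3 * K1 := by linarith
      nlinarith
    linarith
  · push Not at hcase
    have hale : ‖a‖ ≤ 2 / δ * ‖b‖ := by
      have h9 : ‖a‖ = 2 / δ * (δ / 2 * ‖a‖) := by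
        field_simp
      rw [h9]
      exact mul_le_mul_of_nonneg_left hcase.le (by positivity)
    have hKb : (2 / δ + 1) ^ p * ‖b‖ ^ p = ((2 / δ + 1) * ‖b‖) ^ p :=
      (Real.mul_rpow (by linarith) hnb).symm
    have h1 : ‖a + b‖ ^ p ≤ K1 * ‖b‖ ^ p := by
      rw [hK1, hKb]
      apply Real.rpow_le_rpow (norm_nonneg _) _ hp.le
      calc ‖a + b‖ ≤ ‖a‖ + ‖b‖ := norm_add_le a b
        _ ≤ (2 / δ + 1) * ‖b‖ := by linarith
    have h2 : ‖a‖ ^ p ≤ K1 * ‖b‖ ^ p := by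
      rw [hK1, hKb]
      apply Real.rpow_le_rpow hna _ hp.le
      calc ‖a‖ ≤ 2 / δ * ‖b‖ := hale
        _ ≤ (2 / δ + 1) * ‖b‖ := by linarith
    have h3 : ‖b‖ ^ p ≤ K1 * ‖b‖ ^ p := by nlinarith
    have h4 : 0 ≤ ε * ‖a‖ ^ p := by positivity
    rw [abs_le]
    constructor <;> linarith

theorem p_BL : T_BL := by
  intro X _ μ p C hp u v hum hui huC hlim
  have hp0 : 0 < p := by linarith
  have hvm : AEStronglyMeasurable v μ :=
    aestronglyMeasurable_of_tendsto_ae atTop hum (Eventually.of_forall hlim)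
  set P : ℝ≥0∞ := ENNReal.ofReal p with hP
  have hP0 : P ≠ 0 := by
    rw [hP]
    simpa using hp0
  have hPt : P ≠ ∞ := ENNReal.ofReal_ne_top
  have hPr : P.toReal = p := ENNReal.toReal_ofReal hp0.le
  have hmem : ∀ f : X → ℂ, AEStronglyMeasurable f μ →
      (Integrable (fun x => ‖f x‖ ^ p) μ ↔ MemLp f P μ) := by
    intro f hf
    have := integrable_norm_rpow_iff hf hP0 hPt
    rwa [hPr] at this
  have hlin : ∀ k, ∫⁻ x, ENNReal.ofReal (‖u k x‖ ^ p) ∂μ ≤ ENNReal.ofReal C := by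
    intro k
    rw [← ofReal_integral_eq_lintegral_ofReal (hui k)
      (Eventually.of_forall fun x => Real.rpow_nonneg (norm_nonneg _) p)]
    exact ENNReal.ofReal_le_ofReal (huC k)
  have hpt : ∀ x, Tendsto (fun k => ‖u k x‖ ^ p) atTop (𝓝 (‖v x‖ ^ p)) := by
    intro x
    exact ((hlim x).norm).rpow_const (Or.inr hp0.le)
  have hvi : Integrable (fun x => ‖v x‖ ^ p) μ := by
    have hms : AEStronglyMeasurable (fun x => ‖v x‖ ^ p) μ :=
      aestronglyMeasurable_of_tendsto_ae atTop (fun k => (hui k).aestronglyMeasurable)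
        (Eventually.of_forall hpt)
    refine ⟨hms, ?_⟩
    rw [hasFiniteIntegral_iff_ofReal
      (Eventually.of_forall fun x => Real.rpow_nonneg (norm_nonneg _) p)]
    have hle : ∫⁻ x, ENNReal.ofReal (‖v x‖ ^ p) ∂μ ≤ ENNReal.ofReal C := by
      have h1 : ∀ x, ENNReal.ofReal (‖v x‖ ^ p) =
          liminf (fun k => ENNReal.ofReal (‖u k x‖ ^ p)) atTop := by
        intro x
        exact ((ENNReal.tendsto_ofReal (hpt x)).liminf_eq).symm
      calc ∫⁻ x, ENNReal.ofReal (‖v x‖ ^ p) ∂μ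
          = ∫⁻ x, liminf (fun k => ENNReal.ofReal (‖u k x‖ ^ p)) atTop ∂μ := by
            exact lintegral_congr h1
        _ ≤ liminf (fun k => ∫⁻ x, ENNReal.ofReal (‖u k x‖ ^ p) ∂μ) atTop :=
            lintegral_liminf_le' fun k => (hui k).aestronglyMeasurable.aemeasurable.ennreal_ofReal
        _ ≤ ENNReal.ofReal C := by
            apply liminf_le_of_frequently_le'
            exact Frequently.of_forall hlin
    exact lt_of_le_of_lt hle ENNReal.ofReal_lt_top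
  have hwi : ∀ k, Integrable (fun x => ‖u k x - v x‖ ^ p) μ := by
    intro k
    have h1 : MemLp (fun x => u k x - v x) P μ :=
      ((hmem _ (hum k)).1 (hui k)).sub ((hmem _ hvm).1 hvi)
    exact (hmem _ ((hum k).sub hvm)).2 h1
  refine ⟨hvi, hwi, ?_⟩
  set I : ℝ := ∫ x, ‖v x‖ ^ p ∂μ with hI
  set D : ℝ := 2 ^ p * (C + I) with hD
  have hI0 : 0 ≤ I := integral_nonneg fun x => Real.rpow_nonneg (norm_nonneg _) p
  have hC0 : 0 ≤ C := le_trans (integral_nonneg fun x => Real.rpow_nonneg (norm_nonneg _) p) (huC 0)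
  have hD0 : 0 ≤ D := by positivity
  have hwD : ∀ k, ∫ x, ‖u k x - v x‖ ^ p ∂μ ≤ D := by
    intro k
    have hb : ∀ x, ‖u k x - v x‖ ^ p ≤ 2 ^ p * (‖u k x‖ ^ p + ‖v x‖ ^ p) := by
      intro x
      have hu0 : 0 ≤ ‖u k x‖ := norm_nonneg _
      have hv0 : 0 ≤ ‖v x‖ := norm_nonneg _
      have h1 : ‖u k x - v x‖ ≤ 2 * max ‖u k x‖ ‖v x‖ := by
        have := norm_sub_le (u k x) (v x)
        have h2 := le_max_left ‖u k x‖ ‖v x‖
        have h3 := le_max_right ‖u k x‖ ‖v x‖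
        linarith
      have h4 : ‖u k x - v x‖ ^ p ≤ (2 * max ‖u k x‖ ‖v x‖) ^ p :=
        Real.rpow_le_rpow (norm_nonneg _) h1 hp0.le
      rw [Real.mul_rpow (by norm_num) (le_max_of_le_left hu0)] at h4
      refine h4.trans (mul_le_mul_of_nonneg_left ?_ (by positivity))
      have h5 : 0 ≤ ‖u k x‖ ^ p := Real.rpow_nonneg hu0 p
      have h6 : 0 ≤ ‖v x‖ ^ p := Real.rpow_nonneg hv0 p
      rcases max_cases ‖u k x‖ ‖v x‖ with ⟨h7, _⟩ | ⟨h7, _⟩ <;> rw [h7] <;> linarith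
    calc ∫ x, ‖u k x - v x‖ ^ p ∂μ ≤ ∫ x, 2 ^ p * (‖u k x‖ ^ p + ‖v x‖ ^ p) ∂μ :=
          integral_mono (hwi k) (((hui k).add hvi).const_mul _) hb
      _ = 2 ^ p * (∫ x, ‖u k x‖ ^ p ∂μ + I) := by
          rw [integral_const_mul, integral_add (hui k) hvi]
      _ ≤ D := by
          rw [hD]
          have := huC k
          exact mul_le_mul_of_nonneg_left (by linarith) (by positivity)
  rw [Metric.tendsto_atTop]
  intro η hη
  set ε : ℝ := η / (2 * (D + 1)) with hε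
  have hε0 : 0 < ε := by positivity
  obtain ⟨K, hK0, hK⟩ := BL_ineq p hp0 ε hε0
  set g : ℕ → X → ℝ := fun k x =>
    max 0 (|‖u k x‖ ^ p - ‖u k x - v x‖ ^ p - ‖v x‖ ^ p| - ε * ‖u k x - v x‖ ^ p) with hg
  have hfint : ∀ k, Integrable
      (fun x => ‖u k x‖ ^ p - ‖u k x - v x‖ ^ p - ‖v x‖ ^ p) μ := by
    intro k
    exact ((hui k).sub (hwi k)).sub hvi
  have hgm : ∀ k, AEStronglyMeasurable (g k) μ := by
    intro k
    have h1 : AEStronglyMeasurable (fun x =>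
        |‖u k x‖ ^ p - ‖u k x - v x‖ ^ p - ‖v x‖ ^ p| - ε * ‖u k x - v x‖ ^ p) μ :=
      ((hfint k).abs.sub ((hwi k).const_mul ε)).aestronglyMeasurable
    have h2 : AEStronglyMeasurable (fun _ : X => (0 : ℝ)) μ := aestronglyMeasurable_const
    exact h2.sup h1
  have hgb : ∀ k x, ‖g k x‖ ≤ K * ‖v x‖ ^ p := by
    intro k x
    have h0 : 0 ≤ ‖v x‖ ^ p := Real.rpow_nonneg (norm_nonneg _) p
    have h1 := hK (u k x - v x) (v x)
    rw [sub_add_cancel] at h1
    simp only [hg]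
    rw [Real.norm_of_nonneg (le_max_left _ _)]
    apply max_le (by positivity)
    linarith
  have hgl : ∀ x, Tendsto (fun k => g k x) atTop (𝓝 0) := by
    intro x
    have h1 : Tendsto (fun k => u k x - v x) atTop (𝓝 0) := by
      have := (hlim x).sub_const (v x)
      simpa using this
    have h2 : Tendsto (fun k => ‖u k x - v x‖ ^ p) atTop (𝓝 0) := by
      have h3 := (h1.norm).rpow_const (p := p) (Or.inr hp0.le)
      simpa [Real.zero_rpow hp0.ne'] using h3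
    have h3 : Tendsto (fun k => |‖u k x‖ ^ p - ‖u k x - v x‖ ^ p - ‖v x‖ ^ p|
        - ε * ‖u k x - v x‖ ^ p) atTop (𝓝 (|‖v x‖ ^ p - 0 - ‖v x‖ ^ p| - ε * 0)) :=
      ((((hpt x).sub h2).sub tendsto_const_nhds).abs).sub (h2.const_mul ε)
    have h4 := (tendsto_const_nhds (x := (0 : ℝ))).max h3
    simpa using h4
  have hgint : ∀ k, Integrable (g k) μ := by
    intro k
    exact Integrable.mono' (hvi.const_mul K) (hgm k) (Eventually.of_forall (hgb k))
  have hglim : Tendsto (fun k => ∫ x, g k x ∂μ) atTop (𝓝 0) := by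
    have := tendsto_integral_of_dominated_convergence (F := g) (f := fun _ : X => (0 : ℝ))
      (fun x => K * ‖v x‖ ^ p) hgm (hvi.const_mul K)
      (fun k => Eventually.of_forall (hgb k)) (Eventually.of_forall hgl)
    simpa using this
  obtain ⟨n0, hn0⟩ := (Metric.tendsto_atTop.1 hglim) (η / 2) (by positivity)
  refine ⟨n0, fun k hk => ?_⟩
  have h1 := hn0 k hk
  rw [Real.dist_eq, sub_zero] at h1
  have h2 : ∫ x, g k x ∂μ < η / 2 := lt_of_le_of_lt (le_abs_self _) h1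
  have h3 : |∫ x, (‖u k x‖ ^ p - ‖u k x - v x‖ ^ p - ‖v x‖ ^ p) ∂μ| ≤
      ∫ x, g k x ∂μ + ε * ∫ x, ‖u k x - v x‖ ^ p ∂μ := by
    calc |∫ x, (‖u k x‖ ^ p - ‖u k x - v x‖ ^ p - ‖v x‖ ^ p) ∂μ|
        ≤ ∫ x, |‖u k x‖ ^ p - ‖u k x - v x‖ ^ p - ‖v x‖ ^ p| ∂μ := abs_integral_le_integral_abs
      _ ≤ ∫ x, (g k x + ε * ‖u k x - v x‖ ^ p) ∂μ := by
          have hi2 : Integrable (fun x => g k x + ε * ‖u k x - v x‖ ^ p) μ :=
            (hgint k).add ((hwi k).const_mul ε)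
          apply integral_mono (hfint k).abs hi2
          intro x
          change |‖u k x‖ ^ p - ‖u k x - v x‖ ^ p - ‖v x‖ ^ p| ≤ g k x + ε * ‖u k x - v x‖ ^ p
          have := le_max_right 0 (|‖u k x‖ ^ p - ‖u k x - v x‖ ^ p - ‖v x‖ ^ p|
            - ε * ‖u k x - v x‖ ^ p)
          simp only [hg]
          linarith
      _ = ∫ x, g k x ∂μ + ε * ∫ x, ‖u k x - v x‖ ^ p ∂μ := by
          rw [integral_add (hgint k) ((hwi k).const_mul ε), integral_const_mul]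
  have h4 : ∫ x, (‖u k x‖ ^ p - ‖u k x - v x‖ ^ p - ‖v x‖ ^ p) ∂μ =
      ∫ x, ‖u k x‖ ^ p ∂μ - ∫ x, ‖u k x - v x‖ ^ p ∂μ - I := by
    have hi3 : Integrable (fun x => ‖u k x‖ ^ p - ‖u k x - v x‖ ^ p) μ := (hui k).sub (hwi k)
    rw [integral_sub hi3 hvi, integral_sub (hui k) (hwi k)]
  rw [h4] at h3
  rw [Real.dist_eq]
  have h5 : ε * ∫ x, ‖u k x - v x‖ ^ p ∂μ ≤ η / 2 := by
    calc ε * ∫ x, ‖u k x - v x‖ ^ p ∂μ ≤ ε * (D + 1) :=
          mul_le_mul_of_nonneg_left (by linarith [hwD k]) hε0.le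
      _ = η / 2 := by
          rw [hε]
          have : D + 1 ≠ 0 := by positivity
          field_simp
  linarith

end Pool.Agent.TRC
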