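import Pool.Agent.TRC.Targets2

/-!
# Project TRC: decay with some constant
-/

set_option autoImplicit false

noncomputable section

open MeasureTheory Set Filter
open scoped ENNReal RealInnerProductSpace Topology

namespace Pool.Agent.TRC

open Pool.Agent.ExpMax

namespace DEC_

theorem bdd {g : ℝ → ℝ} (hg : Continuous g) (R : ℝ) : ∃ B : ℝ, 0 ≤ B ∧
    ∀ r, 1 ≤ r → r ≤ R → g r ≤ B := by
  obtain ⟨B, hB⟩ := (isCompact_Icc (a := (1 : ℝ)) (b := R)).bddAbove_image hg.continuousOn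
  refine ⟨max B 0, le_max_right _ _, fun r h1 h2 => ?_⟩
  exact (hB ⟨r, ⟨h1, h2⟩, rfl⟩).trans (le_max_left _ _)

end DEC_

open DEC_ in
theorem p_DEC (h_TAI : T_TAI) : T_DEC := by
  intro n φ φ' hn hb
  have hn3 : (3 : ℝ) ≤ n := by exact_mod_cast hn
  have hφc : Continuous φ := continuous_iff_continuousAt.2 fun r => (hb.der r).continuousAt
  obtain ⟨B1, hB1, k1⟩ := bdd (g := fun r => r ^ (n - 1) * φ r ^ 2)
    ((continuous_pow _).mul (hφc.pow 2)) n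
  obtain ⟨B2, hB2, k2⟩ := bdd (g := fun r => r ^ (n - 1) * φ' r ^ 2)
    ((continuous_pow _).mul (hb.cont.pow 2)) n
  have h := h_TAI n φ φ' hn hb n _ (by linarith) (by nlinarith) le_rfl
  set D : ℝ := (n : ℝ) ^ (n - 1) * ((φ' n + ((n : ℝ) - 1) / (2 * n) * φ n) ^ 2 /
    (1 - ((n : ℝ) - 1) * ((n : ℝ) - 3) / 4 / (n : ℝ) ^ 2) + φ n ^ 2) with hD
  refine ⟨4 * |D| + B1 + B2 + 1, by positivity, fun r hr => ?_⟩
  have hDa : D ≤ |D| := le_abs_self D
  have hD0 : 0 ≤ |D| := abs_nonneg D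
  by_cases hrn : r ≤ n
  · have e1 := k1 r hr hrn
    have e2 := k2 r hr hrn
    constructor <;> linarith
  · push Not at hrn
    obtain ⟨e1, e2⟩ := h r hrn.le
    have hr0 : 0 < r := by linarith
    refine ⟨by linarith, ?_⟩
    set m : ℝ := ((n : ℝ) - 1) / (2 * r) with hm
    have hm0 : 0 ≤ m := div_nonneg (by linarith) (by linarith)
    have hm1 : m ≤ 1 := by
      rw [hm, div_le_one (by linarith)]
      linarith
    have hm2 : m ^ 2 ≤ 1 := by nlinarith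
    have hp : 0 ≤ r ^ (n - 1) := pow_nonneg hr0.le _
    have e3 : φ' r ^ 2 ≤ 2 * (φ' r + m * φ r) ^ 2 + 2 * (m ^ 2 * φ r ^ 2) := by
      nlinarith [sq_nonneg (φ' r + 2 * (m * φ r))]
    have e4 : m ^ 2 * φ r ^ 2 ≤ φ r ^ 2 := mul_le_of_le_one_left (sq_nonneg _) hm2
    have e5 : r ^ (n - 1) * φ' r ^ 2 ≤
        r ^ (n - 1) * (2 * (φ' r + m * φ r) ^ 2 + 2 * φ r ^ 2) :=
      mul_le_mul_of_nonneg_left (by linarith) hp
    have e6 : r ^ (n - 1) * (2 * (φ' r + m * φ r) ^ 2 + 2 * φ r ^ 2) =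
        2 * (r ^ (n - 1) * (φ' r + m * φ r) ^ 2) + 2 * (r ^ (n - 1) * φ r ^ 2) := by ring
    rw [e6] at e5
    linarith

end Pool.Agent.TRC
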