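import Pool.Agent.TRC.Targets
import Pool.Agent.TRC.Lem

/-!
# Project TRC: DIF, the extension is continuously differentiable
-/

set_option autoImplicit false
set_option linter.unusedSectionVars false

noncomputable section

open MeasureTheory Set Filter
open scoped ENNReal RealInnerProductSpace Topology

namespace Pool.Agent.TRC

open Pool.Agent.ExpMax

namespace DIF_

variable {F : Type} [NormedAddCommGroup F] [InnerProductSpace ℝ F] [FiniteDimensional ℝ F]
    [MeasurableSpace F] [BorelSpace F]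

/-- the derivative of the character -/
def der (y : F) (ω : Metric.sphere (0 : F) 1) : F →L[ℝ] ℂ :=
  (-(Complex.I * Complex.exp (-(Complex.I * ((⟪(ω : F), y⟫ : ℝ) : ℂ))))) •
    (Complex.ofRealCLM.comp (innerSL ℝ (ω : F)))

theorem der_norm (y : F) (ω : Metric.sphere (0 : F) 1) : ‖der y ω‖ ≤ 1 := by
  unfold der
  rw [norm_smul, norm_neg, norm_mul, Complex.norm_I, one_mul]
  have h1 : ‖Complex.exp (-(Complex.I * ((⟪(ω : F), y⟫ : ℝ) : ℂ)))‖ = 1 := by
    rw [Complex.norm_exp]
    simp
  rw [h1, one_mul]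
  refine ContinuousLinearMap.opNorm_le_bound _ zero_le_one fun z => ?_
  rw [ContinuousLinearMap.comp_apply, Complex.ofRealCLM_apply, Complex.norm_real,
    innerSL_apply_apply, one_mul]
  have h2 := norm_inner_le_norm (𝕜 := ℝ) (ω : F) z
  have h3 : ‖(ω : F)‖ = 1 := by simp
  rwa [h3, one_mul] at h2

theorem der_cont : Continuous fun x : F × Metric.sphere (0 : F) 1 => der x.1 x.2 := by
  unfold der
  have h1 : Continuous fun x : F × Metric.sphere (0 : F) 1 =>
      (-(Complex.I * Complex.exp (-(Complex.I * ((⟪(x.2 : F), x.1⟫ : ℝ) : ℂ))))) := by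
    fun_prop
  have h2 : Continuous fun x : F × Metric.sphere (0 : F) 1 =>
      (Complex.ofRealCLM.comp (innerSL ℝ (x.2 : F))) := by
    have h3 : Continuous fun x : F × Metric.sphere (0 : F) 1 => innerSL ℝ (x.2 : F) :=
      (innerSL ℝ).continuous.comp (continuous_subtype_val.comp continuous_snd)
    exact (ContinuousLinearMap.compL ℝ F ℝ ℂ Complex.ofRealCLM).continuous.comp h3
  exact h1.smul h2

theorem hasF (c : ℂ) (y : F) (ω : Metric.sphere (0 : F) 1) :
    HasFDerivAt (fun y : F => c * Complex.exp (-(Complex.I * ((⟪(ω : F), y⟫ : ℝ) : ℂ))))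
      (c • der y ω) y := by
  have h1 : HasFDerivAt (fun y : F => ((⟪(ω : F), y⟫ : ℝ) : ℂ))
      (Complex.ofRealCLM.comp (innerSL ℝ (ω : F))) y :=
    (Complex.ofRealCLM.comp (innerSL ℝ (ω : F))).hasFDerivAt
  have h2 := (((h1.const_mul Complex.I).neg).cexp).const_mul c
  refine h2.congr_fderiv ?_
  apply ContinuousLinearMap.ext
  intro z
  simp only [der, ContinuousLinearMap.smul_apply, ContinuousLinearMap.neg_apply, smul_eq_mul,
    Pi.neg_apply]
  ring

theorem hexp (y : F) : Continuous fun ω : Metric.sphere (0 : F) 1 =>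
    Complex.exp (-(Complex.I * ((⟪(ω : F), y⟫ : ℝ) : ℂ))) := by
  fun_prop

theorem hmE {f : Metric.sphere (0 : F) 1 → ℂ} (hf : Integrable f (prb F)) (y : F) :
    AEStronglyMeasurable (fun ω => f ω *
      Complex.exp (-(Complex.I * ((⟪(ω : F), y⟫ : ℝ) : ℂ)))) (prb F) :=
  hf.aestronglyMeasurable.mul (hexp y).aestronglyMeasurable

theorem hm {f : Metric.sphere (0 : F) 1 → ℂ} (hf : Integrable f (prb F)) (y : F) :
    AEStronglyMeasurable (fun ω => f ω • der y ω) (prb F) := by
  have h0 : Continuous fun ω : Metric.sphere (0 : F) 1 =>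
      ((y, ω) : F × Metric.sphere (0 : F) 1) := by fun_prop
  have h1 := (der_cont (F := F)).comp h0
  have h2 : Continuous fun ω : Metric.sphere (0 : F) 1 => der y ω := h1
  exact hf.aestronglyMeasurable.smul h2.aestronglyMeasurable

theorem hb (f : Metric.sphere (0 : F) 1 → ℂ) (y : F) (ω : Metric.sphere (0 : F) 1) :
    ‖f ω • der y ω‖ ≤ ‖f ω‖ := by
  rw [norm_smul]
  exact mul_le_of_le_one_right (norm_nonneg _) (der_norm y ω)

theorem hiE {f : Metric.sphere (0 : F) 1 → ℂ} (hf : Integrable f (prb F)) (y : F) :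
    Integrable (fun ω => f ω *
      Complex.exp (-(Complex.I * ((⟪(ω : F), y⟫ : ℝ) : ℂ)))) (prb F) := by
  refine hf.mono (hmE hf y) (Eventually.of_forall fun ω => ?_)
  rw [norm_mul, Complex.norm_exp]
  simp

theorem hasI {f : Metric.sphere (0 : F) 1 → ℂ} (hf : Integrable f (prb F)) (y : F) :
    HasFDerivAt (fun y : F => ∫ ω, f ω *
      Complex.exp (-(Complex.I * ((⟪(ω : F), y⟫ : ℝ) : ℂ))) ∂(prb F))
      (∫ ω, f ω • der y ω ∂(prb F)) y :=
  hasFDerivAt_integral_of_dominated_of_fderiv_le (𝕜 := ℝ) (μ := prb F)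
      (F := fun (y : F) ω => f ω * Complex.exp (-(Complex.I * ((⟪(ω : F), y⟫ : ℝ) : ℂ))))
      (F' := fun y ω => f ω • der y ω) (x₀ := y) (bound := fun ω => ‖f ω‖) (s := univ)
      univ_mem (Eventually.of_forall (hmE hf)) (hiE hf y) (hm hf y)
      (Eventually.of_forall fun ω x _ => hb f x ω) hf.norm
      (Eventually.of_forall fun ω x _ => hasF (f ω) x ω)

theorem contI {f : Metric.sphere (0 : F) 1 → ℂ} (hf : Integrable f (prb F)) :
    Continuous fun y : F => ∫ ω, f ω • der y ω ∂(prb F) := by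
  refine continuous_of_dominated (fun y => hm hf y) (bound := fun ω => ‖f ω‖)
    (fun y => Eventually.of_forall (hb f y)) hf.norm (Eventually.of_forall fun ω => ?_)
  have h0 : Continuous fun y : F => ((y, ω) : F × Metric.sphere (0 : F) 1) := by fun_prop
  have h1 := (der_cont (F := F)).comp h0
  have h2 : Continuous fun y : F => der y ω := h1
  exact h2.const_smul (f ω)

end DIF_

open DIF_ in
/-- DIF -/
theorem p_DIF : T_DIF := by
  intro F _ _ _ _ _ hn f
  have hint := integrable_coe hn f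
  rw [contDiff_one_iff_hasFDerivAt]
  exact ⟨fun y => ∫ ω, f ω • der y ω ∂(prb F), contI hint, fun y => hasI hint y⟩

end Pool.Agent.TRC
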