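import Pool.Agent.TRC.Targets2

/-!
# Project TRC (MP_9044d4_an): EN7

The condition at the endpoint for `n = 7`. On `[0, 1/2]` the power `(7 / 25) ^ θ` is bounded from
below by a Taylor polynomial of degree 5, on `[1/2, 1]` by `7 / 25` times a Taylor polynomial of
degree 3 in `1 - θ`; the remaining polynomials are written in the Bernstein basis.
-/

set_option autoImplicit false

noncomputable section

open MeasureTheory Set Filter
open scoped ENNReal RealInnerProductSpace Topology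

namespace Pool.Agent.TRC

open Pool.Agent.ExpMax

namespace EN7_

/-- Upper bound for the logarithm. -/
lemma log_le : Real.log (25 / 7) ≤ 1273 / 1000 := by
  rw [Real.log_le_iff_le_exp (by norm_num)]
  have h := Real.sum_le_exp_of_nonneg (x := 1273 / 1000) (by norm_num) 11
  refine le_trans ?_ h
  norm_num [Finset.sum_range_succ, Nat.factorial]

/-- Lower bound for the logarithm. -/
lemma le_log : 1272 / 1000 ≤ Real.log (25 / 7) := by
  rw [Real.le_log_iff_exp_le (by norm_num)]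
  have h := Real.exp_bound' (x := 636 / 1000) (by norm_num) (by norm_num) (n := 8) (by norm_num)
  have h2 : Real.exp (1272 / 1000) = Real.exp (636 / 1000) ^ 2 := by
    rw [← Real.exp_nat_mul]
    norm_num
  rw [h2]
  have h3 : Real.exp (636 / 1000) ≤ 1889 / 1000 := by
    refine le_trans h ?_
    norm_num [Finset.sum_range_succ, Nat.factorial]
  calc Real.exp (636 / 1000) ^ 2 ≤ (1889 / 1000) ^ 2 :=
        pow_le_pow_left₀ (Real.exp_pos _).le h3 2
    _ ≤ 25 / 7 := by norm_num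

/-- The power as an exponential. -/
lemma pow_eq (θ : ℝ) : (7 / 25 : ℝ) ^ θ = Real.exp (-(θ * Real.log (25 / 7))) := by
  rw [Real.rpow_def_of_pos (by norm_num)]
  congr 1
  have : Real.log (7 / 25) = -Real.log (25 / 7) := by
    rw [← Real.log_inv]
    norm_num
  rw [this]
  ring

/-- Lower bound on `[0, 1/2]`. -/
lemma low (θ : ℝ) (h0 : 0 ≤ θ) (h1 : θ ≤ 1 / 2) :
    1 - (1273 / 1000 * θ) + (1273 / 1000 * θ) ^ 2 / 2 - (1273 / 1000 * θ) ^ 3 / 6
      + (1273 / 1000 * θ) ^ 4 / 24 - (1273 / 1000 * θ) ^ 5 / 100 ≤ (7 / 25 : ℝ) ^ θ := by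
  rw [pow_eq]
  have hm : Real.exp (-(1273 / 1000 * θ)) ≤ Real.exp (-(θ * Real.log (25 / 7))) := by
    apply Real.exp_le_exp.mpr
    have := mul_le_mul_of_nonneg_left log_le h0
    linarith
  refine le_trans ?_ hm
  have hx0 : 0 ≤ 1273 / 1000 * θ := by positivity
  have hx1 : 1273 / 1000 * θ ≤ 1 := by linarith
  have habs : |-(1273 / 1000 * θ)| ≤ 1 := by
    rw [abs_neg, abs_of_nonneg hx0]
    exact hx1
  have h := Real.exp_bound habs (n := 5) (by norm_num)
  rw [abs_neg, abs_of_nonneg hx0] at h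
  have h' := (abs_le.mp h).1
  simp only [Finset.sum_range_succ, Finset.sum_range_zero, Nat.factorial] at h'
  norm_num at h'
  have e1 : (1273 / 1000 * θ) ^ 5 * (1 / 100) = (1273 / 1000 * θ) ^ 5 / 100 := by ring
  nlinarith [h', e1]

/-- Lower bound on `[1/2, 1]`. -/
lemma high (u : ℝ) (h0 : 0 ≤ u) :
    7 / 25 * (1 + 1272 / 1000 * u + (1272 / 1000 * u) ^ 2 / 2 + (1272 / 1000 * u) ^ 3 / 6)
      ≤ (7 / 25 : ℝ) ^ (1 - u) := by
  have he : (7 / 25 : ℝ) ^ (1 - u) = 7 / 25 * Real.exp (u * Real.log (25 / 7)) := by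
    rw [pow_eq]
    have h1 : -((1 - u) * Real.log (25 / 7)) = -Real.log (25 / 7) + u * Real.log (25 / 7) := by
      ring
    rw [h1, Real.exp_add, Real.exp_neg, Real.exp_log (by norm_num)]
    norm_num
  rw [he]
  apply mul_le_mul_of_nonneg_left _ (by norm_num : (0 : ℝ) ≤ 7 / 25)
  have hm : Real.exp (1272 / 1000 * u) ≤ Real.exp (u * Real.log (25 / 7)) := by
    apply Real.exp_le_exp.mpr
    have := mul_le_mul_of_nonneg_left le_log h0
    linarith
  refine le_trans ?_ hm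
  have h := Real.sum_le_exp_of_nonneg (x := 1272 / 1000 * u) (by positivity) 4
  refine le_trans (le_of_eq ?_) h
  simp only [Finset.sum_range_succ, Finset.sum_range_zero, Nat.factorial]
  push_cast
  ring

/-- The polynomial inequality on `[0, 1/2]`. -/
lemma poly1 (x : ℝ) (h0 : 0 ≤ x) (h1 : x ≤ 1 / 2) :
    0 ≤ (1 - (1273 / 1000 * x) + (1273 / 1000 * x) ^ 2 / 2 - (1273 / 1000 * x) ^ 3 / 6
      + (1273 / 1000 * x) ^ 4 / 24 - (1273 / 1000 * x) ^ 5 / 100) *
      (1 + 18 / 7 * x + 8 / 5 * (1 - x) ^ 2 * (1 + 18 / 25 * x)) - 1 - 8 / 5 * (1 - x) ^ 2 := by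
  have hw : 0 ≤ 1 - 2 * x := by linarith
  have key : (1 - (1273 / 1000 * x) + (1273 / 1000 * x) ^ 2 / 2 - (1273 / 1000 * x) ^ 3 / 6
      + (1273 / 1000 * x) ^ 4 / 24 - (1273 / 1000 * x) ^ 5 / 100) *
      (1 + 18 / 7 * x + 8 / 5 * (1 - x) ^ 2 * (1 + 18 / 25 * x)) - 1 - 8 / 5 * (1 - x) ^ 2 =
      x * ((14477 / 35000) * (1 - 2 * x) ^ 7
        + (344901419 / 140000000) * (2 * x) * (1 - 2 * x) ^ 6
        + (5451500736893 / 840000000000) * (2 * x) ^ 2 * (1 - 2 * x) ^ 5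
        + (65393237776027771 / 6720000000000000) * (2 * x) ^ 3 * (1 - 2 * x) ^ 4
        + (497950527494595662037 / 56000000000000000000) * (2 * x) ^ 4 * (1 - 2 * x) ^ 3
        + (3433545364677254611989 / 700000000000000000000) * (2 * x) ^ 5 * (1 - 2 * x) ^ 2
        + (6290643873506378763509 / 4200000000000000000000) * (2 * x) ^ 6 * (1 - 2 * x)
        + (202831270392410704799 / 1050000000000000000000) * (2 * x) ^ 7) := by
    ring
  rw [key]
  positivity

/-- The polynomial inequality on `[1/2, 1]`, `u = 1 - θ`. -/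
lemma poly2 (x : ℝ) (h0 : 0 ≤ x) (h1 : x ≤ 1 / 2) :
    0 ≤ 7 / 25 * (1 + 1272 / 1000 * x + (1272 / 1000 * x) ^ 2 / 2 + (1272 / 1000 * x) ^ 3 / 6) *
      (1 + 18 / 7 * (1 - x) + 8 / 5 * x ^ 2 * (1 + 18 / 25 * (1 - x))) - 1 - 8 / 5 * x ^ 2 := by
  have hw : 0 ≤ 1 - 2 * x := by linarith
  have key : 7 / 25 * (1 + 1272 / 1000 * x + (1272 / 1000 * x) ^ 2 / 2
      + (1272 / 1000 * x) ^ 3 / 6) *
      (1 + 18 / 7 * (1 - x) + 8 / 5 * x ^ 2 * (1 + 18 / 25 * (1 - x))) - 1 - 8 / 5 * x ^ 2 =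
      x * ((69 / 125) * (1 - 2 * x) ^ 5
        + (143241 / 62500) * (2 * x) * (1 - 2 * x) ^ 4
        + (58624323 / 15625000) * (2 * x) ^ 2 * (1 - 2 * x) ^ 3
        + (294970503 / 97656250) * (2 * x) ^ 3 * (1 - 2 * x) ^ 2
        + (58240238961 / 48828125000) * (2 * x) ^ 4 * (1 - 2 * x)
        + (2208316017 / 12207031250) * (2 * x) ^ 5) := by
    ring
  rw [key]
  positivity

end EN7_

/-- EN7. -/
theorem p_EN7 : T_EN7 := by
  intro θ h0 h1 t κ ht hκ
  have hA : t * ((1 - θ) - θ * κ * (7 / 25)) + t * (θ / (7 / 25) + (1 + θ) * κ) =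
      t * (1 + 18 / 7 * θ + κ * (1 + 18 / 25 * θ)) := by
    ring
  rw [hA]
  have hpos : 0 ≤ 1 + 18 / 7 * θ + κ * (1 + 18 / 25 * θ) := by
    rw [hκ]
    positivity
  rcases le_total θ (1 / 2) with h | h
  · have hl := EN7_.low θ h0 h
    rw [← ht] at hl
    have hm := mul_le_mul_of_nonneg_right hl hpos
    have hp := EN7_.poly1 θ h0 h
    rw [← hκ] at hp
    linarith
  · have hl := EN7_.high (1 - θ) (by linarith)
    rw [show (1 : ℝ) - (1 - θ) = θ by ring, ← ht] at hl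
    have hm := mul_le_mul_of_nonneg_right hl hpos
    have hp := EN7_.poly2 (1 - θ) (by linarith) (by linarith)
    rw [← hκ, show (1 : ℝ) - (1 - θ) = θ by ring] at hp
    linarith

end Pool.Agent.TRC
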