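import Pool.Agent.TRC.Targets2

/-!
# TRC-ENG: the moments by integer arithmetic
-/

set_option autoImplicit false

noncomputable section

open MeasureTheory Set Filter
open Pool.Agent.ExpMax

namespace Pool.Agent.TRC

/-! ### Evaluation of lists -/

theorem ENG_nil (x : ℝ) : evL [] x = 0 := rfl

theorem ENG_cons (c : ℤ) (l : List ℤ) (x : ℝ) : evL (c :: l) x = c + x ^ 2 * evL l x := rfl

theorem ENG_add : ∀ (p q : List ℤ) (x : ℝ), evL (addL p q) x = evL p x + evL q x
  | [], q, x => by simp [addL, ENG_nil]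
  | c :: p, [], x => by simp [addL, ENG_nil]
  | c :: p, d :: q, x => by
    simp only [addL, ENG_cons, ENG_add p q x]
    push_cast
    ring

theorem ENG_smul (c : ℤ) (q : List ℤ) (x : ℝ) :
    evL (q.map fun d => c * d) x = c * evL q x := by
  induction q with
  | nil => simp [ENG_nil]
  | cons d q ih =>
    simp only [List.map_cons, ENG_cons, ih]
    push_cast
    ring

theorem ENG_mul (p q : List ℤ) (x : ℝ) : evL (mulL p q) x = evL p x * evL q x := by
  induction p with
  | nil => simp [mulL, ENG_nil]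
  | cons c p ih =>
    simp only [mulL, ENG_add, ENG_smul, ENG_cons, ih]
    push_cast
    ring

theorem ENG_pow (p : List ℤ) (m : ℕ) (x : ℝ) : evL (powL p m) x = evL p x ^ m := by
  induction m with
  | zero => simp [powL, ENG_cons, ENG_nil]
  | succ m ih => rw [powL, ENG_mul, ih, pow_succ, mul_comm]

theorem ENG_cont (l : List ℤ) : Continuous fun x : ℝ => evL l x := by
  induction l with
  | nil => simpa [ENG_nil] using continuous_const
  | cons c l ih =>
    simp only [ENG_cons]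
    fun_prop

theorem ENG_int (l : List ℤ) : ∀ n : ℕ, 1 ≤ n →
    (∫ x in (0 : ℝ)..1, evL l x * x ^ (n - 1)) = ((itg n l : ℚ) : ℝ) := by
  induction l with
  | nil =>
    intro n _
    simp [ENG_nil, itg]
  | cons c l ih =>
    intro n hn
    obtain ⟨k, rfl⟩ : ∃ k, n = k + 1 := ⟨n - 1, by omega⟩
    have h2 := ih (k + 1 + 2) (by omega)
    have e : (fun x : ℝ => evL (c :: l) x * x ^ (k + 1 - 1)) =
        fun x => (c : ℝ) * x ^ k + evL l x * x ^ (k + 1 + 2 - 1) := by
      funext x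
      rw [ENG_cons]
      simp only [Nat.add_sub_cancel]
      have : k + 1 + 2 - 1 = k + 2 := by omega
      rw [this, pow_add]
      ring
    rw [e, intervalIntegral.integral_add, h2, intervalIntegral.integral_const_mul, integral_pow]
    · simp only [itg]
      push_cast
      simp
      ring
    · exact (by fun_prop : Continuous fun x : ℝ => (c : ℝ) * x ^ k).intervalIntegrable _ _
    · exact ((ENG_cont l).mul (continuous_pow _)).intervalIntegrable _ _

theorem ENG_range (m : ℕ) : ∀ (f : ℕ → ℤ) (x : ℝ),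
    evL ((List.range m).map f) x = ∑ k ∈ Finset.range m, (f k : ℝ) * x ^ (2 * k) := by
  induction m with
  | zero => intro f x; simp [ENG_nil]
  | succ m ih =>
    intro f x
    rw [List.range_succ_eq_map, List.map_cons, List.map_map, ENG_cons,
      ih (f ∘ Nat.succ) x, Finset.sum_range_succ', Finset.mul_sum]
    rw [add_comm]
    congr 1
    · refine Finset.sum_congr rfl fun k _ => ?_
      simp only [Function.comp, Nat.succ_eq_add_one]
      ring
    · simp

/-! ### The coefficients -/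

theorem ENG_W (n k : ℕ) : W n k = (Wn n k : ℝ) := by
  induction k with
  | zero => simp [W, Wn]
  | succ k ih =>
    have : W n (k + 1) = W n k * ((2 * (k : ℝ) + 2) * ((n : ℝ) + 2 * k)) := by
      unfold W
      rw [Finset.prod_range_succ]
    rw [this, ih, Wn]
    push_cast
    ring

theorem ENG_Wn_pos (n k : ℕ) (hn : 1 ≤ n) : 0 < Wn n k := by
  induction k with
  | zero => simp [Wn]
  | succ k ih =>
    rw [Wn]
    positivity

theorem ENG_floor (A D : ℕ) (hD : 0 < D) (B : ℝ) (hB : 0 < B) :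
    |(A : ℝ) / D / B - ((A / D : ℕ) : ℝ) / B| ≤ 1 / B := by
  have h1 : ((A / D : ℕ) : ℝ) ≤ (A : ℝ) / D := Nat.cast_div_le
  have h2 : (A : ℝ) / D ≤ ((A / D : ℕ) : ℝ) + 1 := by
    have hD' : (0 : ℝ) < D := by exact_mod_cast hD
    rw [div_le_iff₀ hD']
    have := Nat.lt_div_mul_add (a := A) hD
    have h3 : (A : ℝ) < ((A / D : ℕ) : ℝ) * D + D := by exact_mod_cast this
    linarith
  rw [← sub_div, abs_div, abs_of_pos hB, abs_of_nonneg (by linarith)]
  gcongr
  linarith

theorem ENG_term (n u v b k : ℕ) (hn : 1 ≤ n) (hv : 0 < v) (x : ℝ)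
    (h0 : 0 ≤ x) (h1 : x ≤ 1) (R : ℝ) (hR : R = (u : ℝ) / v) :
    |(-1) ^ k * (R * x) ^ (2 * k) / W n k - (cof n u v b k : ℝ) * x ^ (2 * k) / 2 ^ b| ≤
      1 / 2 ^ b := by
  have hW := ENG_Wn_pos n k hn
  have hW' : (0 : ℝ) < (Wn n k : ℝ) := by exact_mod_cast hW
  have hv' : (0 : ℝ) < (v : ℝ) := by exact_mod_cast hv
  have hD : 0 < Wn n k * v ^ (2 * k) := by positivity
  have key := ENG_floor (2 ^ b * u ^ (2 * k)) (Wn n k * v ^ (2 * k)) hD (2 ^ b) (by positivity)
  have e : (-1) ^ k * (R * x) ^ (2 * k) / W n k - (cof n u v b k : ℝ) * x ^ (2 * k) / 2 ^ b =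
      (-1) ^ k * x ^ (2 * k) *
        (((2 ^ b * u ^ (2 * k) : ℕ) : ℝ) / ((Wn n k * v ^ (2 * k) : ℕ) : ℝ) / 2 ^ b -
          ((2 ^ b * u ^ (2 * k) / (Wn n k * v ^ (2 * k)) : ℕ) : ℝ) / 2 ^ b) := by
    have e1 : ((2 ^ b * u ^ (2 * k) : ℕ) : ℝ) / ((Wn n k * v ^ (2 * k) : ℕ) : ℝ) / 2 ^ b =
        R ^ (2 * k) / W n k := by
      rw [hR, ENG_W]
      push_cast
      rw [div_pow]
      field_simp
    have ec : (cof n u v b k : ℝ) =
        (-1) ^ k * ((2 ^ b * u ^ (2 * k) / (Wn n k * v ^ (2 * k)) : ℕ) : ℝ) := by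
      unfold cof
      rw [Int.cast_mul, Int.cast_natCast, Int.cast_pow, Int.cast_neg, Int.cast_one]
    rw [e1, ec, mul_pow]
    ring
  rw [e, abs_mul, abs_mul, abs_pow, abs_neg, abs_one, one_pow, one_mul,
    abs_of_nonneg (by positivity : (0 : ℝ) ≤ x ^ (2 * k))]
  have hx : x ^ (2 * k) ≤ 1 := pow_le_one₀ h0 h1
  calc x ^ (2 * k) * _ ≤ 1 * (1 / 2 ^ b) :=
        mul_le_mul hx key (abs_nonneg _) zero_le_one
    _ = 1 / 2 ^ b := one_mul _

theorem ENG_poly (n u v b N : ℕ) (hn : 1 ≤ n) (hv : 0 < v) (x : ℝ)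
    (h0 : 0 ≤ x) (h1 : x ≤ 1) (R : ℝ) (hR : R = (u : ℝ) / v) :
    |P n N (R * x) - evL (cofs n u v b N) x / 2 ^ b| ≤ ((N : ℝ) + 1) / 2 ^ b := by
  unfold P cofs
  rw [ENG_range, Finset.sum_div, ← Finset.sum_sub_distrib]
  refine (Finset.abs_sum_le_sum_abs _ _).trans ?_
  refine (Finset.sum_le_sum fun k _ => ENG_term n u v b k hn hv x h0 h1 R hR).trans ?_
  rw [Finset.sum_const, Finset.card_range, nsmul_eq_mul]
  push_cast
  exact le_of_eq (by ring)

theorem p_ENG : T_ENG := by
  intro n φ φ' hn hB u v b N m hu hv R δ hR hδ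
  have hu' : (0 : ℝ) < (u : ℝ) := by exact_mod_cast hu
  have hv' : (0 : ℝ) < (v : ℝ) := by exact_mod_cast hv
  have hR0 : 0 < R := by rw [hR]; positivity
  have hWp : 0 < W n (N + 1) := by
    rw [ENG_W]; exact_mod_cast ENG_Wn_pos n (N + 1) hn
  have hδ0 : 0 ≤ δ := by rw [hδ]; positivity
  have hφc : Continuous φ := continuous_iff_continuousAt.mpr fun r => (hB.der r).continuousAt
  set y : ℝ → ℝ := fun x => evL (cofs n u v b N) x / 2 ^ b with hy
  have hyc : Continuous y := (ENG_cont _).div_const _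
  -- pointwise estimate
  have hpt : ∀ x, 0 ≤ x → x ≤ 1 → |φ (R * x) - y x| ≤ δ := by
    intro x h0 h1
    have a1 := ENG_poly n u v b N hn hv x h0 h1 R hR
    have a2 := hB.tay N (R * x)
    have a3 : |R * x| ^ (2 * N + 2) / W n (N + 1) ≤ R ^ (2 * N + 2) / W n (N + 1) := by
      have : |R * x| ≤ R := by
        rw [abs_of_nonneg (by positivity)]
        calc R * x ≤ R * 1 := by gcongr
          _ = R := mul_one R
      gcongr
    calc |φ (R * x) - y x| = |(φ (R * x) - P n N (R * x)) + (P n N (R * x) - y x)| := by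
          ring_nf
      _ ≤ |φ (R * x) - P n N (R * x)| + |P n N (R * x) - y x| := abs_add_le _ _
      _ ≤ δ := by rw [hδ]; linarith
  have hpw : ∀ x, 0 ≤ x → x ≤ 1 →
      |φ (R * x) ^ m - y x ^ m| ≤ m * δ * (1 + δ) ^ (m - 1) := by
    intro x h0 h1
    have h := hpt x h0 h1
    have hφ1 := hB.le1 (R * x)
    have hy1 : |y x| ≤ 1 + δ := by
      calc |y x| = |φ (R * x) - (φ (R * x) - y x)| := by ring_nf
        _ ≤ |φ (R * x)| + |φ (R * x) - y x| := abs_sub _ _
        _ ≤ 1 + δ := by linarith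
    have hmx : max |φ (R * x)| |y x| ≤ 1 + δ := max_le (by linarith) hy1
    have hmx0 : 0 ≤ max |φ (R * x)| |y x| := le_max_of_le_left (abs_nonneg _)
    calc |φ (R * x) ^ m - y x ^ m| ≤
          |φ (R * x) - y x| * m * max |φ (R * x)| |y x| ^ (m - 1) := abs_pow_sub_pow_le _ _ _
      _ ≤ δ * m * (1 + δ) ^ (m - 1) := by gcongr
      _ = m * δ * (1 + δ) ^ (m - 1) := by ring
  -- substitution
  have hsub : (∫ r in (0 : ℝ)..R, φ r ^ m * r ^ (n - 1)) =
      R ^ n * ∫ x in (0 : ℝ)..1, φ (R * x) ^ m * x ^ (n - 1) := by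
    have h := intervalIntegral.mul_integral_comp_mul_left (a := 0) (b := 1)
      (f := fun r => φ r ^ m * r ^ (n - 1)) R
    rw [mul_zero, mul_one] at h
    rw [← h]
    have e : ∀ x : ℝ, φ (R * x) ^ m * (R * x) ^ (n - 1) =
        R ^ (n - 1) * (φ (R * x) ^ m * x ^ (n - 1)) := by
      intro x
      rw [mul_pow]
      ring
    simp_rw [e]
    rw [intervalIntegral.integral_const_mul, ← mul_assoc]
    congr 1
    rw [← pow_succ']
    congr 1
    omega
  have hval : R ^ n * ((itg n (powL (cofs n u v b N) m) : ℚ) : ℝ) / 2 ^ (b * m) =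
      R ^ n * ∫ x in (0 : ℝ)..1, y x ^ m * x ^ (n - 1) := by
    rw [← ENG_int _ n hn, mul_div_assoc, ← intervalIntegral.integral_div]
    congr 2
    funext x
    rw [ENG_pow, hy]
    simp only
    rw [div_pow, ← pow_mul]
    ring
  rw [hsub, hval, ← mul_sub, ← intervalIntegral.integral_sub, abs_mul,
    abs_of_pos (by positivity : (0 : ℝ) < R ^ n)]
  · have hint : |∫ x in (0 : ℝ)..1,
        (φ (R * x) ^ m * x ^ (n - 1) - y x ^ m * x ^ (n - 1))| ≤
        ∫ x in (0 : ℝ)..1, m * δ * (1 + δ) ^ (m - 1) * x ^ (n - 1) := by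
      have := intervalIntegral.norm_integral_le_of_norm_le (μ := volume)
        (f := fun x => φ (R * x) ^ m * x ^ (n - 1) - y x ^ m * x ^ (n - 1))
        (g := fun x => m * δ * (1 + δ) ^ (m - 1) * x ^ (n - 1)) (zero_le_one' ℝ)
        (Filter.Eventually.of_forall fun x hx => by
          rw [Real.norm_eq_abs, ← sub_mul, abs_mul,
            abs_of_nonneg (by have := hx.1.le; positivity : (0 : ℝ) ≤ x ^ (n - 1))]
          have h0 := hx.1.le
          exact mul_le_mul_of_nonneg_right (hpw x h0 hx.2) (by positivity))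
        ((by fun_prop : Continuous fun x : ℝ =>
          m * δ * (1 + δ) ^ (m - 1) * x ^ (n - 1)).intervalIntegrable _ _)
      simpa [Real.norm_eq_abs] using this
    have hv1 : (∫ x in (0 : ℝ)..1, m * δ * (1 + δ) ^ (m - 1) * x ^ (n - 1)) =
        (m * δ * (1 + δ) ^ (m - 1)) / n := by
      rw [intervalIntegral.integral_const_mul, integral_pow]
      have hc : ((n - 1 : ℕ) : ℝ) + 1 = n := by
        rw [Nat.cast_sub hn]; simp
      rw [hc]
      have : n - 1 + 1 ≠ 0 := by omega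
      simp only [one_pow, zero_pow this]
      ring
    rw [hv1] at hint
    calc R ^ n * _ ≤ R ^ n * ((m * δ * (1 + δ) ^ (m - 1)) / n) := by gcongr
      _ = R ^ n / n * (m * δ * (1 + δ) ^ (m - 1)) := by ring
  · exact (by fun_prop : Continuous fun x : ℝ => φ (R * x) ^ m * x ^ (n - 1)).intervalIntegrable
      _ _
  · exact (by fun_prop : Continuous fun x : ℝ => y x ^ m * x ^ (n - 1)).intervalIntegrable _ _

end Pool.Agent.TRC
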