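import Pool.Agent.TRC.Targets
import Pool.Agent.TRC.Lem

set_option autoImplicit false

/-!
# Project TRC: the Euler-Lagrange equation
-/

noncomputable section

open MeasureTheory Set Filter
open scoped ENNReal RealInnerProductSpace Topology

namespace Pool.Agent.TRC

open Pool.Agent.ExpMax

namespace EUL_

/-- Convexity of `|x| ^ p`. -/
theorem grad (p a b : ℝ) (hp : 2 ≤ p) :
    |a| ^ p + p * (|a| ^ (p - 2) * (a * b)) ≤ |a + b| ^ p := by
  rcases eq_or_ne a 0 with rfl | ha
  · rw [abs_zero, Real.zero_rpow (by linarith)]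
    simp only [zero_mul, mul_zero, add_zero, zero_add]
    exact Real.rpow_nonneg (abs_nonneg _) _
  · have h0 : 0 < |a| := abs_pos.mpr ha
    have h1 : |a| ^ (p - 2) * (a * b) = |a| ^ p * (b / a) := by
      have e : |a| ^ p = |a| ^ (p - 2) * a ^ 2 := by
        rw [← sq_abs a, ← Real.rpow_natCast |a| 2, ← Real.rpow_add h0]
        congr 1
        push_cast
        ring
      rw [e]
      field_simp
    have h2 : |a + b| ^ p = |a| ^ p * |1 + b / a| ^ p := by
      rw [← Real.mul_rpow (abs_nonneg _) (abs_nonneg _), ← abs_mul]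
      congr 2
      field_simp
    have h3 : 1 + p * (b / a) ≤ |1 + b / a| ^ p := by
      rcases le_or_gt (-1) (b / a) with h | h
      · rw [abs_of_nonneg (by linarith)]
        exact one_add_mul_self_le_rpow_one_add h (by linarith)
      · have h4 : 0 ≤ |1 + b / a| ^ p := Real.rpow_nonneg (abs_nonneg _) _
        have h5 : p * (b / a) ≤ p * (-1) := by
          apply mul_le_mul_of_nonneg_left h.le (by linarith)
        linarith
    rw [h1, h2]
    have h6 : 0 ≤ |a| ^ p := Real.rpow_nonneg (abs_nonneg _) _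
    calc |a| ^ p + p * (|a| ^ p * (b / a)) = |a| ^ p * (1 + p * (b / a)) := by ring
      _ ≤ |a| ^ p * |1 + b / a| ^ p := mul_le_mul_of_nonneg_left h3 h6

/-- Young's inequality in a crude form. -/
theorem young (p a v : ℝ) (hp : 2 ≤ p) (ha : 0 ≤ a) (hv : 0 ≤ v) :
    a ^ (p - 2) * (v * a) ≤ a ^ p + v ^ p := by
  have key : ∀ m : ℝ, 0 ≤ m → m ^ (p - 2) * (m * m) ≤ m ^ p := by
    intro m hm
    rcases eq_or_lt_of_le hm with rfl | hm'
    · rw [mul_zero, mul_zero]
      exact Real.rpow_nonneg le_rfl _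
    · apply le_of_eq
      have e : m * m = m ^ (2 : ℝ) := by
        rw [Real.rpow_two]
        ring
      rw [e, ← Real.rpow_add hm']
      congr 1
      ring
  rcases le_total a v with h | h
  · have h1 : a ^ (p - 2) * (v * a) ≤ v ^ (p - 2) * (v * v) := by
      apply mul_le_mul (Real.rpow_le_rpow ha h (by linarith)) _ (by positivity)
        (Real.rpow_nonneg hv _)
      exact mul_le_mul_of_nonneg_left h hv
    have h2 := key v hv
    have h3 : 0 ≤ a ^ p := Real.rpow_nonneg ha _
    linarith
  · have h1 : a ^ (p - 2) * (v * a) ≤ a ^ (p - 2) * (a * a) := by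
      apply mul_le_mul_of_nonneg_left _ (Real.rpow_nonneg ha _)
      exact mul_le_mul_of_nonneg_right h ha
    have h2 := key a ha
    have h3 : 0 ≤ v ^ p := Real.rpow_nonneg hv _
    linarith

section

variable {F : Type} [NormedAddCommGroup F] [InnerProductSpace ℝ F] [FiniteDimensional ℝ F]
    [MeasurableSpace F] [BorelSpace F]

theorem int_B (hIQ : T_IQ) (hn : 3 ≤ Module.finrank ℝ F) (p : ℝ) (hp : 4 ≤ p) (f h : H F) :
    Integrable (fun y => ((‖E f y‖ ^ (p - 2) : ℝ) : ℂ) *
      ((starRingEnd ℂ) (E h y) * E f y)) := by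
  have h1 : 1 ≤ Module.finrank ℝ F := by omega
  have i1 := ((hIQ F hn p hp).1 f).1
  have i2 := ((hIQ F hn p hp).1 h).1
  refine (i1.add i2).mono' ?_ (Filter.Eventually.of_forall fun y => ?_)
  · have c1 : Continuous fun y => ‖E f y‖ ^ (p - 2) :=
      (continuous_E h1 f).norm.rpow_const fun _ => Or.inr (by linarith)
    have c2 : Continuous fun y => (starRingEnd ℂ) (E h y) :=
      Complex.continuous_conj.comp (continuous_E h1 h)
    exact ((Complex.continuous_ofReal.comp c1).mul
      (c2.mul (continuous_E h1 f))).aestronglyMeasurable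
  · rw [norm_mul, norm_mul, Complex.norm_real, RCLike.norm_conj,
      Real.norm_of_nonneg (Real.rpow_nonneg (norm_nonneg _) _)]
    exact young p _ _ (by linarith) (norm_nonneg _) (norm_nonneg _)

/-- The real part of the equation. -/
theorem re_part (hIQ : T_IQ) (hn : 3 ≤ Module.finrank ℝ F) (p : ℝ) (hp : 4 ≤ p) (f : H F)
    (hf : IsMx p f) (hr : Rl f) (h : H F) :
    J p f * (inner ℂ h f).re = (B (p - 2) f h f).re := by
  have h1 : 1 ≤ Module.finrank ℝ F := by omega
  have hint := int_B hIQ hn p hp f h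
  set M := J p f with hM
  set L := (B (p - 2) f h f).re with hL
  set c := (inner ℂ h f).re with hc
  have hLr : L = ∫ y, ‖E f y‖ ^ (p - 2) * ((E f y).re * (E h y).re) := by
    rw [hL]
    unfold B
    have e := Complex.reCLM.integral_comp_comm hint
    rw [Complex.reCLM_apply] at e
    rw [← e]
    refine integral_congr_ae (Filter.Eventually.of_forall fun y => ?_)
    simp only [Complex.reCLM_apply]
    rw [Complex.re_ofReal_mul, Complex.mul_re, Complex.conj_re, Complex.conj_im, hr y]
    ring
  have hLi : Integrable fun y => ‖E f y‖ ^ (p - 2) * ((E f y).re * (E h y).re) := by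
    refine (Complex.reCLM.integrable_comp hint).congr (Filter.Eventually.of_forall fun y => ?_)
    simp only [Complex.reCLM_apply]
    rw [Complex.re_ofReal_mul, Complex.mul_re, Complex.conj_re, Complex.conj_im, hr y]
    ring
  have lower : ∀ t : ℝ, M + p * t * L ≤ J p (f + (t : ℂ) • h) := by
    intro t
    have i1 := ((hIQ F hn p hp).1 f).1
    have i2 := ((hIQ F hn p hp).1 (f + (t : ℂ) • h)).1
    have e : M + p * t * L = ∫ y, (‖E f y‖ ^ p +
        p * t * (‖E f y‖ ^ (p - 2) * ((E f y).re * (E h y).re))) := by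
      rw [integral_add i1 (hLi.const_mul _), integral_const_mul, ← hLr, hM]
      rfl
    rw [e]
    unfold J
    refine integral_mono (i1.add (hLi.const_mul _)) i2 fun y => ?_
    simp only
    have g := grad p (E f y).re (t * (E h y).re) (by linarith)
    have n1 : ‖E f y‖ = |(E f y).re| := hr.norm_eq y
    have n2 : |(E f y).re + t * (E h y).re| ≤ ‖E (f + (t : ℂ) • h) y‖ := by
      rw [E_add h1, E_smul h1]
      have := Complex.abs_re_le_norm (E f y + (t : ℂ) * E h y)
      rwa [Complex.add_re, Complex.re_ofReal_mul] at this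
    have n3 : |(E f y).re + t * (E h y).re| ^ p ≤ ‖E (f + (t : ℂ) • h) y‖ ^ p :=
      Real.rpow_le_rpow (abs_nonneg _) n2 (by linarith)
    rw [n1]
    calc _ = |(E f y).re| ^ p +
        p * (|(E f y).re| ^ (p - 2) * ((E f y).re * (t * (E h y).re))) := by ring
      _ ≤ _ := g.trans n3
  have upper : ∀ t : ℝ, J p (f + (t : ℂ) • h) ≤
      M * (1 + 2 * t * c + t ^ 2 * ‖h‖ ^ 2) ^ (p / 2) := by
    intro t
    have e1 : ‖f + (t : ℂ) • h‖ ^ 2 = 1 + 2 * t * c + t ^ 2 * ‖h‖ ^ 2 := by
      rw [norm_add_sq (𝕜 := ℂ), hf.norm_one, norm_smul, inner_smul_right, mul_pow,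
        Complex.norm_real, Real.norm_eq_abs, sq_abs]
      have e3 : RCLike.re ((t : ℂ) * inner ℂ f h) = t * c := by
        have e4 : RCLike.re ((t : ℂ) * inner ℂ f h) = ((t : ℂ) * inner ℂ f h).re := rfl
        rw [e4, Complex.re_ofReal_mul, ← inner_conj_symm, Complex.conj_re]
      rw [e3]
      ring
    have e2 : (‖f + (t : ℂ) • h‖ ^ 2) ^ (p / 2) = ‖f + (t : ℂ) • h‖ ^ p := by
      rw [← Real.rpow_natCast, ← Real.rpow_mul (norm_nonneg _)]
      congr 1
      push_cast
      ring
    rw [← e1, e2]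
    exact hf.max _
  set φ : ℝ → ℝ := fun t => M * (1 + 2 * t * c + t ^ 2 * ‖h‖ ^ 2) ^ (p / 2) - (M + p * t * L)
    with hφ
  have hmin : IsLocalMin φ 0 := by
    refine Filter.Eventually.of_forall fun t => ?_
    have e0 : φ 0 = 0 := by simp [hφ]
    rw [e0]
    have := (lower t).trans (upper t)
    simp only [hφ]
    linarith
  have hder : HasDerivAt φ (M * ((2 * c) * (p / 2) * 1 ^ (p / 2 - 1)) - p * L) 0 := by
    have d1 : HasDerivAt (fun t : ℝ => 1 + 2 * t * c + t ^ 2 * ‖h‖ ^ 2) (2 * c) 0 := by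
      have a1 : HasDerivAt (fun t : ℝ => 2 * t * c) (2 * c) 0 := by
        have := ((hasDerivAt_id (0 : ℝ)).const_mul 2).mul_const c
        simpa using this
      have a2 : HasDerivAt (fun t : ℝ => t ^ 2 * ‖h‖ ^ 2) 0 0 := by
        have := ((hasDerivAt_pow 2 (0 : ℝ)).mul_const (‖h‖ ^ 2))
        simpa using this
      have a3 := (a1.const_add 1).add a2
      rw [add_zero] at a3
      exact a3
    have d2 := d1.rpow_const (p := p / 2) (Or.inl (by norm_num))
    have d3 := d2.const_mul M
    have d4 : HasDerivAt (fun t : ℝ => M + p * t * L) (p * L) 0 := by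
      have := (((hasDerivAt_id (0 : ℝ)).const_mul p).mul_const L).const_add M
      simpa using this
    have d5 := d3.sub d4
    have e5 : (1 + 2 * (0 : ℝ) * c + 0 ^ 2 * ‖h‖ ^ 2) = 1 := by ring
    rw [e5] at d5
    exact d5
  have hz := hmin.hasDerivAt_eq_zero hder
  rw [Real.one_rpow] at hz
  have hp0 : p ≠ 0 := by linarith
  have : p * (M * c - L) = 0 := by linarith
  rcases mul_eq_zero.mp this with h' | h'
  · exact absurd h' hp0
  · linarith

theorem B_I (hn : 1 ≤ Module.finrank ℝ F) (q : ℝ) (f h : H F) :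
    B q f (Complex.I • h) f = -Complex.I * B q f h f := by
  unfold B
  rw [← integral_const_mul]
  congr 1
  funext y
  rw [E_smul hn, map_mul, Complex.conj_I]
  ring

end

end EUL_

open EUL_ in
theorem p_EUL (hIQ : T_IQ) : T_EUL := by
  intro F _ _ _ _ _ hn p f hp hf hr h
  have h1 : 1 ≤ Module.finrank ℝ F := by omega
  apply Complex.ext
  · rw [Complex.re_ofReal_mul]
    exact re_part hIQ hn p hp f hf hr h
  · rw [Complex.im_ofReal_mul]
    have e := re_part hIQ hn p hp f hf hr (Complex.I • h)
    rw [B_I h1, inner_smul_left, Complex.conj_I] at e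
    simpa using e

end Pool.Agent.TRC
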