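import Pool.Agent.TRC.Targets
import Pool.Agent.TRC.Lem

/-!
# Project TRC (MP_9044d4_an): target EXI, existence of a maximizer
-/

set_option autoImplicit false

noncomputable section

open MeasureTheory Set Filter
open scoped ENNReal RealInnerProductSpace Topology

namespace Pool.Agent.TRC

open Pool.Agent.ExpMax

namespace EXI_

section

variable {F : Type} [NormedAddCommGroup F] [InnerProductSpace ℝ F] [FiniteDimensional ℝ F]
    [MeasurableSpace F] [BorelSpace F]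

/-- Homogeneity: a bound on the unit sphere gives a bound everywhere. -/
theorem homog (hn : 1 ≤ Module.finrank ℝ F) {p M : ℝ} (hp : 0 < p)
    (hM : ∀ g : H F, ‖g‖ = 1 → J p g ≤ M) (h : H F) : J p h ≤ M * ‖h‖ ^ p := by
  by_cases h0 : h = 0
  · have h1 : J p h = 0 := by
      unfold J
      rw [h0]
      simp [E_zero hn, Real.zero_rpow hp.ne']
    rw [h1, h0, norm_zero, Real.zero_rpow hp.ne', mul_zero]
  · have hpos : 0 < ‖h‖ := norm_pos_iff.mpr h0
    have h1 : ‖(((‖h‖⁻¹ : ℝ) : ℂ)) • h‖ = 1 := by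
      rw [norm_smul, Complex.norm_real, norm_inv, norm_norm, inv_mul_cancel₀ hpos.ne']
    have h2 := hM _ h1
    rw [J_smul hn, Complex.norm_real, norm_inv, norm_norm,
      Real.inv_rpow hpos.le] at h2
    have h3 : 0 < ‖h‖ ^ p := Real.rpow_pos_of_pos hpos p
    rw [inv_mul_le_iff₀ h3] at h2
    linarith

/-- Translation of the extension does not change `J`. -/
theorem J_translate {p : ℝ} {g g' : H F} {b : F} (h : ∀ y, E g' y = E g (y + b)) :
    J p g' = J p g := by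
  unfold J
  simp_rw [h]
  exact integral_add_right_eq_self (fun y => ‖E g y‖ ^ p) b

/-- A lower bound for the supremum of the extension. -/
theorem exists_large (hI4 : ∀ f : H F, Integrable (fun y => ‖E f y‖ ^ (4 : ℝ)) ∧
      J 4 f ≤ A F 4 * ‖f‖ ^ (4 : ℝ)) {p : ℝ} (hp : 4 < p)
    (hIp : ∀ f : H F, Integrable (fun y => ‖E f y‖ ^ p)) {c δ : ℝ} (hc : 0 < c)
    (hcδ : c ^ (p - 4) * A F 4 < δ) {g : H F} (hg : ‖g‖ = 1) (hJ : δ ≤ J p g) :
    ∃ y, c ≤ ‖E g y‖ := by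
  by_contra hcon
  push Not at hcon
  have h1 : J p g ≤ c ^ (p - 4) * J 4 g := by
    unfold J
    rw [← integral_const_mul]
    refine integral_mono (hIp g) ((hI4 g).1.const_mul _) ?_
    intro y
    simp only
    have h2 : ‖E g y‖ ^ p = ‖E g y‖ ^ (p - 4) * ‖E g y‖ ^ (4 : ℝ) := by
      rw [← Real.rpow_add_of_nonneg (norm_nonneg _) (by linarith) (by norm_num)]
      congr 1
      ring
    rw [h2]
    refine mul_le_mul_of_nonneg_right ?_ (Real.rpow_nonneg (norm_nonneg _) _)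
    exact Real.rpow_le_rpow (norm_nonneg _) (hcon y).le (by linarith)
  have h3 : J 4 g ≤ A F 4 := by
    have h4 := (hI4 g).2
    rw [hg, Real.one_rpow, mul_one] at h4
    exact h4
  have h5 : c ^ (p - 4) * J 4 g ≤ c ^ (p - 4) * A F 4 :=
    mul_le_mul_of_nonneg_left h3 (Real.rpow_nonneg hc.le _)
  linarith

end

end EXI_

theorem p_EXI (h_IQ : T_IQ) (h_WK : T_WK) (h_BL : T_BL) (h_MOD : T_MOD) : T_EXI := by
  intro F _ _ _ _ _ hF p hp
  have hn : 1 ≤ Module.finrank ℝ F := by omega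
  have hp0 : 0 < p := by linarith
  have hI4 := (h_IQ F hF 4 le_rfl).1
  have hA4 := (h_IQ F hF 4 le_rfl).2.2.1
  obtain ⟨hIp, -, hAp, o, ho, hJo⟩ := h_IQ F hF p hp.le
  -- the supremum
  let S : Set ℝ := {x | ∃ g : H F, ‖g‖ = 1 ∧ J p g = x}
  have hSne : S.Nonempty := ⟨J p o, o, ho, rfl⟩
  have hSb : BddAbove S := by
    refine ⟨A F 4, ?_⟩
    rintro x ⟨g, hg, rfl⟩
    have h1 := (hIp g).2
    rw [hg, Real.one_rpow, mul_one] at h1
    exact h1
  obtain ⟨M, hM⟩ : ∃ M, M = sSup S := ⟨_, rfl⟩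
  have hMle : ∀ g : H F, ‖g‖ = 1 → J p g ≤ M := by
    intro g hg
    rw [hM]
    exact le_csSup hSb ⟨g, hg, rfl⟩
  have hMpos : 0 < M := by
    have h1 := hMle o ho
    rw [hJo] at h1
    linarith
  have hhom : ∀ h : H F, J p h ≤ M * ‖h‖ ^ p := EXI_.homog hn hp0 hMle
  obtain ⟨u, -, hu, huS⟩ := exists_seq_tendsto_sSup hSne hSb
  rw [← hM] at hu
  -- the constant `c`
  obtain ⟨c, hc, hcM⟩ : ∃ c : ℝ, 0 < c ∧ c ^ (p - 4) * A F 4 < M / 2 := by
    have h1 : Tendsto (fun c : ℝ => c ^ (p - 4) * A F 4) (𝓝 0) (𝓝 (0 ^ (p - 4) * A F 4)) :=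
      (Tendsto.rpow_const tendsto_id (Or.inr (by linarith))).mul_const _
    rw [Real.zero_rpow (by linarith), zero_mul] at h1
    have h2 : ∀ᶠ c in 𝓝 (0 : ℝ), c ^ (p - 4) * A F 4 < M / 2 :=
      h1.eventually (gt_mem_nhds (by linarith))
    have h3 : ∀ᶠ c in 𝓝[>] (0 : ℝ), c ^ (p - 4) * A F 4 < M / 2 := h2.filter_mono nhdsWithin_le_nhds
    have h4 : ∀ᶠ c in 𝓝[>] (0 : ℝ), 0 < c := self_mem_nhdsWithin
    obtain ⟨c, hc⟩ := (h3.and h4).exists
    exact ⟨c, hc.2, hc.1⟩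
  obtain ⟨N, hN⟩ : ∃ N, ∀ k ≥ N, M / 2 ≤ u k := by
    have h1 : ∀ᶠ k in atTop, M / 2 < u k := hu.eventually (lt_mem_nhds (by linarith))
    obtain ⟨N, hN⟩ := eventually_atTop.mp h1
    exact ⟨N, fun k hk => (hN k hk).le⟩
  have hex : ∀ k : ℕ, ∃ f : H F, ‖f‖ = 1 ∧ c ≤ ‖E f 0‖ ∧ J p f = u (k + N) := by
    intro k
    obtain ⟨g, hg, hgu⟩ := huS (k + N)
    obtain ⟨y, hy⟩ := EXI_.exists_large hI4 hp (fun f => (hIp f).1) hc hcM hg
      (by rw [hgu]; exact hN _ (by omega))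
    obtain ⟨g', hg', hE⟩ := (h_MOD F hn g).1 y
    refine ⟨g', by rw [hg', hg], ?_, ?_⟩
    · rw [hE, zero_add]
      exact hy
    · rw [EXI_.J_translate hE, hgu]
  choose f hf hfc hfJ using hex
  have hfJlim : Tendsto (fun k => J p (f k)) atTop (𝓝 M) := by
    simp_rw [hfJ]
    exact hu.comp (tendsto_add_atTop_nat N)
  obtain ⟨g, m, hm, hg1, hweak⟩ := h_WK F hn f (fun k => (hf k).le)
  have hE : ∀ y, Tendsto (fun k => E (f (m k)) y) atTop (𝓝 (E g y)) := by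
    intro y
    have h1 := hweak (ch y)
    simp_rw [← E_eq hn] at h1
    exact h1
  have hg0 : 0 < ‖g‖ := by
    have h1 : c ≤ ‖E g 0‖ := ge_of_tendsto' (hE 0).norm (fun k => hfc (m k))
    have h2 := norm_E_le hn g 0
    linarith
  -- Brezis and Lieb
  obtain ⟨-, -, hBL⟩ := h_BL F volume p (A F 4) (by linarith) (fun k => E (f (m k))) (E g)
    (fun k => (continuous_E hn _).aestronglyMeasurable) (fun k => (hIp _).1)
    (fun k => by
      have h1 := (hIp (f (m k))).2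
      rw [hf, Real.one_rpow, mul_one] at h1
      exact h1) hE
  have hfm : Tendsto (fun k => J p (f (m k))) atTop (𝓝 M) := hfJlim.comp hm.tendsto_atTop
  have hdiff : Tendsto (fun k => J p (f (m k) - g)) atTop (𝓝 (M - J p g)) := by
    have h1 := hfm.sub hBL
    refine h1.congr fun k => ?_
    have h2 : J p (f (m k) - g) = ∫ x, ‖E (f (m k)) x - E g x‖ ^ p := by
      unfold J
      simp_rw [E_sub hn]
    rw [h2]
    unfold J
    ring
  have hnorm : Tendsto (fun k => ‖f (m k) - g‖ ^ p) atTop (𝓝 ((1 - ‖g‖ ^ 2) ^ (p / 2))) := by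
    have h1 : Tendsto (fun k => ‖f (m k) - g‖ ^ 2) atTop (𝓝 (1 - ‖g‖ ^ 2)) := by
      have h2 : Tendsto (fun k => (1 : ℝ) - 2 * (inner ℂ g (f (m k))).re + ‖g‖ ^ 2) atTop
          (𝓝 (1 - 2 * (inner ℂ g g).re + ‖g‖ ^ 2)) := by
        refine Tendsto.add_const _ (Tendsto.const_sub _ (Tendsto.const_mul _ ?_))
        exact (Complex.continuous_re.tendsto _).comp (hweak g)
      have h3 : (1 : ℝ) - 2 * (inner ℂ g g).re + ‖g‖ ^ 2 = 1 - ‖g‖ ^ 2 := by
        have h4 : (inner ℂ g g : ℂ).re = ‖g‖ ^ 2 := by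
          have h5 := inner_self_eq_norm_sq (𝕜 := ℂ) g
          simpa using h5
        rw [h4]
        ring
      rw [h3] at h2
      refine h2.congr fun k => ?_
      have h4 := norm_sub_sq (𝕜 := ℂ) (f (m k)) g
      have h5 : RCLike.re (inner ℂ (f (m k)) g) = (inner ℂ g (f (m k))).re := by
        rw [inner_re_symm]
        rfl
      rw [h4, h5, hf]
      ring
    have h2 : Tendsto (fun k => (‖f (m k) - g‖ ^ 2) ^ (p / 2)) atTop
        (𝓝 ((1 - ‖g‖ ^ 2) ^ (p / 2))) := h1.rpow_const (Or.inr (by linarith))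
    refine h2.congr fun k => ?_
    rw [← Real.rpow_natCast, ← Real.rpow_mul (norm_nonneg _)]
    congr 1
    push_cast
    ring
  have hlim : M - J p g ≤ M * (1 - ‖g‖ ^ 2) ^ (p / 2) :=
    le_of_tendsto_of_tendsto' hdiff (hnorm.const_mul M) (fun k => hhom _)
  have hJg : J p g ≤ M * (‖g‖ ^ 2) ^ (p / 2) := by
    have h1 := hhom g
    have h2 : (‖g‖ ^ 2) ^ (p / 2) = ‖g‖ ^ p := by
      rw [← Real.rpow_natCast, ← Real.rpow_mul (norm_nonneg _)]
      congr 1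
      push_cast
      ring
    rw [h2]
    exact h1
  have hg1' : ‖g‖ ^ 2 = 1 := by
    by_contra hne
    have hs0 : 0 < ‖g‖ ^ 2 := by positivity
    have hs1 : ‖g‖ ^ 2 < 1 := by
      refine lt_of_le_of_ne ?_ hne
      exact pow_le_one₀ hg0.le hg1
    have a1 : (‖g‖ ^ 2) ^ (p / 2) < ‖g‖ ^ 2 :=
      Real.rpow_lt_self_of_lt_one hs0 hs1 (by linarith)
    have a2 : (1 - ‖g‖ ^ 2) ^ (p / 2) < 1 - ‖g‖ ^ 2 :=
      Real.rpow_lt_self_of_lt_one (by linarith) (by linarith) (by linarith)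
    have a3 : M * (‖g‖ ^ 2) ^ (p / 2) < M * ‖g‖ ^ 2 := mul_lt_mul_of_pos_left a1 hMpos
    have a4 : M * (1 - ‖g‖ ^ 2) ^ (p / 2) < M * (1 - ‖g‖ ^ 2) :=
      mul_lt_mul_of_pos_left a2 hMpos
    linarith
  have hgn : ‖g‖ = 1 := by
    nlinarith [norm_nonneg g]
  rw [hg1', sub_self, Real.zero_rpow (by linarith), mul_zero] at hlim
  have hJM : J p g = M := le_antisymm (hMle g hgn) (by linarith)
  refine ⟨g, hgn, fun h => ?_⟩
  rw [hJM]
  exact hhom h

end Pool.Agent.TRC
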