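import Pool.Agent.TRC.Targets2
import Pool.Agent.TRC.Lem
import Pool.Agent.SPH4.FIN4

/-!
# Project TRC: from the sphere to the sections (FNP)
-/

set_option autoImplicit false

noncomputable section

open MeasureTheory Set Filter Pool.Agent.ExpMax
open scoped ENNReal RealInnerProductSpace Topology

namespace Pool.Agent.TRC

namespace FNP_

/-- The sharp inequality for square integrable functions. -/
theorem core {F : Type} [NormedAddCommGroup F] [InnerProductSpace ℝ F]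
    [FiniteDimensional ℝ F] [MeasurableSpace F] [BorelSpace F] {p : ℝ} (h : Sharp F p)
    (f : Metric.sphere (0 : F) 1 → ℂ) (hf : MemLp f 2 (prb F)) :
    Integrable (fun y => ‖ExpMax.Ext f y‖ ^ p) ∧
      ∫ y, ‖ExpMax.Ext f y‖ ^ p ≤ (∫ y : F, |u0 y| ^ p) *
        (∫ ω, ‖f ω‖ ^ 2 ∂(prb F)) ^ (p / 2) := by
  obtain ⟨h1, h2⟩ := h (hf.toLp f)
  have e1 : (fun y => ‖E (hf.toLp f) y‖ ^ p) = fun y => ‖ExpMax.Ext f y‖ ^ p := by
    funext y
    rw [E_toLp]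
  have e2 : ‖hf.toLp f‖ ^ p = (∫ ω, ‖f ω‖ ^ 2 ∂(prb F)) ^ (p / 2) := by
    rw [← norm_toLp hf, ← Real.rpow_natCast, ← Real.rpow_mul (norm_nonneg _)]
    congr 1
    push_cast
    ring
  unfold J at h2
  rw [e1] at h1 h2
  rw [e2] at h2
  exact ⟨h1, h2⟩

end FNP_

theorem p_FNP : T_FNP := by
  intro d p hd hp hS hA α γ hα hγ
  have hfr : Module.finrank ℝ (Fd d) = d + 1 := MAIN_finrank d
  have hprob := (tINV (Fd d) (by rw [hfr]; omega)).1
  obtain ⟨s₀, κ, R, τ₀, τ₁, c, hκ, hR, hc, h0, -, hτ, hσ⟩ := tELL tSLICE d α 0 γ (by omega)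
    (by simpa using hα) hγ
  obtain ⟨c₂, hc₂, hnorm⟩ := tNORMS d α 0 γ s₀ κ R c p (by omega) hα hκ hR hc (by linarith) hσ
  refine SPH4.FIN4_ell d α 0 γ p (by linarith) s₀ κ R c c₂ hprob hα hκ hR hc hσ hc₂ hnorm hA
    (fun f hf => FNP_.core hS f hf)
    (tBASIC tINV (Fd d) (by rw [hfr]; omega)).1 expTau ((Real.exp (-τ₀) : ℝ) : ℂ)
    (by exact_mod_cast (Real.exp_pos _).ne') ?_
  intro ω
  unfold expTau
  rw [hτ ω, h0 rfl, zero_mul, add_zero]

end Pool.Agent.TRC
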