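import Pool.Agent.TRC.Targets

/-!
# Project TRC (MP_9044d4_an): GEO

A nonradial centred function is annihilated by no field `vf e v c`, `⟪e, v⟫ = 0`, for a suitable
unit vector `e`: take `x` and `e` with `⟪x, e⟫ = 0`, `fderiv ℝ u x e ≠ 0`.
-/

set_option autoImplicit false

noncomputable section

open MeasureTheory Set Filter
open scoped ENNReal RealInnerProductSpace Topology

namespace Pool.Agent.TRC

open Pool.Agent.ExpMax

namespace GEO_

variable {F : Type} [NormedAddCommGroup F] [InnerProductSpace ℝ F]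

/-- The field on the line `x + s v`. -/
lemma vf_line (e v x : F) (s : ℝ) (hev : ⟪e, v⟫ = (0 : ℝ)) (hxe : ⟪x, e⟫ = (0 : ℝ)) :
    vf e v 0 (x + s • v) = ((⟪v, x⟫ : ℝ) + s * ‖v‖ ^ 2) • e := by
  have h1 : (⟪v, x + s • v⟫ : ℝ) = ⟪v, x⟫ + s * ‖v‖ ^ 2 := by
    rw [inner_add_right, real_inner_smul_right, real_inner_self_eq_norm_sq]
  have h2 : (⟪e, x + s • v⟫ : ℝ) = 0 := by
    rw [inner_add_right, real_inner_smul_right, hev, real_inner_comm, hxe]
    ring
  unfold vf
  rw [h1, h2, zero_smul, sub_zero, add_zero]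

/-- A unit vector orthogonal to `x` in whose direction the derivative at `x` is not zero. -/
lemma exists_unit {u : F → ℂ} (h : ¬ Rad u) :
    ∃ x e : F, ‖e‖ = 1 ∧ ⟪x, e⟫ = (0 : ℝ) ∧ fderiv ℝ u x e ≠ 0 := by
  unfold Rad at h
  push Not at h
  obtain ⟨x, w, hxw, hw⟩ := h
  have hw0 : w ≠ 0 := by
    rintro rfl
    exact hw (map_zero _)
  have hn : ‖w‖ ≠ 0 := norm_ne_zero_iff.mpr hw0
  refine ⟨x, ‖w‖⁻¹ • w, ?_, ?_, ?_⟩
  · rw [norm_smul, norm_inv, norm_norm, inv_mul_cancel₀ hn]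
  · rw [real_inner_smul_right, hxw, mul_zero]
  · rw [map_smul]
    exact smul_ne_zero (inv_ne_zero hn) hw

/-- The conclusion for the chosen `x` and `e`. -/
lemma conclude {u : F → ℂ} (hu : ContDiff ℝ 1 u) {x e v : F} (hxe : ⟪x, e⟫ = (0 : ℝ))
    (hd : fderiv ℝ u x e ≠ 0) (hev : ⟪e, v⟫ = (0 : ℝ))
    (hv : ∀ y, fderiv ℝ u y (vf e v 0 y) = 0) : v = 0 := by
  have hline : ∀ s : ℝ, ((⟪v, x⟫ : ℝ) + s * ‖v‖ ^ 2) • fderiv ℝ u (x + s • v) e = 0 := by
    intro s
    have := hv (x + s • v)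
    rwa [vf_line e v x s hev hxe, map_smul] at this
  have h0 : (⟪v, x⟫ : ℝ) = 0 := by
    have := hline 0
    rw [zero_smul, add_zero, zero_mul, add_zero] at this
    rcases smul_eq_zero.mp this with h | h
    · exact h
    · exact absurd h hd
  by_contra hv0
  have hn : ‖v‖ ^ 2 ≠ 0 := pow_ne_zero _ (norm_ne_zero_iff.mpr hv0)
  have hne : ∀ s : ℝ, s ≠ 0 → fderiv ℝ u (x + s • v) e = 0 := by
    intro s hs
    have := hline s
    rw [h0, zero_add] at this
    rcases smul_eq_zero.mp this with h | h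
    · exact absurd h (mul_ne_zero hs hn)
    · exact h
  have hcont : Continuous fun s : ℝ => fderiv ℝ u (x + s • v) e := by
    have h1 : Continuous (fderiv ℝ u) := hu.continuous_fderiv one_ne_zero
    have h2 : Continuous fun s : ℝ => fderiv ℝ u (x + s • v) :=
      h1.comp (by fun_prop)
    exact h2.clm_apply continuous_const
  have hlim : Tendsto (fun s : ℝ => fderiv ℝ u (x + s • v) e) (𝓝[≠] 0)
      (𝓝 (fderiv ℝ u (x + (0 : ℝ) • v) e)) :=
    (hcont.tendsto 0).mono_left nhdsWithin_le_nhds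
  have hlim' : Tendsto (fun s : ℝ => fderiv ℝ u (x + s • v) e) (𝓝[≠] 0) (𝓝 0) := by
    refine tendsto_const_nhds.congr' ?_
    filter_upwards [self_mem_nhdsWithin] with s hs
    exact (hne s hs).symm
  have := tendsto_nhds_unique hlim hlim'
  rw [zero_smul, add_zero] at this
  exact hd this

end GEO_

/-- GEO. -/
theorem p_GEO : T_GEO := by
  intro F _ _ _ _ u hu _ hcen hrad
  obtain ⟨x, e, he, hxe, hd⟩ := GEO_.exists_unit hrad
  refine ⟨e, he, ?_⟩
  intro v c hev hvf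
  have hc : c = 0 := hcen e v c he hev hvf
  subst hc
  exact ⟨GEO_.conclude hu hxe hd hev hvf, rfl⟩

end Pool.Agent.TRC
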