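import Pool.Agent.TRC.Targets2

/-!
# Project TRC, target HRM: Hermite interpolation from below
-/

set_option autoImplicit false

noncomputable section

open MeasureTheory Set Filter Pool.Agent.ExpMax
open scoped ENNReal RealInnerProductSpace Topology

namespace Pool.Agent.TRC

namespace HRM_

/-- Rolle for two functions related by a derivative on the positive half line. -/
theorem rolle (g g' : ℝ → ℝ) (h : ∀ x, 0 < x → HasDerivAt g (g' x) x) {a b : ℝ} (ha : 0 < a)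
    (hab : a < b) (h0 : g a = 0) (h1 : g b = 0) : ∃ c, a < c ∧ c < b ∧ g' c = 0 := by
  obtain ⟨c, hc, hc'⟩ := exists_hasDerivAt_eq_zero hab
    (fun x hx => (h x (lt_of_lt_of_le ha hx.1)).continuousAt.continuousWithinAt)
    (h0.trans h1.symm) (fun x hx => h x (ha.trans hx.1))
  exact ⟨c, hc.1, hc.2, hc'⟩

/-- Four zeros of `g1` give a zero of the third derivative of `g1`. -/
theorem four (g1 g2 g3 g4 : ℝ → ℝ) (h1 : ∀ x, 0 < x → HasDerivAt g1 (g2 x) x)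
    (h2 : ∀ x, 0 < x → HasDerivAt g2 (g3 x) x) (h3 : ∀ x, 0 < x → HasDerivAt g3 (g4 x) x)
    {a b c d : ℝ} (ha : 0 < a) (hab : a < b) (hbc : b < c) (hcd : c < d) (za : g1 a = 0)
    (zb : g1 b = 0) (zc : g1 c = 0) (zd : g1 d = 0) : ∃ x, 0 < x ∧ g4 x = 0 := by
  obtain ⟨u, hu1, hu2, hu⟩ := rolle g1 g2 h1 ha hab za zb
  obtain ⟨v, hv1, hv2, hv⟩ := rolle g1 g2 h1 (ha.trans hab) hbc zb zc
  obtain ⟨w, hw1, hw2, hw⟩ := rolle g1 g2 h1 ((ha.trans hab).trans hbc) hcd zc zd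
  obtain ⟨r, hr1, hr2, hr⟩ := rolle g2 g3 h2 (ha.trans hu1) (hu2.trans hv1) hu hv
  obtain ⟨t, ht1, ht2, ht⟩ := rolle g2 g3 h2 (by linarith) (hv2.trans hw1) hv hw
  obtain ⟨x, hx1, hx2, hx⟩ := rolle g3 g4 h3 (by linarith) (hr2.trans ht1) hr ht
  exact ⟨x, by linarith, hx⟩

/-- The zeros of `g` and of its derivative. -/
theorem zeros (g g1 g2 g3 g4 : ℝ → ℝ) (h0 : ∀ x, 0 < x → HasDerivAt g (g1 x) x)
    (h1 : ∀ x, 0 < x → HasDerivAt g1 (g2 x) x)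
    (h2 : ∀ x, 0 < x → HasDerivAt g2 (g3 x) x) (h3 : ∀ x, 0 < x → HasDerivAt g3 (g4 x) x)
    {p q s : ℝ} (hp : 0 < p) (hpq : p < q) (hs : 0 < s) (hsp : s ≠ p) (hsq : s ≠ q)
    (zp : g p = 0) (zq : g q = 0) (zs : g s = 0) (zp1 : g1 p = 0) (zq1 : g1 q = 0) :
    ∃ x, 0 < x ∧ g4 x = 0 := by
  rcases lt_or_gt_of_ne hsp with h | h
  · obtain ⟨u, hu1, hu2, hu⟩ := rolle g g1 h0 hs h zs zp
    obtain ⟨v, hv1, hv2, hv⟩ := rolle g g1 h0 hp hpq zp zq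
    exact four g1 g2 g3 g4 h1 h2 h3 (hs.trans hu1) hu2 hv1 hv2 hu zp1 hv zq1
  · rcases lt_or_gt_of_ne hsq with h' | h'
    · obtain ⟨u, hu1, hu2, hu⟩ := rolle g g1 h0 hp h zp zs
      obtain ⟨v, hv1, hv2, hv⟩ := rolle g g1 h0 hs h' zs zq
      exact four g1 g2 g3 g4 h1 h2 h3 hp hu1 (hu2.trans hv1) hv2 zp1 hu hv zq1
    · obtain ⟨u, hu1, hu2, hu⟩ := rolle g g1 h0 hp hpq zp zq
      obtain ⟨v, hv1, hv2, hv⟩ := rolle g g1 h0 (hp.trans hpq) h' zq zs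
      exact four g1 g2 g3 g4 h1 h2 h3 hp hu1 hu2 hv1 zp1 hu zq1 hv

/-- Derivative of a multiple of a power minus a polynomial. -/
theorem der (A r : ℝ) (Q Q' : ℝ → ℝ) (hQ : ∀ x, HasDerivAt Q (Q' x) x) :
    ∀ x, 0 < x → HasDerivAt (fun x => A * x ^ r - Q x) (A * r * x ^ (r - 1) - Q' x) x := by
  intro x hx
  have h1 := ((Real.hasDerivAt_rpow_const (p := r) (Or.inl hx.ne')).const_mul A).sub (hQ x)
  refine h1.congr_deriv ?_
  ring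

theorem dpoly (e0 e1 e2 e3 e4 x : ℝ) :
    HasDerivAt (fun x : ℝ => e0 + e1 * x + e2 * x ^ 2 + e3 * x ^ 3 + e4 * x ^ 4)
      (e1 + 2 * e2 * x + 3 * e3 * x ^ 2 + 4 * e4 * x ^ 3) x := by
  have h := ((((hasDerivAt_const x e0).add ((hasDerivAt_id x).const_mul e1)).add
    ((hasDerivAt_pow 2 x).const_mul e2)).add ((hasDerivAt_pow 3 x).const_mul e3)).add
    ((hasDerivAt_pow 4 x).const_mul e4)
  refine (h.congr_deriv ?_).congr_of_eventuallyEq (Eventually.of_forall fun y => ?_)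
  · norm_num
    ring
  · simp

/-- The fourth derivative of a function minus a quartic polynomial. -/
theorem quartic (θ e0 e1 e2 e3 e4 p q s : ℝ) (hp : 0 < p) (hpq : p < q) (hs : 0 < s)
    (hsp : s ≠ p) (hsq : s ≠ q)
    (zp : p ^ (1 + θ) = e0 + e1 * p + e2 * p ^ 2 + e3 * p ^ 3 + e4 * p ^ 4)
    (zq : q ^ (1 + θ) = e0 + e1 * q + e2 * q ^ 2 + e3 * q ^ 3 + e4 * q ^ 4)
    (zs : s ^ (1 + θ) = e0 + e1 * s + e2 * s ^ 2 + e3 * s ^ 3 + e4 * s ^ 4)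
    (zp1 : (1 + θ) * p ^ θ = e1 + 2 * e2 * p + 3 * e3 * p ^ 2 + 4 * e4 * p ^ 3)
    (zq1 : (1 + θ) * q ^ θ = e1 + 2 * e2 * q + 3 * e3 * q ^ 2 + 4 * e4 * q ^ 3) :
    ∃ x, 0 < x ∧ (1 + θ) * θ * (θ - 1) * (θ - 2) * x ^ (θ - 3) = 24 * e4 := by
  have d0 : ∀ x, HasDerivAt (fun x : ℝ => e0 + e1 * x + e2 * x ^ 2 + e3 * x ^ 3 + e4 * x ^ 4)
      ((fun x => e1 + 2 * e2 * x + 3 * e3 * x ^ 2 + 4 * e4 * x ^ 3 + 0 * x ^ 4) x) x := by
    intro x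
    refine (dpoly e0 e1 e2 e3 e4 x).congr_deriv ?_
    simp only
    ring
  have d1 : ∀ x, HasDerivAt (fun x => e1 + 2 * e2 * x + 3 * e3 * x ^ 2 + 4 * e4 * x ^ 3 +
      0 * x ^ 4) ((fun x => 2 * e2 + 6 * e3 * x + 12 * e4 * x ^ 2 + 0 * x ^ 3 + 0 * x ^ 4) x)
      x := by
    intro x
    refine (dpoly e1 (2 * e2) (3 * e3) (4 * e4) 0 x).congr_deriv ?_
    simp only
    ring
  have d2 : ∀ x, HasDerivAt (fun x => 2 * e2 + 6 * e3 * x + 12 * e4 * x ^ 2 + 0 * x ^ 3 +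
      0 * x ^ 4) ((fun x => 6 * e3 + 24 * e4 * x + 0 * x ^ 2 + 0 * x ^ 3 + 0 * x ^ 4) x)
      x := by
    intro x
    refine (dpoly (2 * e2) (6 * e3) (12 * e4) 0 0 x).congr_deriv ?_
    simp only
    ring
  have d3 : ∀ x, HasDerivAt (fun x => 6 * e3 + 24 * e4 * x + 0 * x ^ 2 + 0 * x ^ 3 +
      0 * x ^ 4) ((fun _ => 24 * e4) x) x := by
    intro x
    refine (dpoly (6 * e3) (24 * e4) 0 0 0 x).congr_deriv ?_
    simp only
    ring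
  obtain ⟨x, hx, hx'⟩ := zeros _ _ _ _ _ (der 1 (1 + θ) _ _ d0)
    (fun x hx => der (1 * (1 + θ)) (1 + θ - 1) _ _ d1 x hx)
    (fun x hx => der (1 * (1 + θ) * (1 + θ - 1)) (1 + θ - 1 - 1) _ _ d2 x hx)
    (fun x hx => der (1 * (1 + θ) * (1 + θ - 1) * (1 + θ - 1 - 1)) (1 + θ - 1 - 1 - 1) _ _ d3
      x hx) hp hpq hs hsp hsq (by linarith) (by linarith) (by linarith)
    (by
      have e : 1 + θ - 1 = θ := by ring
      rw [e]
      linarith)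
    (by
      have e : 1 + θ - 1 = θ := by ring
      rw [e]
      linarith)
  refine ⟨x, hx, ?_⟩
  have e : 1 + θ - 1 - 1 - 1 - 1 = θ - 3 := by ring
  rw [e] at hx'
  have e' : 1 * (1 + θ) * (1 + θ - 1) * (1 + θ - 1 - 1) * (1 + θ - 1 - 1 - 1) =
      (1 + θ) * θ * (θ - 1) * (θ - 2) := by ring
  rw [e'] at hx'
  linarith

/-- The claim for `s > 0`. -/
theorem pos (θ p q : ℝ) (h0 : 0 ≤ θ) (h1 : θ ≤ 1) (hp : 0 < p) (hpq : p < q) (s : ℝ)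
    (hs : 0 < s) :
    Hm p q (p ^ (1 + θ)) ((1 + θ) * p ^ θ) (q ^ (1 + θ)) ((1 + θ) * q ^ θ) s ≤ s ^ (1 + θ) := by
  have hh : q - p ≠ 0 := by
    have : 0 < q - p := by linarith
    exact this.ne'
  obtain ⟨a, ha⟩ : ∃ a, a = p ^ (1 + θ) := ⟨_, rfl⟩
  obtain ⟨b, hb⟩ : ∃ b, b = (1 + θ) * p ^ θ := ⟨_, rfl⟩
  obtain ⟨c, hc⟩ : ∃ c, c = q ^ (1 + θ) := ⟨_, rfl⟩
  obtain ⟨d, hd⟩ : ∃ d, d = (1 + θ) * q ^ θ := ⟨_, rfl⟩
  rw [← ha, ← hb, ← hc, ← hd]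
  by_cases hsp : s = p
  · rw [hsp, ← ha]
    apply le_of_eq
    unfold Hm
    field_simp
    ring
  by_cases hsq : s = q
  · rw [hsq, ← hc]
    apply le_of_eq
    unfold Hm
    field_simp
    ring
  have hw : 0 < (s - p) ^ 2 * (s - q) ^ 2 := by
    have e1 : s - p ≠ 0 := sub_ne_zero.mpr hsp
    have e2 : s - q ≠ 0 := sub_ne_zero.mpr hsq
    positivity
  obtain ⟨l, hl⟩ : ∃ l, l = (s ^ (1 + θ) - Hm p q a b c d s) / ((s - p) ^ 2 * (s - q) ^ 2) :=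
    ⟨_, rfl⟩
  have hl' : s ^ (1 + θ) = Hm p q a b c d s + l * ((s - p) ^ 2 * (s - q) ^ 2) := by
    rw [hl, div_mul_cancel₀ _ hw.ne']
    ring
  obtain ⟨β1, hβ1⟩ : ∃ z, z = 2 * a / (q - p) + b := ⟨_, rfl⟩
  obtain ⟨β2, hβ2⟩ : ∃ z, z = d - 2 * c / (q - p) := ⟨_, rfl⟩
  obtain ⟨α1, hα1⟩ : ∃ z, z = a - β1 * p := ⟨_, rfl⟩
  obtain ⟨α2, hα2⟩ : ∃ z, z = c - β2 * q := ⟨_, rfl⟩
  obtain ⟨x, hx, hx'⟩ := quartic θ
    ((α1 * q ^ 2 + α2 * p ^ 2) / (q - p) ^ 2 + l * (p ^ 2 * q ^ 2))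
    ((q ^ 2 * β1 - 2 * q * α1 + p ^ 2 * β2 - 2 * p * α2) / (q - p) ^ 2 -
      l * (2 * p * q * (p + q)))
    ((α1 - 2 * q * β1 + α2 - 2 * p * β2) / (q - p) ^ 2 + l * (p ^ 2 + 4 * p * q + q ^ 2))
    ((β1 + β2) / (q - p) ^ 2 - l * (2 * (p + q))) l p q s hp hpq hs hsp hsq
    (by
      rw [← ha, hα1, hα2, hβ1, hβ2]
      field_simp
      ring)
    (by
      rw [← hc, hα1, hα2, hβ1, hβ2]
      field_simp
      ring)
    (by
      rw [hl', hα1, hα2, hβ1, hβ2]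
      unfold Hm
      field_simp
      ring)
    (by
      rw [← hb, hα1, hα2, hβ1, hβ2]
      field_simp
      ring)
    (by
      rw [← hd, hα1, hα2, hβ1, hβ2]
      field_simp
      ring)
  have hl0 : 0 ≤ l := by
    have h2 : 0 ≤ (1 + θ) * θ * (θ - 1) * (θ - 2) * x ^ (θ - 3) := by
      have e1 : (1 + θ) * θ * (θ - 1) * (θ - 2) = (1 + θ) * θ * ((1 - θ) * (2 - θ)) := by ring
      rw [e1]
      refine mul_nonneg (mul_nonneg (mul_nonneg (by linarith) h0)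
        (mul_nonneg (by linarith) (by linarith))) (Real.rpow_nonneg hx.le _)
    linarith
  rw [hl']
  nlinarith [mul_nonneg hl0 hw.le]

end HRM_

theorem p_HRM : T_HRM := by
  intro θ p q h0 h1 hp hpq s hs
  rcases hs.lt_or_eq with h | h
  · exact HRM_.pos θ p q h0 h1 hp hpq s h
  · have hcl : IsClosed {t : ℝ | Hm p q (p ^ (1 + θ)) ((1 + θ) * p ^ θ) (q ^ (1 + θ))
        ((1 + θ) * q ^ θ) t ≤ t ^ (1 + θ)} := by
      refine isClosed_le ?_ (Real.continuous_rpow_const (by linarith))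
      unfold Hm
      fun_prop
    have h2 : closure (Ioi (0 : ℝ)) ⊆ {t : ℝ | Hm p q (p ^ (1 + θ)) ((1 + θ) * p ^ θ)
        (q ^ (1 + θ)) ((1 + θ) * q ^ θ) t ≤ t ^ (1 + θ)} :=
      closure_minimal (fun t ht => HRM_.pos θ p q h0 h1 hp hpq t ht) hcl
    have h3 : s ∈ closure (Ioi (0 : ℝ)) := by
      rw [closure_Ioi, ← h]
      exact self_mem_Ici
    exact h2 h3

end Pool.Agent.TRC
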