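import Pool.Agent.TRC.Targets2

/-!
# Project TRC: the target IDN (an identity)
-/

set_option autoImplicit false

noncomputable section

open MeasureTheory Set Filter Pool.Agent.ExpMax
open scoped Topology

namespace Pool.Agent.TRC

namespace IDN_

theorem cphi {n : ℕ} {φ φ' : ℝ → ℝ} (h : Bes n φ φ') : Continuous φ :=
  continuous_iff_continuousAt.2 fun r => (h.der r).continuousAt

/-- `|x| ^ (p - 2) x ^ 2 = |x| ^ p` -/
theorem rp_sq (x : ℝ) {q : ℝ} (hq : 2 < q) : |x| ^ (q - 2) * x ^ 2 = |x| ^ q := by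
  rcases eq_or_ne x 0 with rfl | hx
  · rw [abs_zero, Real.zero_rpow (by linarith), Real.zero_rpow (by linarith)]
    ring
  · have h1 : 0 < |x| := abs_pos.2 hx
    have h2 : |x| ^ (2 : ℝ) = x ^ 2 := by
      rw [Real.rpow_two, sq_abs]
    rw [← h2, ← Real.rpow_add h1]
    congr 1
    ring

/-- the derivative of `|x| ^ q x` -/
theorem der1 (x : ℝ) {q : ℝ} (hq : 2 < q) :
    HasDerivAt (fun x : ℝ => |x| ^ q * x) ((q + 1) * |x| ^ q) x := by
  have h1 := (hasDerivAt_abs_rpow x (by linarith : 1 < q)).mul (hasDerivAt_id x)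
  refine h1.congr_deriv ?_
  have h2 := rp_sq x hq
  simp only [id]
  linear_combination q * h2

/-- the derivative of `r ^ (n - 1) φ'` -/
theorem der2 {n : ℕ} {φ φ' : ℝ → ℝ} (hn : 3 ≤ n) (h : Bes n φ φ') {r : ℝ} (hr : 0 < r) :
    HasDerivAt (fun r => φ' r * r ^ (n - 1)) (-(φ r * r ^ (n - 1))) r := by
  have h1 := (h.ode r hr).mul (hasDerivAt_pow (n - 1) r)
  refine h1.congr_deriv ?_
  obtain ⟨k, rfl⟩ : ∃ k, n = k + 2 := ⟨n - 2, by omega⟩
  have e1 : k + 2 - 1 = k + 1 := rfl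
  have e2 : k + 1 - 1 = k := rfl
  rw [e1, e2]
  push_cast
  field_simp
  ring

theorem der3 {n : ℕ} {φ φ' : ℝ → ℝ} (hn : 3 ≤ n) (h : Bes n φ φ') {p : ℝ} (hp : 6 ≤ p) {r : ℝ}
    (hr : 0 < r) :
    HasDerivAt (fun r => (|φ r| ^ (p - 2) * φ r) * (φ' r * r ^ (n - 1)))
      ((p - 1) * (|φ r| ^ (p - 2) * φ' r ^ 2 * r ^ (n - 1)) - |φ r| ^ p * r ^ (n - 1)) r := by
  have h1 : HasDerivAt (fun r => |φ r| ^ (p - 2) * φ r)
      ((p - 2 + 1) * |φ r| ^ (p - 2) * φ' r) r :=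
    (der1 (φ r) (by linarith : 2 < p - 2)).comp r (h.der r)
  refine (h1.mul (der2 hn h hr)).congr_deriv ?_
  have h2 := rp_sq (φ r) (by linarith : 2 < p)
  rw [← h2]
  ring

theorem bd {n : ℕ} {φ φ' : ℝ → ℝ} (hn : 3 ≤ n) (h : Bes n φ φ') {p : ℝ} (hp : 6 ≤ p) {C : ℝ}
    (hd : ∀ r, 1 ≤ r → r ^ (n - 1) * φ r ^ 2 ≤ C ∧ r ^ (n - 1) * φ' r ^ 2 ≤ C) {r : ℝ}
    (hr : 1 ≤ r) :
    |(|φ r| ^ (p - 2) * φ r) * (φ' r * r ^ (n - 1))| ≤ C ^ 2 / r := by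
  have hr0 : 0 < r := lt_of_lt_of_le one_pos hr
  obtain ⟨h1, h2⟩ := hd r hr
  have hpw : 0 < r ^ (n - 1) := pow_pos hr0 _
  have hC : 0 ≤ C := le_trans (mul_nonneg hpw.le (sq_nonneg _)) h1
  have h3 : r ≤ r ^ (n - 1) := by
    calc r = r ^ 1 := (pow_one r).symm
      _ ≤ r ^ (n - 1) := pow_le_pow_right₀ hr (by omega)
  have h4 : |φ r| ^ (p - 2) ≤ φ r ^ 2 := by
    calc |φ r| ^ (p - 2) ≤ |φ r| ^ (2 : ℝ) :=
          Real.rpow_le_rpow_of_exponent_ge' (abs_nonneg _) (h.le1 r) (by norm_num) (by linarith)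
      _ = φ r ^ 2 := by rw [Real.rpow_two, sq_abs]
  have h5 : φ r ^ 2 ≤ C / r := by
    rw [le_div_iff₀ hr0]
    calc φ r ^ 2 * r ≤ φ r ^ 2 * r ^ (n - 1) := by gcongr
      _ = r ^ (n - 1) * φ r ^ 2 := by ring
      _ ≤ C := h1
  have h6 : |φ r| * |φ' r| * r ^ (n - 1) ≤ C := by
    have h7 : |φ r| * |φ' r| ≤ (φ r ^ 2 + φ' r ^ 2) / 2 := by
      have := sq_nonneg (|φ r| - |φ' r|)
      have e1 := sq_abs (φ r)
      have e2 := sq_abs (φ' r)
      nlinarith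
    calc |φ r| * |φ' r| * r ^ (n - 1) ≤ (φ r ^ 2 + φ' r ^ 2) / 2 * r ^ (n - 1) := by gcongr
      _ = (r ^ (n - 1) * φ r ^ 2 + r ^ (n - 1) * φ' r ^ 2) / 2 := by ring
      _ ≤ C := by linarith
  have h8 : 0 ≤ |φ r| ^ (p - 2) := Real.rpow_nonneg (abs_nonneg _) _
  rw [abs_mul, abs_mul, abs_mul, abs_of_nonneg h8, abs_of_pos hpw]
  calc |φ r| ^ (p - 2) * |φ r| * (|φ' r| * r ^ (n - 1))
      = |φ r| ^ (p - 2) * (|φ r| * |φ' r| * r ^ (n - 1)) := by ring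
    _ ≤ (C / r) * C := by
        refine mul_le_mul (h4.trans h5) h6 (by positivity) (by positivity)
    _ = C ^ 2 / r := by ring

end IDN_

theorem p_IDN (h_DEC : T_DEC) (h_ITG : T_ITG) : T_IDN := by
  intro n φ φ' hn hB p hp
  obtain ⟨C, hC, hd⟩ := h_DEC n φ φ' hn hB
  have hi1 : IntegrableOn (fun r => |φ r| ^ p * r ^ (n - 1)) (Ioi 0) :=
    (h_ITG n φ φ' hn hB p (by linarith)).1
  have hi2 : IntegrableOn (fun r => |φ r| ^ (p - 2) * φ' r ^ 2 * r ^ (n - 1)) (Ioi 0) :=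
    (h_ITG n φ φ' hn hB (p - 2) (by linarith)).2.1
  have hcont : Continuous fun r => (|φ r| ^ (p - 2) * φ r) * (φ' r * r ^ (n - 1)) :=
    (((IDN_.cphi hB).abs.rpow_const fun _ => Or.inr (by linarith)).mul (IDN_.cphi hB)).mul
      (hB.cont.mul (continuous_pow _))
  have hlim : Tendsto (fun r => (|φ r| ^ (p - 2) * φ r) * (φ' r * r ^ (n - 1))) atTop (𝓝 0) := by
    refine squeeze_zero_norm' (a := fun r => C ^ 2 / r) ?_ (tendsto_const_nhds.div_atTop tendsto_id)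
    filter_upwards [eventually_ge_atTop 1] with r hr
    rw [Real.norm_eq_abs]
    exact IDN_.bd hn hB hp hd hr
  have key := integral_Ioi_of_hasDerivAt_of_tendsto (a := 0) hcont.continuousWithinAt
    (fun r hr => IDN_.der3 hn hB hp hr) ((hi2.const_mul (p - 1)).sub hi1) hlim
  have h0 : (0 : ℝ) ^ (n - 1) = 0 := zero_pow (by omega)
  rw [integral_sub (hi2.const_mul (p - 1)) hi1, integral_const_mul] at key
  simp only [h0, mul_zero, sub_zero] at key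
  unfold a
  linarith

end Pool.Agent.TRC
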