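import Pool.Agent.TRC.Targets
import Pool.Agent.TRC.Lem

/-!
# Project TRC: the target `T_INJ`
-/

set_option autoImplicit false

noncomputable section

open MeasureTheory Set Filter
open scoped ENNReal RealInnerProductSpace Topology

namespace Pool.Agent.TRC

open Pool.Agent.ExpMax

namespace INJ_

variable {F : Type} [NormedAddCommGroup F] [InnerProductSpace ℝ F] [FiniteDimensional ℝ F]
    [MeasurableSpace F] [BorelSpace F]

/-- The character as a continuous map. -/
def cc (y : F) : C(Metric.sphere (0 : F) 1, ℂ) := ⟨chf y, chf_cont y⟩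

theorem cc_apply (y : F) (ω : Metric.sphere (0 : F) 1) : cc y ω = chf y ω := rfl

theorem cc_zero : cc (0 : F) = 1 := by
  ext ω
  simp [cc_apply, chf]

theorem cc_add (y z : F) : cc (y + z) = cc y * cc z := by
  ext ω
  rw [ContinuousMap.mul_apply, cc_apply, cc_apply, cc_apply]
  unfold chf
  rw [← Complex.exp_add, inner_add_right]
  congr 1
  push_cast
  ring

theorem cc_neg (y : F) : cc (-y) = star (cc y) := by
  ext ω
  rw [ContinuousMap.star_apply, cc_apply, cc_apply]
  unfold chf
  rw [inner_neg_right, Complex.star_def, ← Complex.exp_conj]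
  congr 1
  simp

variable (F) in
/-- The star algebra generated by the characters. -/
def alg : StarSubalgebra ℂ C(Metric.sphere (0 : F) 1, ℂ) where
  toSubalgebra := Algebra.adjoin ℂ (range (cc (F := F)))
  star_mem' := by
    change Algebra.adjoin ℂ (range (cc (F := F))) ≤ star (Algebra.adjoin ℂ (range (cc (F := F))))
    refine Algebra.adjoin_le ?_
    rintro - ⟨n, rfl⟩
    exact Algebra.subset_adjoin ⟨-n, cc_neg n⟩

theorem alg_coe : Subalgebra.toSubmodule (alg F).toSubalgebra =
    Submodule.span ℂ (range (cc (F := F))) := by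
  apply Algebra.adjoin_eq_span_of_subset
  refine Subset.trans ?_ Submodule.subset_span
  intro x hx
  refine Submonoid.closure_induction (fun _ => id) ⟨0, cc_zero⟩ ?_ hx
  rintro - - - - ⟨m, rfl⟩ ⟨n, rfl⟩
  exact ⟨m + n, cc_add m n⟩

theorem alg_sep : (alg F).SeparatesPoints := by
  intro x y hxy
  have hne : (x : F) - y ≠ 0 := fun h => hxy (Subtype.ext (sub_eq_zero.mp h))
  have hn : ‖(x : F) - y‖ ^ 2 ≠ 0 := pow_ne_zero 2 (norm_ne_zero_iff.mpr hne)
  set z : F := (Real.pi / ‖(x : F) - y‖ ^ 2) • ((x : F) - y) with hz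
  refine ⟨_, ⟨cc z, Algebra.subset_adjoin ⟨z, rfl⟩, rfl⟩, ?_⟩
  have h1 : (⟪(x : F), z⟫ : ℝ) = ⟪(y : F), z⟫ + Real.pi := by
    have h2 : (⟪(x : F) - y, z⟫ : ℝ) = Real.pi := by
      rw [hz, inner_smul_right, real_inner_self_eq_norm_sq]
      field_simp
    rw [inner_sub_left] at h2
    linarith
  change chf z x ≠ chf z y
  intro h
  have h3 : chf z x = - chf z y := by
    unfold chf
    rw [h1]
    push_cast
    rw [mul_add, Complex.exp_add, mul_comm Complex.I (Real.pi : ℂ), Complex.exp_pi_mul_I]
    ring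
  have h4 := chf_norm z y
  rw [h] at h3
  have h5 : chf z y = 0 := by
    have h6 : (2 : ℂ) * chf z y = 0 := by linear_combination h3
    simpa using h6
  rw [h5] at h4
  simp at h4

theorem span_cc : (Submodule.span ℂ (range (cc (F := F)))).topologicalClosure = ⊤ := by
  rw [← alg_coe]
  exact congr_arg (Subalgebra.toSubmodule <| StarSubalgebra.toSubalgebra ·)
    (ContinuousMap.starSubalgebra_topologicalClosure_eq_top_of_separatesPoints (alg F) alg_sep)

/-- The span of the characters is dense. -/
theorem span_ch (hn : 1 ≤ Module.finrank ℝ F) :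
    (Submodule.span ℂ (range (ch (F := F)))).topologicalClosure = ⊤ := by
  have := prb_prob hn
  have h1 := (ContinuousMap.toLp_denseRange ℂ (prb F) ℂ
    (p := 2) (by norm_num)).topologicalClosure_map_submodule (span_cc (F := F))
  have h2 : Submodule.span ℂ (range (ch (F := F))) =
      (Submodule.span ℂ (range (cc (F := F)))).map
        ((ContinuousMap.toLp 2 (prb F) ℂ :
          C(Metric.sphere (0 : F) 1, ℂ) →L[ℂ] Lp ℂ 2 (prb F)) :
            C(Metric.sphere (0 : F) 1, ℂ) →ₗ[ℂ] Lp ℂ 2 (prb F)) := by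
    rw [Submodule.map_span, ← range_comp]
    congr 2
    funext y
    rw [ch_eq hn]
    apply Lp.ext
    refine (chf_memLp hn y).coeFn_toLp.trans ?_
    exact (ContinuousMap.coeFn_toLp (prb F) (𝕜 := ℂ) (cc y)).symm
  rw [h2]
  exact h1

end INJ_

theorem p_INJ : T_INJ := by
  intro F _ _ _ _ _ hn g hg
  have h1 := Submodule.topologicalClosure_eq_top_iff.mp (INJ_.span_ch (F := F) hn)
  have h2 : g ∈ (Submodule.span ℂ (range (ch (F := F))))ᗮ := by
    rw [Submodule.mem_orthogonal]
    intro u hu
    induction hu using Submodule.span_induction with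
    | mem x hx =>
      obtain ⟨y, rfl⟩ := hx
      rw [← E_eq hn]
      exact hg y
    | zero => exact inner_zero_left _
    | add x y _ _ hx hy => rw [inner_add_left, hx, hy, add_zero]
    | smul a x _ hx => rw [inner_smul_left, hx, mul_zero]
  rw [h1] at h2
  exact (Submodule.mem_bot ℂ).mp h2

end Pool.Agent.TRC
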