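import Pool.Agent.TRC.Targets
import Pool.Agent.TRC.Lem

/-!
# Project TRC: the exponents `q ≥ 4`
-/

set_option autoImplicit false

noncomputable section

open MeasureTheory Set Filter
open scoped ENNReal RealInnerProductSpace Topology

namespace Pool.Agent.TRC

open Pool.Agent.ExpMax

theorem p_IQ (h_I4 : T_I4) : T_IQ := by
  intro F _ _ _ _ _ hn q hq
  have hn1 : 1 ≤ Module.finrank ℝ F := by omega
  obtain ⟨h4, -, hA4⟩ := h_I4 F hn
  have hq4 : 0 ≤ q - 4 := by linarith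
  have hpt : ∀ (f : H F) (y : F), ‖E f y‖ ^ q ≤ ‖f‖ ^ (q - 4) * ‖E f y‖ ^ (4 : ℝ) := by
    intro f y
    have h1 : ‖E f y‖ ^ q = ‖E f y‖ ^ (q - 4) * ‖E f y‖ ^ (4 : ℝ) := by
      rw [← Real.rpow_add_of_nonneg (norm_nonneg _) hq4 (by norm_num)]
      congr 1
      ring
    rw [h1]
    exact mul_le_mul_of_nonneg_right
      (Real.rpow_le_rpow (norm_nonneg _) (norm_E_le hn1 f y) hq4)
      (Real.rpow_nonneg (norm_nonneg _) _)
  have hcont : ∀ f : H F, Continuous fun y => ‖E f y‖ ^ q := fun f =>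
    (continuous_E hn1 f).norm.rpow_const fun _ => Or.inr (by linarith)
  have hint : ∀ f : H F, Integrable (fun y => ‖E f y‖ ^ q) := by
    intro f
    refine ((h4 f).1.const_mul (‖f‖ ^ (q - 4))).mono' (hcont f).aestronglyMeasurable ?_
    refine Filter.Eventually.of_forall fun y => ?_
    rw [Real.norm_of_nonneg (Real.rpow_nonneg (norm_nonneg _) _)]
    exact hpt f y
  obtain ⟨o, ho1, ho⟩ := exists_one (F := F) hn1
  have hoe : (fun y => ‖E o y‖ ^ q) = fun y : F => |u0 y| ^ q := by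
    funext y
    rw [ho, Complex.norm_real, Real.norm_eq_abs]
  refine ⟨fun f => ⟨hint f, ?_⟩, ?_, ?_, o, ho1, J_one ho q⟩
  · calc J q f ≤ ∫ y, ‖f‖ ^ (q - 4) * ‖E f y‖ ^ (4 : ℝ) :=
          integral_mono (hint f) ((h4 f).1.const_mul _) (hpt f)
      _ = ‖f‖ ^ (q - 4) * J 4 f := integral_const_mul _ _
      _ ≤ ‖f‖ ^ (q - 4) * (A F 4 * ‖f‖ ^ (4 : ℝ)) :=
          mul_le_mul_of_nonneg_left (h4 f).2 (Real.rpow_nonneg (norm_nonneg _) _)
      _ = A F 4 * ‖f‖ ^ q := by
          have h1 : ‖f‖ ^ q = ‖f‖ ^ (q - 4) * ‖f‖ ^ (4 : ℝ) := by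
            rw [← Real.rpow_add_of_nonneg (norm_nonneg _) hq4 (by norm_num)]
            congr 1
            ring
          rw [h1]
          ring
  · rw [← hoe]
    exact hint o
  · rw [← J_one ho q]
    unfold J
    rw [integral_pos_iff_support_of_nonneg (fun y => Real.rpow_nonneg (norm_nonneg _) _) (hint o)]
    refine (hcont o).isOpen_support.measure_pos _ ⟨0, ?_⟩
    have h1 : (1 : ℝ) ≤ u0 (0 : F) := by
      have := (tBASIC tINV F hn1).2.2.2.2.1 0
      simpa using this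
    have h2 : 0 < ‖E o 0‖ := by
      rw [ho, Complex.norm_real, Real.norm_eq_abs]
      exact abs_pos.2 (by linarith)
    exact (Real.rpow_pos_of_pos h2 _).ne'

end Pool.Agent.TRC
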