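import Pool.Agent.TRC.Targets2

/-!
# Project TRC: the target ITG (integrability)
-/

set_option autoImplicit false

noncomputable section

open MeasureTheory Set Filter Pool.Agent.ExpMax
open scoped Topology

namespace Pool.Agent.TRC

namespace ITG_

theorem cphi {n : ℕ} {φ φ' : ℝ → ℝ} (h : Bes n φ φ') : Continuous φ :=
  continuous_iff_continuousAt.2 fun r => (h.der r).continuousAt

theorem phi0 {n : ℕ} {φ φ' : ℝ → ℝ} (h : Bes n φ φ') : φ 0 = 1 := by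
  have h1 := h.tay 0 0
  have h2 : P n 0 0 = 1 := by simp [P, W]
  rw [h2] at h1
  have h3 : |φ 0 - 1| ≤ 0 := by simpa using h1
  have h4 := abs_nonpos_iff.1 h3
  linarith

theorem crp {n : ℕ} {φ φ' : ℝ → ℝ} (h : Bes n φ φ') {q : ℝ} (hq : 4 ≤ q) :
    Continuous fun r => |φ r| ^ q :=
  (cphi h).abs.rpow_const fun _ => Or.inr (by linarith)

theorem rp_le {x q : ℝ} (hx : |x| ≤ 1) (hq : 4 ≤ q) : |x| ^ q ≤ (x ^ 2) ^ 2 := by
  have h1 : |x| ^ q ≤ |x| ^ (4 : ℝ) :=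
    Real.rpow_le_rpow_of_exponent_ge' (abs_nonneg x) hx (by norm_num) hq
  have h2 : |x| ^ (4 : ℝ) = (x ^ 2) ^ 2 := by
    have h3 : |x| ^ (4 : ℝ) = |x| ^ (4 : ℕ) := by
      rw [← Real.rpow_natCast]
      norm_num
    rw [h3, ← sq_abs x]
    ring
  rw [← h2]
  exact h1

/-- a continuous function bounded by `D / r ^ 2` for `r ≥ 1` is integrable -/
theorem io {g : ℝ → ℝ} (hg : Continuous g) {D : ℝ}
    (hb : ∀ r, 1 ≤ r → |g r| ≤ D * r ^ (-2 : ℝ)) : IntegrableOn g (Ioi 0) := by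
  have h1 : (Ioi (0 : ℝ)) = Ioc 0 1 ∪ Ioi 1 := (Ioc_union_Ioi_eq_Ioi zero_le_one).symm
  rw [h1]
  refine IntegrableOn.union ?_ ?_
  · exact (hg.integrableOn_Icc (a := 0) (b := 1)).mono_set Ioc_subset_Icc_self
  · have h2 : IntegrableOn (fun r : ℝ => D * r ^ (-2 : ℝ)) (Ioi 1) :=
      (integrableOn_Ioi_rpow_of_lt (by norm_num) zero_lt_one).const_mul D
    refine Integrable.mono' h2 hg.aestronglyMeasurable ?_
    refine (ae_restrict_iff' measurableSet_Ioi).2 (Eventually.of_forall fun r hr => ?_)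
    rw [Real.norm_eq_abs]
    exact hb r (le_of_lt hr)

theorem pw {n : ℕ} (hn : 3 ≤ n) {r : ℝ} (hr : 1 ≤ r) {x y C : ℝ} (hx0 : 0 ≤ x) (hy0 : 0 ≤ y)
    (hx : r ^ (n - 1) * x ≤ C) (hy : r ^ (n - 1) * y ≤ C) :
    x * y * r ^ (n - 1) ≤ C ^ 2 * r ^ (-2 : ℝ) := by
  have hr0 : 0 < r := lt_of_lt_of_le one_pos hr
  have h1 : r ^ 2 ≤ r ^ (n - 1) := pow_le_pow_right₀ hr (by omega)
  have h2 : r ^ (-2 : ℝ) = (r ^ 2)⁻¹ := by
    rw [Real.rpow_neg hr0.le]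
    norm_num
  have h3 : 0 < r ^ (n - 1) := pow_pos hr0 _
  have hC : 0 ≤ C := le_trans (mul_nonneg h3.le hx0) hx
  rw [h2]
  have h4 : x * y * r ^ (n - 1) * r ^ 2 ≤ C ^ 2 := by
    calc x * y * r ^ (n - 1) * r ^ 2 ≤ x * y * r ^ (n - 1) * r ^ (n - 1) := by gcongr
      _ = (r ^ (n - 1) * x) * (r ^ (n - 1) * y) := by ring
      _ ≤ C * C := by gcongr
      _ = C ^ 2 := by ring
  rw [← div_eq_mul_inv, le_div_iff₀ (by positivity)]
  exact h4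

end ITG_

theorem p_ITG (h_DEC : T_DEC) : T_ITG := by
  intro n φ φ' hn hB q hq
  obtain ⟨C, hC, hd⟩ := h_DEC n φ φ' hn hB
  have hc1 : Continuous fun r => |φ r| ^ q * r ^ (n - 1) :=
    (ITG_.crp hB hq).mul (continuous_pow _)
  have hc2 : Continuous fun r => |φ r| ^ q * φ' r ^ 2 * r ^ (n - 1) :=
    ((ITG_.crp hB hq).mul (hB.cont.pow 2)).mul (continuous_pow _)
  have hi1 : IntegrableOn (fun r => |φ r| ^ q * r ^ (n - 1)) (Ioi 0) := by
    refine ITG_.io hc1 (D := C ^ 2) fun r hr => ?_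
    have hr0 : 0 ≤ r := zero_le_one.trans hr
    have h1 : 0 ≤ |φ r| ^ q * r ^ (n - 1) :=
      mul_nonneg (Real.rpow_nonneg (abs_nonneg _) _) (pow_nonneg hr0 _)
    rw [abs_of_nonneg h1]
    calc |φ r| ^ q * r ^ (n - 1) ≤ (φ r ^ 2) ^ 2 * r ^ (n - 1) :=
          mul_le_mul_of_nonneg_right (ITG_.rp_le (hB.le1 r) hq) (pow_nonneg hr0 _)
      _ = φ r ^ 2 * φ r ^ 2 * r ^ (n - 1) := by ring
      _ ≤ C ^ 2 * r ^ (-2 : ℝ) := ITG_.pw hn hr (sq_nonneg _) (sq_nonneg _) (hd r hr).1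
          (hd r hr).1
  refine ⟨hi1, ?_, ?_⟩
  · refine ITG_.io hc2 (D := C ^ 2) fun r hr => ?_
    have hr0 : 0 ≤ r := zero_le_one.trans hr
    have h1 : 0 ≤ |φ r| ^ q * φ' r ^ 2 * r ^ (n - 1) :=
      mul_nonneg (mul_nonneg (Real.rpow_nonneg (abs_nonneg _) _) (sq_nonneg _))
        (pow_nonneg hr0 _)
    have h2 : φ r ^ 2 ≤ 1 := (sq_le_one_iff_abs_le_one _).2 (hB.le1 r)
    rw [abs_of_nonneg h1]
    calc |φ r| ^ q * φ' r ^ 2 * r ^ (n - 1)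
        ≤ (φ r ^ 2) ^ 2 * φ' r ^ 2 * r ^ (n - 1) := by
          refine mul_le_mul_of_nonneg_right (mul_le_mul_of_nonneg_right
            (ITG_.rp_le (hB.le1 r) hq) (sq_nonneg _)) (pow_nonneg hr0 _)
      _ = φ r ^ 2 * (φ r ^ 2 * φ' r ^ 2 * r ^ (n - 1)) := by ring
      _ ≤ 1 * (φ r ^ 2 * φ' r ^ 2 * r ^ (n - 1)) := by gcongr
      _ ≤ C ^ 2 * r ^ (-2 : ℝ) := by
          rw [one_mul]
          exact ITG_.pw hn hr (sq_nonneg _) (sq_nonneg _) (hd r hr).1 (hd r hr).2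
  · unfold a
    have hnn : ∀ r ∈ Ioi (0 : ℝ), 0 ≤ |φ r| ^ q * r ^ (n - 1) := fun r hr =>
      mul_nonneg (Real.rpow_nonneg (abs_nonneg _) _) (pow_nonneg (le_of_lt hr) _)
    rw [setIntegral_pos_iff_support_of_nonneg_ae
      ((ae_restrict_iff' measurableSet_Ioi).2 (Eventually.of_forall hnn)) hi1]
    have h1 : ∀ᶠ r in 𝓝 (0 : ℝ), 0 < φ r :=
      (ITG_.cphi hB).continuousAt.eventually (lt_mem_nhds (by
        rw [ITG_.phi0 hB]
        exact one_pos))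
    obtain ⟨δ, hδ, h2⟩ := Metric.eventually_nhds_iff.1 h1
    refine lt_of_lt_of_le (?_ : 0 < volume (Ioo (0 : ℝ) δ)) (measure_mono ?_)
    · rw [Real.volume_Ioo]
      simpa using hδ
    · intro r hr
      refine ⟨?_, hr.1⟩
      rw [Function.mem_support]
      have h3 : 0 < φ r := h2 (by
        rw [Real.dist_eq, sub_zero, abs_of_pos hr.1]
        exact hr.2)
      exact (mul_pos (Real.rpow_pos_of_pos (abs_pos.2 h3.ne') _) (pow_pos hr.1 _)).ne'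

end Pool.Agent.TRC
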