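import Pool.Agent.TRC.Targets2

/-!
# Project TRC: the inequality between neighbouring large exponents, dimension 3
-/

set_option autoImplicit false

noncomputable section

open MeasureTheory Set Filter

namespace Pool.Agent.TRC

open Pool.Agent.ExpMax

namespace KI3_

theorem num : (25252408069 * 2 ^ 152 : ℚ) ≤ itg 3 (powL (cofs 3 9 4 24 9) 8) := by
  decide +kernel

theorem abs_pow_even (r : ℝ) (k : ℕ) : |r| ^ (2 * k) = (r ^ 2) ^ k := by
  rw [pow_mul, sq_abs]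

theorem phi_lo (φ φ' : ℝ → ℝ) (hb : Bes 3 φ φ') (r x : ℝ) (hx : x = r ^ 2) :
    1 - x / 6 + x ^ 2 / 120 - x ^ 3 / 5040 - x ^ 4 / 362880 ≤ φ r := by
  have h := hb.tay 3 r
  rw [show 2 * 3 + 2 = 2 * 4 by norm_num, abs_pow_even, ← hx] at h
  have hP : P 3 3 r = 1 - x / 6 + x ^ 2 / 120 - x ^ 3 / 5040 := by
    subst hx
    simp [P, W, Finset.sum_range_succ, Finset.prod_range_succ]
    ring
  have hW : W 3 (3 + 1) = 362880 := by
    simp [W, Finset.prod_range_succ]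
    norm_num
  rw [hP, hW] at h
  have h2 := (abs_le.1 h).1
  linarith

theorem dphi_hi (φ φ' : ℝ → ℝ) (hb : Bes 3 φ φ') (r x : ℝ) (hr : 0 ≤ r)
    (hx : x = r ^ 2) :
    φ' r ≤ -(r / 3 * (1 - x / 10 + x ^ 2 / 280 - x ^ 3 / 15120 - x ^ 4 / 1330560)) := by
  have h := hb.tay' 3 r
  rw [show 2 * 3 + 2 = 2 * 4 by norm_num, abs_pow_even, ← hx, abs_of_nonneg hr] at h
  have hP : P (3 + 2) 3 r = 1 - x / 10 + x ^ 2 / 280 - x ^ 3 / 15120 := by
    subst hx
    simp [P, W, Finset.sum_range_succ, Finset.prod_range_succ]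
    ring
  have hW : W (3 + 2) (3 + 1) = 1330560 := by
    simp [W, Finset.prod_range_succ]
    norm_num
  rw [hP, hW] at h
  have h2 := (abs_le.1 h).2
  push_cast at h2
  linarith

theorem A_nn (x : ℝ) (h0 : 0 ≤ x) (h1 : x ≤ 81/16) :
    0 ≤ 1 - x / 6 + x ^ 2 / 120 - x ^ 3 / 5040 - x ^ 4 / 362880 := by
  obtain ⟨y, hy⟩ : ∃ y : ℝ, y = 81/16 - x := ⟨_, rfl⟩
  have hy0 : 0 ≤ y := by linarith
  have e : 1 - x / 6 + x ^ 2 / 120 - x ^ 3 / 5040 - x ^ 4 / 362880 = 65536/43046721 * (y ^ 4) +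
    206848/43046721 * (x * y ^ 3) + 402208/71744535 * (x ^ 2 * y ^ 2) + 4289687/1506635235 * (x
    ^ 3 * y) + 100491151/192849310080 * (x ^ 4) := by
    subst hy
    ring
  rw [e]
  positivity

theorem B_nn (x : ℝ) (h0 : 0 ≤ x) (h1 : x ≤ 3721/400) :
    0 ≤ 1 - x / 10 + x ^ 2 / 280 - x ^ 3 / 15120 - x ^ 4 / 1330560 := by
  obtain ⟨y, hy⟩ : ∃ y : ℝ, y = 3721/400 - x := ⟨_, rfl⟩
  have hy0 : 0 ≤ y := by linarith
  have e : 1 - x / 10 + x ^ 2 / 280 - x ^ 3 / 15120 - x ^ 4 / 1330560 =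
    25600000000/191707312997281 * (y ^ 4) + 78585600000/191707312997281 * (x * y ^ 3) +
    630480964000/1341951190980967 * (x ^ 2 * y ^ 2) + 8583934984195/36232682156486109 * (x ^ 3 *
    y) + 10897893274615519/255078082381662207360 * (x ^ 4) := by
    subst hy
    ring
  rw [e]
  positivity

theorem S_nn (x : ℝ) (h0 : 0 ≤ x) (h1 : x ≤ 81/16) :
    0 ≤ 2/9 - x / 15 + 2 / 315 * x ^ 2 - 463 / 1360800 * x ^ 3 + 4699 / 419126400 * x ^ 4 - 311
      / 1676505600 * x ^ 5 + x ^ 6 / 1847577600 + 13 / 206928691200 * x ^ 7 + x ^ 8 /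
      3186701844480 := by
  obtain ⟨y, hy⟩ : ∃ y : ℝ, y = 81/16 - x := ⟨_, rfl⟩
  have hy0 : 0 ≤ y := by linarith
  have e : 2/9 - x / 15 + 2 / 315 * x ^ 2 - 463 / 1360800 * x ^ 3 + 4699 / 419126400 * x ^ 4 -
    311 / 1676505600 * x ^ 5 + x ^ 6 / 1847577600 + 13 / 206928691200 * x ^ 7 + x ^ 8 /
    3186701844480 = 8589934592/16677181699666569 * (y ^ 8) + 278367567872/83385908498332845 * (x
    * y ^ 7) + 1088405110784/116740271897665983 * (x ^ 2 * y ^ 6) +
    42543340945408/2918506797441649575 * (x ^ 3 * y ^ 5) +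
    3109889488290304/224725023403007017275 * (x ^ 4 * y ^ 4) +
    1809404693252312/224725023403007017275 * (x ^ 5 * y ^ 3) +
    2451148128586009/898900093612028069100 * (x ^ 6 * y ^ 2) +
    1375142541354991/2988550960580249164800 * (x ^ 7 * y) +
    944582421440580509/40500842617783536681369600 * (x ^ 8) := by
    subst hy
    ring
  rw [e]
  positivity

theorem K_nn (x : ℝ) (h0 : 0 ≤ x) (h1 : x ≤ 81/16) :
    0 ≤ (1 - x / 6 + x ^ 2 / 120 - x ^ 3 / 5040 - x ^ 4 / 362880) ^ 2 +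
    5/9 * x * (1 - x / 10 + x ^ 2 / 280 - x ^ 3 / 15120 - x ^ 4 / 1330560) ^ 2 - 1 := by
  have h := mul_nonneg h0 (S_nn x h0 h1)
  refine le_of_le_of_eq h ?_
  ring

theorem v1 (φ φ' : ℝ → ℝ) (hb : Bes 3 φ φ') :
    34581/100000 ≤ φ (9/4) ∧ φ (9/4) ≤ 17291/50000 := by
  have h := hb.tay 8 (9/4)
  have hP : P 3 8 (9/4) =
      55743653912847384397/161197200724983808000 := by
    simp [P, W, Finset.sum_range_succ, Finset.prod_range_succ]
    norm_num
  have hW : W 3 (8 + 1) = 121645100408832000 := by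
    simp [W, Finset.prod_range_succ]
    norm_num
  rw [hP, hW, abs_of_nonneg (by norm_num : (0 : ℝ) ≤ 9/4)] at h
  have h2 := abs_le.1 h
  norm_num at h2
  constructor <;> linarith [h2.1, h2.2]

theorem v2 (φ φ' : ℝ → ℝ) (hb : Bes 3 φ φ') :
    1499/50000 ≤ φ (61/20) ∧ φ (61/20) ≤ 2999/100000 := by
  have h := hb.tay 8 (61/20)
  have hP : P 3 8 (61/20) =
      6990398064962381276846636883012161/233103312876994560000000000000000000 := by
    simp [P, W, Finset.sum_range_succ, Finset.prod_range_succ]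
    norm_num
  have hW : W 3 (8 + 1) = 121645100408832000 := by
    simp [W, Finset.prod_range_succ]
    norm_num
  rw [hP, hW, abs_of_nonneg (by norm_num : (0 : ℝ) ≤ 61/20)] at h
  have h2 := abs_le.1 h
  norm_num at h2
  constructor <;> linarith [h2.1, h2.2]

theorem w1 (φ φ' : ℝ → ℝ) (hb : Bes 3 φ φ') :
    -43289/100000 ≤ φ' (9/4) ∧ φ' (9/4) ≤ -5411/12500 := by
  have h := hb.tay' 8 (9/4)
  have hP : P (3 + 2) 8 (9/4) =
      22980658023896456941243/39815708579071000576000 := by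
    simp [P, W, Finset.sum_range_succ, Finset.prod_range_succ]
    norm_num
  have hW : W (3 + 2) (8 + 1) = 851515702861824000 := by
    simp [W, Finset.prod_range_succ]
    norm_num
  rw [hP, hW, abs_of_nonneg (by norm_num : (0 : ℝ) ≤ 9/4)] at h
  have h2 := abs_le.1 h
  norm_num at h2
  constructor <;> linarith [h2.1, h2.2]

theorem w2 (φ φ' : ℝ → ℝ) (hb : Bes 3 φ φ') :
    -33633/100000 ≤ φ' (61/20) ∧ φ' (61/20) ≤ -1051/3125 := by
  have h := hb.tay' 8 (61/20)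
  have hP : P (3 + 2) 8 (61/20) =
      488386532896594175083653241759287361/1476320981554298880000000000000000000 := by
    simp [P, W, Finset.sum_range_succ, Finset.prod_range_succ]
    norm_num
  have hW : W (3 + 2) (8 + 1) = 851515702861824000 := by
    simp [W, Finset.prod_range_succ]
    norm_num
  rw [hP, hW, abs_of_nonneg (by norm_num : (0 : ℝ) ≤ 61/20)] at h
  have h2 := abs_le.1 h
  norm_num at h2
  constructor <;> linarith [h2.1, h2.2]

theorem int_lo (h_ENG : T_ENG) (φ φ' : ℝ → ℝ) (hb : Bes 3 φ φ') :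
    261/1000 ≤ ∫ r in (0 : ℝ)..(9/4), φ r ^ 8 * r ^ (3 - 1) := by
  have h := h_ENG 3 φ φ' (by norm_num) hb 9 4 24 9 8 (by norm_num) (by norm_num) (9/4)
    (1701111213703041083947/2853989990947809321287680000) (by norm_num) (by
      simp [W, Finset.prod_range_succ]
      norm_num)
  have hn : (25252408069 * 2 ^ 152 : ℝ) ≤
      ((itg 3 (powL (cofs 3 9 4 24 9) 8) : ℚ) : ℝ) := by
    have := num
    exact_mod_cast this
  have h2 := (abs_le.1 h).1
  have h3 : (9/4 : ℝ) ^ 3 * (25252408069 * 2 ^ 152) / 2 ^ (24 * 8) ≤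
      (9/4 : ℝ) ^ 3 * ((itg 3 (powL (cofs 3 9 4 24 9) 8) : ℚ) : ℝ) /
        2 ^ (24 * 8) := by
    gcongr
  have h4 : (261/1000 : ℝ) ≤ (9/4 : ℝ) ^ 3 * (25252408069 * 2 ^ 152) / 2 ^ (24 * 8) -
      (9/4 : ℝ) ^ 3 / ((3 : ℕ) : ℝ) * (((8 : ℕ) : ℝ) *
        (1701111213703041083947/2853989990947809321287680000) *
        (1 + 1701111213703041083947/2853989990947809321287680000) ^ (8 - 1)) := by
    norm_num
  linarith

end KI3_

open KI3_ in
theorem p_KI3 (h_BIG : T_BIG) (h_VA3 : T_VA3) (h_ENG : T_ENG) : T_KI3 := by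
  intro φ φ' hb p hp
  have hv := h_VA3 φ φ' hb
  have a1 := v1 φ φ' hb
  have a2 := v2 φ φ' hb
  have b1 := w1 φ φ' hb
  have b2 := w2 φ φ' hb
  refine h_BIG 3 φ φ' (by norm_num) hb (9/4) (61/20) (by norm_num) (by norm_num)
    ?_ ?_ ?_ ?_ ?_ ?_ p hp
  · intro r h0 h1
    have h2 := dphi_hi φ φ' hb r (r ^ 2) h0 rfl
    have h3 := B_nn (r ^ 2) (by positivity) (by nlinarith)
    have h4 := mul_nonneg (div_nonneg h0 (by norm_num : (0 : ℝ) ≤ 3)) h3
    linarith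
  · linarith [a1.1]
  · linarith [a1.1, a2.1]
  · have h1 : φ (61/20) ^ 2 ≤ (2999/100000) ^ 2 := by
      rw [sq_le_sq, abs_of_nonneg (by norm_num : (0 : ℝ) ≤ 2999/100000)]
      rw [abs_le]
      constructor <;> linarith [a2.1, a2.2]
    have h2 : φ' (61/20) ^ 2 ≤ (33633/100000) ^ 2 := by
      rw [sq_le_sq, abs_of_nonneg (by norm_num : (0 : ℝ) ≤ 33633/100000)]
      rw [abs_le]
      constructor <;> linarith [b2.1, b2.2]
    have h3 : (34581/100000) ^ 2 ≤ φ (9/4) ^ 2 :=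
      pow_le_pow_left₀ (by norm_num) a1.1 2
    have h4 : (2999/100000 : ℝ) ^ 2 + (33633/100000) ^ 2 ≤
      (34581/100000) ^ 2 := by norm_num
    linarith
  · intro r h0 h1
    have hx0 : 0 ≤ r ^ 2 := by positivity
    have hx1 : r ^ 2 ≤ 81/16 := by nlinarith
    have h2 := dphi_hi φ φ' hb r (r ^ 2) h0 rfl
    have h3 := B_nn (r ^ 2) hx0 (by linarith)
    have h4 := mul_nonneg (div_nonneg h0 (by norm_num : (0 : ℝ) ≤ 3)) h3
    have h5 := phi_lo φ φ' hb r (r ^ 2) rfl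
    have h6 := A_nn (r ^ 2) hx0 hx1
    have h7 := pow_le_pow_left₀ h6 h5 2
    have h8 := pow_le_pow_left₀ h4 (by linarith : _ ≤ -φ' r) 2
    have h9 := K_nn (r ^ 2) hx0 hx1
    have h10 : ∀ t : ℝ, (r / 3 * t) ^ 2 = r ^ 2 * t ^ 2 / 9 := by
      intro t
      ring
    rw [h10] at h8
    push_cast
    nlinarith [h7, h8, h9]
  · have hi := int_lo h_ENG φ φ' hb
    have h1 : φ (9/4) ^ 7 ≤ (17291/50000) ^ 7 :=
      pow_le_pow_left₀ (by linarith [a1.1]) a1.2 7
    have h0 : 0 ≤ φ (9/4) ^ 7 := pow_nonneg (by linarith [a1.1]) 7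
    have h2 : φ (9/4) ^ 7 * -φ' (9/4) ≤ (17291/50000) ^ 7 * (43289/100000) :=
      mul_le_mul h1 (by linarith [b1.1]) (by linarith [b1.2]) (by norm_num)
    have h3 : a 3 φ 6 - a 3 φ 8 ≤ 65561/500000 := by
      have h31 := hv
      norm_num at h31 ⊢
      linarith [h31.1, h31.2.1, h31.2.2.1, h31.2.2.2.1]
    norm_num at h2 h3 hi ⊢
    linarith

end Pool.Agent.TRC
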