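import Pool.Agent.TRC.Targets2

set_option autoImplicit false

/-!
# Project TRC: the inequality between neighbouring exponents for `n = 4`
-/

noncomputable section

open MeasureTheory Set Filter
open scoped ENNReal RealInnerProductSpace Topology

namespace Pool.Agent.TRC

open Pool.Agent.ExpMax

namespace KI4_

theorem lowφ {φ φ' : ℝ → ℝ} (h : Bes 4 φ φ') (r : ℝ) :
    1 - r ^ 2 / 8 + r ^ 4 / 192 - r ^ 6 / 9216 ≤ φ r := by
  have := (abs_le.mp (h.tay 2 r)).1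
  have e : |r| ^ 6 = r ^ 6 := by
    rw [show (6 : ℕ) = 2 * 3 by norm_num, pow_mul, pow_mul, sq_abs]
  simp only [P, W, Finset.sum_range_succ, Finset.sum_range_zero, Finset.prod_range_succ,
    Finset.prod_range_zero] at this
  norm_num at this
  rw [e] at this
  linarith

theorem low1 {φ φ' : ℝ → ℝ} (h : Bes 4 φ φ') (r : ℝ) : 1 - r ^ 2 / 8 ≤ φ r := by
  have := (abs_le.mp (h.tay 0 r)).1
  simp only [P, W, Finset.sum_range_succ, Finset.sum_range_zero, Finset.prod_range_succ,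
    Finset.prod_range_zero] at this
  norm_num at this
  linarith

theorem lowd {φ φ' : ℝ → ℝ} (h : Bes 4 φ φ') (r : ℝ) (hr : 0 ≤ r) :
    r / 4 * (1 - r ^ 2 / 12 + r ^ 4 / 384 - r ^ 6 / 23040) ≤ -φ' r := by
  have := (abs_le.mp (h.tay' 2 r)).2
  rw [abs_of_nonneg hr] at this
  simp only [P, W, Finset.sum_range_succ, Finset.sum_range_zero, Finset.prod_range_succ,
    Finset.prod_range_zero] at this
  norm_num at this
  linarith

theorem vals {φ φ' : ℝ → ℝ} (h : Bes 4 φ φ') :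
    (0.3975 ≤ φ (5 / 2) ∧ φ (5 / 2) ≤ 0.3978) ∧ (0.225 ≤ φ 3 ∧ φ 3 ≤ 0.2265) ∧
    (-0.3245 ≤ φ' 3 ∧ φ' 3 ≤ 0) ∧ -0.3575 ≤ φ' (5 / 2) := by
  refine ⟨?_, ?_, ?_, ?_⟩
  · have := abs_le.mp (h.tay 5 (5 / 2))
    simp only [P, W, Finset.sum_range_succ, Finset.sum_range_zero, Finset.prod_range_succ,
      Finset.prod_range_zero] at this
    norm_num at this
    constructor <;> norm_num <;> linarith [this.1, this.2]
  · have := abs_le.mp (h.tay 5 3)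
    simp only [P, W, Finset.sum_range_succ, Finset.sum_range_zero, Finset.prod_range_succ,
      Finset.prod_range_zero] at this
    norm_num at this
    constructor <;> norm_num <;> linarith [this.1, this.2]
  · have := abs_le.mp (h.tay' 5 3)
    simp only [P, W, Finset.sum_range_succ, Finset.sum_range_zero, Finset.prod_range_succ,
      Finset.prod_range_zero] at this
    norm_num at this
    constructor <;> norm_num <;> linarith [this.1, this.2]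
  · have := abs_le.mp (h.tay' 5 (5 / 2))
    simp only [P, W, Finset.sum_range_succ, Finset.sum_range_zero, Finset.prod_range_succ,
      Finset.prod_range_zero] at this
    norm_num at this
    norm_num
    linarith [this.1, this.2]

theorem neg_der {φ φ' : ℝ → ℝ} (h : Bes 4 φ φ') (r : ℝ) (h0 : 0 ≤ r) (h3 : r ≤ 3) :
    φ' r ≤ 0 := by
  have h1 := lowd h r h0
  have hx : r ^ 2 ≤ 9 := by nlinarith
  have hx0 : 0 ≤ r ^ 2 := sq_nonneg r
  have h2 : 0 ≤ 1 - r ^ 2 / 12 + r ^ 4 / 384 - r ^ 6 / 23040 := by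
    have e4 : r ^ 4 = r ^ 2 * r ^ 2 := by ring
    have e6 : r ^ 6 = r ^ 2 * (r ^ 2 * r ^ 2) := by ring
    have h4 : r ^ 2 * (r ^ 2 * r ^ 2) ≤ 9 * (r ^ 2 * r ^ 2) :=
      mul_le_mul_of_nonneg_right hx (by positivity)
    have h5 : 0 ≤ r ^ 2 * r ^ 2 := by positivity
    rw [e6, e4]
    linarith
  have h3 : 0 ≤ r / 4 * (1 - r ^ 2 / 12 + r ^ 4 / 384 - r ^ 6 / 23040) := by positivity
  linarith

theorem Spos (x : ℝ) (h0 : 0 ≤ x) (h1 : x ≤ 25 / 4) :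
    0 ≤ (1 - x / 8 + x ^ 2 / 192 - x ^ 3 / 9216) ^ 2 +
      7 * (x / 16 * (1 - x / 12 + x ^ 2 / 384 - x ^ 3 / 23040) ^ 2) - 1 := by
  obtain ⟨y, hy⟩ : ∃ y : ℝ, y = 25 / 4 - x := ⟨_, rfl⟩
  have hy0 : 0 ≤ y := by rw [hy]; linarith
  have hS : 0 ≤ (-(1 : ℝ) / 4 + x * (1 / 64 + 1 / 96) + x ^ 2 * (-(1 / 4608) - 1 / 768) +
      x ^ 3 * (1 / 36864 + 1 / 36864) - x ^ 4 / 884736 + x ^ 5 / 84934656) +
      7 / 16 * (1 - x / 12 + x ^ 2 / 384 - x ^ 3 / 23040) ^ 2 := by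
    have m0 : 0 ≤ y ^ 6 := by positivity
    have m1 : 0 ≤ x * y ^ 5 := by positivity
    have m2 : 0 ≤ x ^ 2 * y ^ 4 := by positivity
    have m3 : 0 ≤ x ^ 3 * y ^ 3 := by positivity
    have m4 : 0 ≤ x ^ 4 * y ^ 2 := by positivity
    have m5 : 0 ≤ x ^ 5 * y := by positivity
    have m6 : 0 ≤ x ^ 6 := by positivity
    rw [hy] at m0 m1 m2 m3 m4 m5
    linarith
  have e : (1 - x / 8 + x ^ 2 / 192 - x ^ 3 / 9216) ^ 2 +
      7 * (x / 16 * (1 - x / 12 + x ^ 2 / 384 - x ^ 3 / 23040) ^ 2) - 1 =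
      x * ((-(1 : ℝ) / 4 + x * (1 / 64 + 1 / 96) + x ^ 2 * (-(1 / 4608) - 1 / 768) +
      x ^ 3 * (1 / 36864 + 1 / 36864) - x ^ 4 / 884736 + x ^ 5 / 84934656) +
      7 / 16 * (1 - x / 12 + x ^ 2 / 384 - x ^ 3 / 23040) ^ 2) := by ring
  rw [e]
  exact mul_nonneg h0 hS

theorem Kpos {φ φ' : ℝ → ℝ} (h : Bes 4 φ φ') (r : ℝ) (h0 : 0 ≤ r) (h1 : r ≤ 5 / 2) :
    0 ≤ φ r ^ 2 + 7 * φ' r ^ 2 - 1 := by
  have hx : r ^ 2 ≤ 25 / 4 := by nlinarith
  have hx0 : 0 ≤ r ^ 2 := sq_nonneg r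
  have e4 : r ^ 4 = r ^ 2 * r ^ 2 := by ring
  have e6 : r ^ 6 = r ^ 2 * (r ^ 2 * r ^ 2) := by ring
  have h4 : r ^ 2 * (r ^ 2 * r ^ 2) ≤ 25 / 4 * (r ^ 2 * r ^ 2) :=
    mul_le_mul_of_nonneg_right hx (by positivity)
  have h5 : 0 ≤ r ^ 2 * r ^ 2 := by positivity
  have p1 : 0 ≤ 1 - r ^ 2 / 8 + r ^ 4 / 192 - r ^ 6 / 9216 := by
    rw [e6, e4]
    linarith
  have p2 : 0 ≤ 1 - r ^ 2 / 12 + r ^ 4 / 384 - r ^ 6 / 23040 := by
    rw [e6, e4]
    linarith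
  have q1 := pow_le_pow_left₀ p1 (lowφ h r) 2
  have q2 := pow_le_pow_left₀ (mul_nonneg (by linarith : 0 ≤ r / 4) p2) (lowd h r h0) 2
  have q3 := Spos (r ^ 2) hx0 hx
  have e1 : (-φ' r) ^ 2 = φ' r ^ 2 := by ring
  have e2 : (r / 4 * (1 - r ^ 2 / 12 + r ^ 4 / 384 - r ^ 6 / 23040)) ^ 2 =
      r ^ 2 / 16 * (1 - r ^ 2 / 12 + (r ^ 2) ^ 2 / 384 - (r ^ 2) ^ 3 / 23040) ^ 2 := by ring
  have e3 : 1 - r ^ 2 / 8 + r ^ 4 / 192 - r ^ 6 / 9216 =
      1 - r ^ 2 / 8 + (r ^ 2) ^ 2 / 192 - (r ^ 2) ^ 3 / 9216 := by ring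
  rw [e1, e2] at q2
  rw [e3] at q1
  linarith

theorem poly_int : ∫ r in (0 : ℝ)..(5 / 2), (1 - r ^ 2 / 8) ^ 8 * r ^ 3 =
    32 / 90 - (32 / 9 * (25 / 32) * (7 / 32) ^ 9 + 32 / 90 * (7 / 32) ^ 10) := by
  have hd : ∀ r : ℝ, HasDerivAt
      (fun r : ℝ => -(32 / 9 * (r ^ 2 / 8) * (1 - r ^ 2 / 8) ^ 9 +
        32 / 90 * (1 - r ^ 2 / 8) ^ 10)) ((1 - r ^ 2 / 8) ^ 8 * r ^ 3) r := by
    intro r
    have d1 : HasDerivAt (fun r : ℝ => r ^ 2 / 8) (2 * r / 8) r := by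
      have := (hasDerivAt_pow 2 r).div_const 8
      simpa using this
    have d2 : HasDerivAt (fun r : ℝ => 1 - r ^ 2 / 8) (-(2 * r / 8)) r := d1.const_sub 1
    have d3 := d2.pow 9
    have d4 := d2.pow 10
    have d5 := (((d1.const_mul (32 / 9)).mul d3).add (d4.const_mul (32 / 90))).neg
    refine d5.congr_deriv ?_
    simp only [Pi.pow_apply]
    push_cast
    ring
  have hi : IntervalIntegrable (fun r : ℝ => (1 - r ^ 2 / 8) ^ 8 * r ^ 3) volume 0 (5 / 2) := by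
    apply Continuous.intervalIntegrable
    fun_prop
  rw [intervalIntegral.integral_eq_sub_of_hasDerivAt (fun r _ => hd r) hi]
  norm_num

theorem int_low {φ φ' : ℝ → ℝ} (h : Bes 4 φ φ') :
    0.355 ≤ ∫ r in (0 : ℝ)..(5 / 2), φ r ^ 8 * r ^ 3 := by
  have hc : Continuous φ := continuous_iff_continuousAt.mpr fun r => (h.der r).continuousAt
  have hm : ∫ r in (0 : ℝ)..(5 / 2), (1 - r ^ 2 / 8) ^ 8 * r ^ 3 ≤
      ∫ r in (0 : ℝ)..(5 / 2), φ r ^ 8 * r ^ 3 := by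
    apply intervalIntegral.integral_mono_on (by norm_num)
    · apply Continuous.intervalIntegrable
      fun_prop
    · apply Continuous.intervalIntegrable
      fun_prop
    · intro r hr
      apply mul_le_mul_of_nonneg_right _ (pow_nonneg hr.1 3)
      apply pow_le_pow_left₀ _ (low1 h r)
      nlinarith [hr.1, hr.2]
  rw [poly_int] at hm
  refine le_trans ?_ hm
  norm_num

end KI4_

open KI4_ in
theorem p_KI4 (hB : T_BIG) (hV : T_VA4) : T_KI4 := by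
  intro φ φ' h
  obtain ⟨⟨a1, a2⟩, ⟨b1, b2⟩, ⟨c1, c2⟩, d1⟩ := vals h
  obtain ⟨-, -, v6, v8, -, -⟩ := hV φ φ' h
  refine hB 4 φ φ' (by norm_num) h (5 / 2) 3 (by norm_num) (by norm_num) ?_ ?_ ?_ ?_ ?_ ?_
  · exact fun r h0 h3 => neg_der h r h0 h3
  · linarith
  · linarith
  · have s1 : φ 3 ^ 2 ≤ 0.2265 ^ 2 := pow_le_pow_left₀ (by linarith) b2 2
    have s2 : φ' 3 ^ 2 ≤ 0.3245 ^ 2 := by
      have := pow_le_pow_left₀ (by linarith : 0 ≤ -φ' 3) (by linarith : -φ' 3 ≤ 0.3245) 2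
      nlinarith
    have s3 : (0.3975 : ℝ) ^ 2 ≤ φ (5 / 2) ^ 2 := pow_le_pow_left₀ (by norm_num) a1 2
    norm_num at s1 s2 s3 ⊢
    linarith
  · intro r h0 h1
    have := Kpos h r h0 h1
    norm_num
    linarith
  · have i1 := int_low h
    have t1 : φ (5 / 2) ^ 7 ≤ 0.3978 ^ 7 := pow_le_pow_left₀ (by linarith) a2 7
    have t0 : 0 ≤ φ (5 / 2) ^ 7 := pow_nonneg (by linarith) 7
    have t2 : φ (5 / 2) ^ 7 * (-φ' (5 / 2)) ≤ 0.3978 ^ 7 * 0.3575 := by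
      apply mul_le_mul t1 (by linarith) _ (by norm_num)
      have := neg_der h (5 / 2) (by norm_num) (by norm_num)
      linarith
    norm_num at i1 t2 v6 v8 ⊢
    linarith

end Pool.Agent.TRC
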