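import Pool.Agent.TRC.Targets2

/-!
# Project TRC: the inequality between neighbouring large exponents, dimension 5
-/

set_option autoImplicit false

noncomputable section

open MeasureTheory Set Filter

namespace Pool.Agent.TRC

open Pool.Agent.ExpMax

namespace KI5_

theorem num : (6842684144 * 2 ^ 152 : ℚ) ≤ itg 5 (powL (cofs 5 11 4 24 9) 8) := by
  decide +kernel

theorem abs_pow_even (r : ℝ) (k : ℕ) : |r| ^ (2 * k) = (r ^ 2) ^ k := by
  rw [pow_mul, sq_abs]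

theorem phi_lo (φ φ' : ℝ → ℝ) (hb : Bes 5 φ φ') (r x : ℝ) (hx : x = r ^ 2) :
    1 - x / 10 + x ^ 2 / 280 - x ^ 3 / 15120 - x ^ 4 / 1330560 ≤ φ r := by
  have h := hb.tay 3 r
  rw [show 2 * 3 + 2 = 2 * 4 by norm_num, abs_pow_even, ← hx] at h
  have hP : P 5 3 r = 1 - x / 10 + x ^ 2 / 280 - x ^ 3 / 15120 := by
    subst hx
    simp [P, W, Finset.sum_range_succ, Finset.prod_range_succ]
    ring
  have hW : W 5 (3 + 1) = 1330560 := by
    simp [W, Finset.prod_range_succ]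
    norm_num
  rw [hP, hW] at h
  have h2 := (abs_le.1 h).1
  linarith

theorem dphi_hi (φ φ' : ℝ → ℝ) (hb : Bes 5 φ φ') (r x : ℝ) (hr : 0 ≤ r)
    (hx : x = r ^ 2) :
    φ' r ≤ -(r / 5 * (1 - x / 14 + x ^ 2 / 504 - x ^ 3 / 33264 - x ^ 4 / 3459456)) := by
  have h := hb.tay' 3 r
  rw [show 2 * 3 + 2 = 2 * 4 by norm_num, abs_pow_even, ← hx, abs_of_nonneg hr] at h
  have hP : P (5 + 2) 3 r = 1 - x / 14 + x ^ 2 / 504 - x ^ 3 / 33264 := by
    subst hx
    simp [P, W, Finset.sum_range_succ, Finset.prod_range_succ]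
    ring
  have hW : W (5 + 2) (3 + 1) = 3459456 := by
    simp [W, Finset.prod_range_succ]
    norm_num
  rw [hP, hW] at h
  have h2 := (abs_le.1 h).2
  push_cast at h2
  linarith

theorem A_nn (x : ℝ) (h0 : 0 ≤ x) (h1 : x ≤ 121/16) :
    0 ≤ 1 - x / 10 + x ^ 2 / 280 - x ^ 3 / 15120 - x ^ 4 / 1330560 := by
  obtain ⟨y, hy⟩ : ∃ y : ℝ, y = 121/16 - x := ⟨_, rfl⟩
  have hy0 : 0 ≤ y := by linarith
  have e : 1 - x / 10 + x ^ 2 / 280 - x ^ 3 / 15120 - x ^ 4 / 1330560 = 65536/214358881 * (y ^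
    4) + 1062912/1071794405 * (x * y ^ 3) + 9027104/7502560835 * (x ^ 2 * y ^ 2) +
    130747031/202569142545 * (x ^ 3 * y) + 3305193917/25928850245760 * (x ^ 4) := by
    subst hy
    ring
  rw [e]
  positivity

theorem B_nn (x : ℝ) (h0 : 0 ≤ x) (h1 : x ≤ 3969/400) :
    0 ≤ 1 - x / 14 + x ^ 2 / 504 - x ^ 3 / 33264 - x ^ 4 / 3459456 := by
  obtain ⟨y, hy⟩ : ∃ y : ℝ, y = 3969/400 - x := ⟨_, rfl⟩
  have hy0 : 0 ≤ y := by linarith
  have e : 1 - x / 14 + x ^ 2 / 504 - x ^ 3 / 33264 - x ^ 4 / 3459456 =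
    25600000000/248155780267521 * (y ^ 4) + 84256000000/248155780267521 * (x * y ^ 3) +
    34722980000/82718593422507 * (x ^ 2 * y ^ 2) + 629398375475/2729713582942731 * (x ^ 3 * y) +
    212937049484011/4542243402016704384 * (x ^ 4) := by
    subst hy
    ring
  rw [e]
  positivity

theorem S_nn (x : ℝ) (h0 : 0 ≤ x) (h1 : x ≤ 121/16) :
    0 ≤ 4/25 - 6 / 175 * x + 16 / 6615 * x ^ 2 - x ^ 3 / 10080 + 491 / 201801600 * x ^ 4 - 1901
      / 65383718400 * x ^ 5 + 17 / 1438441804800 * x ^ 6 + 157 / 23015068876800 * x ^ 7 + x ^ 8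
      / 33243988377600 := by
  obtain ⟨y, hy⟩ : ∃ y : ℝ, y = 121/16 - x := ⟨_, rfl⟩
  have hy0 : 0 ≤ y := by linarith
  have e : 4/25 - 6 / 175 * x + 16 / 6615 * x ^ 2 - x ^ 3 / 10080 + 491 / 201801600 * x ^ 4 -
    1901 / 65383718400 * x ^ 5 + 17 / 1438441804800 * x ^ 6 + 157 / 23015068876800 * x ^ 7 + x ^
    8 / 33243988377600 = 17179869184/1148743246589304025 * (y ^ 8) +
    767188533248/8041202726125128175 * (x * y ^ 7) + 398230172991488/1519787315237649225075 * (x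
    ^ 2 * y ^ 6) + 67904065994752/168865257248627691675 * (x ^ 3 * y ^ 5) +
    351176649534976/940820718956639996475 * (x ^ 4 * y ^ 4) +
    112371521337574792/533445347648414878001325 * (x ^ 5 * y ^ 3) +
    144895727041827017/2133781390593659512005300 * (x ^ 6 * y ^ 2) +
    5623543973867129069/546248035991976835073356800 * (x ^ 7 * y) +
    7198872778645994669/22723918297266236339051642880 * (x ^ 8) := by
    subst hy
    ring
  rw [e]
  positivity

theorem K_nn (x : ℝ) (h0 : 0 ≤ x) (h1 : x ≤ 121/16) :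
    0 ≤ (1 - x / 10 + x ^ 2 / 280 - x ^ 3 / 15120 - x ^ 4 / 1330560) ^ 2 +
    9/25 * x * (1 - x / 14 + x ^ 2 / 504 - x ^ 3 / 33264 - x ^ 4 / 3459456) ^ 2 - 1 := by
  have h := mul_nonneg h0 (S_nn x h0 h1)
  refine le_of_le_of_eq h ?_
  ring

theorem v1 (φ φ' : ℝ → ℝ) (hb : Bes 5 φ φ') :
    10543/25000 ≤ φ (11/4) ∧ φ (11/4) ≤ 42173/100000 := by
  have h := hb.tay 8 (11/4)
  have hP : P 5 8 (11/4) =
      21819474076108594796467/51739129330022744064000 := by
    simp [P, W, Finset.sum_range_succ, Finset.prod_range_succ]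
    norm_num
  have hW : W 5 (8 + 1) = 851515702861824000 := by
    simp [W, Finset.prod_range_succ]
    norm_num
  rw [hP, hW, abs_of_nonneg (by norm_num : (0 : ℝ) ≤ 11/4)] at h
  have h2 := abs_le.1 h
  norm_num at h2
  constructor <;> linarith [h2.1, h2.2]

theorem v2 (φ φ' : ℝ → ℝ) (hb : Bes 5 φ φ') :
    3769/12500 ≤ φ (63/20) ∧ φ (63/20) ≤ 30153/100000 := by
  have h := hb.tay 8 (63/20)
  have hP : P 5 8 (63/20) =
      37385442870044685057387646974763/123987652771840000000000000000000 := by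
    simp [P, W, Finset.sum_range_succ, Finset.prod_range_succ]
    norm_num
  have hW : W 5 (8 + 1) = 851515702861824000 := by
    simp [W, Finset.prod_range_succ]
    norm_num
  rw [hP, hW, abs_of_nonneg (by norm_num : (0 : ℝ) ≤ 63/20)] at h
  have h2 := abs_le.1 h
  norm_num at h2
  constructor <;> linarith [h2.1, h2.2]

theorem w1 (φ φ' : ℝ → ℝ) (hb : Bes 5 φ φ') :
    -15433/50000 ≤ φ' (11/4) ∧ φ' (11/4) ≤ -6173/20000 := by
  have h := hb.tay' 8 (11/4)
  have hP : P (5 + 2) 8 (11/4) =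
      2073146819152785446231267/3694173834163623926169600 := by
    simp [P, W, Finset.sum_range_succ, Finset.prod_range_succ]
    norm_num
  have hW : W (5 + 2) (8 + 1) = 3916972233164390400 := by
    simp [W, Finset.prod_range_succ]
    norm_num
  rw [hP, hW, abs_of_nonneg (by norm_num : (0 : ℝ) ≤ 11/4)] at h
  have h2 := abs_le.1 h
  norm_num at h2
  constructor <;> linarith [h2.1, h2.2]

theorem w2 (φ φ' : ℝ → ℝ) (hb : Bes 5 φ φ') :
    -28971/100000 ≤ φ' (63/20) ∧ φ' (63/20) ≤ -2897/10000 := by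
  have h := hb.tay' 8 (63/20)
  have hP : P (5 + 2) 8 (63/20) =
      11403283979380766585987839447103/24797530554368000000000000000000 := by
    simp [P, W, Finset.sum_range_succ, Finset.prod_range_succ]
    norm_num
  have hW : W (5 + 2) (8 + 1) = 3916972233164390400 := by
    simp [W, Finset.prod_range_succ]
    norm_num
  rw [hP, hW, abs_of_nonneg (by norm_num : (0 : ℝ) ≤ 63/20)] at h
  have h2 := abs_le.1 h
  norm_num at h2
  constructor <;> linarith [h2.1, h2.2]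

theorem int_lo (h_ENG : T_ENG) (φ φ' : ℝ → ℝ) (hb : Bes 5 φ φ') :
    489/500 ≤ ∫ r in (0 : ℝ)..(11/4), φ r ^ 8 * r ^ (5 - 1) := by
  have h := h_ENG 5 φ φ' (by norm_num) hb 11 4 24 9 8 (by norm_num) (by norm_num) (11/4)
    (23336669547514220164946291/39152331963999751819115888640000) (by norm_num) (by
      simp [W, Finset.prod_range_succ]
      norm_num)
  have hn : (6842684144 * 2 ^ 152 : ℝ) ≤
      ((itg 5 (powL (cofs 5 11 4 24 9) 8) : ℚ) : ℝ) := by
    have := num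
    exact_mod_cast this
  have h2 := (abs_le.1 h).1
  have h3 : (11/4 : ℝ) ^ 5 * (6842684144 * 2 ^ 152) / 2 ^ (24 * 8) ≤
      (11/4 : ℝ) ^ 5 * ((itg 5 (powL (cofs 5 11 4 24 9) 8) : ℚ) : ℝ) /
        2 ^ (24 * 8) := by
    gcongr
  have h4 : (489/500 : ℝ) ≤ (11/4 : ℝ) ^ 5 * (6842684144 * 2 ^ 152) / 2 ^ (24 * 8) -
      (11/4 : ℝ) ^ 5 / ((5 : ℕ) : ℝ) * (((8 : ℕ) : ℝ) *
        (23336669547514220164946291/39152331963999751819115888640000) *
        (1 + 23336669547514220164946291/39152331963999751819115888640000) ^ (8 - 1)) := by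
    norm_num
  linarith

end KI5_

open KI5_ in
theorem p_KI5 (h_BIG : T_BIG) (h_VA5 : T_VA5) (h_ENG : T_ENG) : T_KI5 := by
  intro φ φ' hb p hp
  have hv := h_VA5 φ φ' hb
  have a1 := v1 φ φ' hb
  have a2 := v2 φ φ' hb
  have b1 := w1 φ φ' hb
  have b2 := w2 φ φ' hb
  refine h_BIG 5 φ φ' (by norm_num) hb (11/4) (63/20) (by norm_num) (by norm_num)
    ?_ ?_ ?_ ?_ ?_ ?_ p hp
  · intro r h0 h1
    have h2 := dphi_hi φ φ' hb r (r ^ 2) h0 rfl
    have h3 := B_nn (r ^ 2) (by positivity) (by nlinarith)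
    have h4 := mul_nonneg (div_nonneg h0 (by norm_num : (0 : ℝ) ≤ 5)) h3
    linarith
  · linarith [a1.1]
  · linarith [a1.1, a2.1]
  · have h1 : φ (63/20) ^ 2 ≤ (30153/100000) ^ 2 := by
      rw [sq_le_sq, abs_of_nonneg (by norm_num : (0 : ℝ) ≤ 30153/100000)]
      rw [abs_le]
      constructor <;> linarith [a2.1, a2.2]
    have h2 : φ' (63/20) ^ 2 ≤ (28971/100000) ^ 2 := by
      rw [sq_le_sq, abs_of_nonneg (by norm_num : (0 : ℝ) ≤ 28971/100000)]
      rw [abs_le]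
      constructor <;> linarith [b2.1, b2.2]
    have h3 : (10543/25000) ^ 2 ≤ φ (11/4) ^ 2 :=
      pow_le_pow_left₀ (by norm_num) a1.1 2
    have h4 : (30153/100000 : ℝ) ^ 2 + (28971/100000) ^ 2 ≤
      (10543/25000) ^ 2 := by norm_num
    linarith
  · intro r h0 h1
    have hx0 : 0 ≤ r ^ 2 := by positivity
    have hx1 : r ^ 2 ≤ 121/16 := by nlinarith
    have h2 := dphi_hi φ φ' hb r (r ^ 2) h0 rfl
    have h3 := B_nn (r ^ 2) hx0 (by linarith)
    have h4 := mul_nonneg (div_nonneg h0 (by norm_num : (0 : ℝ) ≤ 5)) h3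
    have h5 := phi_lo φ φ' hb r (r ^ 2) rfl
    have h6 := A_nn (r ^ 2) hx0 hx1
    have h7 := pow_le_pow_left₀ h6 h5 2
    have h8 := pow_le_pow_left₀ h4 (by linarith : _ ≤ -φ' r) 2
    have h9 := K_nn (r ^ 2) hx0 hx1
    have h10 : ∀ t : ℝ, (r / 5 * t) ^ 2 = r ^ 2 * t ^ 2 / 25 := by
      intro t
      ring
    rw [h10] at h8
    push_cast
    nlinarith [h7, h8, h9]
  · have hi := int_lo h_ENG φ φ' hb
    have h1 : φ (11/4) ^ 7 ≤ (42173/100000) ^ 7 :=
      pow_le_pow_left₀ (by linarith [a1.1]) a1.2 7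
    have h0 : 0 ≤ φ (11/4) ^ 7 := pow_nonneg (by linarith [a1.1]) 7
    have h2 : φ (11/4) ^ 7 * -φ' (11/4) ≤ (42173/100000) ^ 7 * (15433/50000) :=
      mul_le_mul h1 (by linarith [b1.1]) (by linarith [b1.2]) (by norm_num)
    have h3 : a 5 φ 6 - a 5 φ 8 ≤ 93467/100000 := by
      have h31 := hv
      norm_num at h31 ⊢
      linarith [h31.1, h31.2.1, h31.2.2.1, h31.2.2.2.1]
    norm_num at h2 h3 hi ⊢
    linarith

end Pool.Agent.TRC
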