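import Pool.Agent.TRC.Targets2

/-!
# Project TRC: the inequality between neighbouring large exponents, dimension 6
-/

set_option autoImplicit false

noncomputable section

open MeasureTheory Set Filter

namespace Pool.Agent.TRC

open Pool.Agent.ExpMax

namespace KI6_

theorem num : (4094075239 * 2 ^ 152 : ℚ) ≤ itg 6 (powL (cofs 6 3 1 24 9) 8) := by
  decide +kernel

theorem abs_pow_even (r : ℝ) (k : ℕ) : |r| ^ (2 * k) = (r ^ 2) ^ k := by
  rw [pow_mul, sq_abs]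

theorem phi_lo (φ φ' : ℝ → ℝ) (hb : Bes 6 φ φ') (r x : ℝ) (hx : x = r ^ 2) :
    1 - x / 12 + x ^ 2 / 384 - x ^ 3 / 23040 - x ^ 4 / 2211840 ≤ φ r := by
  have h := hb.tay 3 r
  rw [show 2 * 3 + 2 = 2 * 4 by norm_num, abs_pow_even, ← hx] at h
  have hP : P 6 3 r = 1 - x / 12 + x ^ 2 / 384 - x ^ 3 / 23040 := by
    subst hx
    simp [P, W, Finset.sum_range_succ, Finset.prod_range_succ]
    ring
  have hW : W 6 (3 + 1) = 2211840 := by
    simp [W, Finset.prod_range_succ]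
    norm_num
  rw [hP, hW] at h
  have h2 := (abs_le.1 h).1
  linarith

theorem dphi_hi (φ φ' : ℝ → ℝ) (hb : Bes 6 φ φ') (r x : ℝ) (hr : 0 ≤ r)
    (hx : x = r ^ 2) :
    φ' r ≤ -(r / 6 * (1 - x / 16 + x ^ 2 / 640 - x ^ 3 / 46080 - x ^ 4 / 5160960)) := by
  have h := hb.tay' 3 r
  rw [show 2 * 3 + 2 = 2 * 4 by norm_num, abs_pow_even, ← hx, abs_of_nonneg hr] at h
  have hP : P (6 + 2) 3 r = 1 - x / 16 + x ^ 2 / 640 - x ^ 3 / 46080 := by
    subst hx
    simp [P, W, Finset.sum_range_succ, Finset.prod_range_succ]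
    ring
  have hW : W (6 + 2) (3 + 1) = 5160960 := by
    simp [W, Finset.prod_range_succ]
    norm_num
  rw [hP, hW] at h
  have h2 := (abs_le.1 h).2
  push_cast at h2
  linarith

theorem A_nn (x : ℝ) (h0 : 0 ≤ x) (h1 : x ≤ 9) :
    0 ≤ 1 - x / 12 + x ^ 2 / 384 - x ^ 3 / 23040 - x ^ 4 / 2211840 := by
  obtain ⟨y, hy⟩ : ∃ y : ℝ, y = 9 - x := ⟨_, rfl⟩
  have hy0 : 0 ≤ y := by linarith
  have e : 1 - x / 12 + x ^ 2 / 384 - x ^ 3 / 23040 - x ^ 4 / 2211840 = 1/6561 * (y ^ 4) +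
    13/26244 * (x * y ^ 3) + 169/279936 * (x ^ 2 * y ^ 2) + 5479/16796160 * (x ^ 3 * y) +
    6985/107495424 * (x ^ 4) := by
    subst hy
    ring
  rw [e]
  positivity

theorem B_nn (x : ℝ) (h0 : 0 ≤ x) (h1 : x ≤ 289/25) :
    0 ≤ 1 - x / 16 + x ^ 2 / 640 - x ^ 3 / 46080 - x ^ 4 / 5160960 := by
  obtain ⟨y, hy⟩ : ∃ y : ℝ, y = 289/25 - x := ⟨_, rfl⟩
  have hy0 : 0 ≤ y := by linarith
  have e : 1 - x / 16 + x ^ 2 / 640 - x ^ 3 / 46080 - x ^ 4 / 5160960 = 390625/6975757441 * (y ^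
    4) + 20484375/111612119056 * (x * y ^ 3) + 202065125/892896952448 * (x ^ 2 * y ^ 2) +
    7979690155/64288580576256 * (x ^ 3 * y) + 905824889359/36001605122703360 * (x ^ 4) := by
    subst hy
    ring
  rw [e]
  positivity

theorem S_nn (x : ℝ) (h0 : 0 ≤ x) (h1 : x ≤ 9) :
    0 ≤ 5/36 - 5 / 192 * x + 5 / 3072 * x ^ 2 - 397 / 6635520 * x ^ 3 + 1213 / 928972800 * x ^ 4
      - 41 / 2972712960 * x ^ 5 - x ^ 6 / 535088332800 + 19 / 6849130659840 * x ^ 7 + 11 /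
      958878292377600 * x ^ 8 := by
  obtain ⟨y, hy⟩ : ∃ y : ℝ, y = 9 - x := ⟨_, rfl⟩
  have hy0 : 0 ≤ y := by linarith
  have e : 5/36 - 5 / 192 * x + 5 / 3072 * x ^ 2 - 397 / 6635520 * x ^ 3 + 1213 / 928972800 * x
    ^ 4 - 41 / 2972712960 * x ^ 5 - x ^ 6 / 535088332800 + 19 / 6849130659840 * x ^ 7 + 11 /
    958878292377600 * x ^ 8 = 5/1549681956 * (y ^ 8) + 505/24794911296 * (x * y ^ 7) +
    21935/396718580736 * (x ^ 2 * y ^ 6) + 2656643/31737486458880 * (x ^ 3 * y ^ 5) +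
    339294377/4443248104243200 * (x ^ 4 * y ^ 4) + 2987027923/71091969667891200 * (x ^ 5 * y ^
    3) + 3681892547/284367878671564800 * (x ^ 6 * y ^ 2) + 181819897/103997395628457984 * (x ^ 7
    * y) + 236496695/20383489543177764864 * (x ^ 8) := by
    subst hy
    ring
  rw [e]
  positivity

theorem K_nn (x : ℝ) (h0 : 0 ≤ x) (h1 : x ≤ 9) :
    0 ≤ (1 - x / 12 + x ^ 2 / 384 - x ^ 3 / 23040 - x ^ 4 / 2211840) ^ 2 +
    11/36 * x * (1 - x / 16 + x ^ 2 / 640 - x ^ 3 / 46080 - x ^ 4 / 5160960) ^ 2 - 1 := by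
  have h := mul_nonneg h0 (S_nn x h0 h1)
  refine le_of_le_of_eq h ?_
  ring

theorem v1 (φ φ' : ℝ → ℝ) (hb : Bes 6 φ φ') :
    5401/12500 ≤ φ (3) ∧ φ (3) ≤ 43209/100000 := by
  have h := hb.tay 8 (3)
  have hP : P 6 8 (3) =
      2841654370409/6576668672000 := by
    simp [P, W, Finset.sum_range_succ, Finset.prod_range_succ]
    norm_num
  have hW : W 6 (8 + 1) = 1898579018907648000 := by
    simp [W, Finset.prod_range_succ]
    norm_num
  rw [hP, hW, abs_of_nonneg (by norm_num : (0 : ℝ) ≤ 3)] at h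
  have h2 := abs_le.1 h
  norm_num at h2
  constructor <;> linarith [h2.1, h2.2]

theorem v2 (φ φ' : ℝ → ℝ) (hb : Bes 6 φ φ') :
    16253/50000 ≤ φ (17/5) ∧ φ (17/5) ≤ 32507/100000 := by
  have h := hb.tay 8 (17/5)
  have hP : P 6 8 (17/5) =
      237808373710550678333836481/731566080000000000000000000 := by
    simp [P, W, Finset.sum_range_succ, Finset.prod_range_succ]
    norm_num
  have hW : W 6 (8 + 1) = 1898579018907648000 := by
    simp [W, Finset.prod_range_succ]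
    norm_num
  rw [hP, hW, abs_of_nonneg (by norm_num : (0 : ℝ) ≤ 17/5)] at h
  have h2 := abs_le.1 h
  norm_num at h2
  constructor <;> linarith [h2.1, h2.2]

theorem w1 (φ φ' : ℝ → ℝ) (hb : Bes 6 φ φ') :
    -27473/100000 ≤ φ' (3) ∧ φ' (3) ≤ -1717/6250 := by
  have h := hb.tay' 8 (3)
  have hP : P (6 + 2) 8 (3) =
      811197618379/1476395008000 := by
    simp [P, W, Finset.sum_range_succ, Finset.prod_range_succ]
    norm_num
  have hW : W (6 + 2) (8 + 1) = 7594316075630592000 := by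
    simp [W, Finset.prod_range_succ]
    norm_num
  rw [hP, hW, abs_of_nonneg (by norm_num : (0 : ℝ) ≤ 3)] at h
  have h2 := abs_le.1 h
  norm_num at h2
  constructor <;> linarith [h2.1, h2.2]

theorem w2 (φ φ' : ℝ → ℝ) (hb : Bes 6 φ φ') :
    -25841/100000 ≤ φ' (17/5) ∧ φ' (17/5) ≤ -323/1250 := by
  have h := hb.tay' 8 (17/5)
  have hP : P (6 + 2) 8 (17/5) =
      1223181548681991110856293281/2682408960000000000000000000 := by
    simp [P, W, Finset.sum_range_succ, Finset.prod_range_succ]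
    norm_num
  have hW : W (6 + 2) (8 + 1) = 7594316075630592000 := by
    simp [W, Finset.prod_range_succ]
    norm_num
  rw [hP, hW, abs_of_nonneg (by norm_num : (0 : ℝ) ≤ 17/5)] at h
  have h2 := abs_le.1 h
  norm_num at h2
  constructor <;> linarith [h2.1, h2.2]

theorem int_lo (h_ENG : T_ENG) (φ φ' : ℝ → ℝ) (hb : Bes 6 φ φ') :
    2713/1000 ≤ ∫ r in (0 : ℝ)..(3), φ r ^ 8 * r ^ (6 - 1) := by
  have h := h_ENG 6 φ φ' (by norm_num) hb 3 1 24 9 8 (by norm_num) (by norm_num) (3)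
    (27596977147/46299747450880000) (by norm_num) (by
      simp [W, Finset.prod_range_succ]
      norm_num)
  have hn : (4094075239 * 2 ^ 152 : ℝ) ≤
      ((itg 6 (powL (cofs 6 3 1 24 9) 8) : ℚ) : ℝ) := by
    have := num
    exact_mod_cast this
  have h2 := (abs_le.1 h).1
  have h3 : (3 : ℝ) ^ 6 * (4094075239 * 2 ^ 152) / 2 ^ (24 * 8) ≤
      (3 : ℝ) ^ 6 * ((itg 6 (powL (cofs 6 3 1 24 9) 8) : ℚ) : ℝ) /
        2 ^ (24 * 8) := by
    gcongr
  have h4 : (2713/1000 : ℝ) ≤ (3 : ℝ) ^ 6 * (4094075239 * 2 ^ 152) / 2 ^ (24 * 8) -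
      (3 : ℝ) ^ 6 / ((6 : ℕ) : ℝ) * (((8 : ℕ) : ℝ) *
        (27596977147/46299747450880000) *
        (1 + 27596977147/46299747450880000) ^ (8 - 1)) := by
    norm_num
  linarith

end KI6_

open KI6_ in
theorem p_KI6 (h_BIG : T_BIG) (h_VA6 : T_VA6) (h_ENG : T_ENG) : T_KI6 := by
  intro φ φ' hb p hp
  have hv := h_VA6 φ φ' hb
  have a1 := v1 φ φ' hb
  have a2 := v2 φ φ' hb
  have b1 := w1 φ φ' hb
  have b2 := w2 φ φ' hb
  refine h_BIG 6 φ φ' (by norm_num) hb (3) (17/5) (by norm_num) (by norm_num)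
    ?_ ?_ ?_ ?_ ?_ ?_ p hp
  · intro r h0 h1
    have h2 := dphi_hi φ φ' hb r (r ^ 2) h0 rfl
    have h3 := B_nn (r ^ 2) (by positivity) (by nlinarith)
    have h4 := mul_nonneg (div_nonneg h0 (by norm_num : (0 : ℝ) ≤ 6)) h3
    linarith
  · linarith [a1.1]
  · linarith [a1.1, a2.1]
  · have h1 : φ (17/5) ^ 2 ≤ (32507/100000) ^ 2 := by
      rw [sq_le_sq, abs_of_nonneg (by norm_num : (0 : ℝ) ≤ 32507/100000)]
      rw [abs_le]
      constructor <;> linarith [a2.1, a2.2]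
    have h2 : φ' (17/5) ^ 2 ≤ (25841/100000) ^ 2 := by
      rw [sq_le_sq, abs_of_nonneg (by norm_num : (0 : ℝ) ≤ 25841/100000)]
      rw [abs_le]
      constructor <;> linarith [b2.1, b2.2]
    have h3 : (5401/12500) ^ 2 ≤ φ (3) ^ 2 :=
      pow_le_pow_left₀ (by norm_num) a1.1 2
    have h4 : (32507/100000 : ℝ) ^ 2 + (25841/100000) ^ 2 ≤
      (5401/12500) ^ 2 := by norm_num
    linarith
  · intro r h0 h1
    have hx0 : 0 ≤ r ^ 2 := by positivity
    have hx1 : r ^ 2 ≤ 9 := by nlinarith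
    have h2 := dphi_hi φ φ' hb r (r ^ 2) h0 rfl
    have h3 := B_nn (r ^ 2) hx0 (by linarith)
    have h4 := mul_nonneg (div_nonneg h0 (by norm_num : (0 : ℝ) ≤ 6)) h3
    have h5 := phi_lo φ φ' hb r (r ^ 2) rfl
    have h6 := A_nn (r ^ 2) hx0 hx1
    have h7 := pow_le_pow_left₀ h6 h5 2
    have h8 := pow_le_pow_left₀ h4 (by linarith : _ ≤ -φ' r) 2
    have h9 := K_nn (r ^ 2) hx0 hx1
    have h10 : ∀ t : ℝ, (r / 6 * t) ^ 2 = r ^ 2 * t ^ 2 / 36 := by
      intro t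
      ring
    rw [h10] at h8
    push_cast
    nlinarith [h7, h8, h9]
  · have hi := int_lo h_ENG φ φ' hb
    have h1 : φ (3) ^ 7 ≤ (43209/100000) ^ 7 :=
      pow_le_pow_left₀ (by linarith [a1.1]) a1.2 7
    have h0 : 0 ≤ φ (3) ^ 7 := pow_nonneg (by linarith [a1.1]) 7
    have h2 : φ (3) ^ 7 * -φ' (3) ≤ (43209/100000) ^ 7 * (27473/100000) :=
      mul_le_mul h1 (by linarith [b1.1]) (by linarith [b1.2]) (by norm_num)
    have h3 : a 6 φ 6 - a 6 φ 8 ≤ 339629/100000 := by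
      have h31 := hv
      norm_num at h31 ⊢
      linarith [h31.1, h31.2.1, h31.2.2.1, h31.2.2.2.1]
    norm_num at h2 h3 hi ⊢
    linarith

end Pool.Agent.TRC
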