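import Pool.Agent.TRC.Targets2

/-!
# TRC-KI7: the inequality between neighbouring exponents, dimension seven
-/

set_option autoImplicit false

noncomputable section

open MeasureTheory Set Filter
open Pool.Agent.ExpMax

namespace Pool.Agent.TRC

/-! ### Polynomials in `x = r ^ 2` -/

theorem KI7_A (x : ℝ) (h0 : 0 ≤ x) (h1 : x ≤ (41 / 4)) :
    0 ≤ 1 - 1 / 14 * x + 1 / 504 * x ^ 2 - 1 / 33264 * x ^ 3 + 1 / 3459456 * x ^ 4 -
      1 / 518918400 * x ^ 5 := by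
  have h : 1 - 1 / 14 * x + 1 / 504 * x ^ 2 - 1 / 33264 * x ^ 3 + 1 / 3459456 * x ^ 4 -
    1 / 518918400 * x ^ 5 =
      (1024 / 115856201) * ((41 / 4) - x) ^ 5 +
      (30592 / 810993407) * x ^ 1 * ((41 / 4) - x) ^ 4 +
      (469640 / 7298940663) * x ^ 2 * ((41 / 4) - x) ^ 3 +
      (13199455 / 240865041879) * x ^ 3 * ((41 / 4) - x) ^ 2 +
      (2333826017 / 100199857421664) * x ^ 4 * ((41 / 4) - x) ^ 1 +
      (18267485323 / 4624608804076800) * x ^ 5 := by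
    ring
  rw [h]
  have hy : 0 ≤ (41 / 4) - x := by linarith
  generalize (41 / 4) - x = y at hy
  positivity

theorem KI7_B (x : ℝ) (h0 : 0 ≤ x) (h1 : x ≤ (49 / 4)) :
    0 ≤ 1 - 1 / 18 * x + 1 / 792 * x ^ 2 - 1 / 61776 * x ^ 3 + 1 / 7413120 * x ^ 4 -
      1 / 1260230400 * x ^ 5 := by
  have h : 1 - 1 / 18 * x + 1 / 792 * x ^ 2 - 1 / 61776 * x ^ 3 + 1 / 7413120 * x ^ 4 -
    1 / 1260230400 * x ^ 5 =
      (1024 / 282475249) * ((49 / 4) - x) ^ 5 +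
      (39808 / 2542277241) * x ^ 1 * ((49 / 4) - x) ^ 4 +
      (757000 / 27965049651) * x ^ 2 * ((49 / 4) - x) ^ 3 +
      (25522199 / 1090636936389) * x ^ 3 * ((49 / 4) - x) ^ 2 +
      (5294215681 / 523505729466720) * x ^ 4 * ((49 / 4) - x) ^ 1 +
      (621982479031 / 355983896037369600) * x ^ 5 := by
    ring
  rw [h]
  have hy : 0 ≤ (49 / 4) - x := by linarith
  generalize (49 / 4) - x = y at hy
  positivity

theorem KI7_S (x : ℝ) (h0 : 0 ≤ x) (h1 : x ≤ (41 / 4)) :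
    0 ≤ 6 / 49 - 1 / 49 * x + 50 / 43659 * x ^ 2 - 1 / 27027 * x ^ 3 + 2 / 2477475 * x ^ 4 -
      293 / 22684147200 * x ^ 5 + 43 / 271705674240 * x ^ 6 - 7583 / 5086330221772800 * x ^ 7 +
      241 / 22888485997977600 * x ^ 8 - 1 / 18838260080640000 * x ^ 9 +
      1 / 5986219414855680000 * x ^ 10 := by
  have h : 6 / 49 - 1 / 49 * x + 50 / 43659 * x ^ 2 - 1 / 27027 * x ^ 3 + 2 / 2477475 * x ^ 4 -
    293 / 22684147200 * x ^ 5 + 43 / 271705674240 * x ^ 6 - 7583 / 5086330221772800 * x ^ 7 +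
    241 / 22888485997977600 * x ^ 8 - 1 / 18838260080640000 * x ^ 9 +
    1 / 5986219414855680000 * x ^ 10 =
      (6291456 / 657710306197467649) * ((41 / 4) - x) ^ 10 +
      (52166656 / 657710306197467649) * x ^ 1 * ((41 / 4) - x) ^ 9 +
      (171576786944 / 586019882821943675259) * x ^ 2 * ((41 / 4) - x) ^ 8 +
      (4812275236864 / 7618258476685267778367) * x ^ 3 * ((41 / 4) - x) ^ 7 +
      (37548436332544 / 42755532267111196715325) * x ^ 4 * ((41 / 4) - x) ^ 6 +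
      (37393442657195822 / 45791175058076091682113075) * x ^ 5 * ((41 / 4) - x) ^ 5 +
      (65221468606698007 / 128215290162613056709916610) * x ^ 6 * ((41 / 4) - x) ^ 4 +
      (31312409502203089471 / 152393030593277233118072313600) * x ^ 7 * ((41 / 4) - x) ^ 3 +
      (947940266576027311159 / 19201521854752931372877111513600) * x ^ 8 * ((41 / 4) - x) ^ 2 +
      (6677316870420662285929 / 1181632114138641930638591477760000) * x ^ 9 * ((41 / 4) - x) ^ 1 +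
      (8526969366711311992373 / 80350983761427651283424220487680000) * x ^ 10 := by
    ring
  rw [h]
  have hy : 0 ≤ (41 / 4) - x := by linarith
  generalize (41 / 4) - x = y at hy
  positivity

/-! ### Values of the Taylor polynomials -/

theorem KI7_num : (2589 / 1000000 : ℚ) * 2 ^ (40 * 8) ≤
    itg 7 (powL (cofs 7 16 5 40 14) 8) := by
  decide +kernel

theorem KI7_num' : (2589 / 1000000 : ℝ) * 2 ^ (40 * 8) ≤
    ((itg 7 (powL (cofs 7 16 5 40 14) 8) : ℚ) : ℝ) := by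
  have h0 : (((2589 / 1000000 : ℚ) * 2 ^ (40 * 8) : ℚ) : ℝ) ≤
      ((itg 7 (powL (cofs 7 16 5 40 14) 8) : ℚ) : ℝ) := Rat.cast_le.mpr KI7_num
  rw [Rat.cast_mul, Rat.cast_pow, Rat.cast_ofNat, Rat.cast_div, Rat.cast_ofNat,
    Rat.cast_ofNat] at h0
  exact h0

theorem KI7_W5 : W 7 (4 + 1) = 518918400 := by
  norm_num [W, Finset.prod_range_succ]

theorem KI7_W5' : W (7 + 2) (4 + 1) = 1260230400 := by
  norm_num [W, Finset.prod_range_succ]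

theorem KI7_P (r : ℝ) : P 7 4 r =
    1 - 1 / 14 * r ^ 2 + 1 / 504 * r ^ 4 - 1 / 33264 * r ^ 6 + 1 / 3459456 * r ^ 8 := by
  norm_num [P, W, Finset.sum_range_succ, Finset.prod_range_succ]
  ring

theorem KI7_P' (r : ℝ) : P (7 + 2) 4 r =
    1 - 1 / 18 * r ^ 2 + 1 / 792 * r ^ 4 - 1 / 61776 * r ^ 6 + 1 / 7413120 * r ^ 8 := by
  norm_num [P, W, Finset.sum_range_succ, Finset.prod_range_succ]
  ring

/-- Lower bound of `φ`. -/
theorem KI7_lo (φ φ' : ℝ → ℝ) (hB : Bes 7 φ φ') (r : ℝ) (hr : 0 ≤ r) :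
    1 - 1 / 14 * (r ^ 2) + 1 / 504 * (r ^ 2) ^ 2 - 1 / 33264 * (r ^ 2) ^ 3 +
      1 / 3459456 * (r ^ 2) ^ 4 - 1 / 518918400 * (r ^ 2) ^ 5 ≤ φ r := by
  have h := hB.tay 4 r
  rw [KI7_W5, KI7_P, abs_of_nonneg hr] at h
  have h1 := (abs_le.mp h).1
  norm_num at h1
  nlinarith [h1]

/-- Lower bound of `-φ'`. -/
theorem KI7_lo' (φ φ' : ℝ → ℝ) (hB : Bes 7 φ φ') (r : ℝ) (hr : 0 ≤ r) :
    r / 7 * (1 - 1 / 18 * (r ^ 2) + 1 / 792 * (r ^ 2) ^ 2 - 1 / 61776 * (r ^ 2) ^ 3 +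
      1 / 7413120 * (r ^ 2) ^ 4 - 1 / 1260230400 * (r ^ 2) ^ 5) ≤ -φ' r := by
  have h := hB.tay' 4 r
  rw [KI7_W5', KI7_P', abs_of_nonneg hr] at h
  have h1 := (abs_le.mp h).2
  norm_num at h1
  nlinarith [h1]

theorem KI7_neg (φ φ' : ℝ → ℝ) (hB : Bes 7 φ φ') (r : ℝ) (hr : 0 ≤ r) (h2 : r ≤ 7 / 2) :
    φ' r ≤ 0 := by
  have h := KI7_lo' φ φ' hB r hr
  have hb := KI7_B (r ^ 2) (by positivity) (by nlinarith)
  have : 0 ≤ r / 7 * (1 - 1 / 18 * (r ^ 2) + 1 / 792 * (r ^ 2) ^ 2 - 1 / 61776 * (r ^ 2) ^ 3 +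
      1 / 7413120 * (r ^ 2) ^ 4 - 1 / 1260230400 * (r ^ 2) ^ 5) := mul_nonneg (by positivity) hb
  linarith

theorem KI7_K (φ φ' : ℝ → ℝ) (hB : Bes 7 φ φ') (r : ℝ) (hr : 0 ≤ r) (h2 : r ≤ 16 / 5) :
    0 ≤ φ r ^ 2 + 13 * φ' r ^ 2 - 1 := by
  have h := KI7_lo φ φ' hB r hr
  have h' := KI7_lo' φ φ' hB r hr
  have hx0 : 0 ≤ r ^ 2 := by positivity
  have hx1 : r ^ 2 ≤ 41 / 4 := by nlinarith
  have ha := KI7_A (r ^ 2) hx0 hx1
  have hb := KI7_B (r ^ 2) hx0 (by linarith)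
  have hs := KI7_S (r ^ 2) hx0 hx1
  have hb' : 0 ≤ r / 7 * (1 - 1 / 18 * (r ^ 2) + 1 / 792 * (r ^ 2) ^ 2 -
      1 / 61776 * (r ^ 2) ^ 3 + 1 / 7413120 * (r ^ 2) ^ 4 - 1 / 1260230400 * (r ^ 2) ^ 5) :=
    mul_nonneg (by positivity) hb
  have q1 := pow_le_pow_left₀ ha h 2
  have q2 := pow_le_pow_left₀ hb' h' 2
  have q3 := mul_nonneg hx0 hs
  have e : (1 - 1 / 14 * (r ^ 2) + 1 / 504 * (r ^ 2) ^ 2 - 1 / 33264 * (r ^ 2) ^ 3 +
      1 / 3459456 * (r ^ 2) ^ 4 - 1 / 518918400 * (r ^ 2) ^ 5) ^ 2 +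
      13 * (r / 7 * (1 - 1 / 18 * (r ^ 2) + 1 / 792 * (r ^ 2) ^ 2 - 1 / 61776 * (r ^ 2) ^ 3 +
      1 / 7413120 * (r ^ 2) ^ 4 - 1 / 1260230400 * (r ^ 2) ^ 5)) ^ 2 - 1 =
      r ^ 2 * (6 / 49 - 1 / 49 * r ^ 2 + 50 / 43659 * (r ^ 2) ^ 2 - 1 / 27027 * (r ^ 2) ^ 3 +
      2 / 2477475 * (r ^ 2) ^ 4 - 293 / 22684147200 * (r ^ 2) ^ 5 +
      43 / 271705674240 * (r ^ 2) ^ 6 - 7583 / 5086330221772800 * (r ^ 2) ^ 7 +
      241 / 22888485997977600 * (r ^ 2) ^ 8 - 1 / 18838260080640000 * (r ^ 2) ^ 9 +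
      1 / 5986219414855680000 * (r ^ 2) ^ 10) := by
    ring
  have e2 : (-φ' r) ^ 2 = φ' r ^ 2 := by ring
  rw [e2] at q2
  linarith

theorem KI7_phi1 (φ φ' : ℝ → ℝ) (hB : Bes 7 φ φ') :
    447314 / 1000000 ≤ φ (16 / 5) ∧ φ (16 / 5) ≤ 447315 / 1000000 := by
  have h := hB.tay 8 (16 / 5)
  rw [abs_le] at h
  norm_num [P, W, Finset.sum_range_succ, Finset.prod_range_succ] at h
  constructor <;> linarith [h.1, h.2]

theorem KI7_phi1' (φ φ' : ℝ → ℝ) (hB : Bes 7 φ φ') :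
    -(250297 / 1000000) ≤ φ' (16 / 5) := by
  have h := hB.tay' 8 (16 / 5)
  rw [abs_le] at h
  norm_num [P, W, Finset.sum_range_succ, Finset.prod_range_succ] at h
  linarith [h.1, h.2]

theorem KI7_phi2 (φ φ' : ℝ → ℝ) (hB : Bes 7 φ φ') :
    373488 / 1000000 ≤ φ (7 / 2) ∧ φ (7 / 2) ≤ 373489 / 1000000 := by
  have h := hB.tay 8 (7 / 2)
  rw [abs_le] at h
  norm_num [P, W, Finset.sum_range_succ, Finset.prod_range_succ] at h
  constructor <;> linarith [h.1, h.2]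

theorem KI7_phi2' (φ φ' : ℝ → ℝ) (hB : Bes 7 φ φ') :
    -(240996 / 1000000) ≤ φ' (7 / 2) := by
  have h := hB.tay' 8 (7 / 2)
  rw [abs_le] at h
  norm_num [P, W, Finset.sum_range_succ, Finset.prod_range_succ] at h
  linarith [h.1, h.2]

theorem KI7_int (hE : T_ENG) (φ φ' : ℝ → ℝ) (hB : Bes 7 φ φ') :
    8895 / 1000 ≤ ∫ r in (0 : ℝ)..(16 / 5), φ r ^ 8 * r ^ (7 - 1) := by
  have h := hE 7 φ φ' (by norm_num) hB 16 5 40 14 8 (by norm_num) (by norm_num) (16 / 5)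
    (((14 : ℕ) + 1) / 2 ^ 40 + (16 / 5) ^ (2 * 14 + 2) / W 7 (14 + 1)) (by norm_num) (by norm_num)
  have hn := KI7_num'
  generalize ((itg 7 (powL (cofs 7 16 5 40 14) 8) : ℚ) : ℝ) = J at h hn
  have h1 := (abs_le.mp h).1
  have hδ : (((14 : ℕ) : ℝ) + 1) / 2 ^ 40 + (16 / 5) ^ (2 * 14 + 2) / W 7 (14 + 1) ≤
      1 / 1000000000 := by
    norm_num [W, Finset.prod_range_succ]
  have hδ0 : 0 ≤ (((14 : ℕ) : ℝ) + 1) / 2 ^ 40 + (16 / 5) ^ (2 * 14 + 2) / W 7 (14 + 1) := by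
    norm_num [W, Finset.prod_range_succ]
  generalize (((14 : ℕ) : ℝ) + 1) / 2 ^ 40 + (16 / 5) ^ (2 * 14 + 2) / W 7 (14 + 1) = δ
    at h1 hδ hδ0
  have hr : (16 / 5 : ℝ) ^ 7 / (7 : ℕ) * ((8 : ℕ) * δ * (1 + δ) ^ (8 - 1)) ≤
      (16 / 5 : ℝ) ^ 7 / (7 : ℕ) * ((8 : ℕ) * (1 / 1000000000) *
        (1 + 1 / 1000000000) ^ (8 - 1)) := by
    gcongr
  have hm : (16 / 5 : ℝ) ^ 7 * (2589 / 1000000) ≤ (16 / 5 : ℝ) ^ 7 * J / 2 ^ (40 * 8) := by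
    rw [le_div_iff₀ (by positivity)]
    rw [mul_assoc]
    gcongr
  norm_num at h1 hr hm ⊢
  linarith

theorem p_KI7 (hG : T_BIG) (hV : T_VA7) (hE : T_ENG) : T_KI7 := by
  intro φ φ' hB
  have a1 := KI7_phi1 φ φ' hB
  have a1' := KI7_phi1' φ φ' hB
  have a2 := KI7_phi2 φ φ' hB
  have a2' := KI7_phi2' φ φ' hB
  have n1 := KI7_neg φ φ' hB (16 / 5) (by norm_num) (by norm_num)
  have n2 := KI7_neg φ φ' hB (7 / 2) (by norm_num) (by norm_num)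
  refine hG 7 φ φ' (by norm_num) hB (16 / 5) (7 / 2) (by norm_num) (by norm_num)
    (fun r h0 h1 => KI7_neg φ φ' hB r h0 h1) (by linarith [a1.1]) (by linarith [a1.1, a2.1])
    ?_ ?_ ?_
  · have q1 : φ (7 / 2) ^ 2 ≤ (373489 / 1000000) ^ 2 :=
      pow_le_pow_left₀ (by linarith [a2.1]) a2.2 2
    have q2 : (-φ' (7 / 2)) ^ 2 ≤ (240996 / 1000000) ^ 2 :=
      pow_le_pow_left₀ (by linarith) (by linarith) 2
    have q3 : (447314 / 1000000) ^ 2 ≤ φ (16 / 5) ^ 2 :=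
      pow_le_pow_left₀ (by norm_num) a1.1 2
    have e2 : (-φ' (7 / 2)) ^ 2 = φ' (7 / 2) ^ 2 := by ring
    rw [e2] at q2
    norm_num at q1 q2 q3 ⊢
    linarith
  · intro r h0 h1
    have := KI7_K φ φ' hB r h0 h1
    norm_num
    norm_num at this
    linarith
  · obtain ⟨_, _, v6, v8, _, _⟩ := hV φ φ' hB
    have hI := KI7_int hE φ φ' hB
    have q1 : φ (16 / 5) ^ 7 ≤ (447315 / 1000000) ^ 7 :=
      pow_le_pow_left₀ (by linarith [a1.1]) a1.2 7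
    have q0 : 0 ≤ φ (16 / 5) ^ 7 := by
      have : 0 ≤ φ (16 / 5) := by linarith [a1.1]
      positivity
    have q2 : φ (16 / 5) ^ 7 * (-φ' (16 / 5)) ≤
        (447315 / 1000000) ^ 7 * (250297 / 1000000) :=
      mul_le_mul q1 (by linarith) (by linarith) (by positivity)
    generalize (∫ r in (0 : ℝ)..(16 / 5), φ r ^ 8 * r ^ (7 - 1)) = I at hI ⊢
    have q3 : -(φ (16 / 5) ^ 7 * φ' (16 / 5)) ≤
        (447315 / 1000000) ^ 7 * (250297 / 1000000) := by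
      linarith
    generalize φ (16 / 5) ^ 7 * φ' (16 / 5) = X at q3 ⊢
    norm_num at q3 ⊢
    linarith

end Pool.Agent.TRC
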