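import Pool.Agent.TRC.Targets2

/-!
# Project TRC: the target LBD (lower bound of the moments)
-/

set_option autoImplicit false

noncomputable section

open MeasureTheory Set Filter Pool.Agent.ExpMax
open scoped Topology

namespace Pool.Agent.TRC

namespace LBD_

theorem pt {x θ : ℝ} (hx : 0 ≤ x) (hθ : 0 ≤ θ) :
    x ^ (6 + 2 * θ) = x ^ (4 : ℝ) * (x ^ 2) ^ (1 + θ) := by
  have h1 : (x ^ 2) ^ (1 + θ) = x ^ (2 + 2 * θ) := by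
    rw [← Real.rpow_natCast x 2, ← Real.rpow_mul hx]
    congr 1
    push_cast
    ring
  rw [h1, ← Real.rpow_add_of_nonneg hx (by norm_num) (by linarith)]
  congr 1
  ring

theorem e6 {x : ℝ} (hx : 0 ≤ x) : x ^ (6 : ℝ) = x ^ (4 : ℝ) * x ^ 2 := by
  rw [← Real.rpow_natCast x 2, ← Real.rpow_add_of_nonneg hx (by norm_num) (by norm_num)]
  norm_num

theorem e8 {x : ℝ} (hx : 0 ≤ x) : x ^ (8 : ℝ) = x ^ (4 : ℝ) * (x ^ 2) ^ 2 := by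
  rw [← pow_mul, ← Real.rpow_natCast x (2 * 2),
    ← Real.rpow_add_of_nonneg hx (by norm_num) (by norm_num)]
  norm_num

theorem e10 {x : ℝ} (hx : 0 ≤ x) : x ^ (10 : ℝ) = x ^ (4 : ℝ) * (x ^ 2) ^ 3 := by
  rw [← pow_mul, ← Real.rpow_natCast x (2 * 3),
    ← Real.rpow_add_of_nonneg hx (by norm_num) (by norm_num)]
  norm_num

end LBD_

theorem p_LBD (h_HRM : T_HRM) (h_ITG : T_ITG) : T_LBD := by
  intro n φ φ' hn hB θ s₂ s₃ c₀ c₁ c₂ c₃ hθ0 hθ1 hs2 hs3 hpol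
  have i4 := (h_ITG n φ φ' hn hB 4 le_rfl).1
  have i6 := (h_ITG n φ φ' hn hB 6 (by norm_num)).1
  have i8 := (h_ITG n φ φ' hn hB 8 (by norm_num)).1
  have i10 := (h_ITG n φ φ' hn hB 10 (by norm_num)).1
  have iq := (h_ITG n φ φ' hn hB (6 + 2 * θ) (by linarith)).1
  have j1 : IntegrableOn (fun r => c₀ * (|φ r| ^ (4 : ℝ) * r ^ (n - 1)) +
      c₁ * (|φ r| ^ (6 : ℝ) * r ^ (n - 1))) (Ioi 0) := (i4.const_mul c₀).add (i6.const_mul c₁)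
  have j2 : IntegrableOn (fun r => c₀ * (|φ r| ^ (4 : ℝ) * r ^ (n - 1)) +
      c₁ * (|φ r| ^ (6 : ℝ) * r ^ (n - 1)) + c₂ * (|φ r| ^ (8 : ℝ) * r ^ (n - 1))) (Ioi 0) :=
    j1.add (i8.const_mul c₂)
  have j3 : IntegrableOn (fun r => c₀ * (|φ r| ^ (4 : ℝ) * r ^ (n - 1)) +
      c₁ * (|φ r| ^ (6 : ℝ) * r ^ (n - 1)) + c₂ * (|φ r| ^ (8 : ℝ) * r ^ (n - 1)) +
      c₃ * (|φ r| ^ (10 : ℝ) * r ^ (n - 1))) (Ioi 0) := j2.add (i10.const_mul c₃)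
  unfold a
  rw [← integral_const_mul, ← integral_const_mul, ← integral_const_mul, ← integral_const_mul,
    ← integral_add (i4.const_mul c₀) (i6.const_mul c₁), ← integral_add j1 (i8.const_mul c₂),
    ← integral_add j2 (i10.const_mul c₃)]
  refine setIntegral_mono_on j3 iq measurableSet_Ioi ?_
  intro r hr
  have hx : 0 ≤ |φ r| := abs_nonneg _
  have h1 := h_HRM θ s₂ s₃ hθ0 hθ1 hs2 hs3 (|φ r| ^ 2) (sq_nonneg _)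
  rw [hpol] at h1
  have h2 : 0 ≤ |φ r| ^ (4 : ℝ) * r ^ (n - 1) :=
    mul_nonneg (Real.rpow_nonneg hx _) (pow_nonneg (le_of_lt hr) _)
  have h3 := mul_le_mul_of_nonneg_left h1 h2
  rw [LBD_.pt hx hθ0, LBD_.e6 hx, LBD_.e8 hx, LBD_.e10 hx]
  calc c₀ * (|φ r| ^ (4 : ℝ) * r ^ (n - 1)) + c₁ * (|φ r| ^ (4 : ℝ) * |φ r| ^ 2 * r ^ (n - 1)) +
        c₂ * (|φ r| ^ (4 : ℝ) * (|φ r| ^ 2) ^ 2 * r ^ (n - 1)) +
        c₃ * (|φ r| ^ (4 : ℝ) * (|φ r| ^ 2) ^ 3 * r ^ (n - 1))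
      = |φ r| ^ (4 : ℝ) * r ^ (n - 1) *
        (c₀ + c₁ * |φ r| ^ 2 + c₂ * (|φ r| ^ 2) ^ 2 + c₃ * (|φ r| ^ 2) ^ 3) := by ring
    _ ≤ |φ r| ^ (4 : ℝ) * r ^ (n - 1) * (|φ r| ^ 2) ^ (1 + θ) := h3
    _ = |φ r| ^ (4 : ℝ) * (|φ r| ^ 2) ^ (1 + θ) * r ^ (n - 1) := by ring

end Pool.Agent.TRC
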