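import Pool.Agent.TRC.Targets
import Pool.Agent.TRC.Lem

/-!
# Project TRC, target LIM: the derivative of a curve of maximizers
-/

set_option autoImplicit false

noncomputable section

open MeasureTheory Set Filter Pool.Agent.ExpMax
open scoped ENNReal RealInnerProductSpace Topology

namespace Pool.Agent.TRC

namespace LIM_

section

variable {F : Type} [NormedAddCommGroup F] [InnerProductSpace ℝ F] [FiniteDimensional ℝ F]
    [MeasurableSpace F] [BorelSpace F]

theorem B_smul (hn : 1 ≤ Module.finrank ℝ F) (q : ℝ) (f h g : H F) (c : ℂ) :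
    B q f h (c • g) = c * B q f h g := by
  unfold B
  rw [← integral_const_mul]
  refine integral_congr_ae (Eventually.of_forall fun y => ?_)
  simp only
  rw [E_smul hn]
  ring

theorem B_zero (hn : 1 ≤ Module.finrank ℝ F) (q : ℝ) (f h : H F) : B q f h 0 = 0 := by
  have := B_smul hn q f h 0 0
  simpa using this

theorem cont_w (hn : 1 ≤ Module.finrank ℝ F) (q : ℝ) (hq : 0 ≤ q) (f : H F) :
    Continuous (fun y => ‖E f y‖ ^ q) :=
  (continuous_E hn f).norm.rpow_const (fun _ => Or.inr hq)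

theorem intB (hn : 1 ≤ Module.finrank ℝ F) (q : ℝ) (hq : 0 ≤ q) (f h g : H F)
    (hf : Integrable (fun y => ‖E f y‖ ^ q)) :
    Integrable (fun y => ((‖E f y‖ ^ q : ℝ) : ℂ) * ((starRingEnd ℂ) (E h y) * E g y)) := by
  refine Integrable.mono' (hf.mul_const (‖h‖ * ‖g‖)) ?_ ?_
  · refine Continuous.aestronglyMeasurable ?_
    exact (Complex.continuous_ofReal.comp (cont_w hn q hq f)).mul
      ((Complex.continuous_conj.comp (continuous_E hn h)).mul (continuous_E hn g))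
  · refine Eventually.of_forall fun y => ?_
    rw [norm_mul, norm_mul, Complex.norm_real, RCLike.norm_conj,
      Real.norm_of_nonneg (Real.rpow_nonneg (norm_nonneg _) _)]
    exact mul_le_mul_of_nonneg_left (mul_le_mul (norm_E_le hn h y) (norm_E_le hn g y)
      (norm_nonneg _) (norm_nonneg _)) (Real.rpow_nonneg (norm_nonneg _) _)

theorem B_sub (hn : 1 ≤ Module.finrank ℝ F) (q : ℝ) (hq : 0 ≤ q) (f h g g' : H F)
    (hf : Integrable (fun y => ‖E f y‖ ^ q)) :
    B q f h (g - g') = B q f h g - B q f h g' := by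
  unfold B
  rw [← integral_sub (intB hn q hq f h g hf) (intB hn q hq f h g' hf)]
  refine integral_congr_ae (Eventually.of_forall fun y => ?_)
  simp only
  rw [E_sub hn]
  ring

theorem int1 (hn : 1 ≤ Module.finrank ℝ F) (q : ℝ) (hq : 0 ≤ q) (f g : H F)
    (hf : Integrable (fun y => ‖E f y‖ ^ q)) :
    Integrable (fun y => ‖E f y‖ ^ q * ‖E g y‖) := by
  refine Integrable.mono' (hf.mul_const ‖g‖) ?_ ?_
  · exact ((cont_w hn q hq f).mul (continuous_E hn g).norm).aestronglyMeasurable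
  · refine Eventually.of_forall fun y => ?_
    rw [Real.norm_of_nonneg (mul_nonneg (Real.rpow_nonneg (norm_nonneg _) _) (norm_nonneg _))]
    exact mul_le_mul_of_nonneg_left (norm_E_le hn g y) (Real.rpow_nonneg (norm_nonneg _) _)

theorem B_le (hn : 1 ≤ Module.finrank ℝ F) (q : ℝ) (hq : 0 ≤ q) (f h g : H F)
    (hf : Integrable (fun y => ‖E f y‖ ^ q)) :
    ‖B q f h g‖ ≤ ‖h‖ * ∫ y, ‖E f y‖ ^ q * ‖E g y‖ := by
  unfold B
  rw [← integral_const_mul]
  refine (norm_integral_le_integral_norm _).trans ?_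
  refine integral_mono (intB hn q hq f h g hf).norm ((int1 hn q hq f g hf).const_mul _) ?_
  intro y
  simp only
  rw [norm_mul, norm_mul, Complex.norm_real, RCLike.norm_conj,
    Real.norm_of_nonneg (Real.rpow_nonneg (norm_nonneg _) _)]
  have h1 := norm_E_le hn h y
  have h2 : 0 ≤ ‖E f y‖ ^ q * ‖E g y‖ :=
    mul_nonneg (Real.rpow_nonneg (norm_nonneg _) _) (norm_nonneg _)
  calc ‖E f y‖ ^ q * (‖E h y‖ * ‖E g y‖) = ‖E h y‖ * (‖E f y‖ ^ q * ‖E g y‖) := by ring
    _ ≤ ‖h‖ * (‖E f y‖ ^ q * ‖E g y‖) := mul_le_mul_of_nonneg_right h1 h2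

/-- The weighted integrals tend to `0` for a bounded sequence with pointwise convergence. -/
theorem tend0 (hn : 1 ≤ Module.finrank ℝ F) (q : ℝ) (hq : 0 ≤ q) (f : H F)
    (hf : Integrable (fun y => ‖E f y‖ ^ q)) (d : ℕ → H F) (hd : ∀ k, ‖d k‖ ≤ 2)
    (h0 : ∀ y, Tendsto (fun k => E (d k) y) atTop (𝓝 0)) :
    Tendsto (fun k => ∫ y, ‖E f y‖ ^ q * ‖E (d k) y‖) atTop (𝓝 0) := by
  have h1 : Tendsto (fun k => ∫ y, ‖E f y‖ ^ q * ‖E (d k) y‖) atTop
      (𝓝 (∫ _y : F, (0 : ℝ))) := by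
    refine tendsto_integral_of_dominated_convergence (fun y => ‖E f y‖ ^ q * 2)
      (fun k => (int1 hn q hq f (d k) hf).aestronglyMeasurable) (hf.mul_const 2) ?_ ?_
    · intro k
      refine Eventually.of_forall fun y => ?_
      rw [Real.norm_of_nonneg (mul_nonneg (Real.rpow_nonneg (norm_nonneg _) _) (norm_nonneg _))]
      exact mul_le_mul_of_nonneg_left ((norm_E_le hn (d k) y).trans (hd k))
        (Real.rpow_nonneg (norm_nonneg _) _)
    · refine Eventually.of_forall fun y => ?_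
      have h2 : Tendsto (fun k => ‖E f y‖ ^ q * ‖E (d k) y‖) atTop
          (𝓝 (‖E f y‖ ^ q * ‖(0 : ℂ)‖)) := (h0 y).norm.const_mul _
      simpa using h2
  simpa using h1

end

end LIM_

open LIM_ in
theorem p_LIM (h_IQ : T_IQ) (h_WK : T_WK) (h_INJ : T_INJ) (h_STR : T_STR) (h_REM : T_REM) :
    T_LIM := by
  intro F _ _ _ _ _ hn3 p f g s v hp hM hf hRf hEf hg hs hs0 hE hv
  have hn : 1 ≤ Module.finrank ℝ F := by omega
  have hq : (4 : ℝ) ≤ p - 2 := by linarith
  have hq0 : (0 : ℝ) ≤ p - 2 := by linarith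
  have hint : Integrable (fun y => ‖E f y‖ ^ (p - 2)) := ((h_IQ F hn3 (p - 2) hq).1 f).1
  -- the zero vector field
  have hzero : (∀ y, v y = 0) → ∃ ψ : H F, Eig p f ψ ∧ ∀ y, E ψ y = v y := by
    intro h0
    refine ⟨0, fun h => ?_, fun y => ?_⟩
    · rw [B_zero hn, inner_zero_right, mul_zero, mul_zero]
    · rw [E_zero hn, h0]
  by_cases hfr : ∃ᶠ k in atTop, g k = f
  · apply hzero
    intro y
    have h1 : ∃ᶠ k in atTop, (E (g k) y - E f y) / ((s k : ℝ) : ℂ) ∈ ({0} : Set ℂ) := by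
      refine hfr.mono fun k hk => ?_
      rw [hk, sub_self, zero_div]
      rfl
    exact isClosed_singleton.mem_of_frequently_of_tendsto h1 (hv y)
  rw [Filter.not_frequently] at hfr
  -- strong convergence
  have hgf : Tendsto g atTop (𝓝 f) := h_STR F hn f g (fun k => by rw [(hg k).1, hf]) hE
  have hr0 : Tendsto (fun k => ‖g k - f‖) atTop (𝓝 0) := by
    have := (tendsto_sub_nhds_zero_iff.mpr hgf).norm
    simpa using this
  obtain ⟨d, hd⟩ : ∃ d : ℕ → H F, ∀ k, d k = ((‖g k - f‖ : ℝ) : ℂ)⁻¹ • (g k - f) :=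
    ⟨_, fun _ => rfl⟩
  have hdn : ∀ k, g k ≠ f → ‖d k‖ = 1 := by
    intro k hk
    have h1 : ‖g k - f‖ ≠ 0 := by
      rw [norm_ne_zero_iff, sub_ne_zero]
      exact hk
    rw [hd, norm_smul, norm_inv, Complex.norm_real, Real.norm_of_nonneg (norm_nonneg _),
      inv_mul_cancel₀ h1]
  have hd1 : ∀ k, ‖d k‖ ≤ 1 := by
    intro k
    by_cases hk : g k = f
    · rw [hd, hk, sub_self, smul_zero, norm_zero]
      exact zero_le_one
    · exact (hdn k hk).le
  obtain ⟨φ, m, hm, hφ1, hφ⟩ := h_WK F hn d hd1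
  have hmt : Tendsto m atTop atTop := hm.tendsto_atTop
  obtain ⟨C, hC⟩ := h_REM F hn3 p hp
  -- the pointwise convergence of the extensions
  have hEd : ∀ y, Tendsto (fun k => E (d (m k)) y) atTop (𝓝 (E φ y)) := by
    intro y
    have h1 := hφ (ch y)
    simpa only [← E_eq hn] using h1
  obtain ⟨δ, hδ⟩ : ∃ δ : ℕ → ℝ, ∀ k, δ k = ∫ y, ‖E f y‖ ^ (p - 2) * ‖E (d (m k) - φ) y‖ :=
    ⟨_, fun _ => rfl⟩
  have hδ0 : Tendsto δ atTop (𝓝 0) := by
    have h1 := tend0 hn (p - 2) hq0 f hint (fun k => d (m k) - φ) (fun k => by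
      have := norm_sub_le (d (m k)) φ
      have := hd1 (m k)
      linarith) (fun y => by
        have h2 := (hEd y).sub_const (E φ y)
        rw [sub_self] at h2
        refine h2.congr fun k => ?_
        rw [E_sub hn])
    exact h1.congr fun k => (hδ k).symm
  obtain ⟨ε, hε⟩ : ∃ ε : ℕ → ℝ, ∀ k, ε k = |C| * ‖g (m k) - f‖ + (p - 1) * δ k :=
    ⟨_, fun _ => rfl⟩
  have hε0 : Tendsto ε atTop (𝓝 0) := by
    have h1 := ((hr0.comp hmt).const_mul |C|).add (hδ0.const_mul (p - 1))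
    rw [mul_zero, mul_zero, add_zero] at h1
    exact h1.congr fun k => (hε k).symm
  -- the key estimate
  have key : ∀ (h : H F) (k : ℕ), ‖((J p f : ℝ) : ℂ) * inner ℂ h (d (m k)) -
      ((p - 1 : ℝ) : ℂ) * B (p - 2) f h φ‖ ≤ ε k * ‖h‖ := by
    intro h k
    have e1 : ‖((J p f : ℝ) : ℂ) * inner ℂ h (d (m k)) -
        ((p - 1 : ℝ) : ℂ) * B (p - 2) f h (d (m k))‖ ≤ |C| * ‖g (m k) - f‖ * ‖h‖ := by
      have h1 := hC f (g (m k)) hf (hg _).1 hRf (hg _).2.1 hEf (hg _).2.2.1 (hg _).2.2.2 h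
      have h2 : ((J p f : ℝ) : ℂ) * inner ℂ h (d (m k)) -
          ((p - 1 : ℝ) : ℂ) * B (p - 2) f h (d (m k)) =
          ((‖g (m k) - f‖ : ℝ) : ℂ)⁻¹ * (((J p f : ℝ) : ℂ) * inner ℂ h (g (m k) - f) -
          ((p - 1 : ℝ) : ℂ) * B (p - 2) f h (g (m k) - f)) := by
        rw [hd, B_smul hn, inner_smul_right]
        ring
      rw [h2, norm_mul, norm_inv, Complex.norm_real, Real.norm_of_nonneg (norm_nonneg _)]
      by_cases hk : ‖g (m k) - f‖ = 0
      · rw [hk]
        simp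
      · have hk' : 0 < ‖g (m k) - f‖ := lt_of_le_of_ne (norm_nonneg _) (Ne.symm hk)
        rw [inv_mul_le_iff₀ hk']
        refine h1.trans ?_
        have h3 : C * ‖g (m k) - f‖ ^ 2 * ‖h‖ ≤ |C| * ‖g (m k) - f‖ ^ 2 * ‖h‖ :=
          mul_le_mul_of_nonneg_right (mul_le_mul_of_nonneg_right (le_abs_self C)
            (sq_nonneg _)) (norm_nonneg _)
        refine h3.trans (le_of_eq ?_)
        ring
    have e2 : ‖((p - 1 : ℝ) : ℂ) * B (p - 2) f h (d (m k)) -
        ((p - 1 : ℝ) : ℂ) * B (p - 2) f h φ‖ ≤ (p - 1) * δ k * ‖h‖ := by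
      rw [← mul_sub, ← B_sub hn (p - 2) hq0 f h _ _ hint, norm_mul, Complex.norm_real,
        Real.norm_of_nonneg (by linarith : (0 : ℝ) ≤ p - 1), mul_assoc]
      refine mul_le_mul_of_nonneg_left ?_ (by linarith)
      rw [mul_comm (δ k), hδ]
      exact B_le hn (p - 2) hq0 f h _ hint
    calc _ = ‖(((J p f : ℝ) : ℂ) * inner ℂ h (d (m k)) -
          ((p - 1 : ℝ) : ℂ) * B (p - 2) f h (d (m k))) +
          (((p - 1 : ℝ) : ℂ) * B (p - 2) f h (d (m k)) -
          ((p - 1 : ℝ) : ℂ) * B (p - 2) f h φ)‖ := by ring_nf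
      _ ≤ _ := norm_add_le _ _
      _ ≤ |C| * ‖g (m k) - f‖ * ‖h‖ + (p - 1) * δ k * ‖h‖ := add_le_add e1 e2
      _ = ε k * ‖h‖ := by rw [hε]; ring
  -- the limit solves the linearised equation
  have hEig : Eig p f φ := by
    intro h
    have h1 : Tendsto (fun k => ‖((J p f : ℝ) : ℂ) * inner ℂ h (d (m k)) -
        ((p - 1 : ℝ) : ℂ) * B (p - 2) f h φ‖) atTop
        (𝓝 ‖((J p f : ℝ) : ℂ) * inner ℂ h φ - ((p - 1 : ℝ) : ℂ) * B (p - 2) f h φ‖) :=
      (((hφ h).const_mul _).sub_const _).norm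
    have h2 : Tendsto (fun k => ε k * ‖h‖) atTop (𝓝 0) := by
      have := hε0.mul_const ‖h‖
      rwa [zero_mul] at this
    have h3 := le_of_tendsto_of_tendsto' h1 h2 (key h)
    have h4 := le_antisymm h3 (norm_nonneg _)
    rw [norm_eq_zero, sub_eq_zero] at h4
    exact h4
  -- strong convergence of the differences
  have hdφ : Tendsto (fun k => ‖d (m k) - φ‖) atTop (𝓝 0) := by
    have h1 : ∀ k, ‖d (m k) - φ‖ ≤ ε k / J p f := by
      intro k
      have h2 := key (d (m k) - φ) k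
      rw [← hEig (d (m k) - φ), ← mul_sub, ← inner_sub_right, inner_self_eq_norm_sq_to_K,
        norm_mul, Complex.norm_real, Real.norm_of_nonneg hM.le] at h2
      have h3 : ‖(((‖d (m k) - φ‖ : ℝ) : ℂ)) ^ 2‖ = ‖d (m k) - φ‖ ^ 2 := by
        rw [norm_pow, Complex.norm_real, Real.norm_of_nonneg (norm_nonneg _)]
      have h4 : J p f * ‖d (m k) - φ‖ ^ 2 ≤ ε k * ‖d (m k) - φ‖ := by
        rw [← h3]
        exact h2
      rw [le_div_iff₀ hM]
      by_cases h5 : ‖d (m k) - φ‖ = 0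
      · rw [h5, zero_mul, hε]
        have h6 : 0 ≤ δ k := by
          rw [hδ]
          exact integral_nonneg fun y =>
            mul_nonneg (Real.rpow_nonneg (norm_nonneg _) _) (norm_nonneg _)
        exact add_nonneg (mul_nonneg (abs_nonneg _) (norm_nonneg _))
          (mul_nonneg (by linarith) h6)
      · have h6 : 0 < ‖d (m k) - φ‖ := lt_of_le_of_ne (norm_nonneg _) (Ne.symm h5)
        by_contra hcon
        rw [not_le] at hcon
        nlinarith [mul_lt_mul_of_pos_right hcon h6]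
    have h7 : Tendsto (fun k => ε k / J p f) atTop (𝓝 0) := by
      have := hε0.div_const (J p f)
      rwa [zero_div] at this
    exact squeeze_zero (fun _ => norm_nonneg _) h1 h7
  have hφn : ‖φ‖ = 1 := by
    have h1 : Tendsto (fun k => d (m k)) atTop (𝓝 φ) := by
      rw [tendsto_iff_norm_sub_tendsto_zero]
      exact hdφ
    have h2 := h1.norm
    have h3 : ∀ᶠ k in atTop, ‖d (m k)‖ = 1 := by
      filter_upwards [hmt.eventually hfr] with k hk
      exact hdn _ hk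
    exact tendsto_nhds_unique h2 (tendsto_const_nhds.congr' (h3.mono fun _ h => h.symm))
  have hφ0 : φ ≠ 0 := by
    intro h
    rw [h, norm_zero] at hφn
    exact zero_ne_one hφn
  by_cases hvz : ∀ y, v y = 0
  · exact hzero hvz
  push Not at hvz
  obtain ⟨y₀, hy₀⟩ := hvz
  -- the ratio
  have hrat : ∀ y k, E (d (m k)) y = (((s (m k) : ℝ) : ℂ) * ((‖g (m k) - f‖ : ℝ) : ℂ)⁻¹) *
      ((E (g (m k)) y - E f y) / ((s (m k) : ℝ) : ℂ)) := by
    intro y k
    have h1 : ((s (m k) : ℝ) : ℂ) ≠ 0 := by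
      rw [Complex.ofReal_ne_zero]
      exact (hs _).ne'
    rw [hd, E_smul hn, E_sub hn]
    field_simp
  obtain ⟨ρ, hρ⟩ : ∃ ρ : ℂ, ρ = E φ y₀ / v y₀ := ⟨_, rfl⟩
  have hρt : Tendsto (fun k => ((s (m k) : ℝ) : ℂ) * ((‖g (m k) - f‖ : ℝ) : ℂ)⁻¹) atTop
      (𝓝 ρ) := by
    have h1 := (hEd y₀).div ((hv y₀).comp hmt) hy₀
    rw [← hρ] at h1
    refine h1.congr' ?_
    have h2 : ∀ᶠ k in atTop, (E (g (m k)) y₀ - E f y₀) / ((s (m k) : ℝ) : ℂ) ≠ 0 :=
      ((hv y₀).comp hmt).eventually_ne hy₀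
    filter_upwards [h2] with k hk
    change E (d (m k)) y₀ / ((E (g (m k)) y₀ - E f y₀) / ((s (m k) : ℝ) : ℂ)) = _
    rw [hrat y₀ k]
    exact mul_div_cancel_right₀ _ hk
  have hEφ : ∀ y, E φ y = ρ * v y := by
    intro y
    have h1 := hρt.mul ((hv y).comp hmt)
    refine tendsto_nhds_unique (hEd y) (h1.congr fun k => ?_)
    rw [hrat y k]
    rfl
  have hρ0 : ρ ≠ 0 := by
    intro h
    apply hφ0
    apply h_INJ F hn
    intro y
    rw [hEφ, h, zero_mul]
  refine ⟨ρ⁻¹ • φ, fun h => ?_, fun y => ?_⟩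
  · rw [B_smul hn, inner_smul_right]
    have h1 := hEig h
    calc ((J p f : ℝ) : ℂ) * (ρ⁻¹ * inner ℂ h φ) = ρ⁻¹ * (((J p f : ℝ) : ℂ) * inner ℂ h φ) := by
          ring
      _ = ρ⁻¹ * (((p - 1 : ℝ) : ℂ) * B (p - 2) f h φ) := by rw [h1]
      _ = _ := by ring
  · rw [E_smul hn, hEφ, inv_mul_cancel_left₀ hρ0]

end Pool.Agent.TRC
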