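import Pool.Agent.TRC.Targets
import Pool.Agent.TRC.Lem

/-!
# Project TRC: modulations and isometries
-/

set_option autoImplicit false

noncomputable section

open MeasureTheory Set Filter Pool.Agent.ExpMax
open scoped ENNReal RealInnerProductSpace Topology

namespace Pool.Agent.TRC

namespace MOD_

variable {F : Type} [NormedAddCommGroup F] [InnerProductSpace ℝ F] [FiniteDimensional ℝ F]
    [MeasurableSpace F] [BorelSpace F]

/-- the phase factor -/
def ex (b : F) (ω : Metric.sphere (0 : F) 1) : ℂ :=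
  Complex.exp (-(Complex.I * ((⟪(ω : F), b⟫ : ℝ) : ℂ)))

theorem ex_norm (b : F) (ω : Metric.sphere (0 : F) 1) : ‖ex b ω‖ = 1 := by
  unfold ex
  have h : -(Complex.I * ((⟪(ω : F), b⟫ : ℝ) : ℂ)) = ((-⟪(ω : F), b⟫ : ℝ) : ℂ) * Complex.I := by
    push_cast
    ring
  rw [h, Complex.norm_exp_ofReal_mul_I]

theorem ex_cont (b : F) : Continuous (ex b : Metric.sphere (0 : F) 1 → ℂ) := by
  unfold ex
  fun_prop

theorem ex_add (b c : F) (ω : Metric.sphere (0 : F) 1) : ex b ω * ex c ω = ex (c + b) ω := by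
  unfold ex
  rw [← Complex.exp_add]
  congr 1
  rw [inner_add_right]
  push_cast
  ring

theorem modul (f : H F) (b : F) : ∃ g : H F, ‖g‖ = ‖f‖ ∧ ∀ y, E g y = E f (y + b) := by
  have hm : MemLp (fun ω => f ω * ex b ω) 2 (prb F) := by
    refine (Lp.memLp f).of_le ?_ ?_
    · exact (Lp.memLp f).1.mul (ex_cont b).aestronglyMeasurable
    · refine Filter.Eventually.of_forall fun ω => ?_
      rw [norm_mul, ex_norm, mul_one]
  refine ⟨hm.toLp _, ?_, ?_⟩
  · have h1 : ‖hm.toLp _‖ ^ 2 = ‖f‖ ^ 2 := by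
      rw [norm_toLp, norm_sq_eq]
      refine integral_congr_ae (Filter.Eventually.of_forall fun ω => ?_)
      simp only
      rw [norm_mul, ex_norm, mul_one]
    exact (sq_eq_sq₀ (norm_nonneg _) (norm_nonneg _)).1 h1
  · intro y
    rw [E_toLp]
    unfold E ExpMax.Ext
    refine integral_congr_ae (Filter.Eventually.of_forall fun ω => ?_)
    have h2 := ex_add b y ω
    simp only
    rw [mul_assoc]
    exact congrArg (fun t => f ω * t) h2

theorem int_comp {X : Type} [MeasurableSpace X] {μ : Measure X} {T : X → X}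
    (hT : MeasurePreserving T μ μ) {G : X → ℂ} (hG : AEStronglyMeasurable G μ) :
    ∫ x, G (T x) ∂μ = ∫ x, G x ∂μ := by
  have h1 : AEStronglyMeasurable G (Measure.map T μ) := by
    rw [hT.map_eq]
    exact hG
  rw [← integral_map hT.measurable.aemeasurable h1, hT.map_eq]

theorem isom (hn : 1 ≤ Module.finrank ℝ F) (f : H F) (R : F ≃ₗᵢ[ℝ] F) :
    ∃ g : H F, ‖g‖ = ‖f‖ ∧ ∀ y, E g y = E f (R y) := by
  have hR := (tINV F hn).2 R
  refine ⟨Lp.compMeasurePreserving (rot R) hR f, Lp.norm_compMeasurePreserving f hR, ?_⟩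
  intro y
  unfold E ExpMax.Ext
  have h1 : ∫ ω, (Lp.compMeasurePreserving (rot R) hR f) ω *
      Complex.exp (-(Complex.I * ((⟪(ω : F), y⟫ : ℝ) : ℂ))) ∂(prb F) =
      ∫ ω, (fun η => f η * Complex.exp (-(Complex.I * ((⟪(η : F), R y⟫ : ℝ) : ℂ)))) (rot R ω)
        ∂(prb F) := by
    refine integral_congr_ae ?_
    filter_upwards [Lp.coeFn_compMeasurePreserving f hR] with ω hω
    rw [hω]
    have h2 : (⟪((rot R ω : Metric.sphere (0 : F) 1) : F), R y⟫ : ℝ) = ⟪(ω : F), y⟫ := by
      unfold rot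
      exact R.inner_map_map _ _
    simp only [Function.comp_apply]
    rw [h2]
  rw [h1]
  have h3 : AEStronglyMeasurable (fun η : Metric.sphere (0 : F) 1 =>
      f η * Complex.exp (-(Complex.I * ((⟪(η : F), R y⟫ : ℝ) : ℂ)))) (prb F) :=
    (Lp.memLp f).1.mul (ex_cont (R y)).aestronglyMeasurable
  exact int_comp hR h3

end MOD_

theorem p_MOD : T_MOD := by
  intro F _ _ _ _ _ hn f
  exact ⟨fun b => MOD_.modul f b, fun R => MOD_.isom hn f R⟩

end Pool.Agent.TRC
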