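import Pool.Agent.TRC.NNc

/-!
# Project TRC: the exponents between 6 and 8 in dimension 3
-/

set_option autoImplicit false

noncomputable section

open MeasureTheory Set Filter
open scoped ENNReal RealInnerProductSpace Topology

namespace Pool.Agent.TRC

open Pool.Agent.ExpMax

namespace NN3_

/-- Bernstein coefficient -/
def b0 (x y : ℝ) : ℝ :=
  -(2595135672 / 669921875) - (24248263 / 1029000) * x + (2246484 / 42875) * y

/-- Bernstein coefficient -/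
def b1 (x y : ℝ) : ℝ :=
  -(571834730673 / 167480468750) - (285526039193 / 12348000000) * x +
    (1077533587 / 21437500) * y

/-- Bernstein coefficient -/
def b2 (x y : ℝ) : ℝ :=
  -(328523330721171 / 119628906250000) - (3849623149993 / 176400000000) * x +
    (2105813775547 / 45937500000) * y

/-- Bernstein coefficient -/
def b3 (x y : ℝ) : ℝ :=
  -(273565072434649131 / 133984375000000000) - (139242310515191 / 6860000000000) * x +
    (699685614823339 / 17150000000000) * y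

/-- Bernstein coefficient -/
def b4 (x y : ℝ) : ℝ :=
  -(47969358924915489 / 33496093750000000) - (2955938943665497 / 154350000000000) * x +
    (472089965101523 / 12862500000000) * y

/-- Bernstein coefficient -/
def b5 (x y : ℝ) : ℝ :=
  -(240421381239267 / 267968750000000) - (115665853130663 / 6174000000000) * x +
    (3529029211129 / 102900000000) * y

/-- Bernstein coefficient -/
def b6 (x y : ℝ) : ℝ :=
  -(75096329716647 / 334960937500000) - (9966966642667 / 514500000000) * x +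
    (1444834229943 / 42875000000) * y

/-- the coefficient of the smaller node -/
def C2 (x y θ : ℝ) : ℝ :=
  ((4724676 / 5359375) + (927 / 343) * x - (2472 / 343) * y) +
    θ * ((429516 / 765625) + (90 / 49) * x - (240 / 49) * y)

/-- the coefficient of the larger node -/
def C3 (x y θ : ℝ) : ℝ :=
  (-(4724676 / 5359375) - (584 / 343) * x + (2472 / 343) * y) +
    θ * ((429516 / 765625) + (34 / 49) * x - (156 / 49) * y)

/-- the cubic polynomial -/
def P3 (c θ : ℝ) : ℝ := 1 + θ * c + (θ * c) ^ 2 / 2 + (θ * c) ^ 3 / 6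

theorem ident (x y θ : ℝ) :
    (10 + 2 * θ + (5 + 2 * θ) * (9 / 5 * (1 - θ) ^ 2)) *
        (C2 x y θ * P3 (-(811 / 1000)) θ + C3 x y θ * P3 (693 / 1000) θ) -
      (5 + 2 * θ) * (2 * ((1 - θ) - θ * (9 / 5 * (1 - θ) ^ 2) * (3 / 8)) +
        (θ / (3 / 8) + (1 + θ) * (9 / 5 * (1 - θ) ^ 2))) * x =
    θ * (1 * b0 x y * (θ ^ 0 * (1 - θ) ^ 6) +
      6 * b1 x y * (θ ^ 1 * (1 - θ) ^ 5) +
      15 * b2 x y * (θ ^ 2 * (1 - θ) ^ 4) +
      20 * b3 x y * (θ ^ 3 * (1 - θ) ^ 3) +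
      15 * b4 x y * (θ ^ 4 * (1 - θ) ^ 2) +
      6 * b5 x y * (θ ^ 5 * (1 - θ) ^ 1) +
      1 * b6 x y * (θ ^ 6 * (1 - θ) ^ 0)) := by
  unfold C2 C3 P3 b0 b1 b2 b3 b4 b5 b6
  ring

theorem pos {x y θ : ℝ} (h0 : 0 ≤ θ) (h1 : θ ≤ 1) (hx1 : 0.39258 ≤ x) (hx2 : x ≤ 0.39292)
    (hy1 : 0.261798 ≤ y) :
    (5 + 2 * θ) * (2 * ((1 - θ) - θ * (9 / 5 * (1 - θ) ^ 2) * (3 / 8)) +
        (θ / (3 / 8) + (1 + θ) * (9 / 5 * (1 - θ) ^ 2))) * x ≤
      (10 + 2 * θ + (5 + 2 * θ) * (9 / 5 * (1 - θ) ^ 2)) *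
        (C2 x y θ * P3 (-(811 / 1000)) θ + C3 x y θ * P3 (693 / 1000) θ) := by
  norm_num at hx1 hx2 hy1
  have hb0 : 0 ≤ b0 x y := by unfold b0; linarith
  have hb1 : 0 ≤ b1 x y := by unfold b1; linarith
  have hb2 : 0 ≤ b2 x y := by unfold b2; linarith
  have hb3 : 0 ≤ b3 x y := by unfold b3; linarith
  have hb4 : 0 ≤ b4 x y := by unfold b4; linarith
  have hb5 : 0 ≤ b5 x y := by unfold b5; linarith
  have hb6 : 0 ≤ b6 x y := by unfold b6; linarith
  have h2 : 0 ≤ 1 - θ := by linarith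
  have h3 : 0 ≤ θ * (1 * b0 x y * (θ ^ 0 * (1 - θ) ^ 6) +
      6 * b1 x y * (θ ^ 1 * (1 - θ) ^ 5) +
      15 * b2 x y * (θ ^ 2 * (1 - θ) ^ 4) +
      20 * b3 x y * (θ ^ 3 * (1 - θ) ^ 3) +
      15 * b4 x y * (θ ^ 4 * (1 - θ) ^ 2) +
      6 * b5 x y * (θ ^ 5 * (1 - θ) ^ 1) +
      1 * b6 x y * (θ ^ 6 * (1 - θ) ^ 0)) := by
    positivity
  have h4 := ident x y θ
  linarith

theorem log49 : -(811 / 1000 : ℝ) ≤ Real.log ((1 / 6) / (3 / 8)) := by
  have h : Real.log ((1 / 6 : ℝ) / (3 / 8)) = - Real.log (9 / 4) := by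
    rw [← Real.log_inv]
    norm_num
  rw [h, neg_le_neg_iff, Real.log_le_iff_le_exp (by norm_num)]
  refine le_trans ?_ (Real.sum_le_exp_of_nonneg (by norm_num : (0 : ℝ) ≤ 811 / 1000) 8)
  simp only [Finset.sum_range_succ, Finset.sum_range_zero, Nat.factorial]
  norm_num

theorem log2 : (693 / 1000 : ℝ) ≤ Real.log ((3 / 4) / (3 / 8)) := by
  have h : ((3 / 4 : ℝ) / (3 / 8)) = 2 := by norm_num
  rw [h]
  have := Real.log_two_gt_d9
  norm_num at this
  linarith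

theorem c2nn {x y θ : ℝ} (h0 : 0 ≤ θ) (h1 : θ ≤ 1) (hx1 : 0.39258 ≤ x) (hx2 : x ≤ 0.39292)
    (hy1 : 0.261798 ≤ y) (hy2 : y ≤ 0.261801) : 0 ≤ C2 x y θ := by
  norm_num at hx1 hx2 hy1 hy2
  unfold C2
  have e0 : 0 ≤ 4724676 / 5359375 + 927 / 343 * x - 2472 / 343 * y := by linarith
  have e1 : 0 ≤ (4724676 / 5359375 + 927 / 343 * x - 2472 / 343 * y) +
      (429516 / 765625 + 90 / 49 * x - 240 / 49 * y) := by linarith
  nlinarith

theorem c3nn {x y θ : ℝ} (h0 : 0 ≤ θ) (h1 : θ ≤ 1) (hx1 : 0.39258 ≤ x) (hx2 : x ≤ 0.39292)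
    (hy1 : 0.261798 ≤ y) (hy2 : y ≤ 0.261801) : 0 ≤ C3 x y θ := by
  norm_num at hx1 hx2 hy1 hy2
  unfold C3
  have e0 : 0 ≤ -(4724676 / 5359375) - 584 / 343 * x + 2472 / 343 * y := by linarith
  have e1 : 0 ≤ (-(4724676 / 5359375) - 584 / 343 * x + 2472 / 343 * y) +
      (429516 / 765625 + 34 / 49 * x - 156 / 49 * y) := by linarith
  nlinarith

end NN3_

open NN3_ in
theorem p_NN3 (h_PW : T_PW) (h_HRM : T_HRM) (h_LBD : T_LBD) (h_VA3 : T_VA3) (h_A46 : T_A46)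
    (h_EN3 : T_EN3) : T_NN3 := by
  intro φ φ' hb
  obtain ⟨v1, v2, v3, v4, v5⟩ := h_VA3 φ φ' hb
  have e46 := h_A46 φ φ' hb
  refine ⟨?_, ?_⟩
  · rw [e46]
    push_cast
    linarith
  · intro θ h0 h1
    set t : ℝ := (3 / 8 : ℝ) ^ θ with ht
    set κ : ℝ := 9 / 5 * (1 - θ) ^ 2 with hκ
    have h2 : 0 ≤ 1 - θ := by linarith
    have htp : 0 < t := Real.rpow_pos_of_pos (by norm_num) _
    have hκ0 : 0 ≤ κ := by positivity
    have hα : 0 ≤ (1 - θ) - θ * κ * (3 / 8) := by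
      have : (1 - θ) - θ * κ * (3 / 8) = (1 - θ) * (1 - 27 / 40 * (θ * (1 - θ))) := by
        rw [hκ]
        ring
      rw [this]
      have : 0 ≤ θ * (1 - θ) := by positivity
      have : θ * (1 - θ) ≤ 1 := by nlinarith
      exact mul_nonneg h2 (by linarith)
    have hβ : 0 ≤ θ / (3 / 8) + (1 + θ) * κ := by positivity
    have hcond : κ * (1 + θ) * (3 / 8) ≤ 1 - θ := by
      have : 1 - θ - κ * (1 + θ) * (3 / 8) = (1 - θ) * (1 - 27 / 40 * (1 - θ ^ 2)) := by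
        rw [hκ]
        ring
      have h5 : 0 ≤ (1 - θ) * (1 - 27 / 40 * (1 - θ ^ 2)) :=
        mul_nonneg h2 (by nlinarith [sq_nonneg θ])
      linarith
    refine ⟨κ, t * ((1 - θ) - θ * κ * (3 / 8)), t * (θ / (3 / 8) + (1 + θ) * κ), hκ0,
      mul_nonneg htp.le hα, mul_nonneg htp.le hβ,
      h_PW θ (3 / 8) κ t _ _ h0 h1 (by norm_num) (by norm_num) hκ0 hcond ht rfl rfl
        (h_EN3 θ h0 h1 t κ ht hκ), ?_⟩
    have hlow := NNc_low h_HRM h_LBD (n := 3) le_rfl hb (s₁ := 3 / 8) (s₂ := 1 / 6)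
      (s₃ := 3 / 4) (h := 7 / 12) (A := 2 * a 3 φ 6) (D := 190896 / 1000000) h0 h1 (by norm_num)
      (by norm_num) (by norm_num) (by norm_num) e46.le (by linarith)
    have hT2 := NNc_pow (r := (1 / 6) / (3 / 8)) (x := -(811 / 1000)) (by norm_num) h0 h1 log49
      (by rw [abs_le]; constructor <;> norm_num)
    have hT3 := NNc_pow (r := (3 / 4) / (3 / 8)) (x := 693 / 1000) (by norm_num) h0 h1 log2
      (by rw [abs_le]; constructor <;> norm_num)
    rw [← ht] at hlow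
    generalize ((1 / 6 : ℝ) / (3 / 8)) ^ θ = T2 at hlow hT2
    generalize ((3 / 4 : ℝ) / (3 / 8)) ^ θ = T3 at hlow hT3
    generalize a 3 φ (6 + 2 * θ) = Z at hlow ⊢
    rw [e46]
    generalize a 3 φ 6 = x at v1 v2 hlow ⊢
    generalize a 3 φ 8 = y at v3 v4 hlow ⊢
    have hlow' : t * (C2 x y θ * T2 + C3 x y θ * T3) ≤ Z := by
      refine le_trans (le_of_eq ?_) hlow
      unfold C2 C3
      ring
    have hP : C2 x y θ * P3 (-(811 / 1000)) θ + C3 x y θ * P3 (693 / 1000) θ ≤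
        C2 x y θ * T2 + C3 x y θ * T3 :=
      add_le_add (mul_le_mul_of_nonneg_left hT2 (c2nn h0 h1 v1 v2 v3 v4))
        (mul_le_mul_of_nonneg_left hT3 (c3nn h0 h1 v1 v2 v3 v4))
    have hZ : t * (C2 x y θ * P3 (-(811 / 1000)) θ + C3 x y θ * P3 (693 / 1000) θ) ≤ Z :=
      (mul_le_mul_of_nonneg_left hP htp.le).trans hlow'
    have hpos := NN3_.pos h0 h1 v1 v2 v3
    rw [← hκ] at hpos
    generalize C2 x y θ * P3 (-(811 / 1000)) θ + C3 x y θ * P3 (693 / 1000) θ = S at hZ hpos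
    have hd : 0 < 5 + 2 * θ := by linarith
    have hc : (1 + (2 * ((3 : ℕ) : ℝ) - 1) / (5 + 2 * θ) + κ) =
        (10 + 2 * θ + (5 + 2 * θ) * κ) / (5 + 2 * θ) := by
      push_cast
      field_simp
      ring
    rw [hc, div_mul_eq_mul_div, le_div_iff₀ hd]
    have hR : 0 ≤ 10 + 2 * θ + (5 + 2 * θ) * κ := by positivity
    have h6 := mul_le_mul_of_nonneg_left hZ hR
    have h7 := mul_le_mul_of_nonneg_left hpos htp.le
    refine le_trans (le_of_eq ?_) (h7.trans (le_trans (le_of_eq ?_) h6))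
    · ring
    · ring

end Pool.Agent.TRC
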