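import Pool.Agent.TRC.NNLem

/-!
# Project TRC: target NN4
-/

set_option autoImplicit false
set_option linter.unusedVariables false

noncomputable section

open MeasureTheory Set Filter
open scoped ENNReal RealInnerProductSpace Topology

namespace Pool.Agent.TRC

open Pool.Agent.ExpMax

namespace NN4_

open NNLem

theorem corner1 {θ a4 a6 a8 a10 : ℝ} (h0 : 0 ≤ θ) (h1 : θ ≤ 1)
    (p4 : a6 ≤ a4)
    (q4 : a4 ≤ (16423 / 10000))
    (p6 : (4689 / 6250) ≤ a6) (q6 : a6 ≤ (18757 / 25000))
    (p8 : (44023 / 100000) ≤ a8) (q8 : a8 ≤ (5503 / 12500))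
    (p10 : 0 ≤ a10) (q10 : a10 ≤ (28911 / 100000)) :
    0 ≤ FF 7 (23 / 50) (11 / 50) (7 / 10) 0 θ a4 a6 a8 a10 (Lo (-369 / 500) θ) (Lo (419 / 1000)
      θ) := by
  have hu : 0 ≤ 1 - θ := by linarith
  have b0 : 0 ≤ (-5) * a4 + 12 * a6 := by linarith
  have b1 : 0 ≤ (-26984947 / 5760000) * a4 + (188454283 / 22080000) * a6 + (115589 / 19200) * a8
    + (-2611 / 1152) * a10 := by linarith
  have b2 : 0 ≤ (-272890709521 / 69120000000) * a4 + (923193618841 / 264960000000) * a6 +
    (3112322327 / 230400000) * a8 + (-62776273 / 13824000) * a10 := by linarith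
  have b3 : 0 ≤ (-198806172729401 / 69120000000000) * a4 + (-666490081808767 / 264960000000000)
    * a6 + (4837752573487 / 230400000000) * a8 + (-78925653113 / 13824000000) * a10 := by
    linarith
  have b4 : 0 ≤ (-1583958636917741 / 1036800000000000) * a4 + (-7209598766027663 /
    794880000000000) * a6 + (18981690369887 / 691200000000) * a8 + (-40354418261 / 8294400000) *
    a10 := by linarith
  have b5 : 0 ≤ (26247029671093 / 207360000000000) * a4 + (-2615882287275593 / 158976000000000)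
    * a6 + (4581364113641 / 138240000000) * a8 + (-14820457183 / 8294400000) * a10 := by
    linarith
  have m0 := mul_nonneg b0 (mul_nonneg (pow_nonneg h0 0) (pow_nonneg hu 5))
  have m1 := mul_nonneg b1 (mul_nonneg (pow_nonneg h0 1) (pow_nonneg hu 4))
  have m2 := mul_nonneg b2 (mul_nonneg (pow_nonneg h0 2) (pow_nonneg hu 3))
  have m3 := mul_nonneg b3 (mul_nonneg (pow_nonneg h0 3) (pow_nonneg hu 2))
  have m4 := mul_nonneg b4 (mul_nonneg (pow_nonneg h0 4) (pow_nonneg hu 1))
  have m5 := mul_nonneg b5 (mul_nonneg (pow_nonneg h0 5) (pow_nonneg hu 0))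
  have e : FF 7 (23 / 50) (11 / 50) (7 / 10) 0 θ a4 a6 a8 a10 (Lo (-369 / 500) θ) (Lo (419 /
    1000) θ) = 1 * (((-5) * a4 + 12 * a6) * (θ ^ 0 * (1 - θ) ^ 5)) + 5 * (((-26984947 / 5760000)
    * a4 + (188454283 / 22080000) * a6 + (115589 / 19200) * a8 + (-2611 / 1152) * a10) * (θ ^ 1
    * (1 - θ) ^ 4)) + 10 * (((-272890709521 / 69120000000) * a4 + (923193618841 / 264960000000)
    * a6 + (3112322327 / 230400000) * a8 + (-62776273 / 13824000) * a10) * (θ ^ 2 * (1 - θ) ^
    3)) + 10 * (((-198806172729401 / 69120000000000) * a4 + (-666490081808767 / 264960000000000)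
    * a6 + (4837752573487 / 230400000000) * a8 + (-78925653113 / 13824000000) * a10) * (θ ^ 3 *
    (1 - θ) ^ 2)) + 5 * (((-1583958636917741 / 1036800000000000) * a4 + (-7209598766027663 /
    794880000000000) * a6 + (18981690369887 / 691200000000) * a8 + (-40354418261 / 8294400000) *
    a10) * (θ ^ 4 * (1 - θ) ^ 1)) + 1 * (((26247029671093 / 207360000000000) * a4 +
    (-2615882287275593 / 158976000000000) * a6 + (4581364113641 / 138240000000) * a8 +
    (-14820457183 / 8294400000) * a10) * (θ ^ 5 * (1 - θ) ^ 0)) := by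
    unfold FF CC Lo
    ring
  rw [e]
  exact add_nonneg (add_nonneg (add_nonneg (add_nonneg (add_nonneg (mul_nonneg (by norm_num) m0)
    (mul_nonneg (by norm_num) m1)) (mul_nonneg (by norm_num) m2)) (mul_nonneg (by norm_num) m3))
    (mul_nonneg (by norm_num) m4)) (mul_nonneg (by norm_num) m5)

theorem corner2 {θ a4 a6 a8 a10 : ℝ} (h0 : 0 ≤ θ) (h1 : θ ≤ 1)
    (p4 : a6 ≤ a4)
    (q4 : a4 ≤ (16423 / 10000))
    (p6 : (4689 / 6250) ≤ a6) (q6 : a6 ≤ (18757 / 25000))
    (p8 : (44023 / 100000) ≤ a8) (q8 : a8 ≤ (5503 / 12500))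
    (p10 : 0 ≤ a10) (q10 : a10 ≤ (28911 / 100000)) :
    0 ≤ FF 7 (23 / 50) (11 / 50) (7 / 10) 0 θ a4 a6 a8 a10 (Lo (-369 / 500) θ) (Up (21 / 50) θ)
      := by
  have hu : 0 ≤ 1 - θ := by linarith
  have b0 : 0 ≤ (-5) * a4 + 12 * a6 := by linarith
  have b1 : 0 ≤ (-5456503 / 1152000) * a4 + (8040611 / 883200) * a6 + (19361 / 3840) * a8 +
    (-2195 / 1152) * a10 := by linarith
  have b2 : 0 ≤ (-36217822169 / 8640000000) * a4 + (34112847469 / 6624000000) * a6 + (318652303
    / 28800000) * a8 + (-6595097 / 1728000) * a10 := by linarith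
  have b3 : 0 ≤ (-19637835510763 / 5760000000000) * a4 + (2015493047783 / 4416000000000) * a6 +
    (332795205581 / 19200000000) * a8 + (-5962378219 / 1152000000) * a10 := by linarith
  have b4 : 0 ≤ (-13952525961869 / 5760000000000) * a4 + (-20950759757711 / 4416000000000) * a6
    + (446924189563 / 19200000000) * a8 + (-6341152781 / 1152000000) * a10 := by linarith
  have b5 : 0 ≤ (-17204553962099 / 13824000000000) * a4 + (-109954965048401 / 10598400000000) *
    a6 + (1318651473733 / 46080000000) * a8 + (-12370409939 / 2764800000) * a10 := by linarith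
  have b6 : 0 ≤ (320072229631 / 2304000000000) * a4 + (-29278463331131 / 1766400000000) * a6 +
    (257067597703 / 7680000000) * a8 + (-180729661 / 92160000) * a10 := by linarith
  have m0 := mul_nonneg b0 (mul_nonneg (pow_nonneg h0 0) (pow_nonneg hu 6))
  have m1 := mul_nonneg b1 (mul_nonneg (pow_nonneg h0 1) (pow_nonneg hu 5))
  have m2 := mul_nonneg b2 (mul_nonneg (pow_nonneg h0 2) (pow_nonneg hu 4))
  have m3 := mul_nonneg b3 (mul_nonneg (pow_nonneg h0 3) (pow_nonneg hu 3))
  have m4 := mul_nonneg b4 (mul_nonneg (pow_nonneg h0 4) (pow_nonneg hu 2))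
  have m5 := mul_nonneg b5 (mul_nonneg (pow_nonneg h0 5) (pow_nonneg hu 1))
  have m6 := mul_nonneg b6 (mul_nonneg (pow_nonneg h0 6) (pow_nonneg hu 0))
  have e : FF 7 (23 / 50) (11 / 50) (7 / 10) 0 θ a4 a6 a8 a10 (Lo (-369 / 500) θ) (Up (21 / 50)
    θ) = 1 * (((-5) * a4 + 12 * a6) * (θ ^ 0 * (1 - θ) ^ 6)) + 6 * (((-5456503 / 1152000) * a4 +
    (8040611 / 883200) * a6 + (19361 / 3840) * a8 + (-2195 / 1152) * a10) * (θ ^ 1 * (1 - θ) ^
    5)) + 15 * (((-36217822169 / 8640000000) * a4 + (34112847469 / 6624000000) * a6 + (318652303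
    / 28800000) * a8 + (-6595097 / 1728000) * a10) * (θ ^ 2 * (1 - θ) ^ 4)) + 20 *
    (((-19637835510763 / 5760000000000) * a4 + (2015493047783 / 4416000000000) * a6 +
    (332795205581 / 19200000000) * a8 + (-5962378219 / 1152000000) * a10) * (θ ^ 3 * (1 - θ) ^
    3)) + 15 * (((-13952525961869 / 5760000000000) * a4 + (-20950759757711 / 4416000000000) * a6
    + (446924189563 / 19200000000) * a8 + (-6341152781 / 1152000000) * a10) * (θ ^ 4 * (1 - θ) ^
    2)) + 6 * (((-17204553962099 / 13824000000000) * a4 + (-109954965048401 / 10598400000000) *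
    a6 + (1318651473733 / 46080000000) * a8 + (-12370409939 / 2764800000) * a10) * (θ ^ 5 * (1 -
    θ) ^ 1)) + 1 * (((320072229631 / 2304000000000) * a4 + (-29278463331131 / 1766400000000) *
    a6 + (257067597703 / 7680000000) * a8 + (-180729661 / 92160000) * a10) * (θ ^ 6 * (1 - θ) ^
    0)) := by
    unfold FF CC Lo Up
    ring
  rw [e]
  exact add_nonneg (add_nonneg (add_nonneg (add_nonneg (add_nonneg (add_nonneg (mul_nonneg (by
    norm_num) m0) (mul_nonneg (by norm_num) m1)) (mul_nonneg (by norm_num) m2)) (mul_nonneg (by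
    norm_num) m3)) (mul_nonneg (by norm_num) m4)) (mul_nonneg (by norm_num) m5)) (mul_nonneg (by
    norm_num) m6)

theorem corner3 {θ a4 a6 a8 a10 : ℝ} (h0 : 0 ≤ θ) (h1 : θ ≤ 1)
    (p4 : a6 ≤ a4)
    (q4 : a4 ≤ (16423 / 10000))
    (p6 : (4689 / 6250) ≤ a6) (q6 : a6 ≤ (18757 / 25000))
    (p8 : (44023 / 100000) ≤ a8) (q8 : a8 ≤ (5503 / 12500))
    (p10 : 0 ≤ a10) (q10 : a10 ≤ (28911 / 100000)) :
    0 ≤ FF 7 (23 / 50) (11 / 50) (7 / 10) 0 θ a4 a6 a8 a10 (Up (-737 / 1000) θ) (Lo (419 / 1000)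
      θ) := by
  have hu : 0 ≤ 1 - θ := by linarith
  have b0 : 0 ≤ (-5) * a4 + 12 * a6 := by linarith
  have b1 : 0 ≤ (-8187719 / 1728000) * a4 + (60431807 / 6624000) * a6 + (28753 / 5760) * a8 +
    (-3235 / 1728) * a10 := by linarith
  have b2 : 0 ≤ (-54374595337 / 12960000000) * a4 + (257810833777 / 49680000000) * a6 +
    (473572319 / 43200000) * a8 + (-9719881 / 2592000) * a10 := by linarith
  have b3 : 0 ≤ (-118027443968713 / 34560000000000) * a4 + (68434713097297 / 132480000000000) *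
    a6 + (1979044384031 / 115200000000) * a8 + (-35092389769 / 6912000000) * a10 := by linarith
  have b4 : 0 ≤ (-2424720230611032827 / 995328000000000000) * a4 + (-3504745623284079113 /
    763084800000000000) * a6 + (75984743896088509 / 3317760000000000) * a8 + (-1047734897202491
    / 199065600000000) * a10 := by linarith
  have b5 : 0 ≤ (-69020562460557827 / 53084160000000000) * a4 + (-132791726225949803 /
    13565952000000000) * a6 + (4820044730219957 / 176947200000000) * a8 + (-190459729986223 /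
    53084160000000) * a10 := by linarith
  have b6 : 0 ≤ (-9695014534904699 / 132710400000000000) * a4 + (-1475638345628051801 /
    101744640000000000) * a6 + (12734875506033373 / 442368000000000) * a8 + (5474316507569 /
    5308416000000) * a10 := by linarith
  have m0 := mul_nonneg b0 (mul_nonneg (pow_nonneg h0 0) (pow_nonneg hu 6))
  have m1 := mul_nonneg b1 (mul_nonneg (pow_nonneg h0 1) (pow_nonneg hu 5))
  have m2 := mul_nonneg b2 (mul_nonneg (pow_nonneg h0 2) (pow_nonneg hu 4))
  have m3 := mul_nonneg b3 (mul_nonneg (pow_nonneg h0 3) (pow_nonneg hu 3))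
  have m4 := mul_nonneg b4 (mul_nonneg (pow_nonneg h0 4) (pow_nonneg hu 2))
  have m5 := mul_nonneg b5 (mul_nonneg (pow_nonneg h0 5) (pow_nonneg hu 1))
  have m6 := mul_nonneg b6 (mul_nonneg (pow_nonneg h0 6) (pow_nonneg hu 0))
  have e : FF 7 (23 / 50) (11 / 50) (7 / 10) 0 θ a4 a6 a8 a10 (Up (-737 / 1000) θ) (Lo (419 /
    1000) θ) = 1 * (((-5) * a4 + 12 * a6) * (θ ^ 0 * (1 - θ) ^ 6)) + 6 * (((-8187719 / 1728000)
    * a4 + (60431807 / 6624000) * a6 + (28753 / 5760) * a8 + (-3235 / 1728) * a10) * (θ ^ 1 * (1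
    - θ) ^ 5)) + 15 * (((-54374595337 / 12960000000) * a4 + (257810833777 / 49680000000) * a6 +
    (473572319 / 43200000) * a8 + (-9719881 / 2592000) * a10) * (θ ^ 2 * (1 - θ) ^ 4)) + 20 *
    (((-118027443968713 / 34560000000000) * a4 + (68434713097297 / 132480000000000) * a6 +
    (1979044384031 / 115200000000) * a8 + (-35092389769 / 6912000000) * a10) * (θ ^ 3 * (1 - θ)
    ^ 3)) + 15 * (((-2424720230611032827 / 995328000000000000) * a4 + (-3504745623284079113 /
    763084800000000000) * a6 + (75984743896088509 / 3317760000000000) * a8 + (-1047734897202491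
    / 199065600000000) * a10) * (θ ^ 4 * (1 - θ) ^ 2)) + 6 * (((-69020562460557827 /
    53084160000000000) * a4 + (-132791726225949803 / 13565952000000000) * a6 + (4820044730219957
    / 176947200000000) * a8 + (-190459729986223 / 53084160000000) * a10) * (θ ^ 5 * (1 - θ) ^
    1)) + 1 * (((-9695014534904699 / 132710400000000000) * a4 + (-1475638345628051801 /
    101744640000000000) * a6 + (12734875506033373 / 442368000000000) * a8 + (5474316507569 /
    5308416000000) * a10) * (θ ^ 6 * (1 - θ) ^ 0)) := by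
    unfold FF CC Lo Up
    ring
  rw [e]
  exact add_nonneg (add_nonneg (add_nonneg (add_nonneg (add_nonneg (add_nonneg (mul_nonneg (by
    norm_num) m0) (mul_nonneg (by norm_num) m1)) (mul_nonneg (by norm_num) m2)) (mul_nonneg (by
    norm_num) m3)) (mul_nonneg (by norm_num) m4)) (mul_nonneg (by norm_num) m5)) (mul_nonneg (by
    norm_num) m6)

theorem corner4 {θ a4 a6 a8 a10 : ℝ} (h0 : 0 ≤ θ) (h1 : θ ≤ 1)
    (p4 : a6 ≤ a4)
    (q4 : a4 ≤ (16423 / 10000))
    (p6 : (4689 / 6250) ≤ a6) (q6 : a6 ≤ (18757 / 25000))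
    (p8 : (44023 / 100000) ≤ a8) (q8 : a8 ≤ (5503 / 12500))
    (p10 : 0 ≤ a10) (q10 : a10 ≤ (28911 / 100000)) :
    0 ≤ FF 7 (23 / 50) (11 / 50) (7 / 10) 0 θ a4 a6 a8 a10 (Up (-737 / 1000) θ) (Up (21 / 50) θ)
      := by
  have hu : 0 ≤ 1 - θ := by linarith
  have b0 : 0 ≤ (-5) * a4 + 12 * a6 := by linarith
  have b1 : 0 ≤ (-32744947 / 6912000) * a4 + (9659971 / 1059840) * a6 + (115589 / 23040) * a8 +
    (-13055 / 6912) * a10 := by linarith
  have b2 : 0 ≤ (-434810237203 / 103680000000) * a4 + (411067640303 / 79488000000) * a6 +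
    (3806549861 / 345600000) * a8 + (-78457939 / 20736000) * a10 := by linarith
  have b3 : 0 ≤ (-471720945882763 / 138240000000000) * a4 + (51778896218183 / 105984000000000) *
    a6 + (7953187569581 / 460800000000) * a8 + (-141764710219 / 27648000000) * a10 := by
    linarith
  have b4 : 0 ≤ (-2420310694806069307 / 995328000000000000) * a4 + (-3538304347214855113 /
    763084800000000000) * a6 + (76400114555280509 / 3317760000000000) * a8 + (-1062964481786491
    / 199065600000000) * a10 := by linarith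
  have b5 : 0 ≤ (-205871063297483017 / 159252480000000000) * a4 + (-1204145158568310979 /
    122093568000000000) * a6 + (14570644298606111 / 530841600000000) * a8 + (-590818647283469 /
    159252480000000) * a10 := by linarith
  have b6 : 0 ≤ (-2685651032552873 / 44236800000000000) * a4 + (-495971056548272627 /
    33914880000000000) * a6 + (4293867990024991 / 147456000000000) * a8 + (1516460210363 /
    1769472000000) * a10 := by linarith
  have m0 := mul_nonneg b0 (mul_nonneg (pow_nonneg h0 0) (pow_nonneg hu 6))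
  have m1 := mul_nonneg b1 (mul_nonneg (pow_nonneg h0 1) (pow_nonneg hu 5))
  have m2 := mul_nonneg b2 (mul_nonneg (pow_nonneg h0 2) (pow_nonneg hu 4))
  have m3 := mul_nonneg b3 (mul_nonneg (pow_nonneg h0 3) (pow_nonneg hu 3))
  have m4 := mul_nonneg b4 (mul_nonneg (pow_nonneg h0 4) (pow_nonneg hu 2))
  have m5 := mul_nonneg b5 (mul_nonneg (pow_nonneg h0 5) (pow_nonneg hu 1))
  have m6 := mul_nonneg b6 (mul_nonneg (pow_nonneg h0 6) (pow_nonneg hu 0))
  have e : FF 7 (23 / 50) (11 / 50) (7 / 10) 0 θ a4 a6 a8 a10 (Up (-737 / 1000) θ) (Up (21 / 50)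
    θ) = 1 * (((-5) * a4 + 12 * a6) * (θ ^ 0 * (1 - θ) ^ 6)) + 6 * (((-32744947 / 6912000) * a4
    + (9659971 / 1059840) * a6 + (115589 / 23040) * a8 + (-13055 / 6912) * a10) * (θ ^ 1 * (1 -
    θ) ^ 5)) + 15 * (((-434810237203 / 103680000000) * a4 + (411067640303 / 79488000000) * a6 +
    (3806549861 / 345600000) * a8 + (-78457939 / 20736000) * a10) * (θ ^ 2 * (1 - θ) ^ 4)) + 20
    * (((-471720945882763 / 138240000000000) * a4 + (51778896218183 / 105984000000000) * a6 +
    (7953187569581 / 460800000000) * a8 + (-141764710219 / 27648000000) * a10) * (θ ^ 3 * (1 -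
    θ) ^ 3)) + 15 * (((-2420310694806069307 / 995328000000000000) * a4 + (-3538304347214855113 /
    763084800000000000) * a6 + (76400114555280509 / 3317760000000000) * a8 + (-1062964481786491
    / 199065600000000) * a10) * (θ ^ 4 * (1 - θ) ^ 2)) + 6 * (((-205871063297483017 /
    159252480000000000) * a4 + (-1204145158568310979 / 122093568000000000) * a6 +
    (14570644298606111 / 530841600000000) * a8 + (-590818647283469 / 159252480000000) * a10) *
    (θ ^ 5 * (1 - θ) ^ 1)) + 1 * (((-2685651032552873 / 44236800000000000) * a4 +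
    (-495971056548272627 / 33914880000000000) * a6 + (4293867990024991 / 147456000000000) * a8 +
    (1516460210363 / 1769472000000) * a10) * (θ ^ 6 * (1 - θ) ^ 0)) := by
    unfold FF CC Up
    ring
  rw [e]
  exact add_nonneg (add_nonneg (add_nonneg (add_nonneg (add_nonneg (add_nonneg (mul_nonneg (by
    norm_num) m0) (mul_nonneg (by norm_num) m1)) (mul_nonneg (by norm_num) m2)) (mul_nonneg (by
    norm_num) m3)) (mul_nonneg (by norm_num) m4)) (mul_nonneg (by norm_num) m5)) (mul_nonneg (by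
    norm_num) m6)

theorem logA : ((-369 / 500) : ℝ) ≤ Real.log ((11 / 50) / (23 / 50)) ∧
    Real.log ((11 / 50) / (23 / 50)) ≤ ((-737 / 1000) : ℝ) := by
  constructor
  · exact le_log (by norm_num [abs_le]) (by norm_num)
  · exact log_le (by norm_num [abs_le]) (by norm_num) (by norm_num)

theorem logB : ((419 / 1000) : ℝ) ≤ Real.log ((7 / 10) / (23 / 50)) ∧
    Real.log ((7 / 10) / (23 / 50)) ≤ ((21 / 50) : ℝ) := by
  constructor
  · exact le_log (by norm_num [abs_le]) (by norm_num)
  · exact log_le (by norm_num [abs_le]) (by norm_num) (by norm_num)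

end NN4_

open NNLem NN4_ in
theorem p_NN4 (h_PW : T_PW) (h_LBD : T_LBD) (h_VA4 : T_VA4) (h_ITG : T_ITG) : T_NN4 := by
  intro φ φ' hB
  obtain ⟨q4, p6, q6, p8, q8, q10⟩ := h_VA4 φ φ' hB
  norm_num at q4 p6 q6 p8 q8 q10
  have p4 := a_le h_ITG (by norm_num) hB
  have p10 := (h_ITG 4 φ φ' (by norm_num) hB 10 (by norm_num)).2.2.le
  refine ⟨by norm_num; linarith, ?_⟩
  intro θ h0 h1
  have hM : (2 * ((4 : ℕ) : ℝ) - 1) = 7 := by norm_num
  refine mid_of (s₁ := (23 / 50)) (s₂ := (11 / 50)) (s₃ := (7 / 10)) (κ := 0) (x₂ := (-369 / 500))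
    (x₃ := (419 / 1000)) (x₂' := (-737 / 1000)) (x₃' := (21 / 50)) (by norm_num) hB h_PW h_LBD h0 h1
    (by norm_num) (by norm_num) (by norm_num) (by norm_num) le_rfl (by norm_num; linarith)
    (fun t ht => end0 h0 h1 (by norm_num) ht) logA.1 logA.2 (by norm_num [abs_le])
    (by norm_num [abs_le]) logB.1 logB.2 (by norm_num [abs_le]) (by norm_num [abs_le])
    ?_ ?_ ?_ ?_
  · rw [hM]
    exact corner1 h0 h1 p4 q4 p6 q6 p8 q8 p10 q10
  · rw [hM]
    exact corner2 h0 h1 p4 q4 p6 q6 p8 q8 p10 q10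
  · rw [hM]
    exact corner3 h0 h1 p4 q4 p6 q6 p8 q8 p10 q10
  · rw [hM]
    exact corner4 h0 h1 p4 q4 p6 q6 p8 q8 p10 q10

end Pool.Agent.TRC
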