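import Pool.Agent.TRC.NNc

/-! # Project TRC (MP_9044d4_an), target NN5 -/

set_option autoImplicit false

noncomputable section

open MeasureTheory Set Filter
open scoped ENNReal RealInnerProductSpace Topology

namespace Pool.Agent.TRC

open Pool.Agent.ExpMax

/-- the coefficient `C₂` -/
def NN5_c2 (B C θ : ℝ) : ℝ :=
  ((51899407 / 13310000) + (6976 / 1331) * B + (-18050 / 1331) * C) +
  ((5831391 / 6050000) + (416 / 121) * B + (-925 / 121) * C) * θ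

/-- the coefficient `C₃` -/
def NN5_c3 (B C θ : ℝ) : ℝ :=
  ((-51899407 / 13310000) + (-5645 / 1331) * B + (18050 / 1331) * C) +
  ((2879251 / 1210000) + (185 / 121) * B + (-650 / 121) * C) * θ

theorem NN5_pos {B C θ : ℝ} (h0 : 0 ≤ θ) (h1 : θ ≤ 1) (hB1 : 1.9244 ≤ B) (hB2 : B ≤ 1.92442)
    (hC1 : 0.98975 ≤ C) (hC2 : C ≤ 0.98976) : 0 ≤ NN5_c2 B C θ ∧ 0 ≤ NN5_c3 B C θ := by
  constructor
  · have e : NN5_c2 B C θ =
        ((51899407 / 13310000) + (6976 / 1331) * B + (-18050 / 1331) * C) * (1 - θ) +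
        ((20227646 / 4159375) + (11552 / 1331) * B + (-28225 / 1331) * C) * θ := by
      unfold NN5_c2
      ring
    rw [e]
    have k0 : 0 ≤ ((51899407 / 13310000) + (6976 / 1331) * B + (-18050 / 1331) * C) := by
      linarith
    have k1 : 0 ≤ ((20227646 / 4159375) + (11552 / 1331) * B + (-28225 / 1331) * C) := by
      linarith
    have := mul_nonneg k0 (sub_nonneg.2 h1)
    have := mul_nonneg k1 h0
    linarith
  · have e : NN5_c3 B C θ =
        ((-51899407 / 13310000) + (-5645 / 1331) * B + (18050 / 1331) * C) * (1 - θ) +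
        ((-10113823 / 6655000) + (-3610 / 1331) * B + (10900 / 1331) * C) * θ := by
      unfold NN5_c3
      ring
    rw [e]
    have k0 : 0 ≤ ((-51899407 / 13310000) + (-5645 / 1331) * B + (18050 / 1331) * C) := by
      linarith
    have k1 : 0 ≤ ((-10113823 / 6655000) + (-3610 / 1331) * B + (10900 / 1331) * C) := by
      linarith
    have := mul_nonneg k0 (sub_nonneg.2 h1)
    have := mul_nonneg k1 h0
    linarith

theorem NN5_fin {B C θ : ℝ} (h0 : 0 ≤ θ) (h1 : θ ≤ 1) (hB1 : 1.9244 ≤ B) (hB2 : B ≤ 1.92442)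
    (hC1 : 0.98975 ≤ C) (hC2 : C ≤ 0.98976) :
    (5 + 2 * θ) * ((1 - θ) * 4.8664 + θ / (2 / 5) * B) ≤ (14 + 2 * θ) *
      (NN5_c2 B C θ * (1 + θ * (-7 / 10) + (θ * (-7 / 10)) ^ 2 / 2 + (θ * (-7 / 10)) ^ 3 / 6) +
       NN5_c3 B C θ *
        (1 + θ * (23 / 50) + (θ * (23 / 50)) ^ 2 / 2 + (θ * (23 / 50)) ^ 3 / 6)) := by
  have h1' : 0 ≤ 1 - θ := by linarith
  rw [← sub_nonneg]
  have e : (14 + 2 * θ) *
      (NN5_c2 B C θ * (1 + θ * (-7 / 10) + (θ * (-7 / 10)) ^ 2 / 2 + (θ * (-7 / 10)) ^ 3 / 6) +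
       NN5_c3 B C θ * (1 + θ * (23 / 50) + (θ * (23 / 50)) ^ 2 / 2 + (θ * (23 / 50)) ^ 3 / 6)) -
      (5 + 2 * θ) * ((1 - θ) * 4.8664 + θ / (2 / 5) * B) =
      ((-6083 / 250) + (14) * B +
        (0) * C) * (θ ^ 0 * (1 - θ) ^ 5) +
      ((-20560176511 / 166375000) + (670299 / 13310) * B +
        (50582 / 1331) * C) * (θ ^ 1 * (1 - θ) ^ 4) +
      ((-10877648374 / 47265625) + (2600623 / 60500) * B +
        (518289 / 3025) * C) * (θ ^ 2 * (1 - θ) ^ 3) +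
      ((-467985727831679 / 2495625000000) + (-866600117 / 33275000) * B +
        (2672595109 / 9982500) * C) * (θ ^ 3 * (1 - θ) ^ 2) +
      ((-142514317678213 / 2495625000000) + (-844094577 / 16637500) * B +
        (3503230751 / 19965000) * C) * (θ ^ 4 * (1 - θ) ^ 1) +
      ((-52986318697 / 103984375000) + (-153143241 / 8318750) * B +
        (104248537 / 2495625) * C) * (θ ^ 5 * (1 - θ) ^ 0) := by
    unfold NN5_c2 NN5_c3
    ring
  rw [e]
  have b0 : 0 ≤ (-6083 / 250) + (14) * B +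
      (0) * C := by linarith
  have b1 : 0 ≤ (-20560176511 / 166375000) + (670299 / 13310) * B +
      (50582 / 1331) * C := by linarith
  have b2 : 0 ≤ (-10877648374 / 47265625) + (2600623 / 60500) * B +
      (518289 / 3025) * C := by linarith
  have b3 : 0 ≤ (-467985727831679 / 2495625000000) + (-866600117 / 33275000) * B +
      (2672595109 / 9982500) * C := by linarith
  have b4 : 0 ≤ (-142514317678213 / 2495625000000) + (-844094577 / 16637500) * B +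
      (3503230751 / 19965000) * C := by linarith
  have b5 : 0 ≤ (-52986318697 / 103984375000) + (-153143241 / 8318750) * B +
      (104248537 / 2495625) * C := by linarith
  positivity

theorem NN5_one {θ : ℝ} (h0 : 0 ≤ θ) (h1 : θ ≤ 1) :
    1 + 0 ≤ (2 / 5) ^ θ * (1 - θ) + (2 / 5) ^ θ * (θ / (2 / 5)) := by
  have hq := rpow_one_add_le_one_add_mul_self (s := 3 / 2) (by norm_num) h0 h1
  have e : (2 / 5) ^ θ * (1 + 3 / 2 : ℝ) ^ θ = 1 := by
    rw [← Real.mul_rpow (by norm_num) (by norm_num)]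
    norm_num
  have ht : (0 : ℝ) < (2 / 5) ^ θ := Real.rpow_pos_of_pos (by norm_num) _
  have h2 := mul_le_mul_of_nonneg_left hq ht.le
  rw [e] at h2
  linarith

theorem p_NN5 (hPW : T_PW) (hHRM : T_HRM) (hLBD : T_LBD) (hVA : T_VA5) : T_NN5 := by
  intro φ φ' hb
  obtain ⟨hA, hB1, hB2, hC1, hC2, hD⟩ := hVA φ φ' hb
  refine ⟨?_, ?_⟩
  · push_cast
    linarith
  intro θ h0 h1
  have h1' : 0 ≤ 1 - θ := by linarith
  have ht : (0 : ℝ) < (2 / 5) ^ θ := Real.rpow_pos_of_pos (by norm_num) _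
  refine ⟨0, (2 / 5) ^ θ * (1 - θ), (2 / 5) ^ θ * (θ / (2 / 5)), le_rfl, by positivity,
    by positivity, ?_, ?_⟩
  · intro s hs0 hs1
    exact hPW θ (2 / 5) 0 _ _ _ h0 h1 (by norm_num) (by norm_num) le_rfl (by linarith) rfl
      (by ring) (by ring) (NN5_one h0 h1) s hs0 hs1
  · have hl := NNc_low hHRM hLBD (by norm_num : 3 ≤ 5) hb h0 h1 (s₁ := 2 / 5) (s₂ := 1 / 5)
      (s₃ := 16 / 25) (h := 11 / 25) (by norm_num) (by norm_num) (by norm_num) (by norm_num) hA hD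
    rw [show (1 / 5 / (2 / 5) : ℝ) = 1 / 2 by norm_num,
      show (16 / 25 / (2 / 5) : ℝ) = 8 / 5 by norm_num] at hl
    have hX : 1 + θ * (-7 / 10) + (θ * (-7 / 10)) ^ 2 / 2 + (θ * (-7 / 10)) ^ 3 / 6 ≤
        (1 / 2 : ℝ) ^ θ :=
      NNc_pow (by norm_num) h0 h1 (by
        rw [neg_div]
        exact NNc_log_neg (by norm_num) (by norm_num) (by norm_num)) (by norm_num [abs_le])
    have hY : 1 + θ * (23 / 50) + (θ * (23 / 50)) ^ 2 / 2 + (θ * (23 / 50)) ^ 3 / 6 ≤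
        (8 / 5 : ℝ) ^ θ :=
      NNc_pow (by norm_num) h0 h1 (NNc_log_pos (by norm_num) (by norm_num) (by norm_num))
        (by norm_num [abs_le])
    obtain ⟨p2, p3⟩ := NN5_pos h0 h1 hB1 hB2 hC1 hC2
    have hf := NN5_fin h0 h1 hB1 hB2 hC1 hC2
    have k1 := add_le_add (mul_le_mul_of_nonneg_left hX p2) (mul_le_mul_of_nonneg_left hY p3)
    have k2 : (2 / 5) ^ θ * (NN5_c2 (a 5 φ 6) (a 5 φ 8) θ * (1 / 2 : ℝ) ^ θ +
        NN5_c3 (a 5 φ 6) (a 5 φ 8) θ * (8 / 5 : ℝ) ^ θ) ≤ a 5 φ (6 + 2 * θ) := by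
      refine le_trans (le_of_eq ?_) hl
      unfold NN5_c2 NN5_c3
      ring
    have k3 : (5 + 2 * θ) * ((1 - θ) * a 5 φ 4 + θ / (2 / 5) * a 5 φ 6) ≤
        (14 + 2 * θ) * (NN5_c2 (a 5 φ 6) (a 5 φ 8) θ * (1 / 2 : ℝ) ^ θ +
        NN5_c3 (a 5 φ 6) (a 5 φ 8) θ * (8 / 5 : ℝ) ^ θ) := by
      have k4 : (5 + 2 * θ) * ((1 - θ) * a 5 φ 4 + θ / (2 / 5) * a 5 φ 6) ≤
          (5 + 2 * θ) * ((1 - θ) * 4.8664 + θ / (2 / 5) * a 5 φ 6) := by
        have := mul_le_mul_of_nonneg_left hA h1'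
        exact mul_le_mul_of_nonneg_left (by linarith) (by linarith)
      exact k4.trans (hf.trans (mul_le_mul_of_nonneg_left k1 (by linarith)))
    have e : (1 + (2 * ((5 : ℕ) : ℝ) - 1) / (5 + 2 * θ) + 0) = (14 + 2 * θ) / (5 + 2 * θ) := by
      push_cast
      field_simp
      ring
    rw [e, div_mul_eq_mul_div, le_div_iff₀ (by linarith)]
    calc ((2 / 5) ^ θ * (1 - θ) * a 5 φ 4 + (2 / 5) ^ θ * (θ / (2 / 5)) * a 5 φ 6) *
          (5 + 2 * θ)
        = (2 / 5) ^ θ * ((5 + 2 * θ) * ((1 - θ) * a 5 φ 4 + θ / (2 / 5) * a 5 φ 6)) := by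
          ring
      _ ≤ (2 / 5) ^ θ * ((14 + 2 * θ) *
          (NN5_c2 (a 5 φ 6) (a 5 φ 8) θ * (1 / 2 : ℝ) ^ θ +
          NN5_c3 (a 5 φ 6) (a 5 φ 8) θ * (8 / 5 : ℝ) ^ θ)) :=
          mul_le_mul_of_nonneg_left k3 ht.le
      _ = (14 + 2 * θ) * ((2 / 5) ^ θ *
          (NN5_c2 (a 5 φ 6) (a 5 φ 8) θ * (1 / 2 : ℝ) ^ θ +
          NN5_c3 (a 5 φ 6) (a 5 φ 8) θ * (8 / 5 : ℝ) ^ θ)) := by ring
      _ ≤ (14 + 2 * θ) * a 5 φ (6 + 2 * θ) := mul_le_mul_of_nonneg_left k2 (by linarith)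

end Pool.Agent.TRC
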