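import Pool.Agent.TRC.Targets2

/-!
# Project TRC: the exponents between 6 and 8 in dimension 6 (T_NN6)
-/

set_option autoImplicit false
set_option linter.unusedVariables false

noncomputable section

open MeasureTheory Set Filter
open scoped ENNReal RealInnerProductSpace Topology

namespace Pool.Agent.TRC

open Pool.Agent.ExpMax

namespace NN6_

/-- Taylor polynomial of degree three of the exponential function. -/
def E3 (y : ℝ) : ℝ := 1 + y + y ^ 2 / 2 + y ^ 3 / 6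

/-- Taylor polynomial of degree four of the exponential function. -/
def E4 (y : ℝ) : ℝ := 1 + y + y ^ 2 / 2 + y ^ 3 / 6 + y ^ 4 / 24

/-- The coefficient `C2`. -/
def C2 (θ A4 A6 A8 A10 : ℝ) : ℝ :=
  ((9 / 50) * (17405 / 68921) + (1 + θ) * (-31329 / 84050)) * A4 +
  ((9 / 50) * (637200 / 68921) + (1 + θ) * (5605 / 1681)) * A6 +
  ((9 / 50) * (-2310000 / 68921) + (1 + θ) * (-13600 / 1681)) * A8 +
  ((9 / 50) * (2000000 / 68921) + (1 + θ) * (10000 / 1681)) * A10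

/-- The coefficient `C3`. -/
def C3 (θ A4 A6 A8 A10 : ℝ) : ℝ :=
  ((59 / 100) * (51516 / 68921) + (1 + θ) * (-4779 / 42025)) * A4 +
  ((59 / 100) * (-637200 / 68921) + (1 + θ) * (2448 / 1681)) * A6 +
  ((59 / 100) * (2310000 / 68921) + (1 + θ) * (-9500 / 1681)) * A8 +
  ((59 / 100) * (-2000000 / 68921) + (1 + θ) * (10000 / 1681)) * A10

theorem pol_E {θ A4 A6 A8 A10 : ℝ} (h0 : 0 ≤ θ) (h1 : θ ≤ 1)
    (h4 : A4 ≤ 18.4708) (h4' : A6 ≤ A4) (h6 : 6.18135 ≤ A6) (h6' : A6 ≤ 6.18137)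
    (h8 : 2.78508 ≤ A8) (h8' : A8 ≤ 2.78509) (h10 : A10 ≤ 1.48286) (h10' : 0 ≤ A10) :
    (5 + 2 * θ) * ((1 - θ) * A4 + 3 * θ * A6) ≤ (16 + 2 * θ) *
      (C2 θ A4 A6 A8 A10 * E3 ((-617 / 1000) * θ) +
      C3 θ A4 A6 A8 A10 * E3 ((57 / 100) * θ)) := by
  have b0 : 0 ≤ (-5) * A4 +
      16 * A6 +
      0 * A8 +
      0 * A10 := by
    linarith
  have b1 : 0 ≤ (-5075934922 / 1076890625) * A4 +
      (498283941 / 43075625) * A6 +
      (16666064 / 1723025) * A8 +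
      (-300768 / 68921) * A10 := by
    linarith
  have b2 : 0 ≤ (-4304290300479 / 1076890625000) * A4 +
      (425610783939 / 86151250000) * A6 +
      (9542156187 / 430756250) * A8 +
      (-77099997 / 8615125) * A10 := by
    linarith
  have b3 : 0 ≤ (-787627303644211 / 269222656250000) * A4 +
      (-411428324160869 / 129226875000000) * A6 +
      (22849369832173 / 646134375000) * A8 +
      (-150464441663 / 12922687500) * A10 := by
    linarith
  have b4 : 0 ≤ (-1348833280653677 / 861512500000000) * A4 +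
      (-12570259306426141 / 1033815000000000) * A6 +
      (243453136915859 / 5169075000000) * A8 +
      (-1030127929981 / 103381500000) * A10 := by
    linarith
  have b5 : 0 ≤ (163426483876887 / 3446050000000000) * A4 +
      (-743124035280867 / 34460500000000) * A6 +
      (3811398161109 / 68921000000) * A8 +
      (-3997028001 / 3446050000) * A10 := by
    linarith
  have hθ : 0 ≤ 1 - θ := by linarith
  have g0 := mul_nonneg (mul_nonneg (by norm_num : (0 : ℝ) ≤ 1)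
    (mul_nonneg (pow_nonneg h0 0) (pow_nonneg hθ 5))) b0
  have g1 := mul_nonneg (mul_nonneg (by norm_num : (0 : ℝ) ≤ 5)
    (mul_nonneg (pow_nonneg h0 1) (pow_nonneg hθ 4))) b1
  have g2 := mul_nonneg (mul_nonneg (by norm_num : (0 : ℝ) ≤ 10)
    (mul_nonneg (pow_nonneg h0 2) (pow_nonneg hθ 3))) b2
  have g3 := mul_nonneg (mul_nonneg (by norm_num : (0 : ℝ) ≤ 10)
    (mul_nonneg (pow_nonneg h0 3) (pow_nonneg hθ 2))) b3
  have g4 := mul_nonneg (mul_nonneg (by norm_num : (0 : ℝ) ≤ 5)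
    (mul_nonneg (pow_nonneg h0 4) (pow_nonneg hθ 1))) b4
  have g5 := mul_nonneg (mul_nonneg (by norm_num : (0 : ℝ) ≤ 1)
    (mul_nonneg (pow_nonneg h0 5) (pow_nonneg hθ 0))) b5
  unfold C2 C3 E3
  linarith

theorem pol_U {θ A4 A6 A8 A10 : ℝ} (h0 : 0 ≤ θ) (h1 : θ ≤ 1)
    (h4 : A4 ≤ 18.4708) (h4' : A6 ≤ A4) (h6 : 6.18135 ≤ A6) (h6' : A6 ≤ 6.18137)
    (h8 : 2.78508 ≤ A8) (h8' : A8 ≤ 2.78509) (h10 : A10 ≤ 1.48286) (h10' : 0 ≤ A10) :
    (5 + 2 * θ) * ((1 - θ) * A4 + 3 * θ * A6) ≤ (16 + 2 * θ) *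
      (C2 θ A4 A6 A8 A10 * E4 ((-77 / 125) * θ) +
      C3 θ A4 A6 A8 A10 * E3 ((57 / 100) * θ)) := by
  have b0 : 0 ≤ (-5) * A4 +
      16 * A6 +
      0 * A8 +
      0 * A10 := by
    linarith
  have b1 : 0 ≤ (-2051317797 / 430756250) * A4 +
      (636814943 / 51690750) * A6 +
      (8294096 / 1033815) * A8 +
      (-745760 / 206763) * A10 := by
    linarith
  have b2 : 0 ≤ (-1711360612079 / 403833984375) * A4 +
      (115932587557 / 16153359375) * A6 +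
      (3858650816 / 215378125) * A8 +
      (-190243376 / 25845375) * A10 := by
    linarith
  have b3 : 0 ≤ (-1865411771892037 / 538445312500000) * A4 +
      (29728323250069 / 32306718750000) * A6 +
      (18507152528083 / 646134375000) * A8 +
      (-131900470373 / 12922687500) * A10 := by
    linarith
  have b4 : 0 ≤ (-166836375294603217 / 67305664062500000) * A4 +
      (-73750574350980563 / 12115019531250000) * A6 +
      (9457637403976609 / 242300390625000) * A8 +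
      (-52794618123029 / 4846007812500) * A10 := by
    linarith
  have b5 : 0 ≤ (-42633370056802177 / 32306718750000000) * A4 +
      (-10849503713497967 / 807667968750000) * A6 +
      (3079921361540903 / 64613437500000) * A8 +
      (-5088958179751 / 646134375000) * A10 := by
    linarith
  have b6 : 0 ≤ (-953013931378047 / 26922265625000000) * A4 +
      (-5540233396041573 / 269222656250000) * A6 +
      (113445617003109 / 2153781250000) * A8 +
      (23308482681 / 26922265625) * A10 := by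
    linarith
  have hθ : 0 ≤ 1 - θ := by linarith
  have g0 := mul_nonneg (mul_nonneg (by norm_num : (0 : ℝ) ≤ 1)
    (mul_nonneg (pow_nonneg h0 0) (pow_nonneg hθ 6))) b0
  have g1 := mul_nonneg (mul_nonneg (by norm_num : (0 : ℝ) ≤ 6)
    (mul_nonneg (pow_nonneg h0 1) (pow_nonneg hθ 5))) b1
  have g2 := mul_nonneg (mul_nonneg (by norm_num : (0 : ℝ) ≤ 15)
    (mul_nonneg (pow_nonneg h0 2) (pow_nonneg hθ 4))) b2
  have g3 := mul_nonneg (mul_nonneg (by norm_num : (0 : ℝ) ≤ 20)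
    (mul_nonneg (pow_nonneg h0 3) (pow_nonneg hθ 3))) b3
  have g4 := mul_nonneg (mul_nonneg (by norm_num : (0 : ℝ) ≤ 15)
    (mul_nonneg (pow_nonneg h0 4) (pow_nonneg hθ 2))) b4
  have g5 := mul_nonneg (mul_nonneg (by norm_num : (0 : ℝ) ≤ 6)
    (mul_nonneg (pow_nonneg h0 5) (pow_nonneg hθ 1))) b5
  have g6 := mul_nonneg (mul_nonneg (by norm_num : (0 : ℝ) ≤ 1)
    (mul_nonneg (pow_nonneg h0 6) (pow_nonneg hθ 0))) b6
  unfold C2 C3 E3 E4
  linarith

theorem C3_nonneg {θ A4 A6 A8 A10 : ℝ} (h0 : 0 ≤ θ) (h1 : θ ≤ 1)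
    (h4' : A6 ≤ A4) (h6 : 6.18135 ≤ A6) (h6' : A6 ≤ 6.18137)
    (h8 : 2.78508 ≤ A8) (h10 : A10 ≤ 1.48286) :
    0 ≤ C3 θ A4 A6 A8 A10 := by
  have e : C3 θ A4 A6 A8 A10 = (1 - θ) * C3 0 A4 A6 A8 A10 + θ * C3 1 A4 A6 A8 A10 := by
    unfold C3
    ring
  have b0 : 0 ≤ C3 0 A4 A6 A8 A10 := by
    unfold C3
    linarith
  have b1 : 0 ≤ C3 1 A4 A6 A8 A10 := by
    unfold C3
    linarith
  rw [e]
  exact add_nonneg (mul_nonneg (by linarith) b0) (mul_nonneg h0 b1)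

theorem E3_le {y : ℝ} (hy : |y| ≤ 1) : E3 y ≤ Real.exp y := by
  have h := Real.exp_bound hy (n := 5) (by norm_num)
  rw [abs_le] at h
  have h1 := h.1
  simp only [Finset.sum_range_succ, Finset.sum_range_zero, Nat.factorial] at h1
  have h2 : |y| ^ 5 ≤ y ^ 4 := by
    have : |y| ^ 5 = |y| ^ 4 * |y| := by ring
    rw [this]
    have h3 : |y| ^ 4 = y ^ 4 := Even.pow_abs (by decide) y
    rw [h3]
    have h4 : 0 ≤ y ^ 4 := by positivity
    nlinarith
  have h5 : 0 ≤ y ^ 4 := by positivity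
  unfold E3
  norm_num at h1
  linarith

theorem le_E4 {y : ℝ} (hy : |y| ≤ 1) (hy0 : y ≤ 0) : Real.exp y ≤ E4 y := by
  have h := Real.exp_bound hy (n := 6) (by norm_num)
  rw [abs_le] at h
  have h1 := h.2
  simp only [Finset.sum_range_succ, Finset.sum_range_zero, Nat.factorial] at h1
  have ha : |y| = -y := abs_of_nonpos hy0
  rw [ha] at h1 hy
  have h2 : (-y) ^ 6 ≤ (-y) ^ 5 := by
    have h3 : 0 ≤ (-y) ^ 5 := pow_nonneg (by linarith) 5
    nlinarith
  have h5 : (-y) ^ 5 = - y ^ 5 := by ring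
  have h6 : 0 ≤ (-y) ^ 5 := pow_nonneg (by linarith) 5
  unfold E4
  norm_num at h1
  rw [h5] at h2 h6
  have h7 : (-y) ^ 6 = y ^ 6 := by ring
  rw [h7] at h2
  linarith

/-- Bounds of logarithms. -/
theorem log_a : -617 / 1000 ≤ Real.log (27 / 50) := by
  rw [Real.le_log_iff_exp_le (by norm_num)]
  have h := Real.exp_bound (x := -617 / 1000) (by rw [abs_le]; constructor <;> norm_num)
    (n := 9) (by norm_num)
  rw [abs_le] at h
  have h1 := h.2
  simp only [Finset.sum_range_succ, Finset.sum_range_zero, Nat.factorial] at h1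
  have ha : |(-617 / 1000 : ℝ)| = 617 / 1000 := by
    rw [abs_of_neg (by norm_num)]
    norm_num
  rw [ha] at h1
  norm_num at h1 ⊢
  linarith

theorem log_b : Real.log (27 / 50) ≤ -616 / 1000 := by
  rw [Real.log_le_iff_le_exp (by norm_num)]
  have h := Real.exp_bound (x := -616 / 1000) (by rw [abs_le]; constructor <;> norm_num)
    (n := 9) (by norm_num)
  rw [abs_le] at h
  have h1 := h.1
  simp only [Finset.sum_range_succ, Finset.sum_range_zero, Nat.factorial] at h1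
  have ha : |(-616 / 1000 : ℝ)| = 616 / 1000 := by
    rw [abs_of_neg (by norm_num)]
    norm_num
  rw [ha] at h1
  norm_num at h1 ⊢
  linarith

theorem log_c : 57 / 100 ≤ Real.log (177 / 100) := by
  rw [Real.le_log_iff_exp_le (by norm_num)]
  have h := Real.exp_bound (x := 57 / 100) (by rw [abs_le]; constructor <;> norm_num)
    (n := 9) (by norm_num)
  rw [abs_le] at h
  have h1 := h.2
  simp only [Finset.sum_range_succ, Finset.sum_range_zero, Nat.factorial] at h1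
  have ha : |(57 / 100 : ℝ)| = 57 / 100 := abs_of_pos (by norm_num)
  rw [ha] at h1
  norm_num at h1 ⊢
  linarith

theorem T2_lb {θ : ℝ} (h0 : 0 ≤ θ) (h1 : θ ≤ 1) :
    E3 (-617 / 1000 * θ) ≤ (27 / 50 : ℝ) ^ θ := by
  rw [Real.rpow_def_of_pos (by norm_num)]
  refine (E3_le ?_).trans (Real.exp_le_exp.mpr ?_)
  · rw [abs_le]
    constructor <;> linarith
  · exact mul_le_mul_of_nonneg_right log_a h0

theorem T2_ub {θ : ℝ} (h0 : 0 ≤ θ) (h1 : θ ≤ 1) :
    (27 / 50 : ℝ) ^ θ ≤ E4 (-77 / 125 * θ) := by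
  rw [Real.rpow_def_of_pos (by norm_num)]
  refine le_trans (Real.exp_le_exp.mpr ?_) (le_E4 ?_ ?_)
  · have := mul_le_mul_of_nonneg_right log_b h0
    linarith
  · rw [abs_le]
    constructor <;> linarith
  · linarith

theorem T3_lb {θ : ℝ} (h0 : 0 ≤ θ) (h1 : θ ≤ 1) :
    E3 (57 / 100 * θ) ≤ (177 / 100 : ℝ) ^ θ := by
  rw [Real.rpow_def_of_pos (by norm_num)]
  refine (E3_le ?_).trans (Real.exp_le_exp.mpr ?_)
  · rw [abs_le]
    constructor <;> linarith
  · exact mul_le_mul_of_nonneg_right log_c h0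

theorem key {θ A4 A6 A8 A10 : ℝ} (h0 : 0 ≤ θ) (h1 : θ ≤ 1)
    (h4 : A4 ≤ 18.4708) (h4' : A6 ≤ A4) (h6 : 6.18135 ≤ A6) (h6' : A6 ≤ 6.18137)
    (h8 : 2.78508 ≤ A8) (h8' : A8 ≤ 2.78509) (h10 : A10 ≤ 1.48286) (h10' : 0 ≤ A10) :
    (5 + 2 * θ) * ((1 - θ) * A4 + 3 * θ * A6) ≤ (16 + 2 * θ) *
      (C2 θ A4 A6 A8 A10 * (27 / 50 : ℝ) ^ θ + C3 θ A4 A6 A8 A10 * (177 / 100 : ℝ) ^ θ) := by
  have hC3 := mul_le_mul_of_nonneg_left (T3_lb h0 h1) (C3_nonneg h0 h1 h4' h6 h6' h8 h10)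
  rcases le_total 0 (C2 θ A4 A6 A8 A10) with hC | hC
  · have hC2 := mul_le_mul_of_nonneg_left (T2_lb h0 h1) hC
    refine (pol_E h0 h1 h4 h4' h6 h6' h8 h8' h10 h10').trans ?_
    refine mul_le_mul_of_nonneg_left ?_ (by linarith)
    have e : (-617 / 1000 : ℝ) = (-617) / 1000 := by norm_num
    linarith
  · have hC2 := mul_le_mul_of_nonpos_left (T2_ub h0 h1) hC
    refine (pol_U h0 h1 h4 h4' h6 h6' h8 h8' h10 h10').trans ?_
    refine mul_le_mul_of_nonneg_left ?_ (by linarith)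
    linarith

theorem a_pos_le (hITG : T_ITG) {φ φ' : ℝ → ℝ} (hB : Bes 6 φ φ') : a 6 φ 6 ≤ a 6 φ 4 := by
  have i4 := (hITG 6 φ φ' (by norm_num) hB 4 le_rfl).1
  have i6 := (hITG 6 φ φ' (by norm_num) hB 6 (by norm_num)).1
  unfold a
  refine setIntegral_mono_on i6 i4 measurableSet_Ioi fun r hr => ?_
  refine mul_le_mul_of_nonneg_right ?_ (pow_nonneg (le_of_lt hr) _)
  exact Real.rpow_le_rpow_of_exponent_ge_of_imp (abs_nonneg _) (hB.le1 r) (by norm_num)
    (fun _ h => absurd h (by norm_num))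

end NN6_

/-- NN6. -/
theorem p_NN6 (hPW : T_PW) (hLBD : T_LBD) (hVA : T_VA6) (hITG : T_ITG) : T_NN6 := by
  intro φ φ' hB
  obtain ⟨h4, h6, h6', h8, h8', h10⟩ := hVA φ φ' hB
  have h4' := NN6_.a_pos_le hITG hB
  have h10' : 0 ≤ a 6 φ 10 := (hITG 6 φ φ' (by norm_num) hB 10 (by norm_num)).2.2.le
  refine ⟨by norm_num; linarith, ?_⟩
  intro θ h0 h1
  set t : ℝ := (1 / 3 : ℝ) ^ θ with ht
  have htp : 0 < t := Real.rpow_pos_of_pos (by norm_num) θ
  have hAG : 1 ≤ t * (1 - θ) + t * (3 * θ) := by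
    have e1 := _root_.rpow_one_add_le_one_add_mul_self (s := 2) (by norm_num) h0 h1
    have e2 : t * (1 + 2 : ℝ) ^ θ = 1 := by
      rw [ht, ← Real.mul_rpow (by norm_num) (by norm_num)]
      norm_num
    have e3 := mul_le_mul_of_nonneg_left e1 htp.le
    rw [e2] at e3
    linarith
  refine ⟨0, t * (1 - θ), t * (3 * θ), le_rfl, mul_nonneg htp.le (by linarith),
    mul_nonneg htp.le (by linarith), ?_, ?_⟩
  · exact hPW θ (1 / 3) 0 t _ _ h0 h1 (by norm_num) (by norm_num) le_rfl (by linarith) ht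
      (by ring) (by ring) (by linarith)
  · have hL := hLBD 6 φ φ' (by norm_num) hB θ (9 / 50) (59 / 100)
      ((9 / 50 : ℝ) ^ (1 + θ) * (17405 / 68921) + ((1 + θ) * (9 / 50 : ℝ) ^ θ) * (-31329 / 84050) +
        (59 / 100 : ℝ) ^ (1 + θ) * (51516 / 68921) +
        ((1 + θ) * (59 / 100 : ℝ) ^ θ) * (-4779 / 42025))
      ((9 / 50 : ℝ) ^ (1 + θ) * (637200 / 68921) + ((1 + θ) * (9 / 50 : ℝ) ^ θ) * (5605 / 1681) +
        (59 / 100 : ℝ) ^ (1 + θ) * (-637200 / 68921) +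
        ((1 + θ) * (59 / 100 : ℝ) ^ θ) * (2448 / 1681))
      ((9 / 50 : ℝ) ^ (1 + θ) * (-2310000 / 68921) +
        ((1 + θ) * (9 / 50 : ℝ) ^ θ) * (-13600 / 1681) +
        (59 / 100 : ℝ) ^ (1 + θ) * (2310000 / 68921) +
        ((1 + θ) * (59 / 100 : ℝ) ^ θ) * (-9500 / 1681))
      ((9 / 50 : ℝ) ^ (1 + θ) * (2000000 / 68921) + ((1 + θ) * (9 / 50 : ℝ) ^ θ) * (10000 / 1681) +
        (59 / 100 : ℝ) ^ (1 + θ) * (-2000000 / 68921) +
        ((1 + θ) * (59 / 100 : ℝ) ^ θ) * (10000 / 1681))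
      h0 h1 (by norm_num) (by norm_num) (by
        intro s
        unfold Hm
        ring)
    have e2 : (9 / 50 : ℝ) ^ θ = t * (27 / 50 : ℝ) ^ θ := by
      rw [ht, ← Real.mul_rpow (by norm_num) (by norm_num)]
      norm_num
    have e3 : (59 / 100 : ℝ) ^ θ = t * (177 / 100 : ℝ) ^ θ := by
      rw [ht, ← Real.mul_rpow (by norm_num) (by norm_num)]
      norm_num
    have e4 : (9 / 50 : ℝ) ^ (1 + θ) = 9 / 50 * (t * (27 / 50 : ℝ) ^ θ) := by
      rw [Real.rpow_add (by norm_num), Real.rpow_one, e2]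
    have e5 : (59 / 100 : ℝ) ^ (1 + θ) = 59 / 100 * (t * (177 / 100 : ℝ) ^ θ) := by
      rw [Real.rpow_add (by norm_num), Real.rpow_one, e3]
    rw [e4, e5, e2, e3] at hL
    have hk := NN6_.key h0 h1 h4 h4' h6 h6' h8 h8' h10 h10'
    have hL' : t * (NN6_.C2 θ (a 6 φ 4) (a 6 φ 6) (a 6 φ 8) (a 6 φ 10) * (27 / 50 : ℝ) ^ θ +
        NN6_.C3 θ (a 6 φ 4) (a 6 φ 6) (a 6 φ 8) (a 6 φ 10) * (177 / 100 : ℝ) ^ θ) ≤
        a 6 φ (6 + 2 * θ) := by
      refine le_trans (le_of_eq ?_) hL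
      unfold NN6_.C2 NN6_.C3
      ring
    have h5 : 0 < 5 + 2 * θ := by linarith
    have hfin : t * ((5 + 2 * θ) * ((1 - θ) * a 6 φ 4 + 3 * θ * a 6 φ 6)) ≤
        (16 + 2 * θ) * a 6 φ (6 + 2 * θ) := by
      calc t * ((5 + 2 * θ) * ((1 - θ) * a 6 φ 4 + 3 * θ * a 6 φ 6))
          ≤ t * ((16 + 2 * θ) * (NN6_.C2 θ (a 6 φ 4) (a 6 φ 6) (a 6 φ 8) (a 6 φ 10) *
            (27 / 50 : ℝ) ^ θ + NN6_.C3 θ (a 6 φ 4) (a 6 φ 6) (a 6 φ 8) (a 6 φ 10) *
            (177 / 100 : ℝ) ^ θ)) := mul_le_mul_of_nonneg_left hk htp.le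
        _ = (16 + 2 * θ) * (t * (NN6_.C2 θ (a 6 φ 4) (a 6 φ 6) (a 6 φ 8) (a 6 φ 10) *
            (27 / 50 : ℝ) ^ θ + NN6_.C3 θ (a 6 φ 4) (a 6 φ 6) (a 6 φ 8) (a 6 φ 10) *
            (177 / 100 : ℝ) ^ θ)) := by ring
        _ ≤ (16 + 2 * θ) * a 6 φ (6 + 2 * θ) :=
            mul_le_mul_of_nonneg_left hL' (by linarith)
    have e6 : (1 + (2 * ((6 : ℕ) : ℝ) - 1) / (5 + 2 * θ) + 0) * a 6 φ (6 + 2 * θ) =
        (16 + 2 * θ) * a 6 φ (6 + 2 * θ) / (5 + 2 * θ) := by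
      push_cast
      field_simp
      ring
    rw [e6, le_div_iff₀ h5]
    refine le_trans (le_of_eq ?_) hfin
    ring

end Pool.Agent.TRC
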