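import Pool.Agent.TRC.Targets2

/-!
# Project TRC: the exponents between `6` and `8` in dimension `7` (target NN7)
-/

set_option autoImplicit false

noncomputable section

open MeasureTheory Set Filter
open scoped ENNReal RealInnerProductSpace Topology

namespace Pool.Agent.TRC

open Pool.Agent.ExpMax

namespace NN7_

/-- `exp` and its Taylor polynomial of degree three -/
theorem exp_ge {y : ℝ} (hy : |y| ≤ 1) : 1 + y + y ^ 2 / 2 + y ^ 3 / 6 ≤ Real.exp y := by
  have h := Real.exp_bound hy (n := 6) (by norm_num)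
  simp only [Finset.sum_range_succ, Finset.sum_range_zero, Nat.factorial, Nat.succ_eq_add_one]
    at h
  push_cast at h
  have h1 := (abs_le.1 h).1
  have h2 : y ^ 5 ≥ -y ^ 4 := by
    nlinarith [neg_abs_le y, pow_nonneg (sq_nonneg y) 2]
  have h3 : |y| ^ 6 ≤ y ^ 4 := by
    have h4 : |y| ^ 6 = y ^ 4 * |y| ^ 2 := by
      have : y ^ 4 = |y| ^ 4 := by
        rw [← abs_pow, abs_of_nonneg (by positivity)]
      rw [this]
      ring
    rw [h4, sq_abs]
    have h5 : y ^ 2 ≤ 1 := by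
      have := abs_le.1 hy
      nlinarith
    nlinarith [pow_nonneg (sq_nonneg y) 2]
  have h6 : 0 ≤ y ^ 4 := by positivity
  norm_num at h1
  linarith

theorem log2 : (-592 / 1000 : ℝ) ≤ Real.log (31 / 56) := by
  rw [Real.le_log_iff_exp_le (by norm_num)]
  have h := Real.exp_bound (x := (-592 / 1000 : ℝ)) (by norm_num [abs_le]) (n := 8) (by norm_num)
  simp only [Finset.sum_range_succ, Finset.sum_range_zero, Nat.factorial, Nat.succ_eq_add_one]
    at h
  push_cast at h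
  have h1 := (abs_le.1 h).2
  have h2 : |(-592 / 1000 : ℝ)| = 592 / 1000 := by norm_num [abs_of_neg]
  rw [h2] at h1
  norm_num at h1 ⊢
  linarith

theorem log3 : (647 / 1000 : ℝ) ≤ Real.log (107 / 56) := by
  rw [Real.le_log_iff_exp_le (by norm_num)]
  have h := Real.exp_bound (x := (647 / 1000 : ℝ)) (by norm_num [abs_le]) (n := 8) (by norm_num)
  simp only [Finset.sum_range_succ, Finset.sum_range_zero, Nat.factorial, Nat.succ_eq_add_one]
    at h
  push_cast at h
  have h1 := (abs_le.1 h).2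
  have h2 : |(647 / 1000 : ℝ)| = 647 / 1000 := by norm_num [abs_of_pos]
  rw [h2] at h1
  norm_num at h1 ⊢
  linarith

/-- a quadratic form in the moments is nonnegative -/
theorem cs (h_ITG : T_ITG) {n : ℕ} {φ φ' : ℝ → ℝ} (hn : 3 ≤ n) (h : Bes n φ φ') (q c : ℝ)
    (hq : 4 ≤ q) : 0 ≤ a n φ (q + 4) + c ^ 2 * a n φ q - 2 * c * a n φ (q + 2) := by
  have i0 := (h_ITG n φ φ' hn h q hq).1
  have i2 := (h_ITG n φ φ' hn h (q + 2) (by linarith)).1
  have i4 := (h_ITG n φ φ' hn h (q + 4) (by linarith)).1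
  have e1 : a n φ (q + 4) + c ^ 2 * a n φ q - 2 * c * a n φ (q + 2) =
      ∫ r in Ioi (0 : ℝ), (|φ r| ^ (q + 4) * r ^ (n - 1) + c ^ 2 * (|φ r| ^ q * r ^ (n - 1)) -
        2 * c * (|φ r| ^ (q + 2) * r ^ (n - 1))) := by
    have k1 := integral_sub (i4.add (i0.const_mul (c ^ 2))) (i2.const_mul (2 * c))
    have k2 := integral_add i4 (i0.const_mul (c ^ 2))
    simp only [Pi.add_apply] at k1
    rw [k1, k2, integral_const_mul, integral_const_mul]
    rfl
  rw [e1]
  refine setIntegral_nonneg measurableSet_Ioi (fun r hr => ?_)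
  have hr0 : (0 : ℝ) < r := hr
  have e2 : |φ r| ^ (q + 2) = |φ r| ^ q * |φ r| ^ 2 := by
    rw [Real.rpow_add_of_nonneg (abs_nonneg _) (by linarith) (by norm_num)]
    norm_num
  have e4 : |φ r| ^ (q + 4) = |φ r| ^ q * |φ r| ^ 4 := by
    rw [Real.rpow_add_of_nonneg (abs_nonneg _) (by linarith) (by norm_num)]
    norm_num
  rw [e2, e4]
  have e3 : |φ r| ^ q * |φ r| ^ 4 * r ^ (n - 1) + c ^ 2 * (|φ r| ^ q * r ^ (n - 1)) -
      2 * c * (|φ r| ^ q * |φ r| ^ 2 * r ^ (n - 1)) =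
      |φ r| ^ q * r ^ (n - 1) * (|φ r| ^ 2 - c) ^ 2 := by ring
  rw [e3]
  have h5 : 0 ≤ |φ r| ^ q := Real.rpow_nonneg (abs_nonneg _) _
  positivity

/-- the polynomials of the lower bound -/
def c2 (θ x y z w : ℝ) : ℝ :=
  ((-11002489 / 43897600) + (-354919 / 1155200) * θ) * x
    + ((995635 / 219488) + (18083 / 5776) * θ) * y
    + ((-393175 / 27436) + (-6125 / 722) * θ) * z
    + ((86250 / 6859) + (2500 / 361) * θ) * w

/-- the polynomials of the lower bound -/
def c3 (θ x y z w : ℝ) : ℝ :=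
  ((11002489 / 43897600) + (-102827 / 1155200) * θ) * x
    + ((-776147 / 219488) + (7595 / 5776) * θ) * y
    + ((393175 / 27436) + (-4225 / 722) * θ) * z
    + ((-86250 / 6859) + (2500 / 361) * θ) * w

/-- the left side -/
def lft (θ x y : ℝ) : ℝ := ((1 - θ) - θ * (8 / 5 * (1 - θ) ^ 2) * (7 / 25)) * x +
  (θ / (7 / 25) + (1 + θ) * (8 / 5 * (1 - θ) ^ 2)) * y

theorem poly1 {θ x y z w : ℝ} (h0 : 0 ≤ θ) (h1 : θ ≤ 1) (hx : x ≤ 84.7924)
    (hy : 23.84523 ≤ y) (hy' : y ≤ 23.84525) (hz : 9.41116 ≤ z) (hz' : z ≤ 9.41117)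
    (hw : 3.714 ≤ w) (hw' : w ≤ 4.51184) (hx0 : 60 ≤ x) :
    (5 + 2 * θ) * lft θ x y ≤
      (18 + 2 * θ + (5 + 2 * θ) * (8 / 5 * (1 - θ) ^ 2)) * (
        (1 + -592 / 1000 * θ + (-592 / 1000 * θ) ^ 2 / 2 + (-592 / 1000 * θ) ^ 3 / 6) *
          c2 θ x y z w
        + (1 + 647 / 1000 * θ + (647 / 1000 * θ) ^ 2 / 2 + (647 / 1000 * θ) ^ 3 / 6) *
          c3 θ x y z w) := by
  have h2 : 0 ≤ 1 - θ := by linarith
  have d0 : 0 ≤ (-5) * x
      + 18 * y
      + 0 * z
      + 0 * w := by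
    linarith
  have d1 : 0 ≤ (-702105721677 / 21948800000) * x
      + (67927428361 / 768208000) * y
      + (48798789 / 548720) * z
      + (-616915 / 13718) * w := by
    linarith
  have d2 : 0 ≤ (-738663016542207 / 8779520000000) * x
      + (213946718654047 / 1536416000000) * y
      + (118849176999 / 219488000) * z
      + (-276975853 / 1097440) * w := by
    linarith
  have d3 : 0 ≤ (-5194718353897973391 / 43897600000000000) * x
      + (96277524775733449 / 4609248000000000) * y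
      + (1448067100432887 / 1097440000000) * z
      + (-2998367134589 / 5487200000) * w := by
    linarith
  have d4 : 0 ≤ (-20894126008516814941 / 219488000000000000) * x
      + (-4232325645830348201 / 23046240000000000) * y
      + (9181148204935437 / 5487200000000) * z
      + (-47981364395297 / 82308000000) * w := by
    linarith
  have d5 : 0 ≤ (-9177758480248509363 / 219488000000000000) * x
      + (-5388183929317724123 / 23046240000000000) * y
      + (6508680149692731 / 5487200000000) * z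
      + (-8719816449609 / 27436000000) * w := by
    linarith
  have d6 : 0 ≤ (-342687508791233639 / 43897600000000000) * x
      + (-568224256282862419 / 4609248000000000) * y
      + (495949022901543 / 1097440000000) * z
      + (-1234566465131 / 16461600000) * w := by
    linarith
  have d7 : 0 ≤ (109365080874739 / 4389760000000000) * x
      + (-1668705052849183 / 65846400000000) * y
      + (7912637636157 / 109744000000) * z
      + (-1433525329 / 1646160000) * w := by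
    linarith
  have e0 := mul_nonneg (mul_nonneg (pow_nonneg h0 0) (pow_nonneg h2 7)) d0
  have e1 := mul_nonneg (mul_nonneg (pow_nonneg h0 1) (pow_nonneg h2 6)) d1
  have e2 := mul_nonneg (mul_nonneg (pow_nonneg h0 2) (pow_nonneg h2 5)) d2
  have e3 := mul_nonneg (mul_nonneg (pow_nonneg h0 3) (pow_nonneg h2 4)) d3
  have e4 := mul_nonneg (mul_nonneg (pow_nonneg h0 4) (pow_nonneg h2 3)) d4
  have e5 := mul_nonneg (mul_nonneg (pow_nonneg h0 5) (pow_nonneg h2 2)) d5
  have e6 := mul_nonneg (mul_nonneg (pow_nonneg h0 6) (pow_nonneg h2 1)) d6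
  have e7 := mul_nonneg (mul_nonneg (pow_nonneg h0 7) (pow_nonneg h2 0)) d7
  unfold lft c2 c3
  linear_combination e0 + e1 + e2 + e3 + e4 + e5 + e6 + e7

theorem poly2 {θ x y z w : ℝ} (h0 : 0 ≤ θ) (h1 : θ ≤ 1) (hx : x ≤ 84.7924)
    (hy : 23.84523 ≤ y) (hy' : y ≤ 23.84525) (hz : 9.41116 ≤ z) (hz' : z ≤ 9.41117)
    (hw : 3.714 ≤ w) (hw' : w ≤ 4.51184) (hx0 : 60 ≤ x) :
    (5 + 2 * θ) * lft θ x y ≤
      (18 + 2 * θ + (5 + 2 * θ) * (8 / 5 * (1 - θ) ^ 2)) * (c2 θ x y z w
        + (1 + 647 / 1000 * θ + (647 / 1000 * θ) ^ 2 / 2 + (647 / 1000 * θ) ^ 3 / 6) *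
          c3 θ x y z w) := by
  have h2 : 0 ≤ 1 - θ := by linarith
  have d0 : 0 ≤ (-5) * x
      + 18 * y
      + 0 * z
      + 0 * w := by
    linarith
  have d1 : 0 ≤ (-786780877021 / 21948800000) * x
      + (121564277081 / 768208000) * y
      + (-72236203 / 548720) * z
      + (2038205 / 13718) * w := by
    linarith
  have d2 : 0 ≤ (-4796534444628987 / 43897600000000) * x
      + (855312765875807 / 1536416000000) * y
      + (-829268676541 / 1097440000) * z
      + (4816780127 / 5487200) * w := by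
    linarith
  have d3 : 0 ≤ (-24192058093889282989 / 131692800000000000) * x
      + (4809617396864227529 / 4609248000000000) * y
      + (-5985943177331227 / 3292320000000) * z
      + (11921098427523 / 5487200000) * w := by
    linarith
  have d4 : 0 ≤ (-40374578221445703773 / 219488000000000000) * x
      + (26411121760994673239 / 23046240000000000) * y
      + (-38968031816647897 / 16461600000000) * z
      + (238967149667039 / 82308000000) * w := by
    linarith
  have d5 : 0 ≤ (-72166899239461417753 / 658464000000000000) * x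
      + (17246959163396073509 / 23046240000000000) * y
      + (-5843901681637187 / 3292320000000) * z
      + (61135441021367 / 27436000000) * w := by
    linarith
  have d6 : 0 ≤ (-4731528224654771509 / 131692800000000000) * x
      + (1258580175638396077 / 4609248000000000) * y
      + (-483942056424271 / 658464000000) * z
      + (15513481730453 / 16461600000) * w := by
    linarith
  have d7 : 0 ≤ (-21997084908597517 / 4389760000000000) * x
      + (2888426705607649 / 65846400000000) * y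
      + (-8812870670197 / 65846400000) * z
      + (288331322287 / 1646160000) * w := by
    linarith
  have e0 := mul_nonneg (mul_nonneg (pow_nonneg h0 0) (pow_nonneg h2 7)) d0
  have e1 := mul_nonneg (mul_nonneg (pow_nonneg h0 1) (pow_nonneg h2 6)) d1
  have e2 := mul_nonneg (mul_nonneg (pow_nonneg h0 2) (pow_nonneg h2 5)) d2
  have e3 := mul_nonneg (mul_nonneg (pow_nonneg h0 3) (pow_nonneg h2 4)) d3
  have e4 := mul_nonneg (mul_nonneg (pow_nonneg h0 4) (pow_nonneg h2 3)) d4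
  have e5 := mul_nonneg (mul_nonneg (pow_nonneg h0 5) (pow_nonneg h2 2)) d5
  have e6 := mul_nonneg (mul_nonneg (pow_nonneg h0 6) (pow_nonneg h2 1)) d6
  have e7 := mul_nonneg (mul_nonneg (pow_nonneg h0 7) (pow_nonneg h2 0)) d7
  unfold lft c2 c3
  linear_combination e0 + e1 + e2 + e3 + e4 + e5 + e6 + e7

theorem c3_nonneg {θ x y z w : ℝ} (h0 : 0 ≤ θ) (h1 : θ ≤ 1)
    (hy : 23.84523 ≤ y) (hy' : y ≤ 23.84525) (hz : 9.41116 ≤ z) (hz' : z ≤ 9.41117)
    (hw' : w ≤ 4.51184) (hx0 : 60 ≤ x) : 0 ≤ c3 θ x y z w := by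
  have h2 : 0 ≤ 1 - θ := by linarith
  have f0 : 0 ≤ (11002489 / 43897600) * x
      + (-776147 / 219488) * y
      + (393175 / 27436) * z
      + (-86250 / 6859) * w := by
    linarith
  have f1 : 0 ≤ (7095063 / 43897600) * x
      + (-487537 / 219488) * y
      + (232625 / 27436) * z
      + (-38750 / 6859) * w := by
    linarith
  have g0 := mul_nonneg h2 f0
  have g1 := mul_nonneg h0 f1
  unfold c3
  linear_combination g0 + g1

/-- the Hermite polynomial written out -/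
theorem herm (θ u v s : ℝ) :
    Hm (31 / 200) (107 / 200) (31 / 200 * u) ((1 + θ) * u) (107 / 200 * v) ((1 + θ) * v) s =
      (u * ((-11002489 / 43897600) + (-354919 / 1155200) * θ) +
        v * ((11002489 / 43897600) + (-102827 / 1155200) * θ))
      + (u * ((995635 / 219488) + (18083 / 5776) * θ) +
        v * ((-776147 / 219488) + (7595 / 5776) * θ)) * s
      + (u * ((-393175 / 27436) + (-6125 / 722) * θ) +
        v * ((393175 / 27436) + (-4225 / 722) * θ)) * s ^ 2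
      + (u * ((86250 / 6859) + (2500 / 361) * θ) +
        v * ((-86250 / 6859) + (2500 / 361) * θ)) * s ^ 3 := by
  have e : (107 / 200 - 31 / 200 : ℝ) = 19 / 50 := by norm_num
  unfold Hm
  rw [e]
  ring

end NN7_

theorem p_NN7 (h_PW : T_PW) (h_LBD : T_LBD) (h_VA7 : T_VA7) (h_EN7 : T_EN7) (h_ITG : T_ITG) :
    T_NN7 := by
  intro φ φ' hB
  obtain ⟨hx, hy, hy', hz, hz', hw'⟩ := h_VA7 φ φ' hB
  have q1 := NN7_.cs h_ITG (by norm_num) hB 4 0.3947 (by norm_num)
  have q2 := NN7_.cs h_ITG (by norm_num) hB 6 0.3947 (by norm_num)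
  have r8 : (4 : ℝ) + 4 = 8 := by norm_num
  have r6 : (4 : ℝ) + 2 = 6 := by norm_num
  have r10 : (6 : ℝ) + 4 = 10 := by norm_num
  have r82 : (6 : ℝ) + 2 = 8 := by norm_num
  rw [r8, r6] at q1
  rw [r10, r82] at q2
  have hx0 : 60 ≤ a 7 φ 4 := by
    norm_num at q1 ⊢
    linarith
  have hw : 3.714 ≤ a 7 φ 10 := by
    norm_num at q2 ⊢
    linarith
  have h13 : 2 * ((7 : ℕ) : ℝ) - 1 = 13 := by norm_num
  refine ⟨?_, ?_⟩
  · rw [h13]
    linarith
  intro θ h0 h1
  have hE := h_EN7 θ h0 h1 ((7 / 25 : ℝ) ^ θ) (8 / 5 * (1 - θ) ^ 2) rfl rfl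
  have ht : 0 < (7 / 25 : ℝ) ^ θ := Real.rpow_pos_of_pos (by norm_num) _
  have hk : 0 ≤ 8 / 5 * (1 - θ) ^ 2 := by positivity
  have hk1 : 8 / 5 * (1 - θ) ^ 2 * (1 + θ) * (7 / 25) ≤ 1 - θ := by
    have h2 : 0 ≤ 1 - θ := by linarith
    have h3 : (1 - θ) * (1 + θ) ≤ 1 := by nlinarith
    nlinarith [mul_nonneg h2 h2]
  have hα : 0 ≤ (1 - θ) - θ * (8 / 5 * (1 - θ) ^ 2) * (7 / 25) := by
    have h2 : 0 ≤ 8 / 5 * (1 - θ) ^ 2 * (7 / 25) := by positivity
    nlinarith
  refine ⟨8 / 5 * (1 - θ) ^ 2, (7 / 25 : ℝ) ^ θ * ((1 - θ) - θ * (8 / 5 * (1 - θ) ^ 2) * (7 / 25)),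
    (7 / 25 : ℝ) ^ θ * (θ / (7 / 25) + (1 + θ) * (8 / 5 * (1 - θ) ^ 2)), hk,
    mul_nonneg ht.le hα, mul_nonneg ht.le (by positivity), ?_, ?_⟩
  · exact h_PW θ (7 / 25) (8 / 5 * (1 - θ) ^ 2) _ _ _ h0 h1 (by norm_num) (by norm_num) hk hk1
      rfl rfl rfl hE
  · -- the lower bound
    set t : ℝ := (7 / 25 : ℝ) ^ θ with htd
    set T2 : ℝ := (31 / 56 : ℝ) ^ θ with hT2
    set T3 : ℝ := (107 / 56 : ℝ) ^ θ with hT3
    have u2 : (31 / 200 : ℝ) ^ θ = t * T2 := by
      rw [htd, hT2, ← Real.mul_rpow (by norm_num) (by norm_num)]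
      norm_num
    have u3 : (107 / 200 : ℝ) ^ θ = t * T3 := by
      rw [htd, hT3, ← Real.mul_rpow (by norm_num) (by norm_num)]
      norm_num
    have v2 : (31 / 200 : ℝ) ^ (1 + θ) = 31 / 200 * (t * T2) := by
      rw [Real.rpow_add (by norm_num), Real.rpow_one, u2]
    have v3 : (107 / 200 : ℝ) ^ (1 + θ) = 107 / 200 * (t * T3) := by
      rw [Real.rpow_add (by norm_num), Real.rpow_one, u3]
    have hL := h_LBD 7 φ φ' (by norm_num) hB θ (31 / 200) (107 / 200) _ _ _ _ h0 h1 (by norm_num)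
      (by norm_num) (fun s => by rw [v2, v3, u2, u3]; exact NN7_.herm θ (t * T2) (t * T3) s)
    have hL' : t * (T2 * NN7_.c2 θ (a 7 φ 4) (a 7 φ 6) (a 7 φ 8) (a 7 φ 10) +
        T3 * NN7_.c3 θ (a 7 φ 4) (a 7 φ 6) (a 7 φ 8) (a 7 φ 10)) ≤ a 7 φ (6 + 2 * θ) := by
      refine le_trans (le_of_eq ?_) hL
      unfold NN7_.c2 NN7_.c3
      ring
    have hc3 := NN7_.c3_nonneg (x := a 7 φ 4) h0 h1 hy hy' hz hz' hw' hx0
    have hT2le : T2 ≤ 1 := Real.rpow_le_one (by norm_num) (by norm_num) h0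
    have hT2ge : 1 + -592 / 1000 * θ + (-592 / 1000 * θ) ^ 2 / 2 +
        (-592 / 1000 * θ) ^ 3 / 6 ≤ T2 := by
      refine (NN7_.exp_ge (y := -592 / 1000 * θ) ?_).trans ?_
      · rw [abs_le]
        constructor <;> nlinarith
      · rw [hT2, Real.rpow_def_of_pos (by norm_num)]
        exact Real.exp_le_exp.2 (mul_le_mul_of_nonneg_right NN7_.log2 h0)
    have hT3ge : 1 + 647 / 1000 * θ + (647 / 1000 * θ) ^ 2 / 2 +
        (647 / 1000 * θ) ^ 3 / 6 ≤ T3 := by
      refine (NN7_.exp_ge (y := 647 / 1000 * θ) ?_).trans ?_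
      · rw [abs_le]
        constructor <;> nlinarith
      · rw [hT3, Real.rpow_def_of_pos (by norm_num)]
        exact Real.exp_le_exp.2 (mul_le_mul_of_nonneg_right NN7_.log3 h0)
    set C2 := NN7_.c2 θ (a 7 φ 4) (a 7 φ 6) (a 7 φ 8) (a 7 φ 10) with hC2
    set C3 := NN7_.c3 θ (a 7 φ 4) (a 7 φ 6) (a 7 φ 8) (a 7 φ 10) with hC3
    have hf : 0 < 18 + 2 * θ + (5 + 2 * θ) * (8 / 5 * (1 - θ) ^ 2) := by positivity
    have hmain : (5 + 2 * θ) * NN7_.lft θ (a 7 φ 4) (a 7 φ 6) ≤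
        (18 + 2 * θ + (5 + 2 * θ) * (8 / 5 * (1 - θ) ^ 2)) * (T2 * C2 + T3 * C3) := by
      have k3 := mul_le_mul_of_nonneg_right hT3ge hc3
      rcases le_or_gt 0 C2 with hs | hs
      · have k2 := mul_le_mul_of_nonneg_right hT2ge hs
        exact (NN7_.poly1 h0 h1 hx hy hy' hz hz' hw hw' hx0).trans
          (mul_le_mul_of_nonneg_left (add_le_add k2 k3) hf.le)
      · have k2 : C2 ≤ T2 * C2 := by nlinarith
        exact (NN7_.poly2 h0 h1 hx hy hy' hz hz' hw hw' hx0).trans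
          (mul_le_mul_of_nonneg_left (add_le_add k2 k3) hf.le)
    rw [h13]
    have h5 : 0 < 5 + 2 * θ := by linarith
    have e1 : 1 + 13 / (5 + 2 * θ) + 8 / 5 * (1 - θ) ^ 2 =
        (18 + 2 * θ + (5 + 2 * θ) * (8 / 5 * (1 - θ) ^ 2)) / (5 + 2 * θ) := by
      field_simp
      ring
    have hm2 : NN7_.lft θ (a 7 φ 4) (a 7 φ 6) ≤
        (18 + 2 * θ + (5 + 2 * θ) * (8 / 5 * (1 - θ) ^ 2)) / (5 + 2 * θ) *
          (T2 * C2 + T3 * C3) := by
      rw [div_mul_eq_mul_div, le_div_iff₀ h5]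
      linarith
    rw [e1]
    have hq : 0 ≤ (18 + 2 * θ + (5 + 2 * θ) * (8 / 5 * (1 - θ) ^ 2)) / (5 + 2 * θ) := by
      positivity
    calc t * ((1 - θ) - θ * (8 / 5 * (1 - θ) ^ 2) * (7 / 25)) * a 7 φ 4 +
          t * (θ / (7 / 25) + (1 + θ) * (8 / 5 * (1 - θ) ^ 2)) * a 7 φ 6
        = t * NN7_.lft θ (a 7 φ 4) (a 7 φ 6) := by
          unfold NN7_.lft
          ring
      _ ≤ t * ((18 + 2 * θ + (5 + 2 * θ) * (8 / 5 * (1 - θ) ^ 2)) / (5 + 2 * θ) *
          (T2 * C2 + T3 * C3)) := mul_le_mul_of_nonneg_left hm2 ht.le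
      _ = (18 + 2 * θ + (5 + 2 * θ) * (8 / 5 * (1 - θ) ^ 2)) / (5 + 2 * θ) *
          (t * (T2 * C2 + T3 * C3)) := by ring
      _ ≤ _ := mul_le_mul_of_nonneg_left hL' hq

end Pool.Agent.TRC
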