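import Pool.Agent.TRC.Targets
import Pool.Agent.TRC.Lem

/-!
# Project TRC: ORB, a curve of maximizers
-/

set_option autoImplicit false

noncomputable section

open MeasureTheory Set Filter
open scoped ENNReal RealInnerProductSpace Topology

namespace Pool.Agent.TRC

open Pool.Agent.ExpMax

namespace ORB_

variable {F : Type} [NormedAddCommGroup F] [InnerProductSpace ℝ F] [FiniteDimensional ℝ F]
    [MeasurableSpace F] [BorelSpace F]

theorem J_move (p : ℝ) (f g : H F) (R : F ≃ₗᵢ[ℝ] F) (b : F)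
    (h : ∀ y, E g y = E f (R y + b)) : J p g = J p f := by
  unfold J
  have h1 : ∫ y, ‖E g y‖ ^ p = ∫ y, (fun z => ‖E f (z + b)‖ ^ p) (R y) := by
    congr 1
    funext y
    rw [h]
  rw [h1, (R.measurePreserving).integral_comp R.toHomeomorph.measurableEmbedding
    (fun z => ‖E f (z + b)‖ ^ p)]
  exact integral_add_right_eq_self (fun z => ‖E f z‖ ^ p) b

end ORB_

open ORB_ in
theorem p_ORB (hMOD : T_MOD) (hDIF : T_DIF) (hROP : T_ROP) : T_ORB := by
  intro F _ _ _ _ _ hn p f hf hRl e v c he hev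
  have hn1 : 1 ≤ Module.finrank ℝ F := by omega
  obtain ⟨R, hR0, hRd⟩ := hROP F e v he hev
  have hex : ∀ t : ℝ, ∃ g : H F, ‖g‖ = ‖f‖ ∧ ∀ y, E g y = E f (R t y + t • c) := by
    intro t
    obtain ⟨g1, h1, h2⟩ := (hMOD F hn1 f).1 (t • c)
    obtain ⟨g2, h3, h4⟩ := (hMOD F hn1 g1).2 (R t)
    exact ⟨g2, by rw [h3, h1], fun y => by rw [h4, h2]⟩
  choose γ hγ1 hγ2 using hex
  have hJ : ∀ t, J p (γ t) = J p f := fun t => J_move p f (γ t) (R t) (t • c) (hγ2 t)
  have hder : ∀ y, HasDerivAt (fun t => E (γ t) y) (fderiv ℝ (E f) y (vf e v c y)) 0 := by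
    intro y
    have h1 : HasDerivAt (fun t : ℝ => R t y + t • c)
        (((⟪v, y⟫ : ℝ) • e - (⟪e, y⟫ : ℝ) • v) + (1 : ℝ) • c) 0 :=
      (hRd y).add ((hasDerivAt_id (0 : ℝ)).smul_const c)
    have h0 : R 0 y + (0 : ℝ) • c = y := by rw [hR0, zero_smul, add_zero]
    have h2 : HasFDerivAt (E f) (fderiv ℝ (E f) y) (R 0 y + (0 : ℝ) • c) := by
      rw [h0]
      exact ((hDIF F hn1 f).differentiable (by norm_num) y).hasFDerivAt
    have h3 := h2.comp_hasDerivAt (0 : ℝ) h1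
    rw [one_smul] at h3
    have h4 : (fun t => E (γ t) y) = (E f) ∘ fun t : ℝ => R t y + t • c := by
      funext t
      exact hγ2 t y
    rw [h4]
    exact h3
  have hγ0 : ∀ y, E (γ 0) y = E f y := by
    intro y
    rw [hγ2, hR0, zero_smul, add_zero]
  have hs0 : Tendsto (fun k : ℕ => 1 / ((k : ℝ) + 1)) atTop (𝓝 0) :=
    tendsto_one_div_add_atTop_nhds_zero_nat
  have hspos : ∀ k : ℕ, 0 < 1 / ((k : ℝ) + 1) := fun k => by positivity
  refine ⟨fun k => γ (1 / ((k : ℝ) + 1)), fun k => 1 / ((k : ℝ) + 1), ?_, hspos, hs0, ?_, ?_⟩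
  · intro k
    refine ⟨⟨by rw [hγ1]; exact hf.norm_one, fun h => ?_⟩, fun y => ?_, hJ _⟩
    · rw [hJ]
      exact hf.max h
    · rw [hγ2]
      exact hRl _
  · intro y
    have h1 := (hder y).continuousAt.tendsto.comp hs0
    rw [hγ0] at h1
    exact h1
  · intro y
    have h1 := hasDerivAt_iff_tendsto_slope.1 (hder y)
    have h2 : Tendsto (fun k : ℕ => 1 / ((k : ℝ) + 1)) atTop (𝓝[≠] 0) := by
      rw [tendsto_nhdsWithin_iff]
      exact ⟨hs0, Filter.Eventually.of_forall fun k => (hspos k).ne'⟩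
    have h3 := h1.comp h2
    refine h3.congr fun k => ?_
    have e1 : ∀ z : ℂ, z / ((1 / ((k : ℝ) + 1) : ℝ) : ℂ) = ((1 / ((k : ℝ) + 1) : ℝ) : ℂ)⁻¹ * z :=
      fun z => div_eq_inv_mul z _
    rw [Function.comp_apply, slope_def_module, sub_zero, hγ0, Complex.real_smul,
      Complex.ofReal_inv]
    exact (e1 _).symm

end Pool.Agent.TRC
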