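import Pool.Agent.TRC.Targets2

/-!
# Project TRC: target PRT (the identity on an interval, exponent 8)
-/

set_option autoImplicit false

noncomputable section

open MeasureTheory Set Filter
open scoped ENNReal RealInnerProductSpace Topology

namespace Pool.Agent.TRC

open Pool.Agent.ExpMax

namespace PRT_

theorem der (N : ℕ) (φ φ' : ℝ → ℝ) (hB : Bes (N + 2) φ φ') (r : ℝ) (hr : 0 < r) :
    HasDerivAt (fun r => φ r ^ 7 * φ' r * r ^ (N + 1))
      (7 * (φ r ^ 6 * φ' r ^ 2 * r ^ (N + 1)) - φ r ^ 8 * r ^ (N + 1)) r := by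
  have hr0 : r ≠ 0 := hr.ne'
  have hder := hB.der r
  have hode := hB.ode r hr
  have hc : ((N + 2 : ℕ) : ℝ) - 1 = (N : ℝ) + 1 := by push_cast; ring
  rw [hc] at hode
  have d1 : HasDerivAt (fun x : ℝ => x ^ (N + 1)) (((N : ℝ) + 1) * r ^ N) r := by
    have h := hasDerivAt_pow (N + 1) r
    have h2 : ((N + 1 : ℕ) : ℝ) * r ^ (N + 1 - 1) = ((N : ℝ) + 1) * r ^ N := by
      rw [Nat.add_sub_cancel]
      push_cast
      ring
    rwa [h2] at h
  have d2 : HasDerivAt (fun x : ℝ => φ x ^ 7) (7 * φ r ^ 6 * φ' r) r := by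
    refine (hder.fun_pow 7).congr_deriv ?_
    push_cast
    ring
  refine ((d2.fun_mul hode).fun_mul d1).congr_deriv ?_
  have hp : r ^ (N + 1) = r ^ N * r := pow_succ r N
  rw [hp]
  generalize r ^ N = p
  field_simp
  ring

theorem main : T_PRT := by
  intro n φ φ' hn hB R hR
  obtain ⟨N, rfl⟩ : ∃ N, n = N + 2 := ⟨n - 2, by omega⟩
  have e1 : N + 2 - 1 = N + 1 := rfl
  rw [e1]
  have hφ : Continuous φ := continuous_iff_continuousAt.2 fun r => (hB.der r).continuousAt
  have hφ' := hB.cont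
  have c1 : Continuous fun r : ℝ => φ r ^ 6 * φ' r ^ 2 * r ^ (N + 1) := by fun_prop
  have c2 : Continuous fun r : ℝ => φ r ^ 8 * r ^ (N + 1) := by fun_prop
  have c3 : Continuous fun r : ℝ => φ r ^ 7 * φ' r * r ^ (N + 1) := by fun_prop
  have h := intervalIntegral.integral_eq_sub_of_hasDerivAt_of_le hR.le c3.continuousOn
    (fun x hx => der N φ φ' hB x hx.1)
    (((c1.const_mul 7).sub c2).intervalIntegrable 0 R)
  rw [intervalIntegral.integral_sub ((c1.const_mul 7).intervalIntegrable 0 R)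
    (c2.intervalIntegrable 0 R), intervalIntegral.integral_const_mul] at h
  have h0 : (0 : ℝ) ^ (N + 1) = 0 := zero_pow (Nat.succ_ne_zero N)
  rw [h0, mul_zero, sub_zero] at h
  linarith

end PRT_

theorem p_PRT : T_PRT := PRT_.main

end Pool.Agent.TRC
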