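import Pool.Agent.TRC.Targets2

/-!
# Project TRC: the target PW (a pointwise inequality)
-/

set_option autoImplicit false

noncomputable section

open MeasureTheory Set Filter Pool.Agent.ExpMax
open scoped Topology

namespace Pool.Agent.TRC

namespace PW_

/-- the difference of the two sides in the scaled variable -/
def G (θ k u : ℝ) : ℝ := (1 - θ) - θ * k + (θ + (1 + θ) * k) * u - u ^ θ - k * u ^ (1 + θ)

theorem hd (θ k : ℝ) {u : ℝ} (hu : 0 < u) :
    HasDerivAt (G θ k) ((θ + (1 + θ) * k) - θ * u ^ (θ - 1) - k * ((1 + θ) * u ^ θ)) u := by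
  have h1 : HasDerivAt (fun x : ℝ => x ^ θ) (θ * u ^ (θ - 1)) u :=
    Real.hasDerivAt_rpow_const (Or.inl hu.ne')
  have h2 : HasDerivAt (fun x : ℝ => x ^ (1 + θ)) ((1 + θ) * u ^ θ) u := by
    have h := Real.hasDerivAt_rpow_const (p := 1 + θ) (Or.inl hu.ne')
    rwa [add_sub_cancel_left] at h
  have h3 : HasDerivAt (fun x : ℝ => (1 - θ) - θ * k + (θ + (1 + θ) * k) * x)
      (θ + (1 + θ) * k) u := by
    have h := ((hasDerivAt_id u).const_mul (θ + (1 + θ) * k)).const_add ((1 - θ) - θ * k)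
    simpa using h
  exact (h3.sub h1).sub (h2.const_mul k)

theorem hd2 (θ k : ℝ) {u : ℝ} (hu : 0 < u) :
    HasDerivAt (fun u : ℝ => (θ + (1 + θ) * k) - θ * u ^ (θ - 1) - k * ((1 + θ) * u ^ θ))
      (-(θ * ((θ - 1) * u ^ (θ - 1 - 1))) - k * ((1 + θ) * (θ * u ^ (θ - 1)))) u := by
  have h1 : HasDerivAt (fun x : ℝ => x ^ (θ - 1)) ((θ - 1) * u ^ (θ - 1 - 1)) u :=
    Real.hasDerivAt_rpow_const (Or.inl hu.ne')
  have h2 : HasDerivAt (fun x : ℝ => x ^ θ) (θ * u ^ (θ - 1)) u :=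
    Real.hasDerivAt_rpow_const (Or.inl hu.ne')
  have h3 := ((hasDerivAt_const u (θ + (1 + θ) * k)).sub (h1.const_mul θ)).sub
    ((h2.const_mul (1 + θ)).const_mul k)
  rw [zero_sub] at h3
  exact h3

theorem rp {θ u : ℝ} (hu : 0 < u) : u ^ θ = u ^ (θ - 1) * u := by
  rw [← Real.rpow_add_one hu.ne']
  congr 1
  ring

theorem G1 (θ k : ℝ) : G θ k 1 = 0 := by
  unfold G
  rw [Real.one_rpow, Real.one_rpow]
  ring

theorem d_le {θ k u : ℝ} (h0 : 0 < θ) (h1 : θ < 1) (_ : 0 ≤ k) (hk1 : k * (1 + θ) ≤ 1 - θ)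
    (hu : 0 < u) (hu1 : u ≤ 1) :
    (θ + (1 + θ) * k) - θ * u ^ (θ - 1) - k * ((1 + θ) * u ^ θ) ≤ 0 := by
  have hP : 0 ≤ u ^ (θ - 1) := Real.rpow_nonneg hu.le _
  have hQ : 0 ≤ u ^ θ := Real.rpow_nonneg hu.le _
  have hQ1 : u ^ θ ≤ 1 := Real.rpow_le_one hu.le hu1 h0.le
  have h2 := Real.geom_mean_le_arith_mean2_weighted h0.le (by linarith : 0 ≤ 1 - θ) hP hQ
    (by ring)
  have h3 : (u ^ (θ - 1)) ^ θ * (u ^ θ) ^ (1 - θ) = 1 := by
    rw [← Real.rpow_mul hu.le, ← Real.rpow_mul hu.le, ← Real.rpow_add hu]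
    have h4 : (θ - 1) * θ + θ * (1 - θ) = 0 := by ring
    rw [h4, Real.rpow_zero]
  rw [h3] at h2
  have h5 : k * (1 + θ) * (1 - u ^ θ) ≤ (1 - θ) * (1 - u ^ θ) :=
    mul_le_mul_of_nonneg_right hk1 (by linarith)
  nlinarith

theorem d_ge {θ k u : ℝ} (h0 : 0 < θ) (h1 : θ < 1) (_ : 0 ≤ k) (hu : 1 ≤ u)
    (hku : k * (1 + θ) * u ≤ 1 - θ) :
    0 ≤ (θ + (1 + θ) * k) - θ * u ^ (θ - 1) - k * ((1 + θ) * u ^ θ) := by
  have hu0 : 0 < u := lt_of_lt_of_le one_pos hu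
  have hP : 0 ≤ u ^ (θ - 1) := Real.rpow_nonneg hu0.le _
  have h2 := Real.geom_mean_le_arith_mean2_weighted h0.le (by linarith : 0 ≤ 1 - θ)
    zero_le_one (inv_nonneg.2 hu0.le) (by ring)
  have h3 : (1 : ℝ) ^ θ * (u⁻¹) ^ (1 - θ) = u ^ (θ - 1) := by
    rw [Real.one_rpow, one_mul, Real.inv_rpow hu0.le, ← Real.rpow_neg hu0.le]
    congr 1
    ring
  rw [h3] at h2
  have h4 : u ^ θ = u ^ (θ - 1) * u := rp hu0
  have h5 : 1 ≤ u ^ θ := Real.one_le_rpow hu h0.le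
  -- `k (1 + θ) (Q - 1) ≤ (1 - θ) (P - 1 / u)`
  have h6 : k * (1 + θ) * (u ^ θ - 1) ≤ (1 - θ) * (u ^ (θ - 1) - u⁻¹) := by
    have h7 : k * (1 + θ) * (u ^ θ - 1) = k * (1 + θ) * u * (u ^ (θ - 1) - u⁻¹) := by
      rw [h4]
      field_simp
    have h8 : 0 ≤ u ^ (θ - 1) - u⁻¹ := by
      have h9 : 0 ≤ (u ^ θ - 1) * u⁻¹ := mul_nonneg (by linarith) (inv_nonneg.2 hu0.le)
      have h10 : (u ^ θ - 1) * u⁻¹ = u ^ (θ - 1) - u⁻¹ := by
        rw [h4]
        field_simp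
      rwa [h10] at h9
    rw [h7]
    exact mul_le_mul_of_nonneg_right hku h8
  nlinarith

theorem part1 {θ k u : ℝ} (h0 : 0 < θ) (h1 : θ < 1) (hk : 0 ≤ k) (hk1 : k * (1 + θ) ≤ 1 - θ)
    (hu : 0 < u) (hku : k * (1 + θ) * u ≤ 1 - θ) : 0 ≤ G θ k u := by
  rw [← G1 θ k]
  have hcont : ∀ x : ℝ, 0 < x → ContinuousAt (G θ k) x := fun x hx => (hd θ k hx).continuousAt
  rcases le_total u 1 with hu1 | hu1
  · have h2 : AntitoneOn (G θ k) (Icc u 1) := by
      refine antitoneOn_of_deriv_nonpos (convex_Icc u 1)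
        (fun x hx => (hcont x (lt_of_lt_of_le hu hx.1)).continuousWithinAt) ?_ ?_
      · intro x hx
        rw [interior_Icc] at hx
        exact (hd θ k (hu.trans hx.1)).differentiableAt.differentiableWithinAt
      · intro x hx
        rw [interior_Icc] at hx
        rw [(hd θ k (hu.trans hx.1)).deriv]
        exact d_le h0 h1 hk hk1 (hu.trans hx.1) hx.2.le
    exact h2 (left_mem_Icc.2 hu1) (right_mem_Icc.2 hu1) hu1
  · have h2 : MonotoneOn (G θ k) (Icc 1 u) := by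
      refine monotoneOn_of_deriv_nonneg (convex_Icc 1 u)
        (fun x hx => (hcont x (lt_of_lt_of_le one_pos hx.1)).continuousWithinAt) ?_ ?_
      · intro x hx
        rw [interior_Icc] at hx
        exact (hd θ k (one_pos.trans hx.1)).differentiableAt.differentiableWithinAt
      · intro x hx
        rw [interior_Icc] at hx
        rw [(hd θ k (one_pos.trans hx.1)).deriv]
        refine d_ge h0 h1 hk hx.1.le (le_trans ?_ hku)
        exact mul_le_mul_of_nonneg_left hx.2.le (mul_nonneg hk (by linarith))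
    exact h2 (left_mem_Icc.2 hu1) (right_mem_Icc.2 hu1) hu1

theorem core {θ k U : ℝ} (h0 : 0 < θ) (h1 : θ < 1) (hk : 0 ≤ k) (hk1 : k * (1 + θ) ≤ 1 - θ)
    (hU : 0 ≤ G θ k U) {u : ℝ} (hu : 0 < u) (huU : u ≤ U) : 0 ≤ G θ k u := by
  rcases le_total (k * (1 + θ) * u) (1 - θ) with h2 | h2
  · exact part1 h0 h1 hk hk1 hu h2
  have hk0 : 0 < k := by
    rcases hk.lt_or_eq with h | h
    · exact h
    · rw [← h] at h2
      linarith
  have hkθ : 0 < k * (1 + θ) := mul_pos hk0 (by linarith)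
  set c := (1 - θ) / (k * (1 + θ)) with hc
  have hc1 : k * (1 + θ) * c = 1 - θ := by
    rw [hc]
    field_simp
  have hcpos : 0 < c := div_pos (by linarith) hkθ
  have hcu : c ≤ u := by
    rw [hc, div_le_iff₀ hkθ]
    linarith
  have hGc : 0 ≤ G θ k c := part1 h0 h1 hk hk1 hcpos hc1.le
  have hconc : ConcaveOn ℝ (Icc c U) (G θ k) := by
    refine concaveOn_of_hasDerivWithinAt2_nonpos (convex_Icc c U)
      (f' := fun u : ℝ => (θ + (1 + θ) * k) - θ * u ^ (θ - 1) - k * ((1 + θ) * u ^ θ))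
      (f'' := fun u : ℝ =>
        -(θ * ((θ - 1) * u ^ (θ - 1 - 1))) - k * ((1 + θ) * (θ * u ^ (θ - 1)))) ?_ ?_ ?_ ?_
    · intro x hx
      exact (hd θ k (lt_of_lt_of_le hcpos hx.1)).continuousAt.continuousWithinAt
    · intro x hx
      rw [interior_Icc] at hx
      exact (hd θ k (hcpos.trans hx.1)).hasDerivWithinAt
    · intro x hx
      rw [interior_Icc] at hx
      exact (hd2 θ k (hcpos.trans hx.1)).hasDerivWithinAt
    · intro x hx
      rw [interior_Icc] at hx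
      have hx0 : 0 < x := hcpos.trans hx.1
      have h3 : x ^ (θ - 1) = x ^ (θ - 1 - 1) * x := rp hx0
      have h4 : 0 ≤ x ^ (θ - 1 - 1) := Real.rpow_nonneg hx0.le _
      have h5 : 1 - θ ≤ k * (1 + θ) * x := by
        rw [← hc1]
        exact mul_le_mul_of_nonneg_left hx.1.le hkθ.le
      show -(θ * ((θ - 1) * x ^ (θ - 1 - 1))) - k * ((1 + θ) * (θ * x ^ (θ - 1))) ≤ 0
      rw [h3]
      have h6 : -(θ * ((θ - 1) * x ^ (θ - 1 - 1))) -
          k * ((1 + θ) * (θ * (x ^ (θ - 1 - 1) * x))) =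
          -(θ * x ^ (θ - 1 - 1) * (k * (1 + θ) * x - (1 - θ))) := by ring
      rw [h6, neg_nonpos]
      exact mul_nonneg (mul_nonneg h0.le h4) (by linarith)
  have hz : u ∈ segment ℝ c U := by
    rw [segment_eq_Icc (hcu.trans huU)]
    exact ⟨hcu, huU⟩
  have h7 := hconc.ge_on_segment (left_mem_Icc.2 (hcu.trans huU))
    (right_mem_Icc.2 (hcu.trans huU)) hz
  exact le_trans (le_min hGc hU) h7

end PW_

theorem p_PW : T_PW := by
  intro θ s₁ κ t α β hθ0 hθ1 hs0 hs1 hκ hks ht hα hβ hab s hs hs'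
  rcases hθ0.lt_or_eq with h0 | h0
  swap
  · rw [← h0] at ht hα hβ ⊢
    rw [Real.rpow_zero] at ht ⊢
    rw [ht] at hα hβ
    rw [hα, hβ]
    have h1 : (0 : ℝ) / s₁ = 0 := zero_div _
    rw [h1]
    linarith
  rcases hθ1.lt_or_eq with h1 | h1
  swap
  · rw [h1] at ht hα hβ hks ⊢
    rw [Real.rpow_one] at ht ⊢
    have h2 : κ = 0 := by
      have h3 : κ * s₁ ≤ 0 := by linarith
      have h4 : 0 ≤ κ * s₁ := mul_nonneg hκ hs0.le
      have h5 : κ * s₁ = 0 := le_antisymm h3 h4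
      rcases mul_eq_zero.1 h5 with h | h
      · exact h
      · exact absurd h hs0.ne'
    rw [h2] at hα hβ ⊢
    rw [ht] at hα hβ
    have h6 : β = 1 := by
      rw [hβ]
      field_simp
      ring
    rw [hα, h6]
    linarith
  have hts : ∀ u : ℝ, 0 ≤ u → (s₁ * u) ^ θ * (1 + κ * (s₁ * u)) =
      t * (u ^ θ * (1 + κ * s₁ * u)) := by
    intro u hu
    rw [Real.mul_rpow hs0.le hu, ht]
    ring
  have ht0 : 0 < t := by
    rw [ht]
    exact Real.rpow_pos_of_pos hs0 _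
  have hl : ∀ u : ℝ, α + β * (s₁ * u) =
      t * ((1 - θ) - θ * (κ * s₁) + (θ + (1 + θ) * (κ * s₁)) * u) := by
    intro u
    rw [hα, hβ]
    field_simp
  have hG : ∀ u : ℝ, 0 < u → α + β * (s₁ * u) - (s₁ * u) ^ θ * (1 + κ * (s₁ * u)) =
      t * PW_.G θ (κ * s₁) u := by
    intro u hu
    rw [hl, hts u hu.le]
    unfold PW_.G
    have h2 : u ^ (1 + θ) = u ^ θ * u := by
      rw [add_comm, Real.rpow_add_one hu.ne']
    rw [h2]
    ring
  have hk : 0 ≤ κ * s₁ := mul_nonneg hκ hs0.le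
  have hk1 : κ * s₁ * (1 + θ) ≤ 1 - θ := by linarith
  rcases hs.lt_or_eq with h2 | h2
  swap
  · rw [← h2, Real.zero_rpow h0.ne', zero_mul, mul_zero, add_zero, hα]
    refine mul_nonneg ht0.le ?_
    nlinarith [mul_nonneg hk h0.le]
  have hU : 0 ≤ PW_.G θ (κ * s₁) (1 / s₁) := by
    have h3 := hG (1 / s₁) (by positivity)
    have h4 : s₁ * (1 / s₁) = 1 := by field_simp
    rw [h4, Real.one_rpow, mul_one, mul_one, one_mul] at h3
    have h5 : 0 ≤ t * PW_.G θ (κ * s₁) (1 / s₁) := by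
      rw [← h3]
      linarith
    exact nonneg_of_mul_nonneg_right h5 ht0
  have hus : s₁ * (s / s₁) = s := by field_simp
  have h3 := PW_.core h0 h1 hk hk1 hU (u := s / s₁) (by positivity)
    (div_le_div_of_nonneg_right hs' hs0.le)
  have h4 := hG (s / s₁) (by positivity)
  rw [hus] at h4
  have h5 : 0 ≤ α + β * s - s ^ θ * (1 + κ * s) := by
    rw [h4]
    exact mul_nonneg ht0.le h3
  linarith

end Pool.Agent.TRC
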