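import Pool.Agent.TRC.Targets
import Pool.Agent.TRC.Lem

/-!
# Project TRC (MP_9044d4_an): target RDF, radial extensions
-/

set_option autoImplicit false

noncomputable section

open MeasureTheory Set Filter
open scoped ENNReal RealInnerProductSpace Topology

namespace Pool.Agent.TRC

open Pool.Agent.ExpMax

namespace RDF_

section

variable {F : Type} [NormedAddCommGroup F] [InnerProductSpace ℝ F] [FiniteDimensional ℝ F]

/-- A vector of given norm which is orthogonal to a given vector. -/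
theorem exists_orth (hn : 2 ≤ Module.finrank ℝ F) (x : F) {r : ℝ} (hr : 0 ≤ r) :
    ∃ w : F, ‖w‖ = r ∧ ⟪x, w⟫ = (0 : ℝ) := by
  have h1 := Submodule.finrank_add_finrank_orthogonal (𝕜 := ℝ) (Submodule.span ℝ {x})
  have h2 : Module.finrank ℝ (Submodule.span ℝ {x}) ≤ 1 := by
    have h3 := finrank_span_le_card (R := ℝ) ({x} : Set F)
    simpa using h3
  have h3 : 1 ≤ Module.finrank ℝ (Submodule.span ℝ {x})ᗮ := by omega
  rw [Submodule.one_le_finrank_iff, Submodule.ne_bot_iff] at h3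
  obtain ⟨w, hw, hw0⟩ := h3
  have h4 : ⟪x, w⟫ = (0 : ℝ) :=
    (Submodule.mem_orthogonal _ _).mp hw x (Submodule.mem_span_singleton_self x)
  refine ⟨(r / ‖w‖) • w, ?_, ?_⟩
  · rw [norm_smul, norm_div, norm_norm, Real.norm_of_nonneg hr,
      div_mul_cancel₀ _ (norm_ne_zero_iff.mpr hw0)]
  · rw [inner_smul_right, h4, mul_zero]

/-- Two points of the same norm are joined by an arc of a great circle. -/
theorem exists_arc (hn : 2 ≤ Module.finrank ℝ F) {x z : F} (hxz : ‖x‖ = ‖z‖) :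
    ∃ (w : F) (θ : ℝ), ‖w‖ = ‖x‖ ∧ ⟪x, w⟫ = (0 : ℝ) ∧ z = Real.cos θ • x + Real.sin θ • w := by
  by_cases hx : x = 0
  · refine ⟨0, 0, by rw [hx], by rw [hx]; simp, ?_⟩
    have hz : z = 0 := by
      rw [hx, norm_zero] at hxz
      exact norm_eq_zero.mp hxz.symm
    rw [hz, hx]
    simp
  · have hr : 0 < ‖x‖ := norm_pos_iff.mpr hx
    obtain ⟨a, ha⟩ : ∃ a : ℝ, a = ⟪x, z⟫ / ‖x‖ ^ 2 := ⟨_, rfl⟩
    obtain ⟨q, hq⟩ : ∃ q : F, q = z - a • x := ⟨_, rfl⟩
    have hxx : ⟪x, x⟫ = ‖x‖ ^ 2 := real_inner_self_eq_norm_sq x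
    have hxq : ⟪x, q⟫ = (0 : ℝ) := by
      rw [hq, inner_sub_right, inner_smul_right, hxx, ha]
      field_simp
      ring
    have hz : z = a • x + q := by
      rw [hq]
      abel
    have hnorm : ‖z‖ ^ 2 = a ^ 2 * ‖x‖ ^ 2 + ‖q‖ ^ 2 := by
      rw [hz, norm_add_sq_real, inner_smul_left, hxq, norm_smul, Real.norm_eq_abs, mul_pow, sq_abs]
      simp
    obtain ⟨w, b, hw, hxw, hqw⟩ : ∃ (w : F) (b : ℝ), ‖w‖ = ‖x‖ ∧ ⟪x, w⟫ = (0 : ℝ) ∧ q = b • w := by
      by_cases hq0 : q = 0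
      · obtain ⟨w, hw, hxw⟩ := exists_orth hn x hr.le
        exact ⟨w, 0, hw, hxw, by rw [hq0, zero_smul]⟩
      · have hqp : 0 < ‖q‖ := norm_pos_iff.mpr hq0
        refine ⟨(‖x‖ / ‖q‖) • q, ‖q‖ / ‖x‖, ?_, ?_, ?_⟩
        · rw [norm_smul, norm_div, norm_norm, norm_norm, div_mul_cancel₀ _ hqp.ne']
        · rw [inner_smul_right, hxq, mul_zero]
        · rw [smul_smul]
          have h1 : ‖q‖ / ‖x‖ * (‖x‖ / ‖q‖) = 1 := by
            field_simp
          rw [h1, one_smul]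
    have hab : a ^ 2 + b ^ 2 = 1 := by
      have h1 : ‖q‖ ^ 2 = b ^ 2 * ‖x‖ ^ 2 := by
        rw [hqw, norm_smul, hw, Real.norm_eq_abs, mul_pow, sq_abs]
      rw [h1, ← hxz] at hnorm
      have h2 : ‖x‖ ^ 2 * (a ^ 2 + b ^ 2 - 1) = 0 := by linarith
      have h3 : ‖x‖ ^ 2 ≠ 0 := by positivity
      rcases mul_eq_zero.mp h2 with h4 | h4
      · exact absurd h4 h3
      · linarith
    have hn1 : ‖(⟨a, b⟩ : ℂ)‖ = 1 := by
      have h1 : ‖(⟨a, b⟩ : ℂ)‖ ^ 2 = 1 := by
        rw [← Complex.normSq_eq_norm_sq, Complex.normSq_mk]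
        linarith
      nlinarith [norm_nonneg (⟨a, b⟩ : ℂ)]
    have hc := Complex.norm_mul_cos_arg (⟨a, b⟩ : ℂ)
    have hs := Complex.norm_mul_sin_arg (⟨a, b⟩ : ℂ)
    rw [hn1, one_mul] at hc hs
    refine ⟨w, Complex.arg ⟨a, b⟩, hw, hxw, ?_⟩
    rw [hc, hs]
    simp only
    rw [← hqw]
    exact hz

/-- A differentiable function which is infinitesimally radial is constant on spheres. -/
theorem const_sphere (hn : 2 ≤ Module.finrank ℝ F) {u : F → ℂ} (hu : Differentiable ℝ u)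
    (hr : Rad u) {x z : F} (hxz : ‖x‖ = ‖z‖) : u x = u z := by
  obtain ⟨w, θ, hw, hxw, hz⟩ := exists_arc hn hxz
  have hγ : ∀ t : ℝ, HasDerivAt (fun t : ℝ => Real.cos t • x + Real.sin t • w)
      ((-Real.sin t) • x + Real.cos t • w) t := by
    intro t
    exact ((Real.hasDerivAt_cos t).smul_const x).add ((Real.hasDerivAt_sin t).smul_const w)
  have hd : ∀ t : ℝ, HasDerivAt (fun t : ℝ => u (Real.cos t • x + Real.sin t • w)) 0 t := by
    intro t
    have h1 := (hu (Real.cos t • x + Real.sin t • w)).hasFDerivAt.comp_hasDerivAt t (hγ t)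
    have h2 : ⟪Real.cos t • x + Real.sin t • w, (-Real.sin t) • x + Real.cos t • w⟫ =
        (0 : ℝ) := by
      rw [inner_add_left, inner_add_right, inner_add_right, inner_smul_left, inner_smul_left,
        inner_smul_left, inner_smul_left, inner_smul_right, inner_smul_right, inner_smul_right,
        inner_smul_right, real_inner_comm x w, hxw, real_inner_self_eq_norm_sq,
        real_inner_self_eq_norm_sq, hw]
      simp
      ring
    have h3 := hr _ _ h2
    rw [h3] at h1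
    exact h1
  have hc := is_const_of_deriv_eq_zero
    (f := fun t : ℝ => u (Real.cos t • x + Real.sin t • w))
    (fun t => (hd t).differentiableAt) (fun t => (hd t).deriv) 0 θ
  simp only [Real.cos_zero, Real.sin_zero, one_smul, zero_smul, add_zero] at hc
  rw [hc, ← hz]

end

end RDF_

theorem p_RDF (h_DIF : T_DIF) : T_RDF := by
  intro F _ _ _ _ _ hF f hf y
  have hn : 1 ≤ Module.finrank ℝ F := by omega
  have hprob := prb_prob hn
  have hdiff : Differentiable ℝ (E f) := (h_DIF F hn f).differentiable (by norm_num)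
  obtain ⟨hB1, -, hB3, -⟩ := tBASIC tINV F hn
  have hfi : Integrable (fun ω => f ω) (prb F) := integrable_coe hn f
  have hE0 : E f 0 = ∫ ω, f ω ∂(prb F) := by
    unfold E ExpMax.Ext
    simp
  have hcon : ∀ ω' : Metric.sphere (0 : F) 1, E f (‖y‖ • (ω' : F)) = E f y := by
    intro ω'
    apply RDF_.const_sphere hF hdiff hf
    rw [norm_smul, norm_norm, norm_eq_of_mem_sphere, mul_one]
  have h1 : E f y = ∫ ω', E f (‖y‖ • (ω' : F)) ∂(prb F) := by
    simp_rw [hcon]
    simp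
  have h2 : ∫ ω', E f (‖y‖ • (ω' : F)) ∂(prb F) =
      ∫ ω, ∫ ω', f ω * Complex.exp (-(Complex.I *
        ((⟪(ω : F), ‖y‖ • (ω' : F)⟫ : ℝ) : ℂ))) ∂(prb F) ∂(prb F) := by
    unfold E ExpMax.Ext
    refine integral_integral_swap ?_
    have hi : Integrable (fun q : Metric.sphere (0 : F) 1 × Metric.sphere (0 : F) 1 => f q.2)
        ((prb F).prod (prb F)) := hfi.comp_snd _
    have hc : Continuous (fun q : Metric.sphere (0 : F) 1 × Metric.sphere (0 : F) 1 =>
        Complex.exp (-(Complex.I * ((⟪(q.2 : F), ‖y‖ • (q.1 : F)⟫ : ℝ) : ℂ)))) := by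
      fun_prop
    have h3 := hi.bdd_mul (c := 1) hc.aestronglyMeasurable
      (Filter.Eventually.of_forall fun q => by
        have e : -(Complex.I * ((⟪(q.2 : F), ‖y‖ • (q.1 : F)⟫ : ℝ) : ℂ)) =
            ((-⟪(q.2 : F), ‖y‖ • (q.1 : F)⟫ : ℝ) : ℂ) * Complex.I := by
          push_cast
          ring
        rw [e, Complex.norm_exp_ofReal_mul_I])
    refine h3.congr (Filter.Eventually.of_forall fun q => ?_)
    simp only [Function.uncurry]
    ring
  have h3 : ∀ ω : Metric.sphere (0 : F) 1, ∫ ω', f ω * Complex.exp (-(Complex.I *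
      ((⟪(ω : F), ‖y‖ • (ω' : F)⟫ : ℝ) : ℂ))) ∂(prb F) = f ω * ((u0 y : ℝ) : ℂ) := by
    intro ω
    rw [integral_const_mul]
    congr 1
    have h4 := hB1 (‖y‖ • (ω : F))
    have h5 : u0 (‖y‖ • (ω : F)) = u0 y := by
      apply hB3
      rw [norm_smul, norm_norm, norm_eq_of_mem_sphere, mul_one]
    rw [h5] at h4
    rw [← h4]
    unfold ExpMax.Ext
    refine integral_congr_ae (Filter.Eventually.of_forall fun ω' => ?_)
    simp only [one_mul]
    congr 4
    rw [inner_smul_right, inner_smul_right, real_inner_comm]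
  rw [h1, h2]
  simp_rw [h3]
  rw [integral_mul_const, hE0, mul_comm]

end Pool.Agent.TRC
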