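import Pool.Agent.TRC.Targets2
import Pool.Agent.TRC.Lem

/-!
# Project TRC: target RDI, polar coordinates
-/

set_option autoImplicit false

noncomputable section

open MeasureTheory Set Filter
open scoped ENNReal RealInnerProductSpace Topology

namespace Pool.Agent.TRC

open Pool.Agent.ExpMax

theorem p_RDI : T_RDI := by
  intro F _ _ _ _ _ hF
  haveI : Nontrivial F := Module.nontrivial_of_finrank_pos (R := ℝ) (by omega)
  have hb : 0 < (volume : Measure F).real (Metric.ball 0 1) :=
    ENNReal.toReal_pos (Metric.measure_ball_pos _ _ one_pos).ne' measure_ball_lt_top.ne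
  have hn : (0 : ℝ) < (Module.finrank ℝ F : ℝ) := by
    have h : 0 < Module.finrank ℝ F := by omega
    exact_mod_cast h
  refine ⟨Module.finrank ℝ F * (volume : Measure F).real (Metric.ball 0 1),
    mul_pos hn hb, fun e he q _ => ?_⟩
  have hu : ∀ y : F, u0 y = u0 (‖y‖ • e) := by
    intro y
    refine (tBASIC tINV F (by omega)).2.2.1 y (‖y‖ • e) ?_
    rw [norm_smul, he, mul_one, norm_norm]
  have h1 : A F q = ∫ y : F, (fun r : ℝ => |u0 (r • e)| ^ q) ‖y‖ := by
    unfold A
    refine integral_congr_ae (Filter.Eventually.of_forall fun y => ?_)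
    simp only
    rw [← hu y]
  rw [h1, integral_fun_norm_addHaar (volume : Measure F) (fun r : ℝ => |u0 (r • e)| ^ q)]
  unfold a
  rw [nsmul_eq_mul, smul_eq_mul, mul_assoc]
  refine congrArg (fun x : ℝ => (Module.finrank ℝ F : ℝ) *
    ((volume : Measure F).real (Metric.ball 0 1) * x)) ?_
  refine integral_congr_ae (Filter.Eventually.of_forall fun y => ?_)
  simp only [smul_eq_mul]
  ring

end Pool.Agent.TRC
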