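import Pool.Agent.TRC.Targets
import Pool.Agent.TRC.Lem

/-!
# Project TRC: remainder of the linearisation
-/

set_option autoImplicit false

noncomputable section

open MeasureTheory Set Filter
open scoped ENNReal RealInnerProductSpace Topology

namespace Pool.Agent.TRC

open Pool.Agent.ExpMax

namespace REM_

theorem rpow4 (x : ℝ) : x ^ (4 : ℝ) = x ^ 4 := by
  exact_mod_cast Real.rpow_natCast x 4

theorem der1 {r : ℝ} (hr : 1 < r) (x : ℝ) :
    HasDerivAt (fun x : ℝ => |x| ^ r * x) ((r + 1) * |x| ^ r) x := by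
  have h1 := hasDerivAt_abs_rpow x hr
  have h2 := h1.mul (hasDerivAt_id x)
  have h3 : |x| ^ (r - 2) * (x * x) = |x| ^ r := by
    rcases eq_or_ne x 0 with h0 | h0
    · rw [h0, abs_zero, Real.zero_rpow (by linarith : r ≠ 0)]
      ring
    · have h4 : x * x = |x| ^ (2 : ℝ) := by
        rw [Real.rpow_two, sq_abs, sq]
      rw [h4, ← Real.rpow_add (abs_pos.2 h0)]
      congr 1
      ring
  refine h2.congr_deriv ?_
  simp only [id]
  linear_combination r * h3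

theorem der2 {r : ℝ} (hr : 1 < r) (x : ℝ) :
    HasDerivAt (fun x : ℝ => (r + 1) * |x| ^ r) ((r + 1) * (r * |x| ^ (r - 2) * x)) x :=
  (hasDerivAt_abs_rpow x hr).const_mul _

theorem key {r : ℝ} (hr : 2 ≤ r) {a b : ℝ} (ha : |a| ≤ 1) (hb : |b| ≤ 1) :
    |(|a| ^ r * a - |b| ^ r * b - (r + 1) * |b| ^ r * (a - b))| ≤
      (r + 1) * (r * (|a| + |b|)) * (a - b) ^ 2 := by
  have hS : ∀ x ∈ uIcc b a, |x| ≤ 1 ∧ |x| ≤ |a| + |b| ∧ |x - b| ≤ |a - b| := by
    intro x hx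
    rw [mem_uIcc] at hx
    refine ⟨?_, ?_, ?_⟩
    · rcases hx with h | h
      · exact (abs_le_max_abs_abs h.1 h.2).trans (max_le hb ha)
      · exact (abs_le_max_abs_abs h.1 h.2).trans (max_le ha hb)
    · rcases hx with h | h
      · refine (abs_le_max_abs_abs h.1 h.2).trans (max_le ?_ ?_)
        · linarith [abs_nonneg a]
        · linarith [abs_nonneg b]
      · refine (abs_le_max_abs_abs h.1 h.2).trans (max_le ?_ ?_)
        · linarith [abs_nonneg b]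
        · linarith [abs_nonneg a]
    · rcases hx with h | h
      · rw [abs_of_nonneg (by linarith), abs_of_nonneg (by linarith)]
        linarith
      · rw [abs_of_nonpos (by linarith), abs_of_nonpos (by linarith)]
        linarith
  have hC : 0 ≤ (r + 1) * (r * (|a| + |b|)) := by positivity
  have h1 : ∀ x ∈ uIcc b a, ‖(r + 1) * |x| ^ r - (r + 1) * |b| ^ r‖ ≤
      (r + 1) * (r * (|a| + |b|)) * ‖x - b‖ := by
    intro x hx
    refine Convex.norm_image_sub_le_of_norm_hasDerivWithin_le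
      (f := fun x : ℝ => (r + 1) * |x| ^ r) (s := uIcc b a)
      (f' := fun x => (r + 1) * (r * |x| ^ (r - 2) * x))
      (fun y _ => (der2 (by linarith) y).hasDerivWithinAt) ?_ (convex_uIcc b a) left_mem_uIcc hx
    intro y hy
    obtain ⟨h2, h3, -⟩ := hS y hy
    have h4 : |y| ^ (r - 2) ≤ 1 := Real.rpow_le_one (abs_nonneg _) h2 (by linarith)
    have h5 : 0 ≤ |y| ^ (r - 2) := Real.rpow_nonneg (abs_nonneg _) _
    rw [norm_mul, norm_mul, norm_mul, Real.norm_eq_abs, Real.norm_eq_abs, Real.norm_eq_abs,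
      Real.norm_eq_abs, abs_of_nonneg h5, abs_of_nonneg (by linarith : (0 : ℝ) ≤ r + 1),
      abs_of_nonneg (by linarith : (0 : ℝ) ≤ r)]
    refine mul_le_mul_of_nonneg_left ?_ (by linarith)
    rw [mul_assoc]
    refine mul_le_mul_of_nonneg_left ?_ (by linarith)
    calc |y| ^ (r - 2) * |y| ≤ 1 * (|a| + |b|) :=
          mul_le_mul h4 h3 (abs_nonneg _) zero_le_one
      _ = |a| + |b| := one_mul _
  have h6 := Convex.norm_image_sub_le_of_norm_hasDerivWithin_le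
    (f := fun x : ℝ => |x| ^ r * x - (r + 1) * |b| ^ r * x) (s := uIcc b a)
    (f' := fun x => (r + 1) * |x| ^ r - (r + 1) * |b| ^ r * 1)
    (C := (r + 1) * (r * (|a| + |b|)) * |a - b|)
    (fun y _ => ((der1 (by linarith) y).sub
      ((hasDerivAt_id y).const_mul ((r + 1) * |b| ^ r))).hasDerivWithinAt)
    (fun y hy => by
      have h7 := h1 y hy
      rw [mul_one]
      refine h7.trans (mul_le_mul_of_nonneg_left ?_ hC)
      rw [Real.norm_eq_abs]
      exact (hS y hy).2.2) (convex_uIcc b a) left_mem_uIcc right_mem_uIcc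
  have h8 : |a| ^ r * a - |b| ^ r * b - (r + 1) * |b| ^ r * (a - b) =
      |a| ^ r * a - (r + 1) * |b| ^ r * a - (|b| ^ r * b - (r + 1) * |b| ^ r * b) := by
    ring
  rw [h8]
  rw [Real.norm_eq_abs, Real.norm_eq_abs] at h6
  refine h6.trans (le_of_eq ?_)
  rw [mul_assoc, ← sq, sq_abs]

theorem amgm (x y z : ℝ) : x * y ^ 2 * z ≤ (x ^ 4 + 2 * y ^ 4 + z ^ 4) / 4 := by
  nlinarith [sq_nonneg (y ^ 2 - x * z), sq_nonneg (x ^ 2 - z ^ 2)]

variable {F : Type} [NormedAddCommGroup F] [InnerProductSpace ℝ F] [FiniteDimensional ℝ F]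
    [MeasurableSpace F] [BorelSpace F]

theorem hol (hIQ : T_IQ) (hn : 3 ≤ Module.finrank ℝ F) (u v w : H F) :
    Integrable (fun y => ‖E u y‖ * ‖E v y‖ ^ 2 * ‖E w y‖) ∧
      ∫ y, ‖E u y‖ * ‖E v y‖ ^ 2 * ‖E w y‖ ≤ A F 4 * (‖u‖ * ‖v‖ ^ 2 * ‖w‖) := by
  have hn1 : 1 ≤ Module.finrank ℝ F := by omega
  obtain ⟨h1, -, hA, -⟩ := hIQ F hn 4 le_rfl
  have hI : ∀ f : H F, Integrable (fun y => ‖E f y‖ ^ 4) := by
    intro f
    have h := (h1 f).1
    simpa only [rpow4] using h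
  have hJ : ∀ f : H F, ∫ y, ‖E f y‖ ^ 4 ≤ A F 4 * ‖f‖ ^ 4 := by
    intro f
    have h := (h1 f).2
    unfold J at h
    simpa only [rpow4] using h
  by_cases hz : u = 0 ∨ v = 0 ∨ w = 0
  · have h2 : (fun y => ‖E u y‖ * ‖E v y‖ ^ 2 * ‖E w y‖) = fun _ => (0 : ℝ) := by
      funext y
      rcases hz with h | h | h
      · rw [h, E_zero hn1]
        simp
      · rw [h, E_zero hn1]
        simp
      · rw [h, E_zero hn1]
        simp
    rw [h2]
    refine ⟨integrable_zero _ _ _, ?_⟩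
    rw [integral_zero]
    positivity
  · push Not at hz
    obtain ⟨hu, hv, hw⟩ := hz
    have ha : 0 < ‖u‖ := norm_pos_iff.2 hu
    have hb : 0 < ‖v‖ := norm_pos_iff.2 hv
    have hc : 0 < ‖w‖ := norm_pos_iff.2 hw
    set α := ‖u‖
    set β := ‖v‖
    set γ := ‖w‖
    set K := α * β ^ 2 * γ with hK
    have hK0 : 0 < K := by positivity
    have hbd : ∀ y, ‖E u y‖ * ‖E v y‖ ^ 2 * ‖E w y‖ ≤
        K / 4 / α ^ 4 * ‖E u y‖ ^ 4 + K / 2 / β ^ 4 * ‖E v y‖ ^ 4 +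
          K / 4 / γ ^ 4 * ‖E w y‖ ^ 4 := by
      intro y
      have h3 := amgm (‖E u y‖ / α) (‖E v y‖ / β) (‖E w y‖ / γ)
      have h4 := mul_le_mul_of_nonneg_left h3 hK0.le
      have h5 : K * (‖E u y‖ / α * (‖E v y‖ / β) ^ 2 * (‖E w y‖ / γ)) =
          ‖E u y‖ * ‖E v y‖ ^ 2 * ‖E w y‖ := by
        rw [hK]
        field_simp
      rw [h5] at h4
      refine h4.trans (le_of_eq ?_)
      field_simp
      ring
    have hg : Integrable (fun y => K / 4 / α ^ 4 * ‖E u y‖ ^ 4 + K / 2 / β ^ 4 * ‖E v y‖ ^ 4 +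
        K / 4 / γ ^ 4 * ‖E w y‖ ^ 4) :=
      (((hI u).const_mul _).add ((hI v).const_mul _)).add ((hI w).const_mul _)
    have hm : Continuous (fun y => ‖E u y‖ * ‖E v y‖ ^ 2 * ‖E w y‖) :=
      ((continuous_E hn1 u).norm.mul ((continuous_E hn1 v).norm.pow 2)).mul
        (continuous_E hn1 w).norm
    have hint : Integrable (fun y => ‖E u y‖ * ‖E v y‖ ^ 2 * ‖E w y‖) := by
      refine hg.mono' hm.aestronglyMeasurable (Eventually.of_forall fun y => ?_)
      rw [Real.norm_eq_abs, abs_of_nonneg (by positivity)]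
      exact hbd y
    refine ⟨hint, ?_⟩
    refine (integral_mono hint hg hbd).trans ?_
    have h6 : ∫ y, (K / 4 / α ^ 4 * ‖E u y‖ ^ 4 + K / 2 / β ^ 4 * ‖E v y‖ ^ 4 +
        K / 4 / γ ^ 4 * ‖E w y‖ ^ 4) = K / 4 / α ^ 4 * (∫ y, ‖E u y‖ ^ 4) +
          K / 2 / β ^ 4 * (∫ y, ‖E v y‖ ^ 4) + K / 4 / γ ^ 4 * ∫ y, ‖E w y‖ ^ 4 := by
      have e1 := integral_add (((hI u).const_mul (K / 4 / α ^ 4)).add
        ((hI v).const_mul (K / 2 / β ^ 4))) ((hI w).const_mul (K / 4 / γ ^ 4))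
      have e2 := integral_add ((hI u).const_mul (K / 4 / α ^ 4))
        ((hI v).const_mul (K / 2 / β ^ 4))
      simp only [Pi.add_apply] at e1
      rw [e1, e2, integral_const_mul, integral_const_mul, integral_const_mul]
    rw [h6]
    have h7 := mul_le_mul_of_nonneg_left (hJ u) (by positivity : 0 ≤ K / 4 / α ^ 4)
    have h8 := mul_le_mul_of_nonneg_left (hJ v) (by positivity : 0 ≤ K / 2 / β ^ 4)
    have h9 := mul_le_mul_of_nonneg_left (hJ w) (by positivity : 0 ≤ K / 4 / γ ^ 4)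
    have h10 : K / 4 / α ^ 4 * (A F 4 * α ^ 4) + K / 2 / β ^ 4 * (A F 4 * β ^ 4) +
        K / 4 / γ ^ 4 * (A F 4 * γ ^ 4) = A F 4 * K := by
      field_simp
      ring
    linarith

theorem intB (hIQ : T_IQ) (hn : 3 ≤ Module.finrank ℝ F) {r : ℝ} (hr : 2 ≤ r) {f : H F}
    (hf : ‖f‖ = 1) (h k : H F) : Integrable (fun y => ((‖E f y‖ ^ r : ℝ) : ℂ) *
      ((starRingEnd ℂ) (E h y) * E k y)) := by
  have hn1 : 1 ≤ Module.finrank ℝ F := by omega
  have hm : Continuous (fun y => ((‖E f y‖ ^ r : ℝ) : ℂ) *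
      ((starRingEnd ℂ) (E h y) * E k y)) := by
    refine (Complex.continuous_ofReal.comp ((continuous_E hn1 f).norm.rpow_const
      fun y => Or.inr (by linarith))).mul ?_
    exact (Complex.continuous_conj.comp (continuous_E hn1 h)).mul (continuous_E hn1 k)
  refine (hol hIQ hn h f k).1.mono' hm.aestronglyMeasurable (Eventually.of_forall fun y => ?_)
  have h1 : ‖E f y‖ ≤ 1 := by
    rw [← hf]
    exact norm_E_le hn1 f y
  have h2 : ‖E f y‖ ^ r ≤ ‖E f y‖ ^ 2 := by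
    rw [← Real.rpow_two]
    rcases (norm_nonneg (E f y)).eq_or_lt with h0 | h0
    · rw [← h0, Real.zero_rpow (by linarith), Real.zero_rpow (by norm_num)]
    · exact Real.rpow_le_rpow_of_exponent_ge h0 h1 hr
  rw [norm_mul, norm_mul, RCLike.norm_conj, Complex.norm_real, Real.norm_eq_abs,
    abs_of_nonneg (Real.rpow_nonneg (norm_nonneg _) _)]
  calc ‖E f y‖ ^ r * (‖E h y‖ * ‖E k y‖) ≤ ‖E f y‖ ^ 2 * (‖E h y‖ * ‖E k y‖) :=
        mul_le_mul_of_nonneg_right h2 (by positivity)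
    _ = ‖E h y‖ * ‖E f y‖ ^ 2 * ‖E k y‖ := by ring

end REM_

open REM_ in
theorem p_REM (hIQ : T_IQ) : T_REM := by
  intro F _ _ _ _ _ hn p hp
  have hn1 : 1 ≤ Module.finrank ℝ F := by omega
  refine ⟨(p - 2 + 1) * (p - 2) * (2 * A F 4), ?_⟩
  intro f g hf hg hRf hRg hEf hEg hJ h
  have e1 : ((J p f : ℝ) : ℂ) * inner ℂ h (g - f) = B (p - 2) g h g - B (p - 2) f h f := by
    rw [inner_sub_right, mul_sub, ← hEf h, ← hEg h, hJ]
  have e2 : B (p - 2) g h g - B (p - 2) f h f - ((p - 1 : ℝ) : ℂ) * B (p - 2) f h (g - f) =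
      ∫ y, (((‖E g y‖ ^ (p - 2) : ℝ) : ℂ) * ((starRingEnd ℂ) (E h y) * E g y) -
        ((‖E f y‖ ^ (p - 2) : ℝ) : ℂ) * ((starRingEnd ℂ) (E h y) * E f y) -
        ((p - 1 : ℝ) : ℂ) * (((‖E f y‖ ^ (p - 2) : ℝ) : ℂ) *
          ((starRingEnd ℂ) (E h y) * E (g - f) y))) := by
    have i1 := intB hIQ hn (by linarith : 2 ≤ p - 2) hg h g
    have i2 := intB hIQ hn (by linarith : 2 ≤ p - 2) hf h f
    have i3 := (intB hIQ hn (by linarith : 2 ≤ p - 2) hf h (g - f)).const_mul ((p - 1 : ℝ) : ℂ)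
    unfold B
    rw [← integral_const_mul, ← integral_sub i1 i2]
    exact (integral_sub (i1.sub i2) i3).symm
  rw [e1, e2]
  obtain ⟨j1, k1⟩ := hol hIQ hn f (g - f) h
  obtain ⟨j2, k2⟩ := hol hIQ hn g (g - f) h
  have hK : 0 ≤ (p - 2 + 1) * (p - 2) := by nlinarith
  have hb : ∀ y, ‖((‖E g y‖ ^ (p - 2) : ℝ) : ℂ) * ((starRingEnd ℂ) (E h y) * E g y) -
        ((‖E f y‖ ^ (p - 2) : ℝ) : ℂ) * ((starRingEnd ℂ) (E h y) * E f y) -
        ((p - 1 : ℝ) : ℂ) * (((‖E f y‖ ^ (p - 2) : ℝ) : ℂ) *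
          ((starRingEnd ℂ) (E h y) * E (g - f) y))‖ ≤
      (p - 2 + 1) * (p - 2) * (‖E f y‖ * ‖E (g - f) y‖ ^ 2 * ‖E h y‖ +
        ‖E g y‖ * ‖E (g - f) y‖ ^ 2 * ‖E h y‖) := by
    intro y
    have ea : E g y = (((E g y).re : ℝ) : ℂ) := by
      apply Complex.ext
      · simp
      · simpa using hRg y
    have eb : E f y = (((E f y).re : ℝ) : ℂ) := by
      apply Complex.ext
      · simp
      · simpa using hRf y
    have na : ‖E g y‖ = |(E g y).re| := hRg.norm_eq y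
    have nb : ‖E f y‖ = |(E f y).re| := hRf.norm_eq y
    have la : |(E g y).re| ≤ 1 := by
      rw [← na, ← hg]
      exact norm_E_le hn1 g y
    have lb : |(E f y).re| ≤ 1 := by
      rw [← nb, ← hf]
      exact norm_E_le hn1 f y
    have hk := key (r := p - 2) (by linarith) la lb
    have nd : ‖E (g - f) y‖ ^ 2 = ((E g y).re - (E f y).re) ^ 2 := by
      have h0 : E (g - f) y = ((((E g y).re - (E f y).re : ℝ)) : ℂ) := by
        rw [E_sub hn1]
        rw [Complex.ofReal_sub, ← ea, ← eb]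
      rw [h0, Complex.norm_real, Real.norm_eq_abs, sq_abs]
    have h3 : ((‖E g y‖ ^ (p - 2) : ℝ) : ℂ) * ((starRingEnd ℂ) (E h y) * E g y) -
        ((‖E f y‖ ^ (p - 2) : ℝ) : ℂ) * ((starRingEnd ℂ) (E h y) * E f y) -
        ((p - 1 : ℝ) : ℂ) * (((‖E f y‖ ^ (p - 2) : ℝ) : ℂ) *
          ((starRingEnd ℂ) (E h y) * E (g - f) y)) =
        (starRingEnd ℂ) (E h y) * ((|(E g y).re| ^ (p - 2) * (E g y).re -
          |(E f y).re| ^ (p - 2) * (E f y).re -
          (p - 2 + 1) * |(E f y).re| ^ (p - 2) * ((E g y).re - (E f y).re) : ℝ) : ℂ) := by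
      rw [E_sub hn1, na, nb]
      push_cast
      rw [← ea, ← eb]
      ring
    rw [h3, norm_mul, RCLike.norm_conj, Complex.norm_real, Real.norm_eq_abs]
    refine (mul_le_mul_of_nonneg_left hk (norm_nonneg _)).trans (le_of_eq ?_)
    rw [nd, na, nb]
    ring
  refine (norm_integral_le_of_norm_le ((j1.add j2).const_mul ((p - 2 + 1) * (p - 2)))
    (Eventually.of_forall hb)).trans ?_
  rw [integral_const_mul]
  have h4 : ∫ y, (‖E f y‖ * ‖E (g - f) y‖ ^ 2 * ‖E h y‖ +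
      ‖E g y‖ * ‖E (g - f) y‖ ^ 2 * ‖E h y‖) ≤ 2 * A F 4 * (‖g - f‖ ^ 2 * ‖h‖) := by
    rw [integral_add j1 j2]
    rw [hf, one_mul] at k1
    rw [hg, one_mul] at k2
    linarith
  have h5 := mul_le_mul_of_nonneg_left h4 hK
  refine h5.trans (le_of_eq ?_)
  ring

end Pool.Agent.TRC
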