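import Pool.Agent.TRC.Targets
import Pool.Agent.TRC.Lem

/-!
# Project TRC: the extension tends to zero at infinity (RL)
-/

set_option autoImplicit false

noncomputable section

open MeasureTheory Set Filter Pool.Agent.ExpMax
open scoped ENNReal RealInnerProductSpace Topology

namespace Pool.Agent.TRC

namespace RL_

/-- A Lipschitz function `g ≥ 0` with `g ^ q` integrable tends to `0` at infinity. -/
theorem tendsto_aux {F : Type} [NormedAddCommGroup F] [InnerProductSpace ℝ F]
    [FiniteDimensional ℝ F] [MeasurableSpace F] [BorelSpace F] {g : F → ℝ} {L q : ℝ}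
    (hL : 0 ≤ L) (hq : 0 < q) (h0 : ∀ y, 0 ≤ g y) (hlip : ∀ y y', |g y - g y'| ≤ L * ‖y - y'‖)
    (hint : Integrable fun y => g y ^ q) : Tendsto g (cocompact F) (𝓝 0) := by
  rw [Metric.tendsto_nhds]
  intro ε hε
  -- the integrals over the complements of the balls tend to zero
  have htail : Tendsto (fun n : ℕ => ∫ y in (Metric.closedBall (0 : F) n)ᶜ, g y ^ q) atTop
      (𝓝 0) := by
    have h1 := tendsto_setIntegral_of_antitone (μ := (volume : Measure F))
      (f := fun y => g y ^ q) (s := fun n : ℕ => (Metric.closedBall (0 : F) n)ᶜ)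
      (fun n => Metric.isClosed_closedBall.measurableSet.compl)
      (fun m n hmn => compl_subset_compl.2
        (Metric.closedBall_subset_closedBall (by exact_mod_cast hmn)))
      ⟨0, hint.integrableOn⟩
    have h2 : ⋂ n : ℕ, (Metric.closedBall (0 : F) (n : ℝ))ᶜ = ∅ := by
      rw [← compl_iUnion, Metric.iUnion_closedBall_nat, compl_univ]
    rw [h2, setIntegral_empty] at h1
    exact h1
  set ρ : ℝ := min 1 (ε / (2 * (L + 1))) with hρ
  have hρ0 : 0 < ρ := lt_min one_pos (by positivity)
  set c : ℝ := (ε / 2) ^ q * (volume : Measure F).real (Metric.ball (0 : F) ρ) with hc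
  have hc0 : 0 < c := by
    refine mul_pos (Real.rpow_pos_of_pos (by linarith) q) ?_
    exact ENNReal.toReal_pos (Metric.measure_ball_pos volume (0 : F) hρ0).ne'
      measure_ball_lt_top.ne
  obtain ⟨N, hN⟩ := ((Metric.tendsto_atTop.1 htail) c hc0)
  have hN' := hN N le_rfl
  have hmem : (Metric.closedBall (0 : F) (N + 1 : ℝ))ᶜ ∈ cocompact F :=
    (isCompact_closedBall (0 : F) (N + 1 : ℝ)).compl_mem_cocompact
  filter_upwards [hmem] with y hy
  rw [Real.dist_eq, sub_zero, abs_of_nonneg (h0 y)]
  by_contra hcon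
  push Not at hcon
  have hyn : (N : ℝ) + 1 < ‖y‖ := by
    rw [mem_compl_iff, Metric.mem_closedBall, dist_zero_right, not_le] at hy
    exact hy
  -- the ball around `y` is far from the origin
  have hsub : Metric.ball y ρ ⊆ (Metric.closedBall (0 : F) N)ᶜ := by
    intro x hx
    rw [mem_compl_iff, Metric.mem_closedBall, dist_zero_right, not_le]
    rw [Metric.mem_ball, dist_eq_norm] at hx
    have h1 : ‖y‖ ≤ ‖x‖ + ‖x - y‖ := by
      have h2 : y = x - (x - y) := by abel
      conv_lhs => rw [h2]
      exact norm_sub_le _ _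
    have h3 : ρ ≤ 1 := min_le_left _ _
    linarith
  have hlow : ∀ x ∈ Metric.ball y ρ, (ε / 2) ^ q ≤ g x ^ q := by
    intro x hx
    rw [Metric.mem_ball, dist_eq_norm] at hx
    refine Real.rpow_le_rpow (by linarith) ?_ hq.le
    have h1 := hlip y x
    have h2 : ‖y - x‖ < ρ := by rwa [norm_sub_rev]
    have h3 : ρ ≤ ε / (2 * (L + 1)) := min_le_right _ _
    have h4 : L * ‖y - x‖ ≤ ε / 2 := by
      have h5 : L * ‖y - x‖ ≤ (L + 1) * (ε / (2 * (L + 1))) :=
        mul_le_mul (by linarith) (h2.le.trans h3) (norm_nonneg _) (by linarith)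
      have h6 : (L + 1) * (ε / (2 * (L + 1))) = ε / 2 := by
        field_simp
      linarith
    have h7 := (abs_le.1 h1).2
    linarith
  have h1 : (ε / 2) ^ q * (volume : Measure F).real (Metric.ball y ρ) ≤
      ∫ x in Metric.ball y ρ, g x ^ q :=
    setIntegral_ge_of_const_le_real Metric.isOpen_ball.measurableSet measure_ball_lt_top.ne
      hlow hint.integrableOn
  have h2 : ∫ x in Metric.ball y ρ, g x ^ q ≤
      ∫ x in (Metric.closedBall (0 : F) N)ᶜ, g x ^ q :=
    setIntegral_mono_set hint.integrableOn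
      (Eventually.of_forall fun x => Real.rpow_nonneg (h0 x) q) (LE.le.eventuallyLE hsub)
  rw [Measure.addHaar_real_ball_center] at h1
  rw [Real.dist_eq, sub_zero] at hN'
  have h3 := le_abs_self (∫ x in (Metric.closedBall (0 : F) N)ᶜ, g x ^ q)
  linarith

end RL_

theorem p_RL (h_IQ : T_IQ) : T_RL := by
  intro F _ _ _ _ _ hn f
  have hn1 : 1 ≤ Module.finrank ℝ F := by omega
  have h1 := ((h_IQ F hn 4 le_rfl).1 f).1
  refine RL_.tendsto_aux (norm_nonneg f) (by norm_num : (0 : ℝ) < 4) (fun y => norm_nonneg _)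
    (fun y y' => ?_) h1
  exact (abs_norm_sub_norm_le _ _).trans (E_lip hn1 f y y')

end Pool.Agent.TRC
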