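import Pool.Agent.TRC.Targets

/-!
# Project TRC: ROP, rotations in a plane
-/

set_option autoImplicit false

noncomputable section

open MeasureTheory Set Filter
open scoped ENNReal RealInnerProductSpace Topology

namespace Pool.Agent.TRC

open Pool.Agent.ExpMax

namespace ROP_

variable {F : Type} [NormedAddCommGroup F] [InnerProductSpace ℝ F]

/-- the rotation as a linear map -/
def lin (e v : F) (c s : ℝ) : F →ₗ[ℝ] F where
  toFun y := y + ((c - 1) * ⟪e, y⟫ + s * ⟪v, y⟫) • e + ((c - 1) * ⟪v, y⟫ - s * ⟪e, y⟫) • v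
  map_add' y z := by
    rw [inner_add_right, inner_add_right]
    module
  map_smul' t y := by
    rw [real_inner_smul_right, real_inner_smul_right]
    simp only [RingHom.id_apply]
    module

theorem lin_apply (e v : F) (c s : ℝ) (y : F) : lin e v c s y =
    y + ((c - 1) * ⟪e, y⟫ + s * ⟪v, y⟫) • e + ((c - 1) * ⟪v, y⟫ - s * ⟪e, y⟫) • v := rfl

theorem lin_norm (e v : F) (he : ‖e‖ = 1) (hv : ‖v‖ = 1) (hev : ⟪e, v⟫ = (0 : ℝ)) (c s : ℝ)
    (hcs : c ^ 2 + s ^ 2 = 1) (y : F) : ‖lin e v c s y‖ = ‖y‖ := by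
  have h1 : ‖lin e v c s y‖ ^ 2 = ‖y‖ ^ 2 := by
    rw [lin_apply]
    set α := (c - 1) * ⟪e, y⟫ + s * ⟪v, y⟫ with hα
    set β := (c - 1) * ⟪v, y⟫ - s * ⟪e, y⟫ with hβ
    have hee : (⟪e, e⟫ : ℝ) = 1 := by rw [real_inner_self_eq_norm_sq, he]; norm_num
    have hvv : (⟪v, v⟫ : ℝ) = 1 := by rw [real_inner_self_eq_norm_sq, hv]; norm_num
    have hve : (⟪v, e⟫ : ℝ) = 0 := by rw [real_inner_comm]; exact hev
    rw [← real_inner_self_eq_norm_sq, ← real_inner_self_eq_norm_sq]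
    simp only [inner_add_left, inner_add_right, real_inner_smul_left, real_inner_smul_right,
      hee, hvv, hev, hve]
    rw [real_inner_comm e y, real_inner_comm v y]
    rw [hα, hβ]
    linear_combination (⟪e, y⟫ ^ 2 + ⟪v, y⟫ ^ 2) * hcs
  have h2 := norm_nonneg (lin e v c s y)
  have h3 := norm_nonneg y
  nlinarith

/-- the rotation as an isometry -/
def iso [FiniteDimensional ℝ F] (e v : F) (he : ‖e‖ = 1) (hv : ‖v‖ = 1)
    (hev : ⟪e, v⟫ = (0 : ℝ)) (c s : ℝ) (hcs : c ^ 2 + s ^ 2 = 1) : F ≃ₗᵢ[ℝ] F :=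
  LinearIsometry.toLinearIsometryEquiv ⟨lin e v c s, lin_norm e v he hv hev c s hcs⟩ rfl

theorem iso_apply [FiniteDimensional ℝ F] (e v : F) (he : ‖e‖ = 1) (hv : ‖v‖ = 1)
    (hev : ⟪e, v⟫ = (0 : ℝ)) (c s : ℝ) (hcs : c ^ 2 + s ^ 2 = 1) (y : F) :
    iso e v he hv hev c s hcs y = lin e v c s y := rfl

end ROP_

open ROP_ in
/-- ROP -/
theorem p_ROP : T_ROP := by
  intro F _ _ _ e v he hev
  by_cases hv : v = 0
  · refine ⟨fun _ => LinearIsometryEquiv.refl ℝ F, fun y => rfl, fun y => ?_⟩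
    have h1 : ((⟪v, y⟫ : ℝ) • e - (⟪e, y⟫ : ℝ) • v) = 0 := by
      rw [hv, inner_zero_left, zero_smul, smul_zero, sub_zero]
    rw [h1]
    exact hasDerivAt_const (0 : ℝ) y
  · have hl : 0 < ‖v‖ := norm_pos_iff.2 hv
    set l := ‖v‖ with hldef
    have hv1 : ‖l⁻¹ • v‖ = 1 := by
      rw [norm_smul, norm_inv, Real.norm_eq_abs, abs_of_pos hl, ← hldef, inv_mul_cancel₀ hl.ne']
    have hev1 : ⟪e, l⁻¹ • v⟫ = (0 : ℝ) := by rw [real_inner_smul_right, hev, mul_zero]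
    have hcs : ∀ s : ℝ, Real.cos (s * l) ^ 2 + Real.sin (s * l) ^ 2 = 1 := fun s =>
      Real.cos_sq_add_sin_sq _
    refine ⟨fun s => iso e (l⁻¹ • v) he hv1 hev1 (Real.cos (s * l)) (Real.sin (s * l)) (hcs s),
      fun y => ?_, fun y => ?_⟩
    · rw [iso_apply, lin_apply]
      simp
    · have h1 : HasDerivAt (fun s : ℝ => Real.cos (s * l)) 0 0 := by
        have h := ((hasDerivAt_id (0 : ℝ)).mul_const l).cos
        simpa using h
      have h2 : HasDerivAt (fun s : ℝ => Real.sin (s * l)) l 0 := by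
        have h := ((hasDerivAt_id (0 : ℝ)).mul_const l).sin
        simpa using h
      have h3 := (((h1.sub_const 1).mul_const (⟪e, y⟫ : ℝ)).add
        (h2.mul_const (⟪l⁻¹ • v, y⟫ : ℝ))).smul_const e
      have h4 := (((h1.sub_const 1).mul_const (⟪l⁻¹ • v, y⟫ : ℝ)).sub
        (h2.mul_const (⟪e, y⟫ : ℝ))).smul_const (l⁻¹ • v)
      have h5 := ((hasDerivAt_const (0 : ℝ) y).add h3).add h4
      have h6 : (0 : F) + (0 * (⟪e, y⟫ : ℝ) + l * (⟪l⁻¹ • v, y⟫ : ℝ)) • e +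
          (0 * (⟪l⁻¹ • v, y⟫ : ℝ) - l * (⟪e, y⟫ : ℝ)) • (l⁻¹ • v) =
          (⟪v, y⟫ : ℝ) • e - (⟪e, y⟫ : ℝ) • v := by
        rw [real_inner_smul_left, zero_mul, zero_mul, zero_add, zero_add, zero_sub, smul_smul,
          ← mul_assoc, mul_inv_cancel₀ hl.ne', one_mul, neg_mul, neg_smul, mul_comm l, mul_assoc,
          mul_inv_cancel₀ hl.ne', mul_one, ← sub_eq_add_neg]
      rw [← h6]
      exact h5

end Pool.Agent.TRC
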