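import Pool.Agent.TRC.Targets
import Pool.Agent.TRC.Lem

/-!
# Project TRC: target STR, pointwise convergence and norms imply strong convergence
-/

set_option autoImplicit false

noncomputable section

open MeasureTheory Set Filter
open scoped ENNReal RealInnerProductSpace Topology

namespace Pool.Agent.TRC

open Pool.Agent.ExpMax

namespace STR_

variable {F : Type} [NormedAddCommGroup F] [InnerProductSpace ℝ F] [FiniteDimensional ℝ F]
    [MeasurableSpace F] [BorelSpace F]

/-- the span of the characters is dense -/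
theorem dense (h_INJ : T_INJ) (hn : 1 ≤ Module.finrank ℝ F) :
    (Submodule.span ℂ (Set.range (ch : F → H F))).topologicalClosure = ⊤ := by
  rw [Submodule.topologicalClosure_eq_top_iff, Submodule.eq_bot_iff]
  intro g hg
  refine h_INJ F hn g fun y => ?_
  rw [E_eq hn]
  exact (Submodule.mem_orthogonal _ g).1 hg (ch y) (Submodule.subset_span ⟨y, rfl⟩)

/-- convergence of the inner products with the elements of the span -/
theorem span_conv (hn : 1 ≤ Module.finrank ℝ F) (f : H F) (g : ℕ → H F)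
    (hE : ∀ y, Tendsto (fun k => E (g k) y) atTop (𝓝 (E f y))) (h : H F)
    (hh : h ∈ Submodule.span ℂ (Set.range (ch : F → H F))) :
    Tendsto (fun k => inner ℂ h (g k)) atTop (𝓝 (inner ℂ h f)) := by
  induction hh using Submodule.span_induction with
  | mem x hx =>
    obtain ⟨y, rfl⟩ := hx
    have h1 := hE y
    simp only [E_eq hn] at h1
    exact h1
  | zero => simp
  | add x y _ _ hx hy =>
    simp only [inner_add_left]
    exact hx.add hy
  | smul a x _ hx =>
    simp only [inner_smul_left]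
    exact hx.const_mul _

/-- weak convergence -/
theorem weak (h_INJ : T_INJ) (hn : 1 ≤ Module.finrank ℝ F) (f : H F) (g : ℕ → H F)
    (hg : ∀ k, ‖g k‖ = ‖f‖)
    (hE : ∀ y, Tendsto (fun k => E (g k) y) atTop (𝓝 (E f y))) (h : H F) :
    Tendsto (fun k => inner ℂ h (g k)) atTop (𝓝 (inner ℂ h f)) := by
  rw [Metric.tendsto_atTop]
  intro ε hε
  have hd : h ∈ closure ((Submodule.span ℂ (Set.range (ch : F → H F)) : Submodule ℂ (H F)) :
      Set (H F)) := by
    have h1 : h ∈ (Submodule.span ℂ (Set.range (ch : F → H F))).topologicalClosure := by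
      rw [dense h_INJ hn]
      exact Submodule.mem_top
    exact h1
  have hc : 0 < ε / (4 * (‖f‖ + 1)) := by positivity
  obtain ⟨h', hh', hdist⟩ := Metric.mem_closure_iff.1 hd _ hc
  obtain ⟨N, hN⟩ := Metric.tendsto_atTop.1 (span_conv hn f g hE h' hh') (ε / 2) (by positivity)
  refine ⟨N, fun k hk => ?_⟩
  have h2 := hN k hk
  rw [dist_eq_norm] at h2 hdist ⊢
  have h3 : (inner ℂ h (g k) - inner ℂ h f : ℂ) =
      inner ℂ (h - h') (g k - f) + (inner ℂ h' (g k) - inner ℂ h' f) := by
    rw [inner_sub_left, inner_sub_right, inner_sub_right]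
    ring
  have h4 : ‖(inner ℂ (h - h') (g k - f) : ℂ)‖ ≤ ε / 2 := by
    calc ‖(inner ℂ (h - h') (g k - f) : ℂ)‖ ≤ ‖h - h'‖ * ‖g k - f‖ := norm_inner_le_norm _ _
      _ ≤ (ε / (4 * (‖f‖ + 1))) * (2 * (‖f‖ + 1)) := by
          refine mul_le_mul hdist.le ?_ (norm_nonneg _) hc.le
          have h5 := norm_sub_le (g k) f
          rw [hg k] at h5
          linarith [norm_nonneg f]
      _ = ε / 2 := by
          have h6 : ‖f‖ + 1 ≠ 0 := by positivity
          field_simp
          ring
  rw [h3]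
  calc ‖inner ℂ (h - h') (g k - f) + (inner ℂ h' (g k) - inner ℂ h' f)‖
      ≤ ‖(inner ℂ (h - h') (g k - f) : ℂ)‖ + ‖(inner ℂ h' (g k) - inner ℂ h' f : ℂ)‖ :=
        norm_add_le _ _
    _ < ε / 2 + ε / 2 := add_lt_add_of_le_of_lt h4 h2
    _ = ε := by ring

end STR_

theorem p_STR (h_INJ : T_INJ) : T_STR := by
  intro F _ _ _ _ _ hn f g hg hE
  have h1 := STR_.weak h_INJ hn f g hg hE f
  have h2 : Tendsto (fun k => ‖g k - f‖ ^ 2) atTop (𝓝 0) := by
    have h3 : ∀ k, ‖g k - f‖ ^ 2 = 2 * ‖f‖ ^ 2 - 2 * (inner ℂ f (g k) : ℂ).re := by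
      intro k
      have h4 := @norm_sub_sq ℂ (H F) _ _ _ (g k) f
      rw [h4, hg k, inner_re_symm]
      simp only [RCLike.re_eq_complex_re]
      ring
    have h5 : Tendsto (fun k => (inner ℂ f (g k) : ℂ).re) atTop (𝓝 (inner ℂ f f : ℂ).re) :=
      (Complex.continuous_re.tendsto _).comp h1
    have h6 : (inner ℂ f f : ℂ).re = ‖f‖ ^ 2 := by
      rw [inner_self_eq_norm_sq_to_K]
      norm_cast
    rw [h6] at h5
    have h7 := (h5.const_mul 2).const_sub (2 * ‖f‖ ^ 2)
    simp only [← h3, sub_self] at h7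
    exact h7
  rw [tendsto_iff_norm_sub_tendsto_zero]
  have h8 := h2.sqrt
  simpa using h8

end Pool.Agent.TRC
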