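import Pool.Agent.TRC.Targets
import Pool.Agent.TRC.Lem

/-!
# Project TRC: a maximizer with real valued extension (T_SYR)
-/

set_option autoImplicit false
set_option linter.unusedSectionVars false

noncomputable section

open MeasureTheory Set Filter
open scoped ENNReal RealInnerProductSpace Topology

namespace Pool.Agent.TRC

open Pool.Agent.ExpMax

namespace SYR_

variable {F : Type} [NormedAddCommGroup F] [InnerProductSpace ℝ F] [FiniteDimensional ℝ F]
    [MeasurableSpace F] [BorelSpace F]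

/-- The antipodal map. -/
def ng (F : Type) [NormedAddCommGroup F] [InnerProductSpace ℝ F] :
    Metric.sphere (0 : F) 1 → Metric.sphere (0 : F) 1 := rot (LinearIsometryEquiv.neg ℝ)

theorem ng_coe (ω : Metric.sphere (0 : F) 1) : ((ng F ω : Metric.sphere (0 : F) 1) : F) = -ω := by
  simp [ng, rot]

theorem ng_mp (hn : 1 ≤ Module.finrank ℝ F) : MeasurePreserving (ng F) (prb F) (prb F) :=
  (tINV F hn).2 _

theorem int_ng (hn : 1 ≤ Module.finrank ℝ F) {G : Type} [NormedAddCommGroup G] [NormedSpace ℝ G]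
    (φ : Metric.sphere (0 : F) 1 → G) (h : AEStronglyMeasurable φ (prb F)) :
    ∫ ω, φ (ng F ω) ∂(prb F) = ∫ ω, φ ω ∂(prb F) := by
  have hm := ng_mp (F := F) hn
  have h1 : AEStronglyMeasurable φ (Measure.map (ng F) (prb F)) := by
    rw [hm.map_eq]
    exact h
  have h2 := integral_map hm.measurable.aemeasurable h1
  rw [hm.map_eq] at h2
  exact h2.symm

/-- The conjugate of the reflected function. -/
theorem exists_conj (hn : 1 ≤ Module.finrank ℝ F) (f : H F) :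
    ∃ k : H F, ‖k‖ = ‖f‖ ∧ ∀ y, E k y = (starRingEnd ℂ) (E f y) := by
  have h1 : MemLp (fun ω => (f : Metric.sphere (0 : F) 1 → ℂ) (ng F ω)) 2 (prb F) :=
    (Lp.memLp f).comp_measurePreserving (ng_mp hn)
  have h2 : MemLp (fun ω => (starRingEnd ℂ) ((f : Metric.sphere (0 : F) 1 → ℂ) (ng F ω))) 2
      (prb F) := h1.star
  refine ⟨h2.toLp _, ?_, ?_⟩
  · have e1 : ‖h2.toLp _‖ ^ 2 = ‖f‖ ^ 2 := by
      rw [norm_toLp, norm_sq_eq]
      simp only [RCLike.norm_conj]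
      exact int_ng hn (fun ω => ‖f ω‖ ^ 2) ((Lp.aestronglyMeasurable f).norm.pow 2)
    have e2 := norm_nonneg (h2.toLp _)
    have e3 := norm_nonneg f
    nlinarith
  · intro y
    rw [E_toLp]
    unfold E ExpMax.Ext
    rw [← integral_conj]
    have e1 : AEStronglyMeasurable (fun ω : Metric.sphere (0 : F) 1 => (starRingEnd ℂ)
        (f ω * Complex.exp (-(Complex.I * ((⟪(ω : F), y⟫ : ℝ) : ℂ))))) (prb F) := by
      refine AEStronglyMeasurable.star ?_
      refine (Lp.aestronglyMeasurable f).mul ?_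
      refine Continuous.aestronglyMeasurable ?_
      fun_prop
    rw [← int_ng hn _ e1]
    refine integral_congr_ae (Filter.Eventually.of_forall fun ω => ?_)
    simp only
    rw [map_mul, ← Complex.exp_conj, ng_coe]
    congr 2
    simp

theorem exists_parts (hn : 1 ≤ Module.finrank ℝ F) (f : H F) :
    ∃ g h : H F, ‖g‖ ^ 2 + ‖h‖ ^ 2 = ‖f‖ ^ 2 ∧ (∀ y, E g y = (((E f y).re : ℝ) : ℂ)) ∧
      ∀ y, E h y = (((E f y).im : ℝ) : ℂ) := by
  obtain ⟨k, hk, hE⟩ := exists_conj hn f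
  refine ⟨(1 / 2 : ℂ) • (f + k), (1 / (2 * Complex.I) : ℂ) • (f - k), ?_, ?_, ?_⟩
  · rw [norm_smul, norm_smul]
    have h1 := parallelogram_law_with_norm ℂ f k
    have h2 : ‖(1 / 2 : ℂ)‖ = 1 / 2 := by simp
    have h3 : ‖(1 / (2 * Complex.I) : ℂ)‖ = 1 / 2 := by simp
    rw [h2, h3]
    rw [hk] at h1
    nlinarith
  · intro y
    rw [E_smul hn, E_add hn, hE, Complex.add_conj]
    push_cast
    ring
  · intro y
    rw [E_smul hn, E_sub hn, hE, Complex.sub_conj]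
    have : Complex.I ≠ 0 := Complex.I_ne_zero
    push_cast
    field_simp

theorem finish (hn : 1 ≤ Module.finrank ℝ F) {p : ℝ} {f k : H F} (hf : IsMx p f)
    (hk : 0 < ‖k‖) (hR : Rl k) (hJ : J p k = J p f * ‖k‖ ^ p) :
    ∃ g : H F, IsMx p g ∧ Rl g ∧ J p g = J p f := by
  have hc : ‖((‖k‖⁻¹ : ℝ) : ℂ)‖ = ‖k‖⁻¹ := by
    rw [Complex.norm_real, Real.norm_eq_abs, abs_of_pos (inv_pos.mpr hk)]
  have hJ' : J p (((‖k‖⁻¹ : ℝ) : ℂ) • k) = J p f := by
    rw [J_smul hn, hc, hJ, Real.inv_rpow hk.le]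
    have : (0 : ℝ) < ‖k‖ ^ p := Real.rpow_pos_of_pos hk p
    field_simp
  refine ⟨((‖k‖⁻¹ : ℝ) : ℂ) • k, ⟨?_, ?_⟩, ?_, hJ'⟩
  · rw [norm_smul, hc]
    exact inv_mul_cancel₀ hk.ne'
  · intro g
    rw [hJ']
    exact hf.max g
  · intro y
    rw [E_smul hn, Complex.im_ofReal_mul, hR y, mul_zero]

theorem cvx {x z p a b : ℝ} (hx : 0 < x) (hz : 0 < z) (hxz : x + z = 1) (hp : 2 ≤ p)
    (ha : 0 ≤ a) (hb : 0 ≤ b) :
    (a + b) ^ (p / 2) ≤ x ^ (1 - p / 2) * a ^ (p / 2) + z ^ (1 - p / 2) * b ^ (p / 2) := by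
  have h := (convexOn_rpow (p := p / 2) (by linarith)).2 (x := a / x) (y := b / z)
    (div_nonneg ha hx.le) (div_nonneg hb hz.le) hx.le hz.le hxz
  simp only [smul_eq_mul] at h
  have e1 : x * (a / x) + z * (b / z) = a + b := by field_simp
  have e2 : ∀ u c : ℝ, 0 < u → 0 ≤ c → u * (c / u) ^ (p / 2) = u ^ (1 - p / 2) * c ^ (p / 2) := by
    intro u c hu hc
    rw [Real.div_rpow hc hu.le, Real.rpow_sub hu, Real.rpow_one]
    ring
  rw [e1, e2 x a hx ha, e2 z b hz hb] at h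
  exact h

theorem sq_rpow (r p : ℝ) : (r ^ 2) ^ (p / 2) = |r| ^ p := by
  rw [← sq_abs, ← Real.rpow_natCast, ← Real.rpow_mul (abs_nonneg r)]
  congr 1
  push_cast
  ring

theorem main (hQ : T_IQ) (hn : 3 ≤ Module.finrank ℝ F) {p : ℝ} {f : H F} (hp : 4 ≤ p)
    (hf : IsMx p f) : ∃ g : H F, IsMx p g ∧ Rl g ∧ J p g = J p f := by
  have hn1 : 1 ≤ Module.finrank ℝ F := by omega
  obtain ⟨g, h, hgh, hg, hh⟩ := exists_parts hn1 f
  rw [hf.norm_one, one_pow] at hgh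
  have hRg : Rl g := fun y => by rw [hg y, Complex.ofReal_im]
  have hRh : Rl h := fun y => by rw [hh y, Complex.ofReal_im]
  have hIg := ((hQ F hn p hp).1 g).1
  have hIh := ((hQ F hn p hp).1 h).1
  have hIf := ((hQ F hn p hp).1 f).1
  have hng : ∀ y, ‖E g y‖ = |(E f y).re| := fun y => by
    rw [hg y, Complex.norm_real, Real.norm_eq_abs]
  have hnh : ∀ y, ‖E h y‖ = |(E f y).im| := fun y => by
    rw [hh y, Complex.norm_real, Real.norm_eq_abs]
  have hnf : ∀ y, ‖E f y‖ ^ p = ((E f y).re ^ 2 + (E f y).im ^ 2) ^ (p / 2) := fun y => by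
    have : (E f y).re ^ 2 + (E f y).im ^ 2 = ‖E f y‖ ^ 2 := by
      rw [← Complex.normSq_eq_norm_sq, Complex.normSq_apply]
      ring
    rw [this, sq_rpow, abs_of_nonneg (norm_nonneg _)]
  rcases eq_or_lt_of_le (norm_nonneg g) with hg0 | hg0
  · -- `g = 0`
    have hgz : g = 0 := norm_eq_zero.mp hg0.symm
    have hh1 : ‖h‖ = 1 := by
      rw [← hg0] at hgh
      nlinarith [norm_nonneg h]
    refine finish hn1 hf (by rw [hh1]; norm_num) hRh ?_
    rw [hh1, Real.one_rpow, mul_one]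
    unfold J
    congr 1
    funext y
    have hre : (E f y).re = 0 := by
      have e1 := hg y
      rw [hgz, E_zero hn1] at e1
      exact_mod_cast e1.symm
    rw [hnf y, hre, hnh y, ← sq_rpow]
    congr 1
    ring
  rcases eq_or_lt_of_le (norm_nonneg h) with hh0 | hh0
  · have hhz : h = 0 := norm_eq_zero.mp hh0.symm
    have hg1 : ‖g‖ = 1 := by
      rw [← hh0] at hgh
      nlinarith [norm_nonneg g]
    refine finish hn1 hf (by rw [hg1]; norm_num) hRg ?_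
    rw [hg1, Real.one_rpow, mul_one]
    unfold J
    congr 1
    funext y
    have him : (E f y).im = 0 := by
      have e1 := hh y
      rw [hhz, E_zero hn1] at e1
      exact_mod_cast e1.symm
    rw [hnf y, him, hng y, ← sq_rpow]
    congr 1
    ring
  -- both parts are nonzero
  have hx : 0 < ‖g‖ ^ 2 := by positivity
  have hz : 0 < ‖h‖ ^ 2 := by positivity
  have hsum : J p f ≤ (‖g‖ ^ 2) ^ (1 - p / 2) * J p g + (‖h‖ ^ 2) ^ (1 - p / 2) * J p h := by
    unfold J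
    rw [← integral_const_mul, ← integral_const_mul, ← integral_add (hIg.const_mul _)
      (hIh.const_mul _)]
    refine integral_mono hIf ((hIg.const_mul _).add (hIh.const_mul _)) fun y => ?_
    simp only
    rw [hnf y, hng y, hnh y, ← sq_rpow, ← sq_rpow]
    exact cvx hx hz hgh (by linarith) (sq_nonneg _) (sq_nonneg _)
  have hmg := hf.max g
  have hmh := hf.max h
  have hpw : ∀ u : ℝ, 0 < u → (u ^ 2) ^ (1 - p / 2) * u ^ p = u ^ 2 := by
    intro u hu
    have e1 : (u ^ 2) ^ (1 - p / 2) = u ^ (2 - p) := by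
      rw [← Real.rpow_natCast, ← Real.rpow_mul hu.le]
      congr 1
      push_cast
      ring
    rw [e1, ← Real.rpow_add hu, ← Real.rpow_natCast]
    congr 1
    push_cast
    ring
  have hcg : 0 < (‖g‖ ^ 2) ^ (1 - p / 2) := Real.rpow_pos_of_pos hx _
  have hch : 0 < (‖h‖ ^ 2) ^ (1 - p / 2) := Real.rpow_pos_of_pos hz _
  have h1 : (‖h‖ ^ 2) ^ (1 - p / 2) * J p h ≤ ‖h‖ ^ 2 * J p f := by
    calc (‖h‖ ^ 2) ^ (1 - p / 2) * J p h
        ≤ (‖h‖ ^ 2) ^ (1 - p / 2) * (J p f * ‖h‖ ^ p) := mul_le_mul_of_nonneg_left hmh hch.le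
      _ = (‖h‖ ^ 2) ^ (1 - p / 2) * ‖h‖ ^ p * J p f := by ring
      _ = ‖h‖ ^ 2 * J p f := by rw [hpw _ hh0]
  have h2 : ‖g‖ ^ 2 * J p f ≤ (‖g‖ ^ 2) ^ (1 - p / 2) * J p g := by
    have : ‖g‖ ^ 2 * J p f = J p f - ‖h‖ ^ 2 * J p f := by
      rw [← eq_sub_iff_add_eq] at hgh
      rw [hgh]
      ring
    rw [this]
    linarith
  have h3 : J p f * ‖g‖ ^ p ≤ J p g := by
    have e1 : (‖g‖ ^ 2) ^ (1 - p / 2) * (J p f * ‖g‖ ^ p) ≤ (‖g‖ ^ 2) ^ (1 - p / 2) * J p g := by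
      calc (‖g‖ ^ 2) ^ (1 - p / 2) * (J p f * ‖g‖ ^ p)
          = (‖g‖ ^ 2) ^ (1 - p / 2) * ‖g‖ ^ p * J p f := by ring
        _ = ‖g‖ ^ 2 * J p f := by rw [hpw _ hg0]
        _ ≤ _ := h2
    exact le_of_mul_le_mul_left e1 hcg
  exact finish hn1 hf hg0 hRg (le_antisymm hmg h3)

end SYR_

/-- SYR. -/
theorem p_SYR (hQ : T_IQ) : T_SYR := by
  intro F _ _ _ _ _ hn p f hp hf
  exact SYR_.main hQ hn hp hf

end Pool.Agent.TRC
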