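import Pool.Agent.TRC.Targets2

/-!
# Project TRC: target TAI (the decay)
-/

set_option autoImplicit false

noncomputable section

open MeasureTheory Set Filter
open scoped ENNReal RealInnerProductSpace Topology

namespace Pool.Agent.TRC

open Pool.Agent.ExpMax

namespace TAI_

/-- The energy. -/
def en (n : ℕ) (φ φ' : ℝ → ℝ) (r : ℝ) : ℝ :=
  r ^ (n - 1) * ((φ' r + ((n : ℝ) - 1) / (2 * r) * φ r) ^ 2 /
    (1 - ((n : ℝ) - 1) * ((n : ℝ) - 3) / 4 / r ^ 2) + φ r ^ 2)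

theorem kap_nonneg (n : ℕ) (hn : 3 ≤ n) : 0 ≤ ((n : ℝ) - 1) * ((n : ℝ) - 3) / 4 := by
  have h : (3 : ℝ) ≤ n := by exact_mod_cast hn
  have h1 : 0 ≤ ((n : ℝ) - 1) * ((n : ℝ) - 3) := mul_nonneg (by linarith) (by linarith)
  linarith

theorem g_pos {κ r : ℝ} (hr : 0 < r) (hκ : κ < r ^ 2) : 0 < 1 - κ / r ^ 2 := by
  have h : κ / r ^ 2 < 1 := by
    rw [div_lt_one (by positivity)]
    exact hκ
  linarith

theorem alg (p r c κ x y u : ℝ) (hr : r ≠ 0) (hu : u ≠ 0) (hudef : u = 1 - κ / r ^ 2)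
    (hκ : κ = c * (c - 2) / 4) :
    c * p * ((y + c / (2 * r) * x) ^ 2 / u + x ^ 2) + p * r *
      ((2 * (y + c / (2 * r) * x) *
        (-x - c / r * y + (-(c / (2 * r ^ 2)) * x + c / (2 * r) * y)) * u -
        (y + c / (2 * r) * x) ^ 2 * (2 * κ / r ^ 3)) / u ^ 2 + 2 * x * y) =
    -(p * r * (y + c / (2 * r) * x) ^ 2 * (2 * κ / r ^ 3) / u ^ 2) := by
  have h1 : -x - c / r * y + (-(c / (2 * r ^ 2)) * x + c / (2 * r) * y) =
      -(x * u) - c / (2 * r) * (y + c / (2 * r) * x) := by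
    rw [hudef, hκ]
    field_simp
    ring
  rw [h1]
  have h2 : c / (2 * r) * x = (y + c / (2 * r) * x) - y := by ring
  have h3 : c * x = 2 * r * ((y + c / (2 * r) * x) - y) := by
    field_simp
    ring
  generalize y + c / (2 * r) * x = X at *
  have h4 : c * x ^ 2 = 2 * r * (X - y) * x := by
    rw [pow_two, ← mul_assoc, h3]
  have h5 : c * p * (X ^ 2 / u + x ^ 2) = p * (c * X ^ 2 / u + c * x ^ 2) := by ring
  rw [h5, h4]
  field_simp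
  ring

theorem en_deriv' (φ φ' : ℝ → ℝ) (N : ℕ) (c κ r : ℝ) (hcdef : c = (N : ℝ) + 1)
    (hkap : κ = c * (c - 2) / 4) (hr : 0 < r) (hκr : κ < r ^ 2)
    (hder : HasDerivAt φ (φ' r) r) (hode : HasDerivAt φ' (-φ r - c / r * φ' r) r) :
    HasDerivAt (fun r => r ^ (N + 1) * ((φ' r + c / (2 * r) * φ r) ^ 2 / (1 - κ / r ^ 2) +
      φ r ^ 2)) (-(r ^ (N + 1) * (φ' r + c / (2 * r) * φ r) ^ 2 * (2 * κ / r ^ 3) /
        (1 - κ / r ^ 2) ^ 2)) r := by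
  have hr0 : r ≠ 0 := hr.ne'
  have hg := g_pos hr hκr
  have d1 : HasDerivAt (fun x : ℝ => x ^ (N + 1)) (c * r ^ N) r := by
    have h := hasDerivAt_pow (N + 1) r
    have h2 : ((N + 1 : ℕ) : ℝ) * r ^ (N + 1 - 1) = c * r ^ N := by
      rw [Nat.add_sub_cancel, hcdef]
      push_cast
      ring
    rwa [h2] at h
  have d2 : HasDerivAt (fun x : ℝ => c / (2 * x)) (-(c / (2 * r ^ 2))) r := by
    have h := (hasDerivAt_inv hr0).const_mul (c / 2)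
    have h1 : (fun x : ℝ => c / 2 * x⁻¹) = fun x : ℝ => c / (2 * x) := by
      funext x
      rw [div_mul_eq_mul_div, ← div_eq_mul_inv, div_div, mul_comm x 2]
    rw [h1] at h
    refine h.congr_deriv ?_
    field_simp
  have d3 : HasDerivAt (fun x : ℝ => φ' x + c / (2 * x) * φ x)
      (-φ r - c / r * φ' r + (-(c / (2 * r ^ 2)) * φ r + c / (2 * r) * φ' r)) r :=
    hode.add (d2.mul hder)
  have d4 : HasDerivAt (fun x : ℝ => 1 - κ / x ^ 2) (2 * κ / r ^ 3) r := by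
    have h := ((hasDerivAt_pow 2 r).inv (pow_ne_zero 2 hr0)).const_mul κ
    have h5 := h.const_sub 1
    have h1 : (fun x : ℝ => 1 - κ * (x ^ 2)⁻¹) = fun x : ℝ => 1 - κ / x ^ 2 := by
      funext x
      rw [div_eq_mul_inv]
    have h6 : HasDerivAt (fun x : ℝ => 1 - κ * (x ^ 2)⁻¹)
        (-(κ * (-(((2 : ℕ) : ℝ) * r ^ (2 - 1)) / (r ^ 2) ^ 2))) r := h5
    rw [h1] at h6
    refine h6.congr_deriv ?_
    push_cast
    field_simp
  have d5 : HasDerivAt (fun x : ℝ => (φ' x + c / (2 * x) * φ x) ^ 2)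
      (2 * (φ' r + c / (2 * r) * φ r) *
        (-φ r - c / r * φ' r + (-(c / (2 * r ^ 2)) * φ r + c / (2 * r) * φ' r))) r := by
    refine (d3.fun_pow 2).congr_deriv ?_
    push_cast
    ring
  have d6 : HasDerivAt (fun x : ℝ => φ x ^ 2) (2 * φ r * φ' r) r := by
    refine (hder.fun_pow 2).congr_deriv ?_
    push_cast
    ring
  have d7 := d1.fun_mul ((d5.fun_div d4 hg.ne').fun_add d6)
  refine d7.congr_deriv ?_
  have h := alg (r ^ N) r c κ (φ r) (φ' r) (1 - κ / r ^ 2) hr0 hg.ne' rfl hkap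
  have hp : r ^ (N + 1) = r ^ N * r := pow_succ r N
  rw [hp]
  exact h

theorem en_deriv (n : ℕ) (φ φ' : ℝ → ℝ) (hn : 3 ≤ n) (hB : Bes n φ φ') (r : ℝ) (hr : 0 < r)
    (hκ : ((n : ℝ) - 1) * ((n : ℝ) - 3) / 4 < r ^ 2) :
    HasDerivAt (en n φ φ') (-(r ^ (n - 1) * (φ' r + ((n : ℝ) - 1) / (2 * r) * φ r) ^ 2 *
      (2 * (((n : ℝ) - 1) * ((n : ℝ) - 3) / 4) / r ^ 3) /
      (1 - ((n : ℝ) - 1) * ((n : ℝ) - 3) / 4 / r ^ 2) ^ 2)) r := by
  obtain ⟨N, rfl⟩ : ∃ N, n = N + 2 := ⟨n - 2, by omega⟩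
  exact en_deriv' φ φ' N (((N + 2 : ℕ) : ℝ) - 1)
    ((((N + 2 : ℕ) : ℝ) - 1) * (((N + 2 : ℕ) : ℝ) - 3) / 4) r (by push_cast; ring) (by ring)
    hr hκ (hB.der r) (hB.ode r hr)

theorem en_anti (n : ℕ) (φ φ' : ℝ → ℝ) (hn : 3 ≤ n) (hB : Bes n φ φ') (R : ℝ) (hR : 0 < R)
    (hκ : ((n : ℝ) - 1) * ((n : ℝ) - 3) / 4 < R ^ 2) : AntitoneOn (en n φ φ') (Ici R) := by
  have key : ∀ r, R ≤ r → 0 < r ∧ ((n : ℝ) - 1) * ((n : ℝ) - 3) / 4 < r ^ 2 := by
    intro r hr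
    exact ⟨hR.trans_le hr, hκ.trans_le (pow_le_pow_left₀ hR.le hr 2)⟩
  refine antitoneOn_of_deriv_nonpos (convex_Ici R) ?_ ?_ ?_
  · intro r hr
    obtain ⟨h1, h2⟩ := key r hr
    exact (en_deriv n φ φ' hn hB r h1 h2).continuousAt.continuousWithinAt
  · intro r hr
    rw [interior_Ici] at hr
    obtain ⟨h1, h2⟩ := key r (le_of_lt hr)
    exact (en_deriv n φ φ' hn hB r h1 h2).differentiableAt.differentiableWithinAt
  · intro r hr
    rw [interior_Ici] at hr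
    obtain ⟨h1, h2⟩ := key r (le_of_lt hr)
    rw [(en_deriv n φ φ' hn hB r h1 h2).deriv]
    have hk := kap_nonneg n hn
    have h3 : 0 ≤ r ^ (n - 1) * (φ' r + ((n : ℝ) - 1) / (2 * r) * φ r) ^ 2 *
      (2 * (((n : ℝ) - 1) * ((n : ℝ) - 3) / 4) / r ^ 3) /
      (1 - ((n : ℝ) - 1) * ((n : ℝ) - 3) / 4 / r ^ 2) ^ 2 := by positivity
    linarith

theorem main : T_TAI := by
  intro n φ φ' hn hB R D hR hκ hD r hr
  have hanti := en_anti n φ φ' hn hB R hR hκ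
  have h1 : en n φ φ' r ≤ en n φ φ' R := hanti self_mem_Ici hr hr
  have h2 : en n φ φ' r ≤ D := h1.trans hD
  have hr0 : 0 < r := hR.trans_le hr
  have hκr : ((n : ℝ) - 1) * ((n : ℝ) - 3) / 4 < r ^ 2 :=
    hκ.trans_le (pow_le_pow_left₀ hR.le hr 2)
  have hg := g_pos hr0 hκr
  have hk := kap_nonneg n hn
  have hg1 : 1 - ((n : ℝ) - 1) * ((n : ℝ) - 3) / 4 / r ^ 2 ≤ 1 := by
    have : 0 ≤ ((n : ℝ) - 1) * ((n : ℝ) - 3) / 4 / r ^ 2 := by positivity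
    linarith
  unfold en at h2
  set χ : ℝ := φ' r + ((n : ℝ) - 1) / (2 * r) * φ r with hχ
  set g : ℝ := 1 - ((n : ℝ) - 1) * ((n : ℝ) - 3) / 4 / r ^ 2 with hgdef
  have h3 : χ ^ 2 ≤ χ ^ 2 / g := by
    rw [le_div_iff₀ hg]
    have := mul_le_mul_of_nonneg_left hg1 (sq_nonneg χ)
    linarith
  have hp : 0 < r ^ (n - 1) := pow_pos hr0 _
  constructor
  · refine le_trans ?_ h2
    refine mul_le_mul_of_nonneg_left ?_ hp.le
    have := sq_nonneg χ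
    linarith
  · refine le_trans ?_ h2
    refine mul_le_mul_of_nonneg_left ?_ hp.le
    have := sq_nonneg (φ r)
    linarith

end TAI_

theorem p_TAI : T_TAI := TAI_.main

end Pool.Agent.TRC
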