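import Pool.Agent.TRC.Targets2

/-!
# Project TRC: target TLR (the tail of the moments)
-/

set_option autoImplicit false

noncomputable section

open MeasureTheory Set Filter
open scoped ENNReal RealInnerProductSpace Topology

namespace Pool.Agent.TRC

open Pool.Agent.ExpMax

namespace TLR_

theorem rpow_eq (x : ℝ) (m : ℕ) : |x| ^ (2 * (m : ℝ)) = x ^ (2 * m) := by
  have h : (2 * (m : ℝ)) = ((2 * m : ℕ) : ℝ) := by push_cast; ring
  rw [h, Real.rpow_natCast, pow_mul, pow_mul, sq_abs]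

theorem bound (n m : ℕ) (hn : 3 ≤ n) (hm : 2 ≤ m) (x r D : ℝ) (hr : 0 < r)
    (h : r ^ (n - 1) * x ^ 2 ≤ D) :
    x ^ (2 * m) * r ^ (n - 1) ≤ D ^ m * r ^ (-(((m * (n - 1) - n : ℕ) : ℝ) + 1)) := by
  set j : ℕ := m * (n - 1) - n with hj
  have h1 : 2 * (n - 1) ≤ m * (n - 1) := Nat.mul_le_mul_right _ hm
  have hj1 : m * (n - 1) = (n - 1) + (j + 1) := by omega
  have hp : 0 < r ^ (n - 1) := pow_pos hr _
  have h2 : (r ^ (n - 1) * x ^ 2) ^ m ≤ D ^ m :=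
    pow_le_pow_left₀ (mul_nonneg hp.le (sq_nonneg x)) h m
  have h3 : (r ^ (n - 1) * x ^ 2) ^ m = (x ^ (2 * m) * r ^ (n - 1)) * r ^ (j + 1) := by
    rw [mul_pow, ← pow_mul, ← pow_mul, mul_comm (n - 1) m, hj1, pow_add]
    ring
  have h4 : r ^ (-((j : ℝ) + 1)) = (r ^ (j + 1))⁻¹ := by
    rw [Real.rpow_neg hr.le]
    congr 1
    have h5 : ((j : ℝ) + 1) = ((j + 1 : ℕ) : ℝ) := by push_cast; ring
    rw [h5, Real.rpow_natCast]
  rw [h4, ← div_eq_mul_inv, le_div_iff₀ (pow_pos hr _), ← h3]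
  exact h2

end TLR_

open TLR_ in
theorem p_TLR (hTAI : T_TAI) (hITG : T_ITG) : T_TLR := by
  intro n m φ φ' hn hm hB R D hR hR2 hD
  set j : ℕ := m * (n - 1) - n with hj
  have hj0 : 0 < j := by
    have h1 : 2 * (n - 1) ≤ m * (n - 1) := Nat.mul_le_mul_right _ hm
    omega
  have hjR : (0 : ℝ) < (j : ℝ) := by exact_mod_cast hj0
  have hq : (4 : ℝ) ≤ 2 * (m : ℝ) := by
    have : (2 : ℝ) ≤ (m : ℝ) := by exact_mod_cast hm
    linarith
  have hI := (hITG n φ φ' hn hB (2 * (m : ℝ)) hq).1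
  have hfe : (fun r => |φ r| ^ (2 * (m : ℝ)) * r ^ (n - 1)) =
      fun r => φ r ^ (2 * m) * r ^ (n - 1) := by
    funext r
    rw [rpow_eq]
  rw [hfe] at hI
  have ha : a n φ (2 * (m : ℝ)) = ∫ r in Ioi (0 : ℝ), φ r ^ (2 * m) * r ^ (n - 1) := by
    unfold a
    rw [hfe]
  have hI1 : IntegrableOn (fun r => φ r ^ (2 * m) * r ^ (n - 1)) (Ioc 0 R) :=
    hI.mono_set Ioc_subset_Ioi_self
  have hI2 : IntegrableOn (fun r => φ r ^ (2 * m) * r ^ (n - 1)) (Ioi R) :=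
    hI.mono_set (Ioi_subset_Ioi hR.le)
  have hsplit : ∫ r in Ioi (0 : ℝ), φ r ^ (2 * m) * r ^ (n - 1) =
      (∫ r in (0 : ℝ)..R, φ r ^ (2 * m) * r ^ (n - 1)) +
        ∫ r in Ioi R, φ r ^ (2 * m) * r ^ (n - 1) := by
    rw [intervalIntegral.integral_of_le hR.le, ← Ioc_union_Ioi_eq_Ioi hR.le]
    exact setIntegral_union (Ioc_disjoint_Ioi le_rfl) measurableSet_Ioi hI1 hI2
  have hlow : 0 ≤ ∫ r in Ioi R, φ r ^ (2 * m) * r ^ (n - 1) := by
    refine setIntegral_nonneg measurableSet_Ioi fun r hr => ?_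
    have hr' : 0 < r := hR.trans hr
    rw [pow_mul]
    positivity
  have hup : ∫ r in Ioi R, φ r ^ (2 * m) * r ^ (n - 1) ≤ D ^ m / ((j : ℝ) * R ^ j) := by
    have hlt : -((j : ℝ) + 1) < -1 := by linarith
    have hI3 : IntegrableOn (fun r : ℝ => D ^ m * r ^ (-((j : ℝ) + 1))) (Ioi R) :=
      (integrableOn_Ioi_rpow_of_lt hlt hR).const_mul _
    have h1 : ∫ r in Ioi R, φ r ^ (2 * m) * r ^ (n - 1) ≤
        ∫ r in Ioi R, D ^ m * r ^ (-((j : ℝ) + 1)) := by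
      refine setIntegral_mono_on hI2 hI3 measurableSet_Ioi fun r hr => ?_
      have hr' : R < r := hr
      exact bound n m hn hm (φ r) r D (hR.trans hr')
        (hTAI n φ φ' hn hB R D hR hR2 hD r hr'.le).1
    refine h1.trans (le_of_eq ?_)
    rw [integral_const_mul, integral_Ioi_rpow_of_lt hlt hR]
    have h2 : -((j : ℝ) + 1) + 1 = -(j : ℝ) := by ring
    rw [h2, Real.rpow_neg hR.le, Real.rpow_natCast, neg_div_neg_eq]
    field_simp
  rw [ha, hsplit]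
  exact ⟨by linarith, by linarith⟩

end Pool.Agent.TRC
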