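import Pool.Agent.TRC.Targets
import Pool.Agent.TRC.Lem

/-!
# Project TRC: TRA, the trace inequality
-/

set_option autoImplicit false

noncomputable section

open MeasureTheory Set Filter
open scoped ENNReal RealInnerProductSpace Topology

namespace Pool.Agent.TRC

open Pool.Agent.ExpMax

namespace TRA_

variable {F : Type} [NormedAddCommGroup F] [InnerProductSpace ℝ F] [FiniteDimensional ℝ F]
    [MeasurableSpace F] [BorelSpace F]

/-! ### The space of the pairs -/

omit [FiniteDimensional ℝ F] [MeasurableSpace F] [BorelSpace F] in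
theorem vf_add (e y v c v' c' : F) : vf e (v + v') (c + c') y = vf e v c y + vf e v' c' y := by
  unfold vf
  rw [inner_add_left, add_smul, smul_add]
  abel

omit [FiniteDimensional ℝ F] [MeasurableSpace F] [BorelSpace F] in
theorem vf_smul (e y v c : F) (a : ℝ) : vf e (a • v) (a • c) y = a • vf e v c y := by
  unfold vf
  rw [real_inner_smul_left, smul_add, smul_sub, smul_smul, smul_smul, smul_smul,
    mul_comm (⟪e, y⟫ : ℝ) a]

/-- The field as a linear map in `(v, c)`. -/
def vfl (e y : F) : (F × F) →ₗ[ℝ] F where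
  toFun w := vf e w.1 w.2 y
  map_add' w w' := vf_add e y w.1 w.2 w'.1 w'.2
  map_smul' a w := vf_smul e y w.1 w.2 a

/-- The pairs `(v, c)` with `v` orthogonal to `e`. -/
def Ws (e : F) : Submodule ℝ (F × F) :=
  LinearMap.ker ((innerₛₗ ℝ e).comp (LinearMap.fst ℝ F F))

omit [FiniteDimensional ℝ F] [MeasurableSpace F] [BorelSpace F] in
theorem mem_Ws (e : F) (w : F × F) : w ∈ Ws e ↔ (⟪e, w.1⟫ : ℝ) = 0 := by
  unfold Ws
  rw [LinearMap.mem_ker]
  rfl

omit [MeasurableSpace F] [BorelSpace F] in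
theorem finrank_Ws (e : F) (he : ‖e‖ = 1) :
    Module.finrank ℝ (Ws e) + 1 = 2 * Module.finrank ℝ F := by
  have h := LinearMap.finrank_range_add_finrank_ker ((innerₛₗ ℝ e).comp (LinearMap.fst ℝ F F))
  have hr : LinearMap.range ((innerₛₗ ℝ e).comp (LinearMap.fst ℝ F F)) = ⊤ := by
    rw [LinearMap.range_eq_top]
    intro t
    refine ⟨(t • e, 0), ?_⟩
    change (⟪e, t • e⟫ : ℝ) = t
    rw [real_inner_smul_right, real_inner_self_eq_norm_sq, he]
    ring
  rw [hr, finrank_top, Module.finrank_self, Module.finrank_prod] at h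
  unfold Ws
  omega

/-! ### The derivatives are real -/

theorem fderiv_im {f : H F} (hf : Rl f) (y w : F) : (fderiv ℝ (E f) y w).im = 0 := by
  by_cases hd : DifferentiableAt ℝ (E f) y
  · have h1 : HasFDerivAt (fun z => (E f z).im) (Complex.imCLM.comp (fderiv ℝ (E f) y)) y :=
      Complex.imCLM.hasFDerivAt.comp y hd.hasFDerivAt
    have h2 : (fun z => (E f z).im) = fun _ => (0 : ℝ) := funext hf
    rw [h2] at h1
    have h3 := h1.unique (hasFDerivAt_const (0 : ℝ) y)
    have h4 := congrArg (fun L : F →L[ℝ] ℝ => L w) h3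
    simpa using h4
  · rw [fderiv_zero_of_not_differentiableAt hd]
    simp

theorem fderiv_real {f : H F} (hf : Rl f) (y w : F) :
    fderiv ℝ (E f) y w = (((fderiv ℝ (E f) y w).re : ℝ) : ℂ) := by
  apply Complex.ext
  · simp
  · rw [fderiv_im hf]
    simp

/-- Linear independence of the derivatives. -/
theorem indep (hn : 1 ≤ Module.finrank ℝ F) {f : H F} (hf : Rl f) (e : F)
    (hyp : ∀ v c : F, ⟪e, v⟫ = (0 : ℝ) → (∀ y, fderiv ℝ (E f) y (vf e v c y) = 0) → v = 0 ∧ c = 0)
    {N : ℕ} (b : Module.Basis (Fin N) ℝ (Ws e)) (ψ : Fin N → H F)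
    (hψ : ∀ i y, E (ψ i) y = fderiv ℝ (E f) y (vf e (b i : F × F).1 (b i : F × F).2 y)) :
    LinearIndependent ℂ ψ := by
  -- real coefficients
  have key : ∀ a : Fin N → ℝ, (∀ y, ∑ i, a i * (E (ψ i) y).re = 0) → ∀ i, a i = 0 := by
    intro a ha
    have h1 : (((∑ i, a i • b i : Ws e) : F × F)) = ∑ i, a i • (b i : F × F) := by
      rw [Submodule.coe_sum]
      rfl
    set w : F × F := ((∑ i, a i • b i : Ws e) : F × F) with hw
    have hw1 : (⟪e, w.1⟫ : ℝ) = 0 := (mem_Ws e w).1 (Subtype.mem _)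
    have hw2 : ∀ y, fderiv ℝ (E f) y (vf e w.1 w.2 y) = 0 := by
      intro y
      have e1 : vf e w.1 w.2 y = ∑ i, a i • vf e (b i : F × F).1 (b i : F × F).2 y := by
        have e2 : vf e w.1 w.2 y = vfl e y w := rfl
        rw [e2, h1, map_sum]
        refine Finset.sum_congr rfl fun i _ => ?_
        rw [map_smul]
        rfl
      rw [e1, map_sum]
      have e3 : ∑ i, (fderiv ℝ (E f) y) (a i • vf e (b i : F × F).1 (b i : F × F).2 y) =
          ((∑ i, a i * (E (ψ i) y).re : ℝ) : ℂ) := by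
        rw [Complex.ofReal_sum]
        refine Finset.sum_congr rfl fun i _ => ?_
        rw [map_smul, hψ i y, Complex.ofReal_mul, ← fderiv_real hf, Complex.real_smul]
      rw [e3, ha y, Complex.ofReal_zero]
    obtain ⟨hv, hc⟩ := hyp w.1 w.2 hw1 hw2
    have hw0 : w = 0 := Prod.ext hv hc
    have hs : (∑ i, a i • b i : Ws e) = 0 := by
      apply Subtype.ext
      rw [← hw, hw0]
      rfl
    exact Fintype.linearIndependent_iff.1 b.linearIndependent a hs
  rw [Fintype.linearIndependent_iff]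
  intro z hz
  have h1 : ∀ y, ∑ i, z i * E (ψ i) y = 0 := by
    intro y
    have h2 : E (∑ i, z i • ψ i) y = 0 := by rw [hz, E_zero hn]
    rw [E_sum hn] at h2
    rw [← h2]
    exact Finset.sum_congr rfl fun i _ => (E_smul hn _ _ _).symm
  have him : ∀ i y, (E (ψ i) y).im = 0 := fun i y => by rw [hψ i y, fderiv_im hf]
  have hre : ∀ i, (z i).re = 0 := by
    refine key _ fun y => ?_
    have h3 := congrArg Complex.re (h1 y)
    rw [Complex.re_sum] at h3
    rw [Complex.zero_re] at h3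
    rw [← h3]
    refine Finset.sum_congr rfl fun i _ => ?_
    rw [Complex.mul_re, him]
    ring
  have him2 : ∀ i, (z i).im = 0 := by
    refine key _ fun y => ?_
    have h3 := congrArg Complex.im (h1 y)
    rw [Complex.im_sum] at h3
    rw [Complex.zero_im] at h3
    rw [← h3]
    refine Finset.sum_congr rfl fun i _ => ?_
    rw [Complex.mul_im, him]
    ring
  intro i
  exact Complex.ext (hre i) (him2 i)

/-! ### The form `B` -/

theorem intB (hn : 1 ≤ Module.finrank ℝ F) {q : ℝ} {f : H F}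
    (hf : Integrable (fun y => ‖E f y‖ ^ q)) (h g : H F) :
    Integrable (fun y => ((‖E f y‖ ^ q : ℝ) : ℂ) * ((starRingEnd ℂ) (E h y) * E g y)) := by
  refine hf.ofReal.mul_bdd (c := ‖h‖ * ‖g‖) ?_ ?_
  · exact ((Complex.continuous_conj.comp (continuous_E hn h)).mul
      (continuous_E hn g)).aestronglyMeasurable
  · refine Filter.Eventually.of_forall fun y => ?_
    rw [norm_mul, RCLike.norm_conj]
    exact mul_le_mul (norm_E_le hn h y) (norm_E_le hn g y) (norm_nonneg _) (norm_nonneg _)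

theorem intS (hn : 1 ≤ Module.finrank ℝ F) {q : ℝ} {f : H F}
    (hf : Integrable (fun y => ‖E f y‖ ^ q)) (g : H F) :
    Integrable (fun y => ‖E f y‖ ^ q * ‖E g y‖ ^ 2) := by
  refine hf.mul_bdd (c := ‖g‖ ^ 2) ?_ ?_
  · exact ((continuous_E hn g).norm.pow 2).aestronglyMeasurable
  · refine Filter.Eventually.of_forall fun y => ?_
    rw [norm_pow, norm_norm]
    exact pow_le_pow_left₀ (norm_nonneg _) (norm_E_le hn g y) 2

theorem B_add (hn : 1 ≤ Module.finrank ℝ F) {q : ℝ} {f : H F}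
    (hf : Integrable (fun y => ‖E f y‖ ^ q)) (h g g' : H F) :
    B q f h (g + g') = B q f h g + B q f h g' := by
  unfold B
  rw [← integral_add (intB hn hf h g) (intB hn hf h g')]
  congr 1
  funext y
  rw [E_add hn]
  ring

theorem B_smul (hn : 1 ≤ Module.finrank ℝ F) (q : ℝ) (f h g : H F) (z : ℂ) :
    B q f h (z • g) = z * B q f h g := by
  unfold B
  rw [← integral_const_mul]
  congr 1
  funext y
  rw [E_smul hn]
  ring

theorem B_zero (hn : 1 ≤ Module.finrank ℝ F) (q : ℝ) (f h : H F) : B q f h 0 = 0 := by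
  unfold B
  simp [E_zero hn]

theorem B_self (q : ℝ) (f g : H F) :
    B q f g g = ((∫ y, ‖E f y‖ ^ q * ‖E g y‖ ^ 2 : ℝ) : ℂ) := by
  unfold B
  rw [← integral_complex_ofReal]
  congr 1
  funext y
  rw [Complex.conj_mul', Complex.ofReal_mul, Complex.ofReal_pow]

theorem B_conj (q : ℝ) (f h g : H F) : (starRingEnd ℂ) (B q f h g) = B q f g h := by
  unfold B
  rw [← integral_conj]
  congr 1
  funext y
  simp only [map_mul, Complex.conj_ofReal, Complex.conj_conj]
  ring

/-- The space of the solutions of the linearised equation. -/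
def EigS (hn : 1 ≤ Module.finrank ℝ F) {p : ℝ} {f : H F}
    (hf : Integrable (fun y => ‖E f y‖ ^ (p - 2))) : Submodule ℂ (H F) where
  carrier := {ψ | Eig p f ψ}
  add_mem' := by
    intro a b ha hb h
    rw [inner_add_right, B_add hn hf, mul_add, mul_add, ha h, hb h]
  zero_mem' := by
    intro h
    rw [inner_zero_right, B_zero hn]
    ring
  smul_mem' := by
    intro z a ha h
    rw [inner_smul_right, B_smul hn]
    have h1 := ha h
    linear_combination z * h1

theorem bessel (hn : 1 ≤ Module.finrank ℝ F) {N : ℕ} {f : H F} {g : Fin N → H F}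
    (hf : ‖f‖ = 1) (hg : Orthonormal ℂ g) (hfg : ∀ i, inner ℂ f (g i) = 0) (y : F) :
    ‖E f y‖ ^ 2 + ∑ i, ‖E (g i) y‖ ^ 2 ≤ 1 := by
  have ho : Orthonormal ℂ (fun o : Option (Fin N) => o.elim f g) := by
    constructor
    · rintro (_ | i)
      · exact hf
      · exact hg.1 i
    · rintro (_ | i) (_ | j) hij
      · exact absurd rfl hij
      · exact hfg j
      · change inner ℂ (g i) f = 0
        rw [← inner_conj_symm, hfg i, map_zero]
      · exact hg.2 fun h => hij (by rw [h])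
  have h1 := ho.sum_inner_products_le (x := ch y) (s := Finset.univ)
  rw [Fintype.sum_option, norm_ch hn] at h1
  simp only [Option.elim] at h1
  rw [norm_inner_symm, ← E_eq hn] at h1
  have h2 : ∑ i, ‖E (g i) y‖ ^ 2 = ∑ i, ‖inner ℂ (g i) (ch y)‖ ^ 2 := by
    refine Finset.sum_congr rfl fun i _ => ?_
    rw [norm_inner_symm, ← E_eq hn]
  rw [h2]
  linarith

end TRA_

open TRA_ in
theorem p_TRA (h_IQ : T_IQ) (h_EUL : T_EUL) (h_DRV : T_DRV) : T_TRA := by
  intro F _ _ _ _ _ hn3 p f hp hmx hRl e he hyp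
  have hn : 1 ≤ Module.finrank ℝ F := by omega
  have hI : Integrable (fun y => ‖E f y‖ ^ (p - 2)) :=
    ((h_IQ F hn3 (p - 2) (by linarith)).1 f).1
  have hIp : Integrable (fun y => ‖E f y‖ ^ p) := ((h_IQ F hn3 p (by linarith)).1 f).1
  -- positivity
  have hM : 0 < J p f := by
    obtain ⟨-, -, hA, o, ho1, ho2⟩ := h_IQ F hn3 p (by linarith)
    have h1 := hmx.max o
    rw [ho1, Real.one_rpow, mul_one, ho2] at h1
    exact lt_of_lt_of_le hA h1
  have hMc : ((J p f : ℝ) : ℂ) ≠ 0 := by exact_mod_cast hM.ne'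
  -- the derivatives
  have hfin : FiniteDimensional ℝ (Ws e) := inferInstance
  let b := Module.finBasis ℝ (Ws e)
  have hex : ∀ i, ∃ ψ : H F, Eig p f ψ ∧
      ∀ y, E ψ y = fderiv ℝ (E f) y (vf e (b i : F × F).1 (b i : F × F).2 y) := fun i =>
    h_DRV F hn3 p f hp hmx hRl e _ _ he ((mem_Ws e _).1 (b i).2)
  choose ψ hψ1 hψ2 using hex
  have hli : LinearIndependent ℂ ψ := indep hn hRl e hyp b ψ hψ2
  let U : Submodule ℂ (H F) := Submodule.span ℂ (Set.range ψ)
  have hU : U ≤ EigS hn hI := by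
    rw [Submodule.span_le]
    rintro _ ⟨i, rfl⟩
    exact hψ1 i
  have hUfin : FiniteDimensional ℂ U := FiniteDimensional.span_of_finite ℂ (Set.finite_range ψ)
  have hUr : Module.finrank ℂ U = Module.finrank ℝ (Ws e) := by
    have h1 := finrank_span_eq_card hli
    rw [Fintype.card_fin] at h1
    exact h1
  let ob := stdOrthonormalBasis ℂ U
  let g : Fin (Module.finrank ℂ U) → H F := fun i => (ob i : H F)
  have hg : Orthonormal ℂ g := ob.orthonormal.comp_linearIsometry U.subtypeₗᵢ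
  have hgE : ∀ i, Eig p f (g i) := fun i => hU (ob i).2
  -- orthogonality
  have hfg : ∀ i, inner ℂ f (g i) = 0 := by
    intro i
    have h1 := hgE i f
    have h2 := h_EUL F hn3 p f (by linarith) hmx hRl (g i)
    have h3 := congrArg (starRingEnd ℂ) h2
    rw [map_mul, Complex.conj_ofReal, inner_conj_symm, B_conj] at h3
    rw [← h3] at h1
    have h4 : ((p - 2 : ℝ) : ℂ) * (((J p f : ℝ) : ℂ) * inner ℂ f (g i)) = 0 := by
      push_cast at h1 ⊢
      linear_combination -h1
    have h5 : ((p - 2 : ℝ) : ℂ) ≠ 0 := by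
      exact_mod_cast (by linarith : (0 : ℝ) < p - 2).ne'
    exact (mul_eq_zero.1 ((mul_eq_zero.1 h4).resolve_left h5)).resolve_left hMc
  -- the values
  have hval : ∀ i, ∫ y, ‖E f y‖ ^ (p - 2) * ‖E (g i) y‖ ^ 2 = J p f / (p - 1) := by
    intro i
    have h1 := hgE i (g i)
    have h2 : (inner ℂ (g i) (g i) : ℂ) = 1 := by
      rw [inner_self_eq_norm_sq_to_K, hg.1 i]
      simp
    rw [h2, mul_one, B_self] at h1
    have h3 : J p f = (p - 1) * ∫ y, ‖E f y‖ ^ (p - 2) * ‖E (g i) y‖ ^ 2 := by exact_mod_cast h1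
    rw [h3]
    field_simp [(by linarith : (0 : ℝ) < p - 1).ne']
  -- Bessel, integrated
  have hsum : J p f + ∑ i, ∫ y, ‖E f y‖ ^ (p - 2) * ‖E (g i) y‖ ^ 2 ≤ J (p - 2) f := by
    rw [← integral_finsetSum _ fun i _ => intS hn hI (g i)]
    unfold J
    rw [← integral_add hIp (integrable_finsetSum _ fun i _ => intS hn hI (g i))]
    refine integral_mono
      (hIp.add (integrable_finsetSum _ fun i _ => intS hn hI (g i))) hI fun y => ?_
    have h1 := bessel hn hmx.norm_one hg hfg y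
    have h2 : ‖E f y‖ ^ p = ‖E f y‖ ^ (p - 2) * ‖E f y‖ ^ 2 := by
      rw [← Real.rpow_natCast, ← Real.rpow_add_of_nonneg (norm_nonneg _) (by linarith)
        (by norm_num)]
      congr 1
      push_cast
      ring
    change ‖E f y‖ ^ p + ∑ i, ‖E f y‖ ^ (p - 2) * ‖E (g i) y‖ ^ 2 ≤ ‖E f y‖ ^ (p - 2)
    rw [h2, ← Finset.mul_sum, ← mul_add]
    calc ‖E f y‖ ^ (p - 2) * (‖E f y‖ ^ 2 + ∑ i, ‖E (g i) y‖ ^ 2)
        ≤ ‖E f y‖ ^ (p - 2) * 1 :=
          mul_le_mul_of_nonneg_left h1 (Real.rpow_nonneg (norm_nonneg _) _)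
      _ = ‖E f y‖ ^ (p - 2) := mul_one _
  rw [Finset.sum_congr rfl fun i _ => hval i, Finset.sum_const, Finset.card_univ,
    Fintype.card_fin, nsmul_eq_mul, hUr] at hsum
  have hW := finrank_Ws e he
  have hW2 : ((Module.finrank ℝ (Ws e) : ℕ) : ℝ) = 2 * (Module.finrank ℝ F : ℝ) - 1 := by
    have h1 : ((Module.finrank ℝ (Ws e) : ℕ) : ℝ) + 1 = 2 * (Module.finrank ℝ F : ℝ) := by
      exact_mod_cast hW
    linarith
  rw [hW2] at hsum
  calc J p f * (1 + (2 * (Module.finrank ℝ F : ℝ) - 1) / (p - 1))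
      = J p f + (2 * (Module.finrank ℝ F : ℝ) - 1) * (J p f / (p - 1)) := by ring
    _ ≤ J (p - 2) f := hsum

end Pool.Agent.TRC
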