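import Pool.Agent.TRC.Targets2

/-!
# Project TRC: VA3, the moments for `n = 3`
-/

set_option autoImplicit false

noncomputable section

open MeasureTheory Set Filter
open scoped ENNReal RealInnerProductSpace Topology

namespace Pool.Agent.TRC

namespace VA3_

/-- the value of the Taylor polynomial -/
def pq (n : ℕ) (r : ℚ) : ℕ → ℚ
  | 0 => 1
  | k + 1 => pq n r k + (-1) ^ (k + 1) * r ^ (2 * (k + 1)) / (Wn n (k + 1) : ℚ)

theorem W_eq (n k : ℕ) : W n k = (Wn n k : ℝ) := by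
  induction k with
  | zero => simp [W, Wn]
  | succ k ih =>
    have h : W n (k + 1) = W n k * ((2 * (k : ℝ) + 2) * ((n : ℝ) + 2 * k)) := by
      unfold W
      rw [Finset.prod_range_succ]
    rw [h, ih, Wn]
    push_cast
    ring

theorem P_eq (n : ℕ) (r : ℚ) (N : ℕ) : P n N (r : ℝ) = ((pq n r N : ℚ) : ℝ) := by
  induction N with
  | zero => simp [P, pq, W]
  | succ k ih =>
    have h : P n (k + 1) (r : ℝ) =
        P n k (r : ℝ) + (-1) ^ (k + 1) * (r : ℝ) ^ (2 * (k + 1)) / W n (k + 1) := by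
      unfold P
      rw [Finset.sum_range_succ]
    rw [h, ih, pq, W_eq]
    push_cast
    ring

theorem w27 : 10 ^ 70 ≤ Wn 3 27 := by decide +kernel

theorem w27' : 10 ^ 70 ≤ Wn 5 27 := by decide +kernel

theorem p1 : (-5440212 / 100000000 : ℚ) ≤ pq 3 10 26 := by decide +kernel

theorem p2 : pq 3 10 26 ≤ (-5440210 / 100000000 : ℚ) := by decide +kernel

theorem p3 : (-7846696 / 100000000 : ℚ) ≤ -(10 / 3) * pq 5 10 26 := by decide +kernel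

theorem p4 : -(10 / 3) * pq 5 10 26 ≤ (-7846694 / 100000000 : ℚ) := by decide +kernel

theorem a6 : (3925801 / 10000000 : ℚ) ≤
    10 ^ 3 * itg 3 (powL (cofs 3 10 1 64 26) 6) / 2 ^ (64 * 6) := by decide +kernel

theorem b6 : 10 ^ 3 * itg 3 (powL (cofs 3 10 1 64 26) 6) / 2 ^ (64 * 6) ≤
    (3925802 / 10000000 : ℚ) := by decide +kernel

theorem a8 : (2617987 / 10000000 : ℚ) ≤
    10 ^ 3 * itg 3 (powL (cofs 3 10 1 64 26) 8) / 2 ^ (64 * 8) := by decide +kernel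

theorem b8 : 10 ^ 3 * itg 3 (powL (cofs 3 10 1 64 26) 8) / 2 ^ (64 * 8) ≤
    (2617988 / 10000000 : ℚ) := by decide +kernel

theorem c10 : (0 : ℚ) ≤
    10 ^ 3 * itg 3 (powL (cofs 3 10 1 64 26) 10) / 2 ^ (64 * 10) := by decide +kernel

theorem b10 : 10 ^ 3 * itg 3 (powL (cofs 3 10 1 64 26) 10) / 2 ^ (64 * 10) ≤
    (1908954 / 10000000 : ℚ) := by decide +kernel

end VA3_

open VA3_ in
/-- VA3 -/
theorem p_VA3 (h_ENG : T_ENG) (h_TLR : T_TLR) : T_VA3 := by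
  intro φ φ' hB
  have hW : (10 : ℝ) ^ 54 / W 3 27 ≤ 1 / 10 ^ 16 := by
    rw [W_eq]
    have h1 : ((10 ^ 70 : ℕ) : ℝ) ≤ (Wn 3 27 : ℝ) := by exact_mod_cast w27
    push_cast at h1
    have h2 : (0 : ℝ) < (Wn 3 27 : ℝ) := lt_of_lt_of_le (by positivity) h1
    rw [div_le_div_iff₀ h2 (by positivity)]
    calc (10 : ℝ) ^ 54 * 10 ^ 16 = 10 ^ 70 := by ring
      _ ≤ 1 * (Wn 3 27 : ℝ) := by rw [one_mul]; exact le_of_eq_of_le (by norm_num) h1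
  have hW0 : (0 : ℝ) ≤ (10 : ℝ) ^ 54 / W 3 27 := by
    rw [W_eq]
    positivity
  have hW' : (10 : ℝ) ^ 54 / W 5 27 ≤ 1 / 10 ^ 16 := by
    rw [W_eq]
    have h1 : ((10 ^ 70 : ℕ) : ℝ) ≤ (Wn 5 27 : ℝ) := by exact_mod_cast w27'
    push_cast at h1
    have h2 : (0 : ℝ) < (Wn 5 27 : ℝ) := lt_of_lt_of_le (by positivity) h1
    rw [div_le_div_iff₀ h2 (by positivity)]
    calc (10 : ℝ) ^ 54 * 10 ^ 16 = 10 ^ 70 := by ring
      _ ≤ 1 * (Wn 5 27 : ℝ) := by rw [one_mul]; exact le_of_eq_of_le (by norm_num) h1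
  -- the moments on `[0, 10]`
  have key : ∀ (m : ℕ) (lo hi : ℚ), m ≤ 10 →
      lo ≤ 10 ^ 3 * itg 3 (powL (cofs 3 10 1 64 26) m) / 2 ^ (64 * m) →
      10 ^ 3 * itg 3 (powL (cofs 3 10 1 64 26) m) / 2 ^ (64 * m) ≤ hi →
      (lo : ℝ) - 1 / 10 ^ 9 ≤ (∫ r in (0 : ℝ)..10, φ r ^ m * r ^ (3 - 1)) ∧
        (∫ r in (0 : ℝ)..10, φ r ^ m * r ^ (3 - 1)) ≤ (hi : ℝ) + 1 / 10 ^ 9 := by
    intro m lo hi hm hlo hhi
    set δ : ℝ := ((26 : ℕ) + 1 : ℝ) / 2 ^ 64 + (10 : ℝ) ^ (2 * 26 + 2) / W 3 (26 + 1) with hδ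
    have h := h_ENG 3 φ φ' (by norm_num) hB 10 1 64 26 m (by norm_num) (by norm_num) 10
      δ (by norm_num) hδ
    have hδ0 : 0 ≤ δ := by
      rw [hδ]
      have : (0 : ℝ) ≤ ((26 : ℕ) + 1 : ℝ) / 2 ^ 64 := by positivity
      exact add_nonneg this hW0
    have hδ1 : δ ≤ 2 / 10 ^ 16 := by
      rw [hδ]
      have h1 : ((26 : ℕ) + 1 : ℝ) / 2 ^ 64 ≤ 1 / 10 ^ 16 := by norm_num
      have h2 : (10 : ℝ) ^ (2 * 26 + 2) / W 3 (26 + 1) ≤ 1 / 10 ^ 16 := hW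
      have h3 : (2 : ℝ) / 10 ^ 16 = 1 / 10 ^ 16 + 1 / 10 ^ 16 := by norm_num
      rw [h3]
      exact add_le_add h1 h2
    have hm' : (m : ℝ) ≤ 10 := by exact_mod_cast hm
    have hp : (1 + δ) ^ (m - 1) ≤ 512 := by
      have h1 : (1 + δ) ^ (m - 1) ≤ 2 ^ (m - 1) := by
        apply pow_le_pow_left₀ (by linarith)
        have : (2 : ℝ) / 10 ^ 16 ≤ 1 := by norm_num
        linarith
      have h2 : (2 : ℝ) ^ (m - 1) ≤ 2 ^ 9 := pow_le_pow_right₀ (by norm_num) (by omega)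
      have h3 : (2 : ℝ) ^ 9 = 512 := by norm_num
      linarith
    have herr : (10 : ℝ) ^ 3 / ((3 : ℕ) : ℝ) * (m * δ * (1 + δ) ^ (m - 1)) ≤ 1 / 10 ^ 9 := by
      have h1 : (m : ℝ) * δ * (1 + δ) ^ (m - 1) ≤ 10 * (2 / 10 ^ 16) * 512 := by
        apply mul_le_mul _ hp (by positivity) (by positivity)
        exact mul_le_mul hm' hδ1 hδ0 (by norm_num)
      have h2 : (10 : ℝ) ^ 3 / ((3 : ℕ) : ℝ) * (m * δ * (1 + δ) ^ (m - 1)) ≤
          (10 : ℝ) ^ 3 / ((3 : ℕ) : ℝ) * (10 * (2 / 10 ^ 16) * 512) :=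
        mul_le_mul_of_nonneg_left h1 (by positivity)
      refine h2.trans ?_
      norm_num
    have hl : (lo : ℝ) ≤
        10 ^ 3 * ((itg 3 (powL (cofs 3 10 1 64 26) m) : ℚ) : ℝ) / 2 ^ (64 * m) := by
      exact_mod_cast hlo
    have hh : 10 ^ 3 * ((itg 3 (powL (cofs 3 10 1 64 26) m) : ℚ) : ℝ) / 2 ^ (64 * m) ≤
        (hi : ℝ) := by
      exact_mod_cast hhi
    have h4 := abs_le.mp (h.trans herr)
    constructor
    · linarith [h4.1]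
    · linarith [h4.2]
  -- the values at `10`
  have e1 := hB.tay 26 10
  have e2 := hB.tay' 26 10
  have hP1 : P 3 26 10 = ((pq 3 10 26 : ℚ) : ℝ) := by
    have := P_eq 3 10 26
    push_cast at this
    exact this
  have hP2 : P (3 + 2) 26 10 = ((pq 5 10 26 : ℚ) : ℝ) := by
    have := P_eq 5 10 26
    push_cast at this
    exact this
  rw [hP1] at e1
  rw [hP2] at e2
  have hab : |(10 : ℝ)| = 10 := by norm_num
  rw [hab] at e1 e2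
  have q1 : (((-5440212 / 100000000 : ℚ)) : ℝ) ≤ ((pq 3 10 26 : ℚ) : ℝ) := by
    exact_mod_cast p1
  have q2 : ((pq 3 10 26 : ℚ) : ℝ) ≤ (((-5440210 / 100000000 : ℚ)) : ℝ) := by
    exact_mod_cast p2
  have q3 : (((-7846696 / 100000000 : ℚ)) : ℝ) ≤ ((-(10 / 3) * pq 5 10 26 : ℚ) : ℝ) := by
    exact_mod_cast p3
  have q4 : ((-(10 / 3) * pq 5 10 26 : ℚ) : ℝ) ≤ (((-7846694 / 100000000 : ℚ)) : ℝ) := by
    exact_mod_cast p4
  push_cast at q1 q2 q3 q4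
  have e1' := abs_le.mp (e1.trans hW)
  have e2b : (10 : ℝ) / ((3 : ℕ) : ℝ) * (10 ^ (2 * 26 + 2) / W (3 + 2) (26 + 1)) ≤ 1 / 10 ^ 15 := by
    have h1 : (10 : ℝ) ^ (2 * 26 + 2) / W (3 + 2) (26 + 1) ≤ 1 / 10 ^ 16 := hW'
    have h2 : (10 : ℝ) / ((3 : ℕ) : ℝ) * (10 ^ (2 * 26 + 2) / W (3 + 2) (26 + 1)) ≤
        (10 : ℝ) / ((3 : ℕ) : ℝ) * (1 / 10 ^ 16) := mul_le_mul_of_nonneg_left h1 (by positivity)
    refine h2.trans ?_
    norm_num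
  have e2' := abs_le.mp (e2.trans e2b)
  have f1 : -0.054403 ≤ φ 10 := by
    have := e1'.1
    norm_num at this q1 q2 ⊢
    linarith
  have f2 : φ 10 ≤ -0.054402 := by
    have := e1'.2
    norm_num at this q1 q2 ⊢
    linarith
  have g1 : -0.078467 ≤ φ' 10 := by
    have := e2'.1
    norm_num at this q3 q4 ⊢
    linarith
  have g2 : φ' 10 ≤ -0.078466 := by
    have := e2'.2
    norm_num at this q3 q4 ⊢
    linarith
  have hD : (10 : ℝ) ^ (3 - 1) * ((φ' 10 + (((3 : ℕ) : ℝ) - 1) / (2 * 10) * φ 10) ^ 2 /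
      (1 - (((3 : ℕ) : ℝ) - 1) * (((3 : ℕ) : ℝ) - 3) / 4 / 10 ^ 2) + φ 10 ^ 2) ≤ 1.0001 := by
    have h1 : (1 : ℝ) - (((3 : ℕ) : ℝ) - 1) * (((3 : ℕ) : ℝ) - 3) / 4 / 10 ^ 2 = 1 := by norm_num
    have h2 : (((3 : ℕ) : ℝ) - 1) / (2 * 10) = 1 / 10 := by norm_num
    rw [h1, h2, div_one]
    have h3 : -0.0839075 ≤ φ' 10 + 1 / 10 * φ 10 := by norm_num at *; linarith
    have h4 : φ' 10 + 1 / 10 * φ 10 ≤ 0 := by norm_num at *; linarith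
    have h5 : (φ' 10 + 1 / 10 * φ 10) ^ 2 ≤ 0.0839075 ^ 2 := by nlinarith
    have h6 : φ 10 ^ 2 ≤ 0.054403 ^ 2 := by nlinarith
    have h7 : (10 : ℝ) ^ (3 - 1) = 100 := by norm_num
    rw [h7]
    norm_num at h5 h6 ⊢
    linarith
  have hR : (((3 : ℕ) : ℝ) - 1) * (((3 : ℕ) : ℝ) - 3) / 4 < (10 : ℝ) ^ 2 := by norm_num
  have t6 := h_TLR 3 3 φ φ' (by norm_num) (by norm_num) hB 10 1.0001 (by norm_num) hR hD
  have t8 := h_TLR 3 4 φ φ' (by norm_num) (by norm_num) hB 10 1.0001 (by norm_num) hR hD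
  have t10 := h_TLR 3 5 φ φ' (by norm_num) (by norm_num) hB 10 1.0001 (by norm_num) hR hD
  have i6 := key 6 _ _ (by norm_num) a6 b6
  have i8 := key 8 _ _ (by norm_num) a8 b8
  have i10 := key 10 0 _ (by norm_num) c10 b10
  have x6 : (2 : ℝ) * ((3 : ℕ) : ℝ) = 6 := by norm_num
  have x8 : (2 : ℝ) * ((4 : ℕ) : ℝ) = 8 := by norm_num
  have x10 : (2 : ℝ) * ((5 : ℕ) : ℝ) = 10 := by norm_num
  rw [x6] at t6
  rw [x8] at t8
  rw [x10] at t10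
  have y6 : (∫ r in (0 : ℝ)..10, φ r ^ (2 * 3) * r ^ (3 - 1)) =
      ∫ r in (0 : ℝ)..10, φ r ^ 6 * r ^ (3 - 1) := rfl
  have y8 : (∫ r in (0 : ℝ)..10, φ r ^ (2 * 4) * r ^ (3 - 1)) =
      ∫ r in (0 : ℝ)..10, φ r ^ 8 * r ^ (3 - 1) := rfl
  have y10 : (∫ r in (0 : ℝ)..10, φ r ^ (2 * 5) * r ^ (3 - 1)) =
      ∫ r in (0 : ℝ)..10, φ r ^ 10 * r ^ (3 - 1) := rfl
  rw [y6] at t6
  rw [y8] at t8
  rw [y10] at t10
  have z6 : (1.0001 : ℝ) ^ 3 / (((3 * (3 - 1) - 3 : ℕ) : ℝ) * 10 ^ (3 * (3 - 1) - 3)) ≤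
      0.000334 := by norm_num
  have z8 : (1.0001 : ℝ) ^ 4 / (((4 * (3 - 1) - 3 : ℕ) : ℝ) * 10 ^ (4 * (3 - 1) - 3)) ≤
      0.000002002 := by norm_num
  have z10 : (1.0001 : ℝ) ^ 5 / (((5 * (3 - 1) - 3 : ℕ) : ℝ) * 10 ^ (5 * (3 - 1) - 3)) ≤
      0.0000001 := by norm_num
  obtain ⟨i6a, i6b⟩ := i6
  obtain ⟨i8a, i8b⟩ := i8
  obtain ⟨_, i10b⟩ := i10
  push_cast at i6a i6b i8a i8b i10b
  refine ⟨?_, ?_, ?_, ?_, ?_⟩
  · have := t6.1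
    norm_num at i6a ⊢
    linarith
  · have := t6.2
    norm_num at i6b z6 ⊢
    linarith
  · have := t8.1
    norm_num at i8a ⊢
    linarith
  · have := t8.2
    norm_num at i8b z8 ⊢
    linarith
  · have := t10.2
    norm_num at i10b z10 ⊢
    linarith

end Pool.Agent.TRC
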