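import Pool.Agent.TRC.Targets2

set_option autoImplicit false

noncomputable section

open MeasureTheory Set Filter
open scoped ENNReal RealInnerProductSpace Topology

namespace Pool.Agent.TRC

open Pool.Agent.ExpMax

namespace VA4_

/-- `W` over the rationals -/
def Wq (n k : ℕ) : ℚ := ∏ j ∈ Finset.range k, ((2 * (j : ℚ) + 2) * ((n : ℚ) + 2 * j))

/-- `P` over the rationals -/
def Pq (n N : ℕ) (r : ℚ) : ℚ := ∑ k ∈ Finset.range (N + 1), (-1) ^ k * r ^ (2 * k) / Wq n k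

theorem castW (n k : ℕ) : W n k = ((Wq n k : ℚ) : ℝ) := by
  unfold W Wq
  push_cast
  rfl

theorem castP (n N : ℕ) (r : ℚ) : P n N (r : ℝ) = ((Pq n N r : ℚ) : ℝ) := by
  unfold P Pq
  push_cast
  refine Finset.sum_congr rfl fun k _ => ?_
  rw [castW]

theorem q1 : 0.0086945 ≤ Pq 4 26 10 ∧ Pq 4 26 10 ≤ 0.0086946 := by
  decide +kernel

theorem q2 : 0.020370425 ≤ Pq 6 26 10 ∧ Pq 6 26 10 ≤ 0.020370426 := by
  decide +kernel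

theorem q3 : 0 < Wq 4 27 ∧ 10 ^ 54 / Wq 4 27 ≤ 1 / 10 ^ 19 := by
  decide +kernel

theorem q4 : 0 < Wq 6 27 ∧ 10 ^ 54 / Wq 6 27 ≤ 1 / 10 ^ 19 := by
  decide +kernel

theorem i4 : (1.609556 : ℚ) * 2 ^ (64 * (2 * 2)) ≤
      10 ^ 4 * itg 4 (powL (cofs 4 10 1 64 26) (2 * 2)) ∧
    10 ^ 4 * itg 4 (powL (cofs 4 10 1 64 26) (2 * 2)) ≤
      (1.609557 : ℚ) * 2 ^ (64 * (2 * 2)) := by
  decide +kernel

theorem i6 : (0.750244 : ℚ) * 2 ^ (64 * (2 * 3)) ≤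
      10 ^ 4 * itg 4 (powL (cofs 4 10 1 64 26) (2 * 3)) ∧
    10 ^ 4 * itg 4 (powL (cofs 4 10 1 64 26) (2 * 3)) ≤
      (0.750245 : ℚ) * 2 ^ (64 * (2 * 3)) := by
  decide +kernel

theorem i8 : (0.4402305 : ℚ) * 2 ^ (64 * (2 * 4)) ≤
      10 ^ 4 * itg 4 (powL (cofs 4 10 1 64 26) (2 * 4)) ∧
    10 ^ 4 * itg 4 (powL (cofs 4 10 1 64 26) (2 * 4)) ≤
      (0.4402306 : ℚ) * 2 ^ (64 * (2 * 4)) := by
  decide +kernel

theorem i10 : (0.289104 : ℚ) * 2 ^ (64 * (2 * 5)) ≤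
      10 ^ 4 * itg 4 (powL (cofs 4 10 1 64 26) (2 * 5)) ∧
    10 ^ 4 * itg 4 (powL (cofs 4 10 1 64 26) (2 * 5)) ≤
      (0.289105 : ℚ) * 2 ^ (64 * (2 * 5)) := by
  decide +kernel

theorem w4 : (10 : ℝ) ^ 54 / W 4 27 ≤ 1 / 10 ^ 19 := by
  rw [castW]
  have h : ((10 ^ 54 / Wq 4 27 : ℚ) : ℝ) ≤ ((1 / 10 ^ 19 : ℚ) : ℝ) := Rat.cast_le.2 q3.2
  push_cast at h
  exact h

theorem w6 : (10 : ℝ) ^ 54 / W 6 27 ≤ 1 / 10 ^ 19 := by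
  rw [castW]
  have h : ((10 ^ 54 / Wq 6 27 : ℚ) : ℝ) ≤ ((1 / 10 ^ 19 : ℚ) : ℝ) := Rat.cast_le.2 q4.2
  push_cast at h
  exact h

theorem w4pos : (0 : ℝ) < W 4 27 := by
  rw [castW]
  exact_mod_cast q3.1

/-- the condition on `D` -/
theorem cond {φ φ' : ℝ → ℝ} (h : Bes 4 φ φ') :
    (10 : ℝ) ^ (4 - 1) * ((φ' 10 + (((4 : ℕ) : ℝ) - 1) / (2 * 10) * φ 10) ^ 2 /
      (1 - (((4 : ℕ) : ℝ) - 1) * (((4 : ℕ) : ℝ) - 3) / 4 / 10 ^ 2) + φ 10 ^ 2) ≤ 2.5567 := by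
  have h1 := h.tay 26 10
  have h2 := h.tay' 26 10
  have e1 : P 4 26 10 = ((Pq 4 26 10 : ℚ) : ℝ) := by
    have := castP 4 26 10
    push_cast at this
    exact this
  have e2 : P (4 + 2) 26 10 = ((Pq 6 26 10 : ℚ) : ℝ) := by
    have := castP 6 26 10
    push_cast at this
    exact this
  rw [abs_of_pos (by norm_num : (0 : ℝ) < 10)] at h1 h2
  rw [e1] at h1
  rw [e2] at h2
  have h3 : |φ 10 - ((Pq 4 26 10 : ℚ) : ℝ)| ≤ 1 / 10 ^ 19 := h1.trans w4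
  have h4 : |φ' 10 + 10 / ((4 : ℕ) : ℝ) * ((Pq 6 26 10 : ℚ) : ℝ)| ≤
      10 / ((4 : ℕ) : ℝ) * (1 / 10 ^ 19) :=
    h2.trans (mul_le_mul_of_nonneg_left w6 (by positivity))
  have a1 : (0.0086945 : ℝ) ≤ ((Pq 4 26 10 : ℚ) : ℝ) := by
    have : (((0.0086945 : ℚ)) : ℝ) ≤ ((Pq 4 26 10 : ℚ) : ℝ) := by exact_mod_cast q1.1
    norm_num at this ⊢
    exact this
  have a2 : ((Pq 4 26 10 : ℚ) : ℝ) ≤ (0.0086946 : ℝ) := by
    have : ((Pq 4 26 10 : ℚ) : ℝ) ≤ (((0.0086946 : ℚ)) : ℝ) := by exact_mod_cast q1.2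
    norm_num at this ⊢
    exact this
  have a3 : (0.020370425 : ℝ) ≤ ((Pq 6 26 10 : ℚ) : ℝ) := by
    have : (((0.020370425 : ℚ)) : ℝ) ≤ ((Pq 6 26 10 : ℚ) : ℝ) := by exact_mod_cast q2.1
    norm_num at this ⊢
    exact this
  have a4 : ((Pq 6 26 10 : ℚ) : ℝ) ≤ (0.020370426 : ℝ) := by
    have : ((Pq 6 26 10 : ℚ) : ℝ) ≤ (((0.020370426 : ℚ)) : ℝ) := by exact_mod_cast q2.2
    norm_num at this ⊢
    exact this
  have b1 := abs_le.1 h3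
  have b2 := abs_le.1 h4
  have c1 : 0.00869 ≤ φ 10 := by norm_num at b1 a1 ⊢; linarith [b1.1]
  have c2 : φ 10 ≤ 0.008695 := by norm_num at b1 a2 ⊢; linarith [b1.2]
  have c3 : -0.0509261 ≤ φ' 10 := by norm_num at b2 a4 ⊢; linarith [b2.1]
  have c4 : φ' 10 ≤ -0.0509260 := by norm_num at b2 a3 ⊢; linarith [b2.2]
  have d1 : -0.0496227 ≤ φ' 10 + (((4 : ℕ) : ℝ) - 1) / (2 * 10) * φ 10 := by
    norm_num at c1 c3 ⊢; linarith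
  have d2 : φ' 10 + (((4 : ℕ) : ℝ) - 1) / (2 * 10) * φ 10 ≤ 0 := by
    norm_num at c2 c4 ⊢; linarith
  set x := φ' 10 + (((4 : ℕ) : ℝ) - 1) / (2 * 10) * φ 10 with hx
  have e3 : x ^ 2 ≤ 0.0496227 ^ 2 := by
    rw [← sq_abs, abs_of_nonpos d2]
    exact pow_le_pow_left₀ (by linarith) (by linarith) 2
  have e4 : φ 10 ^ 2 ≤ 0.008695 ^ 2 := pow_le_pow_left₀ (by linarith) c2 2
  have e5 : (1 - (((4 : ℕ) : ℝ) - 1) * (((4 : ℕ) : ℝ) - 3) / 4 / 10 ^ 2) = 0.9925 := by norm_num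
  rw [e5]
  have e6 : x ^ 2 / 0.9925 ≤ 0.0496227 ^ 2 / 0.9925 :=
    div_le_div_of_nonneg_right e3 (by norm_num)
  have e7 : (10 : ℝ) ^ (4 - 1) * (x ^ 2 / 0.9925 + φ 10 ^ 2) ≤
      10 ^ (4 - 1) * (0.0496227 ^ 2 / 0.9925 + 0.008695 ^ 2) :=
    mul_le_mul_of_nonneg_left (add_le_add e6 e4) (by positivity)
  refine e7.trans ?_
  norm_num

theorem key (h_ENG : T_ENG) (h_TLR : T_TLR) {φ φ' : ℝ → ℝ} (h : Bes 4 φ φ') (k : ℕ)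
    (hk : 2 ≤ k) (hk5 : k ≤ 5) (lo hi : ℚ)
    (h1 : lo * 2 ^ (64 * (2 * k)) ≤ 10 ^ 4 * itg 4 (powL (cofs 4 10 1 64 26) (2 * k)))
    (h2 : 10 ^ 4 * itg 4 (powL (cofs 4 10 1 64 26) (2 * k)) ≤ hi * 2 ^ (64 * (2 * k))) :
    (lo : ℝ) - 1 / 10 ^ 9 ≤ a 4 φ (2 * k) ∧
      a 4 φ (2 * k) ≤ hi + 1 / 10 ^ 9 +
        2.5567 ^ k / (((k * (4 - 1) - 4 : ℕ) : ℝ) * 10 ^ (k * (4 - 1) - 4)) := by
  have hT := h_TLR 4 k φ φ' (by norm_num) hk h 10 2.5567 (by norm_num) (by norm_num) (cond h)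
  set δ : ℝ := (((26 : ℕ) : ℝ) + 1) / 2 ^ 64 + 10 ^ (2 * 26 + 2) / W 4 (26 + 1) with hδ
  have hE := h_ENG 4 φ φ' (by norm_num) h 10 1 64 26 (2 * k) (by norm_num) (by norm_num) 10 δ
    (by norm_num) hδ
  have hw : (10 : ℝ) ^ (2 * 26 + 2) / W 4 (26 + 1) ≤ 1 / 10 ^ 19 := w4
  have hw0 : 0 ≤ (10 : ℝ) ^ (2 * 26 + 2) / W 4 (26 + 1) := div_nonneg (by positivity) w4pos.le
  have hδ0 : 0 ≤ δ := by rw [hδ]; positivity
  have hδ1 : δ ≤ 1 / 10 ^ 17 := by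
    rw [hδ]
    have : ((26 : ℕ) : ℝ) + 1 = 27 := by norm_num
    rw [this]
    have h5 : (27 : ℝ) / 2 ^ 64 ≤ 5 / 10 ^ 18 := by norm_num
    norm_num at hw h5 ⊢
    linarith
  have hpow : (1 + δ) ^ (2 * k - 1) ≤ 2 ^ 9 := by
    have h5 : (1 + δ) ^ (2 * k - 1) ≤ 2 ^ (2 * k - 1) :=
      pow_le_pow_left₀ (by linarith) (by norm_num at hδ1; linarith) _
    exact h5.trans (pow_le_pow_right₀ (by norm_num) (by omega))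
  have hkr : ((2 * k : ℕ) : ℝ) ≤ 10 := by
    have : 2 * k ≤ 10 := by omega
    exact_mod_cast this
  have herr : (10 : ℝ) ^ 4 / ((4 : ℕ) : ℝ) * (((2 * k : ℕ) : ℝ) * δ * (1 + δ) ^ (2 * k - 1)) ≤
      1 / 10 ^ 9 := by
    have h5 : ((2 * k : ℕ) : ℝ) * δ * (1 + δ) ^ (2 * k - 1) ≤ 10 * (1 / 10 ^ 17) * 2 ^ 9 := by
      refine mul_le_mul (mul_le_mul hkr hδ1 hδ0 (by norm_num)) hpow (by positivity) (by positivity)
    have h6 := mul_le_mul_of_nonneg_left h5 (by positivity : (0 : ℝ) ≤ 10 ^ 4 / ((4 : ℕ) : ℝ))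
    refine h6.trans ?_
    norm_num
  have hE2 := abs_le.1 (hE.trans herr)
  set I := ∫ r in (0 : ℝ)..10, φ r ^ (2 * k) * r ^ (4 - 1) with hI
  set Q : ℚ := itg 4 (powL (cofs 4 10 1 64 26) (2 * k)) with hQ
  have hp : (0 : ℝ) < 2 ^ (64 * (2 * k)) := by positivity
  have g1 : (lo : ℝ) ≤ 10 ^ 4 * (Q : ℝ) / 2 ^ (64 * (2 * k)) := by
    rw [le_div_iff₀ hp]
    exact_mod_cast h1
  have g2 : 10 ^ 4 * (Q : ℝ) / 2 ^ (64 * (2 * k)) ≤ (hi : ℝ) := by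
    rw [div_le_iff₀ hp]
    exact_mod_cast h2
  constructor
  · linarith [hE2.1, hT.1]
  · linarith [hE2.2, hT.2]

end VA4_

theorem p_VA4 (h_ENG : T_ENG) (h_TLR : T_TLR) : T_VA4 := by
  intro φ φ' h
  have k2 := VA4_.key h_ENG h_TLR h 2 (by norm_num) (by norm_num) _ _ VA4_.i4.1 VA4_.i4.2
  have k3 := VA4_.key h_ENG h_TLR h 3 (by norm_num) (by norm_num) _ _ VA4_.i6.1 VA4_.i6.2
  have k4 := VA4_.key h_ENG h_TLR h 4 (by norm_num) (by norm_num) _ _ VA4_.i8.1 VA4_.i8.2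
  have k5 := VA4_.key h_ENG h_TLR h 5 (by norm_num) (by norm_num) _ _ VA4_.i10.1 VA4_.i10.2
  have e2 : (2 : ℝ) * ((2 : ℕ) : ℝ) = 4 := by norm_num
  have e3 : (2 : ℝ) * ((3 : ℕ) : ℝ) = 6 := by norm_num
  have e4 : (2 : ℝ) * ((4 : ℕ) : ℝ) = 8 := by norm_num
  have e5 : (2 : ℝ) * ((5 : ℕ) : ℝ) = 10 := by norm_num
  rw [e2] at k2
  rw [e3] at k3
  rw [e4] at k4
  rw [e5] at k5
  norm_num at k2 k3 k4 k5
  refine ⟨?_, ?_, ?_, ?_, ?_, ?_⟩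
  · norm_num
    linarith [k2.2]
  · norm_num
    linarith [k3.1]
  · norm_num
    linarith [k3.2]
  · norm_num
    linarith [k4.1]
  · norm_num
    linarith [k4.2]
  · norm_num
    linarith [k5.2]

end Pool.Agent.TRC
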