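import Pool.Agent.TRC.Targets2

/-!
# Project TRC: the target VA6 (the moments for `n = 6`)
-/

set_option autoImplicit false

noncomputable section

open MeasureTheory Set Filter Pool.Agent.ExpMax

namespace Pool.Agent.TRC

namespace VA6_

theorem W_cast (n k : ℕ) : W n k = ((Wn n k : ℕ) : ℝ) := by
  induction k with
  | zero => simp [W, Wn]
  | succ k ih =>
    unfold W at ih ⊢
    rw [Finset.prod_range_succ, ih]
    simp only [Wn]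
    push_cast
    ring

/-- the Taylor polynomial over the rationals -/
def PQ (n : ℕ) : ℕ → ℚ → ℚ
  | 0, _ => 1
  | N + 1, r => PQ n N r + (-1) ^ (N + 1) * r ^ (2 * (N + 1)) / (Wn n (N + 1) : ℚ)

theorem P_cast (n N : ℕ) (r : ℚ) : P n N (r : ℝ) = ((PQ n N r : ℚ) : ℝ) := by
  induction N with
  | zero => simp [P, PQ, W]
  | succ N ih =>
    unfold P at ih ⊢
    rw [Finset.sum_range_succ, ih, W_cast]
    simp only [PQ]
    push_cast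
    ring

theorem q4 : (10 : ℚ) ^ 6 * itg 6 (powL (cofs 6 10 1 64 26) 4) / 2 ^ (64 * 4) ≤
    1842767 / 100000 := by
  decide +kernel

theorem q6 : (61813566 / 10000000 : ℚ) ≤
      (10 : ℚ) ^ 6 * itg 6 (powL (cofs 6 10 1 64 26) 6) / 2 ^ (64 * 6) ∧
    (10 : ℚ) ^ 6 * itg 6 (powL (cofs 6 10 1 64 26) 6) / 2 ^ (64 * 6) ≤ 61813567 / 10000000 := by
  decide +kernel

theorem q8 : (27850858 / 10000000 : ℚ) ≤
      (10 : ℚ) ^ 6 * itg 6 (powL (cofs 6 10 1 64 26) 8) / 2 ^ (64 * 8) ∧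
    (10 : ℚ) ^ 6 * itg 6 (powL (cofs 6 10 1 64 26) 8) / 2 ^ (64 * 8) ≤ 27850859 / 10000000 := by
  decide +kernel

theorem q10 : (10 : ℚ) ^ 6 * itg 6 (powL (cofs 6 10 1 64 26) 10) / 2 ^ (64 * 10) ≤
    14828511 / 10000000 := by
  decide +kernel

theorem qW : (10 : ℚ) ^ 54 / (Wn 6 27 : ℚ) ≤ 1 / 10 ^ 17 := by
  decide +kernel

theorem qW' : (10 : ℚ) ^ 54 / (Wn 8 27 : ℚ) ≤ 1 / 10 ^ 17 := by
  decide +kernel

theorem qP : (203704 / 10000000 : ℚ) ≤ PQ 6 26 10 ∧ PQ 6 26 10 ≤ 203705 / 10000000 := by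
  decide +kernel

theorem qP' : (28022 / 10000000 : ℚ) ≤ PQ 8 26 10 ∧ PQ 8 26 10 ≤ 28023 / 10000000 := by
  decide +kernel

/-- the error of the coefficients -/
def dl : ℝ := ((26 : ℕ) + 1 : ℝ) / 2 ^ 64 + (10 : ℝ) ^ (2 * 26 + 2) / W 6 (26 + 1)

theorem W_pos (n k : ℕ) (hn : 1 ≤ n) : 0 < W n k := by
  unfold W
  have : (1 : ℝ) ≤ n := by exact_mod_cast hn
  exact Finset.prod_pos fun j _ => by positivity

theorem dl_nonneg : 0 ≤ dl := by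
  have := W_pos 6 27 (by norm_num)
  unfold dl
  positivity

theorem rW : (10 : ℝ) ^ 54 / W 6 27 ≤ 1 / 10 ^ 17 := by
  rw [W_cast]
  have h := (Rat.cast_le (K := ℝ)).2 qW
  push_cast at h
  exact h

theorem rW' : (10 : ℝ) ^ 54 / W 8 27 ≤ 1 / 10 ^ 17 := by
  rw [W_cast]
  have h := (Rat.cast_le (K := ℝ)).2 qW'
  push_cast at h
  exact h

theorem dl_le : dl ≤ 1 / 10 ^ 15 := by
  have h := rW
  unfold dl
  norm_num at h ⊢
  linarith

theorem err (m : ℕ) (hm : m ≤ 10) :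
    (10 : ℝ) ^ 6 / (6 : ℕ) * (m * dl * (1 + dl) ^ (m - 1)) ≤ 1 / 10 ^ 6 := by
  have h0 := dl_nonneg
  have h1 := dl_le
  have h2 : (1 + dl) ^ (m - 1) ≤ 512 := by
    calc (1 + dl) ^ (m - 1) ≤ (2 : ℝ) ^ (m - 1) := by
          refine pow_le_pow_left₀ (by linarith) ?_ _
          norm_num at h1 ⊢
          linarith
      _ ≤ (2 : ℝ) ^ 9 := pow_le_pow_right₀ (by norm_num) (by omega)
      _ = 512 := by norm_num
  have h3 : (m : ℝ) ≤ 10 := by exact_mod_cast hm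
  have h4 : (m : ℝ) * dl ≤ 10 * (1 / 10 ^ 15) :=
    mul_le_mul h3 h1 h0 (by norm_num)
  have h5 : (m : ℝ) * dl * (1 + dl) ^ (m - 1) ≤ 10 * (1 / 10 ^ 15) * 512 :=
    mul_le_mul h4 h2 (by positivity) (by positivity)
  calc (10 : ℝ) ^ 6 / (6 : ℕ) * (m * dl * (1 + dl) ^ (m - 1))
      ≤ (10 : ℝ) ^ 6 / (6 : ℕ) * (10 * (1 / 10 ^ 15) * 512) :=
        mul_le_mul_of_nonneg_left h5 (by positivity)
    _ ≤ 1 / 10 ^ 6 := by norm_num

theorem int (hE : T_ENG) {φ φ' : ℝ → ℝ} (h : Bes 6 φ φ') (m : ℕ) (hm : m ≤ 10) :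
    |(∫ r in (0 : ℝ)..10, φ r ^ m * r ^ (6 - 1)) -
      (((10 : ℚ) ^ 6 * itg 6 (powL (cofs 6 10 1 64 26) m) / 2 ^ (64 * m) : ℚ) : ℝ)| ≤
    1 / 10 ^ 6 := by
  have h1 := hE 6 φ φ' (by norm_num) h 10 1 64 26 m (by norm_num) (by norm_num) 10 dl
    (by norm_num) rfl
  have h2 := err m hm
  refine le_trans (le_of_eq ?_) (h1.trans h2)
  push_cast
  rfl

/-- the bound for `φ` and `φ'` at `10` -/
theorem bD {φ φ' : ℝ → ℝ} (h : Bes 6 φ φ') :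
    (10 : ℝ) ^ (6 - 1) * ((φ' 10 + (((6 : ℕ) : ℝ) - 1) / (2 * 10) * φ 10) ^ 2 /
      (1 - (((6 : ℕ) : ℝ) - 1) * (((6 : ℕ) : ℝ) - 3) / 4 / 10 ^ 2) + φ 10 ^ 2) ≤ 41515 / 1000 := by
  have h1 := h.tay 26 10
  have h2 := h.tay' 26 10
  have e1 : P 6 26 10 = ((PQ 6 26 10 : ℚ) : ℝ) := by
    have := P_cast 6 26 10
    push_cast at this
    exact this
  have e2 : P 8 26 10 = ((PQ 8 26 10 : ℚ) : ℝ) := by
    have := P_cast 8 26 10
    push_cast at this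
    exact this
  have a1 := (Rat.cast_le (K := ℝ)).2 qP.1
  have a2 := (Rat.cast_le (K := ℝ)).2 qP.2
  have a3 := (Rat.cast_le (K := ℝ)).2 qP'.1
  have a4 := (Rat.cast_le (K := ℝ)).2 qP'.2
  rw [← e1] at a1 a2
  rw [← e2] at a3 a4
  push_cast at a1 a2 a3 a4
  have w1 := rW
  have w2 := rW'
  have t1 : |(10 : ℝ)| ^ (2 * 26 + 2) / W 6 (26 + 1) ≤ 1 / 10 ^ 17 := by
    rw [abs_of_pos (by norm_num)]
    exact w1
  have t2 : |(10 : ℝ)| / ((6 : ℕ) : ℝ) * (|(10 : ℝ)| ^ (2 * 26 + 2) / W (6 + 2) (26 + 1)) ≤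
      2 * (1 / 10 ^ 17) := by
    rw [abs_of_pos (by norm_num)]
    refine mul_le_mul (by norm_num) w2 ?_ (by norm_num)
    have := W_pos 8 27 (by norm_num)
    positivity
  have s1 := abs_le.1 (h1.trans t1)
  have s2 := abs_le.1 (h2.trans t2)
  simp only [show 6 + 2 = 8 from rfl] at s2
  set x := φ 10 with hx
  set y := φ' 10 with hy
  set p := P 6 26 10 with hp
  set q := P 8 26 10 with hq
  push_cast at s1 s2 ⊢
  have x1 : (203703 / 10000000 : ℝ) ≤ x := by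
    norm_num at s1 a1 ⊢
    linarith [s1.1]
  have x2 : x ≤ (203706 / 10000000 : ℝ) := by
    norm_num at s1 a2 ⊢
    linarith [s1.2]
  have y1 : (-46706 / 10000000 : ℝ) ≤ y := by
    norm_num at s2 a4 ⊢
    linarith [s2.1]
  have y2 : y ≤ (-46702 / 10000000 : ℝ) := by
    norm_num at s2 a3 ⊢
    linarith [s2.2]
  have z1 : 0 ≤ y + (6 - 1) / (2 * 10) * x := by linarith
  have z2 : y + (6 - 1) / (2 * 10) * x ≤ 4225 / 10000000 := by linarith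
  have z3 : (y + (6 - 1) / (2 * 10) * x) ^ 2 ≤ (4225 / 10000000) ^ 2 :=
    pow_le_pow_left₀ z1 z2 2
  have z4 : x ^ 2 ≤ (203706 / 10000000) ^ 2 := pow_le_pow_left₀ (by linarith) x2 2
  norm_num at z3 z4 ⊢
  linarith

theorem main (hE : T_ENG) (hT : T_TLR) : T_VA6 := by
  intro φ φ' h
  have hD := bD h
  have k6 : (((6 : ℕ) : ℝ) - 1) * (((6 : ℕ) : ℝ) - 3) / 4 < (10 : ℝ) ^ 2 := by norm_num
  have t4 := hT 6 2 φ φ' (by norm_num) (by norm_num) h 10 (41515 / 1000) (by norm_num) k6 hD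
  have t6 := hT 6 3 φ φ' (by norm_num) (by norm_num) h 10 (41515 / 1000) (by norm_num) k6 hD
  have t8 := hT 6 4 φ φ' (by norm_num) (by norm_num) h 10 (41515 / 1000) (by norm_num) k6 hD
  have t10 := hT 6 5 φ φ' (by norm_num) (by norm_num) h 10 (41515 / 1000) (by norm_num) k6 hD
  have i4 := abs_le.1 (int hE h 4 (by norm_num))
  have i6 := abs_le.1 (int hE h 6 (by norm_num))
  have i8 := abs_le.1 (int hE h 8 (by norm_num))
  have i10 := abs_le.1 (int hE h 10 (by norm_num))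
  have r4 := (Rat.cast_le (K := ℝ)).2 q4
  have r6 := (Rat.cast_le (K := ℝ)).2 q6.1
  have r6' := (Rat.cast_le (K := ℝ)).2 q6.2
  have r8 := (Rat.cast_le (K := ℝ)).2 q8.1
  have r8' := (Rat.cast_le (K := ℝ)).2 q8.2
  have r10 := (Rat.cast_le (K := ℝ)).2 q10
  have e4 : (2 * ((2 : ℕ) : ℝ)) = 4 := by norm_num
  have e6 : (2 * ((3 : ℕ) : ℝ)) = 6 := by norm_num
  have e8 : (2 * ((4 : ℕ) : ℝ)) = 8 := by norm_num
  have e10 : (2 * ((5 : ℕ) : ℝ)) = 10 := by norm_num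
  rw [e4] at t4
  rw [e6] at t6
  rw [e8] at t8
  rw [e10] at t10
  simp only [show 2 * 2 = 4 from rfl] at t4
  simp only [show 2 * 3 = 6 from rfl] at t6
  simp only [show 2 * 4 = 8 from rfl] at t8
  simp only [show 2 * 5 = 10 from rfl] at t10
  generalize (((10 : ℚ) ^ 6 * itg 6 (powL (cofs 6 10 1 64 26) 4) / 2 ^ (64 * 4) : ℚ)) = v4 at *
  generalize (((10 : ℚ) ^ 6 * itg 6 (powL (cofs 6 10 1 64 26) 6) / 2 ^ (64 * 6) : ℚ)) = v6 at *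
  generalize (((10 : ℚ) ^ 6 * itg 6 (powL (cofs 6 10 1 64 26) 8) / 2 ^ (64 * 8) : ℚ)) = v8 at *
  generalize (((10 : ℚ) ^ 6 * itg 6 (powL (cofs 6 10 1 64 26) 10) / 2 ^ (64 * 10) : ℚ)) = v10 at *
  generalize (∫ r in (0 : ℝ)..10, φ r ^ 4 * r ^ (6 - 1)) = w4 at *
  generalize (∫ r in (0 : ℝ)..10, φ r ^ 6 * r ^ (6 - 1)) = w6 at *
  generalize (∫ r in (0 : ℝ)..10, φ r ^ 8 * r ^ (6 - 1)) = w8 at *
  generalize (∫ r in (0 : ℝ)..10, φ r ^ 10 * r ^ (6 - 1)) = w10 at *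
  push_cast at r4 r6 r6' r8 r8' r10
  obtain ⟨i4a, i4b⟩ := i4
  obtain ⟨i6a, i6b⟩ := i6
  obtain ⟨i8a, i8b⟩ := i8
  obtain ⟨i10a, i10b⟩ := i10
  obtain ⟨t4a, t4b⟩ := t4
  obtain ⟨t6a, t6b⟩ := t6
  obtain ⟨t8a, t8b⟩ := t8
  obtain ⟨t10a, t10b⟩ := t10
  norm_num at t4b t6b t8b t10b i4a i4b i6a i6b i8a i8b i10a i10b
  norm_num at r4 r6 r6' r8 r8' r10
  refine ⟨?_, ?_, ?_, ?_, ?_, ?_⟩ <;> norm_num <;> linarith

end VA6_

/-- VA6. -/
theorem p_VA6 (h_ENG : T_ENG) (h_TLR : T_TLR) : T_VA6 := VA6_.main h_ENG h_TLR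

end Pool.Agent.TRC
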