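import Pool.Agent.TRC.Targets2

/-!
# Project TRC: the moments for `n = 7`
-/

set_option autoImplicit false

noncomputable section

open MeasureTheory Set Filter
open scoped ENNReal RealInnerProductSpace Topology

namespace Pool.Agent.TRC

open Pool.Agent.ExpMax

namespace VA7_

/-- `W n k` as a rational number. -/
def WQ (n k : ℕ) : ℚ := ∏ j ∈ Finset.range k, ((2 * (j : ℚ) + 2) * ((n : ℚ) + 2 * j))

/-- `P n N r` as a rational number. -/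
def PQ (n N : ℕ) (r : ℚ) : ℚ := ∑ k ∈ Finset.range (N + 1), (-1) ^ k * r ^ (2 * k) / WQ n k

/-- The approximate moments. -/
def JQ (m : ℕ) : ℚ := (10 : ℚ) ^ 7 * itg 7 (powL (cofs 7 10 1 64 26) m) / 2 ^ (64 * m)

theorem WQ_cast (n k : ℕ) : ((WQ n k : ℚ) : ℝ) = W n k := by
  unfold WQ W
  push_cast
  rfl

theorem PQ_cast (n N : ℕ) (r : ℚ) : ((PQ n N r : ℚ) : ℝ) = P n N (r : ℝ) := by
  unfold PQ P
  push_cast
  refine Finset.sum_congr rfl fun k _ => ?_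
  rw [WQ_cast]

theorem q_del : (27 : ℚ) / 2 ^ 64 + 10 ^ 54 / WQ 7 27 ≤ 2 / 10 ^ 18 := by decide +kernel

theorem q_er1 : (10 : ℚ) ^ 54 / WQ 7 27 ≤ 1 / 10 ^ 12 := by decide +kernel

theorem q_er2 : (10 : ℚ) ^ 54 / WQ 9 27 ≤ 1 / 10 ^ 12 := by decide +kernel

theorem q_p1 : 0.0116913 ≤ PQ 7 26 10 ∧ PQ 7 26 10 ≤ 0.0116913291 := by decide +kernel

theorem q_p2 : -0.0041470638 ≤ PQ 9 26 10 ∧ PQ 9 26 10 ≤ -0.0041470 := by decide +kernel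

theorem q4 : JQ 4 ≤ 84.685306 := by decide +kernel

theorem q6 : JQ 6 ≤ 23.8452302 := by decide +kernel

theorem q6' : 23.8452301 ≤ JQ 6 := by decide +kernel

theorem q8 : JQ 8 ≤ 9.4111684 := by decide +kernel

theorem q8' : 9.4111683 ≤ JQ 8 := by decide +kernel

theorem q10 : JQ 10 ≤ 4.5118331 := by decide +kernel

theorem er1 : (10 : ℝ) ^ 54 / W 7 27 ≤ 1 / 10 ^ 12 := by
  have h := (Rat.cast_le (K := ℝ)).2 q_er1
  push_cast at h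
  rw [WQ_cast] at h
  exact h

theorem er2 : (10 : ℝ) ^ 54 / W 9 27 ≤ 1 / 10 ^ 12 := by
  have h := (Rat.cast_le (K := ℝ)).2 q_er2
  push_cast at h
  rw [WQ_cast] at h
  exact h

theorem del : (27 : ℝ) / 2 ^ 64 + 10 ^ 54 / W 7 27 ≤ 2 / 10 ^ 18 := by
  have h := (Rat.cast_le (K := ℝ)).2 q_del
  push_cast at h
  rw [WQ_cast] at h
  exact h

theorem W_pos (n k : ℕ) (hn : 1 ≤ n) : 0 < W n k := by
  unfold W
  refine Finset.prod_pos fun j _ => ?_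
  have : (1 : ℝ) ≤ n := by exact_mod_cast hn
  positivity

/-- The approximation of the moments. -/
theorem mom (h_ENG : T_ENG) {φ φ' : ℝ → ℝ} (hb : Bes 7 φ φ') (m : ℕ) (hm : m ≤ 10) :
    |(∫ r in (0 : ℝ)..10, φ r ^ m * r ^ (7 - 1)) - ((JQ m : ℚ) : ℝ)| ≤ 1 / 10 ^ 9 := by
  set δ : ℝ := (((26 : ℕ) : ℝ) + 1) / 2 ^ 64 + 10 ^ (2 * 26 + 2) / W 7 (26 + 1) with hδ
  have h := h_ENG 7 φ φ' (by norm_num) hb 10 1 64 26 m (by norm_num) (by norm_num) 10 δ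
    (by norm_num) hδ
  have hδ1 : δ ≤ 2 / 10 ^ 18 := by
    have e : δ = (27 : ℝ) / 2 ^ 64 + 10 ^ 54 / W 7 27 := by
      rw [hδ]
      norm_num
    rw [e]
    exact del
  have hδ0 : 0 ≤ δ := by
    have := W_pos 7 (26 + 1) (by norm_num)
    positivity
  have e1 : (10 : ℝ) ^ 7 * ((itg 7 (powL (cofs 7 10 1 64 26) m) : ℚ) : ℝ) / 2 ^ (64 * m) =
      ((JQ m : ℚ) : ℝ) := by
    unfold JQ
    push_cast
    rfl
  rw [e1] at h
  refine h.trans ?_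
  have hm' : (m : ℝ) ≤ 10 := by exact_mod_cast hm
  have h2 : (1 + δ) ^ (m - 1) ≤ 2 := by
    have h3 : (1 + δ) ^ (m - 1) ≤ (1 + δ) ^ 9 := pow_le_pow_right₀ (by linarith) (by omega)
    have h4 : (1 + δ) ^ 9 ≤ (1 + 2 / 10 ^ 18) ^ 9 :=
      pow_le_pow_left₀ (by linarith) (by linarith) 9
    have h5 : (1 + 2 / 10 ^ 18 : ℝ) ^ 9 ≤ 2 := by norm_num
    linarith
  have h3 : (m : ℝ) * δ ≤ 10 * (2 / 10 ^ 18) := mul_le_mul hm' hδ1 hδ0 (by norm_num)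
  have h4 : (m : ℝ) * δ * (1 + δ) ^ (m - 1) ≤ 10 * (2 / 10 ^ 18) * 2 :=
    mul_le_mul h3 h2 (pow_nonneg (by linarith) _) (by norm_num)
  calc (10 : ℝ) ^ 7 / ((7 : ℕ) : ℝ) * ((m : ℝ) * δ * (1 + δ) ^ (m - 1))
      ≤ (10 : ℝ) ^ 7 / ((7 : ℕ) : ℝ) * (10 * (2 / 10 ^ 18) * 2) :=
        mul_le_mul_of_nonneg_left h4 (by positivity)
    _ ≤ 1 / 10 ^ 9 := by norm_num

/-- The value at `10`. -/
theorem val {φ φ' : ℝ → ℝ} (hb : Bes 7 φ φ') : 0.011691 ≤ φ 10 ∧ φ 10 ≤ 0.01169133 := by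
  have h := hb.tay 26 10
  have h1 : P 7 26 10 = ((PQ 7 26 10 : ℚ) : ℝ) := by
    rw [PQ_cast]
    norm_num
  have h2 : |(10 : ℝ)| ^ (2 * 26 + 2) / W 7 (26 + 1) ≤ 1 / 10 ^ 12 := by
    have := er1
    rw [abs_of_pos (by norm_num : (0 : ℝ) < 10)]
    exact this
  have h3 : (0.0116913 : ℝ) ≤ ((PQ 7 26 10 : ℚ) : ℝ) := by
    have := (Rat.cast_le (K := ℝ)).2 q_p1.1
    norm_num at this ⊢
    exact this
  have h4 : ((PQ 7 26 10 : ℚ) : ℝ) ≤ (0.0116913291 : ℝ) := by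
    have := (Rat.cast_le (K := ℝ)).2 q_p1.2
    norm_num at this ⊢
    exact this
  rw [h1] at h
  have h5 := abs_le.1 (h.trans h2)
  constructor
  · linarith [h5.1]
  · linarith [h5.2]

/-- The derivative at `10`. -/
theorem val' {φ φ' : ℝ → ℝ} (hb : Bes 7 φ φ') : 0 ≤ φ' 10 ∧ φ' 10 ≤ 0.00592438 := by
  have h := hb.tay' 26 10
  have h1 : P (7 + 2) 26 10 = ((PQ 9 26 10 : ℚ) : ℝ) := by
    rw [PQ_cast]
    norm_num
  have h2 : |(10 : ℝ)| ^ (2 * 26 + 2) / W (7 + 2) (26 + 1) ≤ 1 / 10 ^ 12 := by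
    have := er2
    rw [abs_of_pos (by norm_num : (0 : ℝ) < 10)]
    exact this
  have h3 : (-0.0041470638 : ℝ) ≤ ((PQ 9 26 10 : ℚ) : ℝ) := by
    have := (Rat.cast_le (K := ℝ)).2 q_p2.1
    norm_num at this ⊢
    exact this
  have h4 : ((PQ 9 26 10 : ℚ) : ℝ) ≤ (-0.0041470 : ℝ) := by
    have := (Rat.cast_le (K := ℝ)).2 q_p2.2
    norm_num at this ⊢
    exact this
  rw [h1] at h
  have h6 : |(10 : ℝ)| / ((7 : ℕ) : ℝ) * (|(10 : ℝ)| ^ (2 * 26 + 2) / W (7 + 2) (26 + 1)) ≤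
      10 / 7 * (1 / 10 ^ 12) := by
    rw [abs_of_pos (by norm_num : (0 : ℝ) < 10)] at h2 ⊢
    push_cast
    exact mul_le_mul_of_nonneg_left h2 (by norm_num)
  have h5 := abs_le.1 (h.trans h6)
  push_cast at h5
  constructor
  · linarith [h5.1]
  · linarith [h5.2]

/-- The energy at `10`. -/
theorem eng {φ φ' : ℝ → ℝ} (hb : Bes 7 φ φ') :
    (10 : ℝ) ^ (7 - 1) * ((φ' 10 + (((7 : ℕ) : ℝ) - 1) / (2 * 10) * φ 10) ^ 2 /
      (1 - (((7 : ℕ) : ℝ) - 1) * (((7 : ℕ) : ℝ) - 3) / 4 / 10 ^ 2) + φ 10 ^ 2) ≤ 231.33 := by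
  obtain ⟨a1, a2⟩ := val hb
  obtain ⟨b1, b2⟩ := val' hb
  have h1 : (φ' 10 + 3 / 10 * φ 10) ^ 2 ≤ (0.009431779 : ℝ) ^ 2 :=
    pow_le_pow_left₀ (by linarith) (by linarith) 2
  have h2 : φ 10 ^ 2 ≤ (0.01169133 : ℝ) ^ 2 := pow_le_pow_left₀ (by linarith) a2 2
  have e : (10 : ℝ) ^ (7 - 1) * ((φ' 10 + (((7 : ℕ) : ℝ) - 1) / (2 * 10) * φ 10) ^ 2 /
      (1 - (((7 : ℕ) : ℝ) - 1) * (((7 : ℕ) : ℝ) - 3) / 4 / 10 ^ 2) + φ 10 ^ 2) =
      10 ^ 6 * ((φ' 10 + 3 / 10 * φ 10) ^ 2 / (94 / 100) + φ 10 ^ 2) := by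
    norm_num
  rw [e]
  have h3 : (φ' 10 + 3 / 10 * φ 10) ^ 2 / (94 / 100) ≤ (0.009431779 : ℝ) ^ 2 / (94 / 100) :=
    div_le_div_of_nonneg_right h1 (by norm_num)
  calc (10 : ℝ) ^ 6 * ((φ' 10 + 3 / 10 * φ 10) ^ 2 / (94 / 100) + φ 10 ^ 2)
      ≤ 10 ^ 6 * ((0.009431779 : ℝ) ^ 2 / (94 / 100) + (0.01169133 : ℝ) ^ 2) :=
        mul_le_mul_of_nonneg_left (by linarith) (by norm_num)
    _ ≤ 231.33 := by norm_num

end VA7_

open VA7_ in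
theorem p_VA7 (h_ENG : T_ENG) (h_TLR : T_TLR) : T_VA7 := by
  intro φ φ' hb
  have tl : ∀ m : ℕ, 2 ≤ m → _ := fun m hm =>
    h_TLR 7 m φ φ' (by norm_num) hm hb 10 231.33 (by norm_num) (by norm_num) (eng hb)
  have c4 : ((JQ 4 : ℚ) : ℝ) ≤ 84.685306 := by
    have := (Rat.cast_le (K := ℝ)).2 q4
    norm_num at this ⊢
    exact this
  have c6 : ((JQ 6 : ℚ) : ℝ) ≤ 23.8452302 := by
    have := (Rat.cast_le (K := ℝ)).2 q6
    norm_num at this ⊢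
    exact this
  have c6' : 23.8452301 ≤ ((JQ 6 : ℚ) : ℝ) := by
    have := (Rat.cast_le (K := ℝ)).2 q6'
    norm_num at this ⊢
    exact this
  have c8 : ((JQ 8 : ℚ) : ℝ) ≤ 9.4111684 := by
    have := (Rat.cast_le (K := ℝ)).2 q8
    norm_num at this ⊢
    exact this
  have c8' : 9.4111683 ≤ ((JQ 8 : ℚ) : ℝ) := by
    have := (Rat.cast_le (K := ℝ)).2 q8'
    norm_num at this ⊢
    exact this
  have c10 : ((JQ 10 : ℚ) : ℝ) ≤ 4.5118331 := by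
    have := (Rat.cast_le (K := ℝ)).2 q10
    norm_num at this ⊢
    exact this
  have m4 := abs_le.1 (mom h_ENG hb 4 (by norm_num))
  have m6 := abs_le.1 (mom h_ENG hb 6 (by norm_num))
  have m8 := abs_le.1 (mom h_ENG hb 8 (by norm_num))
  have m10 := abs_le.1 (mom h_ENG hb 10 (by norm_num))
  have t4 := tl 2 (by norm_num)
  have t6 := tl 3 (by norm_num)
  have t8 := tl 4 (by norm_num)
  have t10 := tl 5 (by norm_num)
  rw [show (2 * ((2 : ℕ) : ℝ)) = 4 by norm_num] at t4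
  rw [show (2 * ((3 : ℕ) : ℝ)) = 6 by norm_num] at t6
  rw [show (2 * ((4 : ℕ) : ℝ)) = 8 by norm_num] at t8
  rw [show (2 * ((5 : ℕ) : ℝ)) = 10 by norm_num] at t10
  have r4 : (231.33 : ℝ) ^ 2 / (((2 * (7 - 1) - 7 : ℕ) : ℝ) * 10 ^ (2 * (7 - 1) - 7)) ≤
      0.107028 := by norm_num
  have r6 : (231.33 : ℝ) ^ 3 / (((3 * (7 - 1) - 7 : ℕ) : ℝ) * 10 ^ (3 * (7 - 1) - 7)) ≤
      0.000012 := by norm_num
  have r8 : (231.33 : ℝ) ^ 4 / (((4 * (7 - 1) - 7 : ℕ) : ℝ) * 10 ^ (4 * (7 - 1) - 7)) ≤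
      0.0000001 := by norm_num
  have r10 : (231.33 : ℝ) ^ 5 / (((5 * (7 - 1) - 7 : ℕ) : ℝ) * 10 ^ (5 * (7 - 1) - 7)) ≤
      0.0000001 := by norm_num
  refine ⟨?_, ?_, ?_, ?_, ?_, ?_⟩
  · have := t4.2.trans (add_le_add_right r4 _)
    linarith [m4.1, m4.2]
  · linarith [m6.1, m6.2, t6.1]
  · have := t6.2.trans (add_le_add_right r6 _)
    linarith [m6.1, m6.2]
  · linarith [m8.1, m8.2, t8.1]
  · have := t8.2.trans (add_le_add_right r8 _)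
    linarith [m8.1, m8.2]
  · have := t10.2.trans (add_le_add_right r10 _)
    linarith [m10.1, m10.2]

end Pool.Agent.TRC
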