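import Pool.Agent.TRC.Targets
import Pool.Agent.TRC.Lem

/-!
# Project TRC: weak sequential compactness of the unit ball
-/

set_option autoImplicit false

noncomputable section

open MeasureTheory Set Filter
open scoped ENNReal RealInnerProductSpace Topology

namespace Pool.Agent.TRC

open Pool.Agent.ExpMax

namespace WK_

variable {F : Type} [NormedAddCommGroup F] [InnerProductSpace ℝ F] [FiniteDimensional ℝ F]
    [MeasurableSpace F] [BorelSpace F]

theorem separable (hn : 1 ≤ Module.finrank ℝ F) : TopologicalSpace.SeparableSpace (H F) := by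
  have h0 := prb_prob hn
  have h1 : Fact ((2 : ℝ≥0∞) ≠ ∞) := ⟨by norm_num⟩
  have h3 : SecondCountableTopology (H F) := inferInstance
  infer_instance

end WK_

open WK_ in
theorem p_WK : T_WK := by
  intro F _ _ _ _ _ hn f hf
  have hsep := separable (F := F) hn
  obtain ⟨a, ha, m, hm, hlim⟩ := WeakDual.isSeqCompact_closedBall ℂ (H F) 0 1
    (x := fun k => StrongDual.toWeakDual (InnerProductSpace.toDual ℂ (H F) (f k))) (by
      intro k
      show InnerProductSpace.toDual ℂ (H F) (f k) ∈ Metric.closedBall 0 1
      rw [mem_closedBall_zero_iff, LinearIsometryEquiv.norm_map]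
      exact hf k)
  set a' : StrongDual ℂ (H F) := WeakDual.toStrongDual a with ha'
  refine ⟨(InnerProductSpace.toDual ℂ (H F)).symm a', m, hm, ?_, fun h => ?_⟩
  · rw [LinearIsometryEquiv.norm_map]
    exact mem_closedBall_zero_iff.1 ha
  · have h1 : Tendsto (fun k => (InnerProductSpace.toDual ℂ (H F) (f (m k))) h) atTop
        (𝓝 (a' h)) := ((WeakDual.eval_continuous h).tendsto a).comp hlim
    have h2 : Tendsto (fun k => (starRingEnd ℂ) (inner ℂ (f (m k)) h)) atTop
        (𝓝 ((starRingEnd ℂ) (a' h))) := (Complex.continuous_conj.tendsto _).comp h1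
    have h3 : inner ℂ h ((InnerProductSpace.toDual ℂ (H F)).symm a') =
        (starRingEnd ℂ) (a' h) := by
      rw [← inner_conj_symm, InnerProductSpace.toDual_symm_apply]
    rw [h3]
    refine h2.congr fun k => ?_
    rw [inner_conj_symm]

end Pool.Agent.TRC
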