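import Pool.Agent.ExpMax.Targets

/-!
# Project TRC (MP_9044d4_an): the extension inequality of the spheres for real exponents

Definitions. `F` is a Euclidean space of dimension `n`, `prb F` the uniform probability measure of
its unit sphere, `Ext f y = ∫ f ω exp (-i ⟪ω, y⟫)`, `u0 = Ext 1` (all from `ExpMax/Targets.lean`).
-/

set_option autoImplicit false

noncomputable section

open MeasureTheory Set Filter
open scoped ENNReal RealInnerProductSpace Topology

namespace Pool.Agent.TRC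

open Pool.Agent.ExpMax

section sphere

variable (F : Type) [NormedAddCommGroup F] [InnerProductSpace ℝ F] [FiniteDimensional ℝ F]
    [MeasurableSpace F] [BorelSpace F]

/-- The Hilbert space of the square integrable functions on the unit sphere. -/
abbrev H : Type := Lp ℂ 2 (prb F)

/-- The integral of `|u0| ^ q`. -/
def A (q : ℝ) : ℝ := ∫ y : F, |u0 y| ^ q

variable {F}

/-- The extension of an element of `H F`. -/
def E (f : H F) (y : F) : ℂ := Ext (fun ω => f ω) y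

/-- The integral of `|E f| ^ q`. -/
def J (q : ℝ) (f : H F) : ℝ := ∫ y, ‖E f y‖ ^ q

variable (F) in
/-- The sharp extension inequality for the exponent `q`: constants are maximizers. -/
def Sharp (q : ℝ) : Prop :=
  ∀ f : H F, Integrable (fun y => ‖E f y‖ ^ q) ∧ J q f ≤ A F q * ‖f‖ ^ q

/-- `f` is a maximizer of norm `1` for the exponent `p`. -/
structure IsMx (p : ℝ) (f : H F) : Prop where
  norm_one : ‖f‖ = 1
  max : ∀ g : H F, J p g ≤ J p f * ‖g‖ ^ p

/-- The extension of `f` is real valued. -/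
def Rl (f : H F) : Prop := ∀ y, (E f y).im = 0

/-- The form `∫ |E f| ^ q conj (E h) E g`. -/
def B (q : ℝ) (f h g : H F) : ℂ :=
  ∫ y, ((‖E f y‖ ^ q : ℝ) : ℂ) * ((starRingEnd ℂ) (E h y) * E g y)

/-- The Euler-Lagrange equation for `f` (if `E f` is real valued). -/
def EL (p : ℝ) (f : H F) : Prop :=
  ∀ h : H F, ((J p f : ℝ) : ℂ) * inner ℂ h f = B (p - 2) f h f

/-- The linearised equation: `ψ` is an eigenfunction with the eigenvalue `J p f / (p - 1)` of the
operator of the form `B (p - 2) f`. -/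
def Eig (p : ℝ) (f ψ : H F) : Prop :=
  ∀ h : H F, ((J p f : ℝ) : ℂ) * inner ℂ h ψ = ((p - 1 : ℝ) : ℂ) * B (p - 2) f h ψ

/-- The vector field `y ↦ ⟪v, y⟫ e - ⟪e, y⟫ v + c` (for `e ⊥ v`: infinitesimal rotation in the
plane of `e` and `v`, plus a translation). -/
def vf (e v c y : F) : F := (⟪v, y⟫ : ℝ) • e - (⟪e, y⟫ : ℝ) • v + c

/-- The barycentre condition: a vector field `vf e v c` which annihilates `u` has `c = 0`. -/
def Cen (u : F → ℂ) : Prop :=
  ∀ e v c : F, ‖e‖ = 1 → ⟪e, v⟫ = (0 : ℝ) → (∀ y, fderiv ℝ u y (vf e v c y) = 0) → c = 0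

/-- `u` is radial (infinitesimally). -/
def Rad (u : F → ℂ) : Prop := ∀ x w : F, ⟪x, w⟫ = (0 : ℝ) → fderiv ℝ u x w = 0

end sphere

/-! ### One variable -/

/-- `∏_{j=1}^{k} 2 j (n + 2 j - 2)`. -/
def W (n : ℕ) (k : ℕ) : ℝ := ∏ j ∈ Finset.range k, ((2 * (j : ℝ) + 2) * ((n : ℝ) + 2 * j))

/-- The Taylor polynomial `∑_{k ≤ N} (-1)^k r^(2k) / W n k`. -/
def P (n N : ℕ) (r : ℝ) : ℝ := ∑ k ∈ Finset.range (N + 1), (-1) ^ k * r ^ (2 * k) / W n k

/-- `φ` is the Bessel type function of dimension `n` and `φ'` is its derivative. -/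
structure Bes (n : ℕ) (φ φ' : ℝ → ℝ) : Prop where
  der : ∀ r, HasDerivAt φ (φ' r) r
  ode : ∀ r, 0 < r → HasDerivAt φ' (-φ r - (((n : ℝ) - 1) / r) * φ' r) r
  cont : Continuous φ'
  le1 : ∀ r, |φ r| ≤ 1
  tay : ∀ (N : ℕ) (r : ℝ), |φ r - P n N r| ≤ |r| ^ (2 * N + 2) / W n (N + 1)
  tay' : ∀ (N : ℕ) (r : ℝ), |φ' r + r / n * P (n + 2) N r| ≤
    |r| / n * (|r| ^ (2 * N + 2) / W (n + 2) (N + 1))

/-- The radial integral. -/
def a (n : ℕ) (φ : ℝ → ℝ) (q : ℝ) : ℝ := ∫ r in Ioi (0 : ℝ), |φ r| ^ q * r ^ (n - 1)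

end Pool.Agent.TRC
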