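import Pool.Agent.TRC.Defs

/-!
# Project TRC: integer arithmetic for the moments

Polynomials in `X = x ^ 2` with integer coefficients (scaled by a power of two), as lists.
-/

set_option autoImplicit false

namespace Pool.Agent.TRC

/-- Sum of two polynomials. -/
def addL : List ℤ → List ℤ → List ℤ
  | [], q => q
  | p, [] => p
  | c :: p, d :: q => (c + d) :: addL p q

/-- Product of two polynomials. -/
def mulL : List ℤ → List ℤ → List ℤ
  | [], _ => []
  | c :: p, q => addL (q.map fun d => c * d) (0 :: mulL p q)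

/-- Power of a polynomial. -/
def powL (p : List ℤ) : ℕ → List ℤ
  | 0 => [1]
  | m + 1 => mulL p (powL p m)

/-- `∑_j c_j / (2 j + n)`: the integral over `[0, 1]` of `x ^ (n - 1)` times the polynomial. -/
def itg (n : ℕ) : List ℤ → ℚ
  | [] => 0
  | c :: l => (c : ℚ) / (n : ℚ) + itg (n + 2) l

/-- `∏_{j < k} (2 j + 2) (n + 2 j)`. -/
def Wn (n : ℕ) : ℕ → ℕ
  | 0 => 1
  | k + 1 => Wn n k * ((2 * k + 2) * (n + 2 * k))

/-- The coefficient of `X ^ k` of `2 ^ b * P n N (R x)`, rounded, where `R = u / v`. -/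
def cof (n u v b k : ℕ) : ℤ :=
  (-1) ^ k * ((2 ^ b * u ^ (2 * k) / (Wn n k * v ^ (2 * k)) : ℕ) : ℤ)

/-- The list of the coefficients. -/
def cofs (n u v b N : ℕ) : List ℤ := (List.range (N + 1)).map (cof n u v b)

/-- The value at `x` of the polynomial with the coefficients `l` in `X = x ^ 2`. -/
noncomputable def evL (l : List ℤ) (x : ℝ) : ℝ :=
  (l.map fun c => (c : ℝ)).foldr (fun c s => c + x ^ 2 * s) 0

end Pool.Agent.TRC
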