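import Pool.Agent.TRC.Targets2

/-!
# Project TRC: common reduction for the targets NN3, ..., NN7

The expression `FF` is affine in `T₂` and in `T₃`, so that no sign of the coefficients `C₂`, `C₃`
is needed: it is enough to check the four corners `T₂ ∈ {Lo, Up}`, `T₃ ∈ {Lo, Up}`.
-/

set_option autoImplicit false

noncomputable section

open MeasureTheory Set Filter
open scoped ENNReal RealInnerProductSpace Topology

namespace Pool.Agent.TRC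

namespace NNLem

/-- Lower Taylor polynomial of `exp (θ x)`. -/
def Lo (x θ : ℝ) : ℝ := 1 + θ * x + (θ * x) ^ 2 / 2 + (θ * x) ^ 3 / 6

/-- Upper Taylor polynomial of `exp (θ x)`. -/
def Up (x θ : ℝ) : ℝ := 1 + θ * x + (θ * x) ^ 2 / 2 + (θ * x) ^ 3 / 6 + 5 / 96 * (θ * x) ^ 4

theorem exp_low (y : ℝ) (hy : |y| ≤ 1) : 1 + y + y ^ 2 / 2 + y ^ 3 / 6 ≤ Real.exp y := by
  have h := Real.exp_bound (x := y) hy (n := 5) (by norm_num)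
  have h2 := (abs_le.mp h).1
  simp only [Finset.sum_range_succ, Finset.sum_range_zero, Nat.factorial, Nat.succ_eq_add_one] at h2
  norm_num at h2
  have h3 : |y| ^ 5 ≤ y ^ 4 := by
    have : |y| ^ 5 = y ^ 4 * |y| := by
      have : |y| ^ 4 = y ^ 4 := by
        have h := sq_abs y
        calc |y| ^ 4 = (|y| ^ 2) ^ 2 := by ring
          _ = (y ^ 2) ^ 2 := by rw [h]
          _ = y ^ 4 := by ring
      rw [pow_succ, this]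
    rw [this]
    exact mul_le_of_le_one_right (by positivity) hy
  have h4 : 0 ≤ y ^ 4 := by positivity
  linarith

theorem exp_up (y : ℝ) (hy : |y| ≤ 1) :
    Real.exp y ≤ 1 + y + y ^ 2 / 2 + y ^ 3 / 6 + 5 / 96 * y ^ 4 := by
  have h := Real.exp_bound (x := y) hy (n := 4) (by norm_num)
  have h2 := (abs_le.mp h).2
  simp only [Finset.sum_range_succ, Finset.sum_range_zero, Nat.factorial, Nat.succ_eq_add_one] at h2
  norm_num at h2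
  have h3 : |y| ^ 4 = y ^ 4 := by
    have h := sq_abs y
    calc |y| ^ 4 = (|y| ^ 2) ^ 2 := by ring
      _ = (y ^ 2) ^ 2 := by rw [h]
      _ = y ^ 4 := by ring
  rw [h3] at h2
  linarith

theorem abs_pow8 (x : ℝ) : |x| ^ 8 = x ^ 8 := by
  have h := sq_abs x
  calc |x| ^ 8 = (|x| ^ 2) ^ 4 := by ring
    _ = (x ^ 2) ^ 4 := by rw [h]
    _ = x ^ 8 := by ring

/-- Lower bounds of logarithms. -/
theorem le_log {x r : ℝ} (hx : |x| ≤ 1)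
    (h : 1 + x + x ^ 2 / 2 + x ^ 3 / 6 + x ^ 4 / 24 + x ^ 5 / 120 + x ^ 6 / 720 + x ^ 7 / 5040 +
      x ^ 8 * (9 / 322560) ≤ r) : x ≤ Real.log r := by
  have hb := Real.exp_bound (x := x) hx (n := 8) (by norm_num)
  have h2 := (abs_le.mp hb).2
  simp only [Finset.sum_range_succ, Finset.sum_range_zero, Nat.factorial, Nat.succ_eq_add_one] at h2
  norm_num at h2
  rw [abs_pow8] at h2
  have h3 : Real.exp x ≤ r := by linarith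
  have hr : 0 < r := lt_of_lt_of_le (Real.exp_pos x) h3
  exact (Real.le_log_iff_exp_le hr).mpr h3

/-- Upper bounds of logarithms. -/
theorem log_le {x r : ℝ} (hx : |x| ≤ 1) (hr : 0 < r)
    (h : r ≤ 1 + x + x ^ 2 / 2 + x ^ 3 / 6 + x ^ 4 / 24 + x ^ 5 / 120 + x ^ 6 / 720 +
      x ^ 7 / 5040 - x ^ 8 * (9 / 322560)) : Real.log r ≤ x := by
  have hb := Real.exp_bound (x := x) hx (n := 8) (by norm_num)
  have h2 := (abs_le.mp hb).1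
  simp only [Finset.sum_range_succ, Finset.sum_range_zero, Nat.factorial, Nat.succ_eq_add_one] at h2
  norm_num at h2
  rw [abs_pow8] at h2
  have h3 : r ≤ Real.exp x := by linarith
  exact (Real.log_le_iff_le_exp hr).mpr h3

theorem rpow_bounds {r x x' θ : ℝ} (hr : 0 < r) (h0 : 0 ≤ θ) (h1 : θ ≤ 1)
    (hx : x ≤ Real.log r) (hx' : Real.log r ≤ x') (hb : |x| ≤ 1) (hb' : |x'| ≤ 1) :
    Lo x θ ≤ r ^ θ ∧ r ^ θ ≤ Up x' θ := by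
  have e : r ^ θ = Real.exp (θ * Real.log r) := by
    rw [Real.rpow_def_of_pos hr, mul_comm]
  have hy : |θ * x| ≤ 1 := by
    rw [abs_mul, abs_of_nonneg h0]
    exact mul_le_one₀ h1 (abs_nonneg _) hb
  have hy' : |θ * x'| ≤ 1 := by
    rw [abs_mul, abs_of_nonneg h0]
    exact mul_le_one₀ h1 (abs_nonneg _) hb'
  rw [e]
  constructor
  · exact le_trans (exp_low _ hy) (Real.exp_le_exp.mpr (mul_le_mul_of_nonneg_left hx h0))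
  · exact le_trans (Real.exp_le_exp.mpr (mul_le_mul_of_nonneg_left hx' h0)) (exp_up _ hy')

/-- `∫ (v - s) ^ 2 / h ^ 2 * (u (1 - B) + B s)` in terms of the moments. -/
def CC (h u v B a4 a6 a8 a10 : ℝ) : ℝ :=
  (v ^ 2 * (u * (1 - B)) * a4 + (v ^ 2 * B - 2 * v * (u * (1 - B))) * a6 +
    (u * (1 - B) - 2 * v * B) * a8 + B * a10) / h ^ 2

/-- The difference of the two sides (`M = 2 n - 1`). -/
def FF (M s₁ s₂ s₃ κ θ a4 a6 a8 a10 T₂ T₃ : ℝ) : ℝ :=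
  (5 + 2 * θ + M + (5 + 2 * θ) * κ) *
    (CC (s₃ - s₂) s₂ s₃ (2 * s₂ / (s₃ - s₂) + (1 + θ)) a4 a6 a8 a10 * T₂ +
      CC (s₃ - s₂) s₃ s₂ ((1 + θ) - 2 * s₃ / (s₃ - s₂)) a4 a6 a8 a10 * T₃) -
    (5 + 2 * θ) * ((1 - θ - θ * κ * s₁) * a4 + (θ / s₁ + (1 + θ) * κ) * a6)

theorem affine {A B l u T : ℝ} (hl : l ≤ T) (hu : T ≤ u) (h1 : 0 ≤ A + B * l)
    (h2 : 0 ≤ A + B * u) : 0 ≤ A + B * T := by
  rcases le_total 0 B with hB | hB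
  · nlinarith
  · nlinarith

theorem FF_corners {M s₁ s₂ s₃ κ θ a4 a6 a8 a10 l₂ u₂ l₃ u₃ T₂ T₃ : ℝ} (hl2 : l₂ ≤ T₂)
    (hu2 : T₂ ≤ u₂) (hl3 : l₃ ≤ T₃) (hu3 : T₃ ≤ u₃)
    (h1 : 0 ≤ FF M s₁ s₂ s₃ κ θ a4 a6 a8 a10 l₂ l₃)
    (h2 : 0 ≤ FF M s₁ s₂ s₃ κ θ a4 a6 a8 a10 l₂ u₃)
    (h3 : 0 ≤ FF M s₁ s₂ s₃ κ θ a4 a6 a8 a10 u₂ l₃)
    (h4 : 0 ≤ FF M s₁ s₂ s₃ κ θ a4 a6 a8 a10 u₂ u₃) :
    0 ≤ FF M s₁ s₂ s₃ κ θ a4 a6 a8 a10 T₂ T₃ := by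
  unfold FF at *
  generalize CC (s₃ - s₂) s₂ s₃ (2 * s₂ / (s₃ - s₂) + (1 + θ)) a4 a6 a8 a10 = C at *
  generalize CC (s₃ - s₂) s₃ s₂ ((1 + θ) - 2 * s₃ / (s₃ - s₂)) a4 a6 a8 a10 = D at *
  generalize 5 + 2 * θ + M + (5 + 2 * θ) * κ = p at *
  generalize (5 + 2 * θ) * ((1 - θ - θ * κ * s₁) * a4 + (θ / s₁ + (1 + θ) * κ) * a6) = q at *
  have e1 : 0 ≤ (p * C * l₂ - q) + p * D * T₃ := by
    refine affine hl3 hu3 ?_ ?_
    · linarith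
    · linarith
  have e2 : 0 ≤ (p * C * u₂ - q) + p * D * T₃ := by
    refine affine hl3 hu3 ?_ ?_
    · linarith
    · linarith
  have e3 : 0 ≤ (p * D * T₃ - q) + p * C * T₂ := by
    refine affine hl2 hu2 ?_ ?_
    · linarith
    · linarith
  linarith

/-- The moments decrease. -/
theorem a_le {n : ℕ} {φ φ' : ℝ → ℝ} (hI : T_ITG) (hn : 3 ≤ n) (hB : Bes n φ φ') :
    a n φ 6 ≤ a n φ 4 := by
  unfold a
  refine setIntegral_mono_on (hI n φ φ' hn hB 6 (by norm_num)).1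
    (hI n φ φ' hn hB 4 le_rfl).1 measurableSet_Ioi ?_
  intro r hr
  have hr0 : (0 : ℝ) < r := hr
  refine mul_le_mul_of_nonneg_right ?_ (by positivity)
  exact Real.rpow_le_rpow_of_exponent_ge_of_imp (abs_nonneg _) (hB.le1 r) (by norm_num)
    (fun _ h => by norm_num at h)

/-- The endpoint condition for `κ = 0`. -/
theorem end0 {θ s₁ t : ℝ} (h0 : 0 ≤ θ) (h1 : θ ≤ 1) (hs : 0 < s₁) (ht : t = s₁ ^ θ) :
    1 + 0 ≤ t * ((1 - θ) - θ * 0 * s₁) + t * (θ / s₁ + (1 + θ) * 0) := by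
  have h := Real.geom_mean_le_arith_mean2_weighted (w₁ := 1 - θ) (w₂ := θ) (p₁ := 1)
    (p₂ := 1 / s₁) (by linarith) h0 zero_le_one (by positivity) (by ring)
  rw [Real.one_rpow, one_mul, Real.div_rpow zero_le_one hs.le, Real.one_rpow, ← ht] at h
  have htp : 0 < t := by
    rw [ht]
    exact Real.rpow_pos_of_pos hs θ
  rw [div_le_iff₀ htp] at h
  calc 1 + 0 = (1 : ℝ) := by ring
    _ ≤ ((1 - θ) * 1 + θ * (1 / s₁)) * t := h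
    _ = _ := by ring

/-- The general reduction. -/
theorem mid_of {n : ℕ} {φ φ' : ℝ → ℝ} (hn : 3 ≤ n) (hB : Bes n φ φ') (hPW : T_PW)
    (hLBD : T_LBD) {θ s₁ s₂ s₃ κ x₂ x₃ x₂' x₃' : ℝ} (h0 : 0 ≤ θ)
    (h1 : θ ≤ 1) (hs1 : 0 < s₁) (hs1' : s₁ < 1) (hs2 : 0 < s₂) (hs23 : s₂ < s₃) (hκ : 0 ≤ κ)
    (hκ1 : κ * (1 + θ) * s₁ ≤ 1 - θ)
    (hend : ∀ t : ℝ, t = s₁ ^ θ →
      1 + κ ≤ t * ((1 - θ) - θ * κ * s₁) + t * (θ / s₁ + (1 + θ) * κ))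
    (hx2 : x₂ ≤ Real.log (s₂ / s₁)) (hx2' : Real.log (s₂ / s₁) ≤ x₂') (hb2 : |x₂| ≤ 1)
    (hb2' : |x₂'| ≤ 1)
    (hx3 : x₃ ≤ Real.log (s₃ / s₁)) (hx3' : Real.log (s₃ / s₁) ≤ x₃') (hb3 : |x₃| ≤ 1)
    (hb3' : |x₃'| ≤ 1)
    (k1 : 0 ≤ FF (2 * (n : ℝ) - 1) s₁ s₂ s₃ κ θ (a n φ 4) (a n φ 6) (a n φ 8) (a n φ 10)
      (Lo x₂ θ) (Lo x₃ θ))
    (k2 : 0 ≤ FF (2 * (n : ℝ) - 1) s₁ s₂ s₃ κ θ (a n φ 4) (a n φ 6) (a n φ 8) (a n φ 10)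
      (Lo x₂ θ) (Up x₃' θ))
    (k3 : 0 ≤ FF (2 * (n : ℝ) - 1) s₁ s₂ s₃ κ θ (a n φ 4) (a n φ 6) (a n φ 8) (a n φ 10)
      (Up x₂' θ) (Lo x₃ θ))
    (k4 : 0 ≤ FF (2 * (n : ℝ) - 1) s₁ s₂ s₃ κ θ (a n φ 4) (a n φ 6) (a n φ 8) (a n φ 10)
      (Up x₂' θ) (Up x₃' θ)) :
    ∃ κ α β : ℝ, 0 ≤ κ ∧ 0 ≤ α ∧ 0 ≤ β ∧
      (∀ s : ℝ, 0 ≤ s → s ≤ 1 → s ^ θ * (1 + κ * s) ≤ α + β * s) ∧
      α * a n φ 4 + β * a n φ 6 ≤
        (1 + (2 * (n : ℝ) - 1) / (5 + 2 * θ) + κ) * a n φ (6 + 2 * θ) := by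
  have hs3 : 0 < s₃ := hs2.trans hs23
  have htp : 0 < s₁ ^ θ := Real.rpow_pos_of_pos hs1 θ
  have hnr : (3 : ℝ) ≤ n := by exact_mod_cast hn
  refine ⟨κ, s₁ ^ θ * ((1 - θ) - θ * κ * s₁), s₁ ^ θ * (θ / s₁ + (1 + θ) * κ), hκ, ?_, ?_,
    hPW θ s₁ κ (s₁ ^ θ) _ _ h0 h1 hs1 hs1' hκ hκ1 rfl rfl rfl (hend _ rfl), ?_⟩
  · refine mul_nonneg htp.le ?_
    have : θ * κ * s₁ ≤ κ * (1 + θ) * s₁ := by
      have : 0 ≤ κ * s₁ := by positivity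
      nlinarith
    linarith
  · refine mul_nonneg htp.le ?_
    positivity
  · -- lower bound of the moment
    have hT2 := rpow_bounds (r := s₂ / s₁) (by positivity) h0 h1 hx2 hx2' hb2 hb2'
    have hT3 := rpow_bounds (r := s₃ / s₁) (by positivity) h0 h1 hx3 hx3' hb3 hb3'
    have hF := FF_corners hT2.1 hT2.2 hT3.1 hT3.2 k1 k2 k3 k4
    have e2 : s₂ ^ θ = s₁ ^ θ * (s₂ / s₁) ^ θ := by
      rw [← Real.mul_rpow hs1.le (by positivity)]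
      congr 1
      field_simp
    have e3 : s₃ ^ θ = s₁ ^ θ * (s₃ / s₁) ^ θ := by
      rw [← Real.mul_rpow hs1.le (by positivity)]
      congr 1
      field_simp
    set t := s₁ ^ θ with ht
    set T₂ := (s₂ / s₁) ^ θ with hT2d
    set T₃ := (s₃ / s₁) ^ θ with hT3d
    have hh : s₃ - s₂ ≠ 0 := by linarith
    have hB2 := hLBD n φ φ' hn hB θ s₂ s₃
      ((s₃ ^ 2 * (s₂ * (1 - (2 * s₂ / (s₃ - s₂) + (1 + θ))))) / (s₃ - s₂) ^ 2 * (t * T₂) +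
       (s₂ ^ 2 * (s₃ * (1 - ((1 + θ) - 2 * s₃ / (s₃ - s₂))))) / (s₃ - s₂) ^ 2 * (t * T₃))
      ((s₃ ^ 2 * (2 * s₂ / (s₃ - s₂) + (1 + θ)) -
          2 * s₃ * (s₂ * (1 - (2 * s₂ / (s₃ - s₂) + (1 + θ))))) / (s₃ - s₂) ^ 2 * (t * T₂) +
       (s₂ ^ 2 * ((1 + θ) - 2 * s₃ / (s₃ - s₂)) -
          2 * s₂ * (s₃ * (1 - ((1 + θ) - 2 * s₃ / (s₃ - s₂))))) / (s₃ - s₂) ^ 2 * (t * T₃))
      ((s₂ * (1 - (2 * s₂ / (s₃ - s₂) + (1 + θ))) -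
          2 * s₃ * (2 * s₂ / (s₃ - s₂) + (1 + θ))) / (s₃ - s₂) ^ 2 * (t * T₂) +
       (s₃ * (1 - ((1 + θ) - 2 * s₃ / (s₃ - s₂))) -
          2 * s₂ * ((1 + θ) - 2 * s₃ / (s₃ - s₂))) / (s₃ - s₂) ^ 2 * (t * T₃))
      ((2 * s₂ / (s₃ - s₂) + (1 + θ)) / (s₃ - s₂) ^ 2 * (t * T₂) +
       ((1 + θ) - 2 * s₃ / (s₃ - s₂)) / (s₃ - s₂) ^ 2 * (t * T₃))
      h0 h1 hs2 hs23 ?_
    · have hm : 0 ≤ (5 + 2 * θ + (2 * (n : ℝ) - 1) + (5 + 2 * θ) * κ) := by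
        have : 0 ≤ (5 + 2 * θ) * κ := by positivity
        linarith
      have h52 : 0 < 5 + 2 * θ := by linarith
      have hk : 1 + (2 * (n : ℝ) - 1) / (5 + 2 * θ) + κ =
          (5 + 2 * θ + (2 * (n : ℝ) - 1) + (5 + 2 * θ) * κ) / (5 + 2 * θ) := by
        field_simp
      rw [hk, div_mul_eq_mul_div, le_div_iff₀ h52]
      have hB3 := mul_le_mul_of_nonneg_left hB2 hm
      refine le_trans ?_ hB3
      have hF2 := mul_nonneg htp.le hF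
      unfold FF CC at hF2
      refine sub_nonneg.mp (le_of_le_of_eq hF2 ?_)
      ring
    · intro s
      rw [Real.rpow_add hs2, Real.rpow_add hs3, Real.rpow_one, Real.rpow_one, e2, e3]
      unfold Hm
      field_simp
      ring

end NNLem

end Pool.Agent.TRC
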