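import Pool.Agent.TRC.Targets2

/-!
# Project TRC (MP_9044d4_an): common part of the targets NN3, ..., NN7

The lower bound of T_LBD with `a n φ 4`, `a n φ 10` replaced by upper bounds `A`, `D`. This is
possible since the coefficients `c₀`, `c₃` of the Hermite polynomial are not positive (T_HRM at
`s = 0` and for `s` to infinity).
-/

set_option autoImplicit false

noncomputable section

open MeasureTheory Set Filter
open scoped ENNReal RealInnerProductSpace Topology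

namespace Pool.Agent.TRC

open Pool.Agent.ExpMax

/-- signs of the extreme coefficients of the Hermite polynomial -/
theorem NNc_sign (hHRM : T_HRM) {θ s₂ s₃ c₀ c₁ c₂ c₃ : ℝ} (h0 : 0 ≤ θ) (h1 : θ ≤ 1)
    (hs₂ : 0 < s₂) (h23 : s₂ < s₃)
    (hp : ∀ s : ℝ, Hm s₂ s₃ (s₂ ^ (1 + θ)) ((1 + θ) * s₂ ^ θ) (s₃ ^ (1 + θ))
      ((1 + θ) * s₃ ^ θ) s = c₀ + c₁ * s + c₂ * s ^ 2 + c₃ * s ^ 3) : c₀ ≤ 0 ∧ c₃ ≤ 0 := by
  constructor
  · have h := hHRM θ s₂ s₃ h0 h1 hs₂ h23 0 le_rfl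
    rw [hp 0, Real.zero_rpow (by linarith)] at h
    linarith
  · by_contra hc
    push Not at hc
    -- a large value of `s`
    set K : ℝ := 1 + |c₀| + |c₁| + |c₂| with hK
    have hK1 : 1 ≤ K := by
      have := abs_nonneg c₀
      have := abs_nonneg c₁
      have := abs_nonneg c₂
      linarith
    set s : ℝ := 1 + K / c₃ with hs
    have hKc : 0 < K / c₃ := div_pos (by linarith) hc
    have hs1 : 1 < s := by linarith
    have hcs : K < c₃ * s := by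
      have : c₃ * s = c₃ + K := by
        rw [hs]
        field_simp
      linarith
    have h := hHRM θ s₂ s₃ h0 h1 hs₂ h23 s (by linarith)
    rw [hp s] at h
    have h2 : s ^ (1 + θ) ≤ s ^ (2 : ℝ) := Real.rpow_le_rpow_of_exponent_le hs1.le (by linarith)
    have h3 : s ^ (2 : ℝ) = s ^ 2 := by norm_cast
    rw [h3] at h2
    have hs2 : 0 < s ^ 2 := by positivity
    have hb0 : -(|c₀| * s ^ 2) ≤ c₀ := by
      have h4 := neg_abs_le c₀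
      have h5 : |c₀| * 1 ≤ |c₀| * s ^ 2 :=
        mul_le_mul_of_nonneg_left (by nlinarith) (abs_nonneg _)
      linarith
    have hb1 : -(|c₁| * s ^ 2) ≤ c₁ * s := by
      have h4 : -|c₁| * s ≤ c₁ * s := mul_le_mul_of_nonneg_right (neg_abs_le c₁) (by linarith)
      have h5 : |c₁| * s ≤ |c₁| * s ^ 2 :=
        mul_le_mul_of_nonneg_left (by nlinarith) (abs_nonneg _)
      linarith
    have hb2 : -(|c₂| * s ^ 2) ≤ c₂ * s ^ 2 := by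
      have h4 : -|c₂| * s ^ 2 ≤ c₂ * s ^ 2 :=
        mul_le_mul_of_nonneg_right (neg_abs_le c₂) hs2.le
      linarith
    have hb3 : K * s ^ 2 < c₃ * s ^ 3 := by
      have : K * s ^ 2 < c₃ * s * s ^ 2 := mul_lt_mul_of_pos_right hcs hs2
      calc K * s ^ 2 < c₃ * s * s ^ 2 := this
        _ = c₃ * s ^ 3 := by ring
    have : K * s ^ 2 = s ^ 2 + |c₀| * s ^ 2 + |c₁| * s ^ 2 + |c₂| * s ^ 2 := by
      rw [hK]
      ring
    linarith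

/-- the cubic Taylor polynomial bounds the exponential function from below on `[-1, 1]` -/
theorem NNc_exp {y : ℝ} (hy : |y| ≤ 1) : 1 + y + y ^ 2 / 2 + y ^ 3 / 6 ≤ Real.exp y := by
  have h := Real.exp_bound hy (n := 5) (by norm_num)
  have h2 := (abs_le.1 h).1
  simp only [Finset.sum_range_succ, Finset.range_zero, Finset.sum_empty, Nat.factorial] at h2
  have h3 : |y| ^ 5 ≤ y ^ 4 := by
    have : |y| ^ 5 = |y| * |y| ^ 4 := by ring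
    rw [this, show y ^ 4 = |y| ^ 4 by rw [pow_abs, abs_of_nonneg (by positivity)]]
    have h4 : 0 ≤ |y| ^ 4 := by positivity
    nlinarith
  have h4 : 0 ≤ y ^ 4 := by positivity
  push_cast at h2
  norm_num at h2
  nlinarith

/-- a power from below by a cubic polynomial: `r ^ θ ≥ 1 + x θ + ..` if `x ≤ log r` -/
theorem NNc_pow {r x θ : ℝ} (hr : 0 < r) (h0 : 0 ≤ θ) (h1 : θ ≤ 1) (hx : x ≤ Real.log r)
    (hx1 : |x| ≤ 1) : 1 + θ * x + (θ * x) ^ 2 / 2 + (θ * x) ^ 3 / 6 ≤ r ^ θ := by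
  have h2 : |θ * x| ≤ 1 := by
    rw [abs_mul, abs_of_nonneg h0]
    have := abs_nonneg x
    nlinarith
  refine (NNc_exp h2).trans ?_
  rw [Real.rpow_def_of_pos hr]
  apply Real.exp_le_exp.2
  rw [mul_comm]
  exact mul_le_mul_of_nonneg_right hx h0

/-- a lower bound of a logarithm, `r < 1` -/
theorem NNc_log_neg {x r : ℝ} (hx : 0 ≤ x) (hr : 0 < r)
    (h : r⁻¹ ≤ 1 + x + x ^ 2 / 2 + x ^ 3 / 6 + x ^ 4 / 24) : -x ≤ Real.log r := by
  have h2 := Real.sum_le_exp_of_nonneg hx 5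
  simp only [Finset.sum_range_succ, Finset.range_zero, Finset.sum_empty, Nat.factorial] at h2
  push_cast at h2
  norm_num at h2
  have h3 : r⁻¹ ≤ Real.exp x := by linarith
  rw [Real.le_log_iff_exp_le hr, Real.exp_neg]
  exact inv_le_of_inv_le₀ hr h3

/-- a lower bound of a logarithm, `r > 1` -/
theorem NNc_log_pos {x r : ℝ} (hx : 0 ≤ x) (hx1 : x ≤ 1)
    (h : 1 + x + x ^ 2 / 2 + x ^ 3 / 6 + x ^ 4 * (5 / 96) ≤ r) : x ≤ Real.log r := by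
  have h2 := Real.exp_bound' hx hx1 (n := 4) (by norm_num)
  simp only [Finset.sum_range_succ, Finset.range_zero, Finset.sum_empty, Nat.factorial] at h2
  push_cast at h2
  norm_num at h2
  have h3 : Real.exp x ≤ r := by linarith
  exact (Real.le_log_iff_exp_le (lt_of_lt_of_le (Real.exp_pos x) h3)).2 h3

/-- The lower bound in the form needed for the targets NN3, ..., NN7. Here `h = s₃ - s₂`; the four
expressions `(.. * A + .. * a6 + .. * a8 + .. * D)` are the integrals of the four Hermite basis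
polynomials with `a 4`, `a 10` replaced by upper bounds. -/
theorem NNc_low (hHRM : T_HRM) (hLBD : T_LBD) {n : ℕ} {φ φ' : ℝ → ℝ} (hn : 3 ≤ n)
    (hb : Bes n φ φ') {θ s₁ s₂ s₃ h A D : ℝ} (h0 : 0 ≤ θ) (h1 : θ ≤ 1) (hs₁ : 0 < s₁)
    (hs₂ : 0 < s₂) (h23 : s₂ < s₃) (hh : h = s₃ - s₂) (hA : a n φ 4 ≤ A) (hD : a n φ 10 ≤ D) :
    s₁ ^ θ * (
      (s₂ * ((1 - 2 * s₂ / h) * s₃ ^ 2 * A +
          (2 / h * s₃ ^ 2 - 2 * s₃ * (1 - 2 * s₂ / h)) * a n φ 6 +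
          ((1 - 2 * s₂ / h) - 4 * s₃ / h) * a n φ 8 + 2 / h * D) / h ^ 2 +
        (1 + θ) * (-(s₂ * s₃ ^ 2) * A + (s₃ ^ 2 + 2 * s₂ * s₃) * a n φ 6 +
          (-(2 * s₃) - s₂) * a n φ 8 + D) / h ^ 2) * (s₂ / s₁) ^ θ +
      (s₃ * ((1 + 2 * s₃ / h) * s₂ ^ 2 * A +
          (-(2 / h) * s₂ ^ 2 - 2 * s₂ * (1 + 2 * s₃ / h)) * a n φ 6 +
          ((1 + 2 * s₃ / h) + 4 * s₂ / h) * a n φ 8 - 2 / h * D) / h ^ 2 +
        (1 + θ) * (-(s₃ * s₂ ^ 2) * A + (s₂ ^ 2 + 2 * s₂ * s₃) * a n φ 6 +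
          (-(2 * s₂) - s₃) * a n φ 8 + D) / h ^ 2) * (s₃ / s₁) ^ θ) ≤
      a n φ (6 + 2 * θ) := by
  have hhpos : 0 < h := by linarith
  have hs₃ : 0 < s₃ := by linarith
  set X : ℝ := s₂ ^ θ with hX
  set Y : ℝ := s₃ ^ θ with hY
  have e2 : s₂ ^ (1 + θ) = s₂ * X := by rw [Real.rpow_add hs₂, Real.rpow_one]
  have e3 : s₃ ^ (1 + θ) = s₃ * Y := by rw [Real.rpow_add hs₃, Real.rpow_one]
  have eX : s₁ ^ θ * (s₂ / s₁) ^ θ = X := by
    rw [← Real.mul_rpow hs₁.le (by positivity), mul_div_cancel₀ _ hs₁.ne']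
  have eY : s₁ ^ θ * (s₃ / s₁) ^ θ = Y := by
    rw [← Real.mul_rpow hs₁.le (by positivity), mul_div_cancel₀ _ hs₁.ne']
  -- the coefficients
  set c₀ : ℝ := (s₂ * ((1 - 2 * s₂ / h) * s₃ ^ 2) + (1 + θ) * (-(s₂ * s₃ ^ 2))) / h ^ 2 * X +
    (s₃ * ((1 + 2 * s₃ / h) * s₂ ^ 2) + (1 + θ) * (-(s₃ * s₂ ^ 2))) / h ^ 2 * Y with hc0
  set c₁ : ℝ := (s₂ * (2 / h * s₃ ^ 2 - 2 * s₃ * (1 - 2 * s₂ / h)) +
      (1 + θ) * (s₃ ^ 2 + 2 * s₂ * s₃)) / h ^ 2 * X +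
    (s₃ * (-(2 / h) * s₂ ^ 2 - 2 * s₂ * (1 + 2 * s₃ / h)) +
      (1 + θ) * (s₂ ^ 2 + 2 * s₂ * s₃)) / h ^ 2 * Y with hc1
  set c₂ : ℝ := (s₂ * ((1 - 2 * s₂ / h) - 4 * s₃ / h) + (1 + θ) * (-(2 * s₃) - s₂)) / h ^ 2 * X +
    (s₃ * ((1 + 2 * s₃ / h) + 4 * s₂ / h) + (1 + θ) * (-(2 * s₂) - s₃)) / h ^ 2 * Y with hc2
  set c₃ : ℝ := (s₂ * (2 / h) + (1 + θ)) / h ^ 2 * X + (s₃ * (-(2 / h)) + (1 + θ)) / h ^ 2 * Y
    with hc3
  have hp : ∀ s : ℝ, Hm s₂ s₃ (s₂ ^ (1 + θ)) ((1 + θ) * s₂ ^ θ) (s₃ ^ (1 + θ))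
      ((1 + θ) * s₃ ^ θ) s = c₀ + c₁ * s + c₂ * s ^ 2 + c₃ * s ^ 3 := by
    intro s
    rw [e2, e3]
    unfold Hm
    rw [← hh, hc0, hc1, hc2, hc3]
    field_simp
    ring
  obtain ⟨hc0', hc3'⟩ := NNc_sign hHRM h0 h1 hs₂ h23 hp
  have hl := hLBD n φ φ' hn hb θ s₂ s₃ c₀ c₁ c₂ c₃ h0 h1 hs₂ h23 hp
  have k0 : c₀ * A ≤ c₀ * a n φ 4 := mul_le_mul_of_nonpos_left hA hc0'
  have k3 : c₃ * D ≤ c₃ * a n φ 10 := mul_le_mul_of_nonpos_left hD hc3'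
  refine le_trans (le_of_eq ?_) (le_trans (by linarith :
    c₀ * A + c₁ * a n φ 6 + c₂ * a n φ 8 + c₃ * D ≤ _) hl)
  rw [mul_add, mul_left_comm (s₁ ^ θ) _ ((s₂ / s₁) ^ θ), mul_left_comm (s₁ ^ θ) _ ((s₃ / s₁) ^ θ),
    eX, eY, hc0, hc1, hc2, hc3]
  ring

end Pool.Agent.TRC
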