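import Pool.Agent.TRC.Targets
import Pool.Agent.TRC.Lem

/-!
# Project TRC, target BAR: the barycentre
-/

set_option autoImplicit false
set_option linter.unusedSectionVars false

noncomputable section

open MeasureTheory Set Filter
open scoped ENNReal RealInnerProductSpace Topology

namespace Pool.Agent.TRC

open Pool.Agent.ExpMax

namespace BAR_

section

variable {F : Type} [NormedAddCommGroup F] [InnerProductSpace ℝ F] [FiniteDimensional ℝ F]
    [MeasurableSpace F] [BorelSpace F]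

/-- a continuous function times a continuous function with compact support is integrable -/
theorem int_mul {h G : F → ℝ} (hh : Continuous h) (hG : Continuous G) (hs : HasCompactSupport G) :
    Integrable (fun y => h y * G y) :=
  (hh.mul hG).integrable_of_hasCompactSupport hs.mul_left

theorem fd_cont {h : F → ℝ} (hh : ContDiff ℝ 1 h) (v : F) :
    Continuous fun y => fderiv ℝ h y v :=
  (hh.continuous_fderiv one_ne_zero).clm_apply continuous_const

theorem fd_supp {G : F → ℝ} (hs : HasCompactSupport G) (v : F) :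
    HasCompactSupport fun y => fderiv ℝ G y v := by
  have h := hs.fderiv (𝕜 := ℝ)
  exact h.comp_left (g := fun L : F →L[ℝ] ℝ => L v) rfl

/-- integration by parts -/
theorem ibp {h G : F → ℝ} (hh : ContDiff ℝ 1 h) (hG : ContDiff ℝ 1 G) (hs : HasCompactSupport G)
    (v : F) : ∫ y, h y * fderiv ℝ G y v = - ∫ y, fderiv ℝ h y v * G y := by
  refine integral_mul_fderiv_eq_neg_fderiv_mul_of_integrable
    (int_mul (fd_cont hh v) hG.continuous hs)
    (int_mul hh.continuous (fd_cont hG v) (fd_supp hs v))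
    (int_mul hh.continuous hG.continuous hs) (fun x _ => ?_) (fun x _ => ?_)
  · exact hh.differentiable one_ne_zero x
  · exact hG.differentiable one_ne_zero x

theorem cd_lin (c : F) : ContDiff ℝ 1 fun y : F => ⟪y, c⟫ := contDiff_id.inner ℝ contDiff_const

theorem cd_aff (p b : F) : ContDiff ℝ 1 fun y : F => ⟪p, y - b⟫ :=
  contDiff_const.inner ℝ (contDiff_id.sub contDiff_const)

theorem fd_lin (c y q : F) : fderiv ℝ (fun y : F => ⟪y, c⟫) y q = ⟪q, c⟫ := by
  have h : HasFDerivAt (fun y : F => ⟪y, c⟫) _ y :=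
    (hasFDerivAt_id y).inner ℝ (hasFDerivAt_const c y)
  rw [h.fderiv]
  simp

theorem fd_aff (p b y q : F) : fderiv ℝ (fun y : F => ⟪p, y - b⟫) y q = ⟪p, q⟫ := by
  have h : HasFDerivAt (fun y : F => ⟪p, y - b⟫) _ y :=
    (hasFDerivAt_const p y).inner ℝ ((hasFDerivAt_id y).sub_const b)
  rw [h.fderiv]
  simp

theorem fd_mul (p b c y q : F) : fderiv ℝ (fun y : F => ⟪y, c⟫ * ⟪p, y - b⟫) y q =
    ⟪q, c⟫ * ⟪p, y - b⟫ + ⟪y, c⟫ * ⟪p, q⟫ := by
  have h1 := ((cd_lin c).differentiable one_ne_zero y)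
  have h2 := ((cd_aff p b).differentiable one_ne_zero y)
  have h3 : fderiv ℝ (fun y : F => ⟪y, c⟫ * ⟪p, y - b⟫) y =
      ⟪y, c⟫ • fderiv ℝ (fun y : F => ⟪p, y - b⟫) y +
        ⟪p, y - b⟫ • fderiv ℝ (fun y : F => ⟪y, c⟫) y := fderiv_fun_mul h1 h2
  rw [h3]
  simp only [_root_.add_apply, _root_.smul_apply, smul_eq_mul]
  rw [fd_lin, fd_aff]
  ring

/-- the barycentre argument for the weight `G` -/
theorem bary {G : F → ℝ} (hG : ContDiff ℝ 1 G) (hs : HasCompactSupport G)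
    (hpos : 0 < ∫ y, G y) : ∃ b : F, ∀ e v c : F, ⟪e, v⟫ = (0 : ℝ) →
    (∀ y, fderiv ℝ G y (vf e v c (y - b)) = 0) → c = 0 := by
  set I := ∫ y, G y with hI
  refine ⟨I⁻¹ • ∫ y, G y • y, fun e v c hev hX => ?_⟩
  set b := I⁻¹ • ∫ y, G y • y with hb
  have hGi : Integrable G := hG.continuous.integrable_of_hasCompactSupport hs
  have hcen : ∀ p : F, ∫ y, ⟪p, y - b⟫ * G y = 0 := by
    intro p
    have hGy : Integrable fun y : F => G y • y :=
      (hG.continuous.smul continuous_id).integrable_of_hasCompactSupport hs.smul_right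
    have h1 : ⟪p, ∫ y, G y • y⟫ = ∫ y, ⟪p, G y • y⟫ := (integral_inner hGy p).symm
    have h2 : ∫ y, ⟪p, y - b⟫ * G y = ∫ y, (⟪p, G y • y⟫ - ⟪p, b⟫ * G y) := by
      congr 1
      funext y
      have h4 : ⟪p, G y • y⟫ = G y * ⟪p, y⟫ := real_inner_smul_right _ _ _
      rw [inner_sub_right, h4]
      ring
    have h3 : Integrable fun y : F => ⟪p, G y • y⟫ := hGy.const_inner p
    rw [h2, integral_sub h3 (hGi.const_mul _), integral_const_mul, ← h1, hb,
      real_inner_smul_right, ← hI]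
    field_simp
    ring
  have hA : ∀ p q : F, ⟪p, q⟫ = (0 : ℝ) →
      ∫ y, (⟪y, c⟫ * ⟪p, y - b⟫) * fderiv ℝ G y q = 0 := by
    intro p q hpq
    rw [ibp ((cd_lin c).mul (cd_aff p b)) hG hs q]
    have : ∫ y, fderiv ℝ (fun y : F => ⟪y, c⟫ * ⟪p, y - b⟫) y q * G y =
        ∫ y, ⟪q, c⟫ * (⟪p, y - b⟫ * G y) := by
      congr 1
      funext y
      rw [fd_mul, hpq]
      ring
    rw [this, integral_const_mul, hcen, mul_zero, neg_zero]
  have hB : ∫ y, ⟪y, c⟫ * fderiv ℝ G y c = - (⟪c, c⟫ * I) := by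
    rw [ibp (cd_lin c) hG hs c]
    have : ∫ y, fderiv ℝ (fun y : F => ⟪y, c⟫) y c * G y = ∫ y, ⟪c, c⟫ * G y := by
      congr 1
      funext y
      rw [fd_lin]
    rw [this, integral_const_mul]
  have hi : ∀ p q : F, Integrable fun y => (⟪y, c⟫ * ⟪p, y - b⟫) * fderiv ℝ G y q :=
    fun p q => int_mul ((cd_lin c).mul (cd_aff p b)).continuous (fd_cont hG q) (fd_supp hs q)
  have hi' : Integrable fun y => ⟪y, c⟫ * fderiv ℝ G y c :=
    int_mul (cd_lin c).continuous (fd_cont hG c) (fd_supp hs c)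
  have hsum : ∫ y, ((⟪y, c⟫ * ⟪v, y - b⟫) * fderiv ℝ G y e -
      (⟪y, c⟫ * ⟪e, y - b⟫) * fderiv ℝ G y v + ⟪y, c⟫ * fderiv ℝ G y c) = 0 := by
    have : (fun y => (⟪y, c⟫ * ⟪v, y - b⟫) * fderiv ℝ G y e -
      (⟪y, c⟫ * ⟪e, y - b⟫) * fderiv ℝ G y v + ⟪y, c⟫ * fderiv ℝ G y c) = fun _ => (0 : ℝ) := by
      funext y
      have h := hX y
      unfold vf at h
      rw [map_add, map_sub, map_smul, map_smul, smul_eq_mul, smul_eq_mul] at h
      linear_combination ⟪y, c⟫ * h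
    rw [this]
    simp
  have hve : ⟪v, e⟫ = (0 : ℝ) := by rw [real_inner_comm]; exact hev
  have e1 : ∫ y, ((⟪y, c⟫ * ⟪v, y - b⟫) * fderiv ℝ G y e -
      (⟪y, c⟫ * ⟪e, y - b⟫) * fderiv ℝ G y v + ⟪y, c⟫ * fderiv ℝ G y c) =
      (∫ y, ((⟪y, c⟫ * ⟪v, y - b⟫) * fderiv ℝ G y e -
      (⟪y, c⟫ * ⟪e, y - b⟫) * fderiv ℝ G y v)) + ∫ y, ⟪y, c⟫ * fderiv ℝ G y c :=
    integral_add ((hi v e).sub (hi e v)) hi'
  have e2 : ∫ y, ((⟪y, c⟫ * ⟪v, y - b⟫) * fderiv ℝ G y e -
      (⟪y, c⟫ * ⟪e, y - b⟫) * fderiv ℝ G y v) =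
      (∫ y, (⟪y, c⟫ * ⟪v, y - b⟫) * fderiv ℝ G y e) -
      ∫ y, (⟪y, c⟫ * ⟪e, y - b⟫) * fderiv ℝ G y v := integral_sub (hi v e) (hi e v)
  rw [e1, e2, hA v e hve, hA e v hev, hB] at hsum
  have hcc : ⟪c, c⟫ * I = 0 := by linarith
  rcases mul_eq_zero.mp hcc with h | h
  · exact inner_self_eq_zero.mp h
  · exact absurd h hpos.ne'

/-- the argument for a real function -/
theorem real_fun {u : F → ℝ} (hu : ContDiff ℝ 1 u)
    (hinf : Tendsto (fun y => |u y|) (cocompact F) (𝓝 0)) {y0 : F} (h0 : u y0 ≠ 0) :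
    ∃ b : F, ∀ e v c : F, ⟪e, v⟫ = (0 : ℝ) →
    (∀ y, fderiv ℝ u y (vf e v c (y - b)) = 0) → c = 0 := by
  set δ := |u y0| / 2 with hδ
  have hδ0 : 0 < δ := by
    have := abs_pos.mpr h0
    positivity
  have hcd : ContDiff ℝ 1 fun y => u y ^ 2 - δ ^ 2 := (hu.pow 2).sub contDiff_const
  have hexp : ContDiff ℝ 1 expNegInvGlue := expNegInvGlue.contDiff
  have hG : ContDiff ℝ 1 fun y => expNegInvGlue (u y ^ 2 - δ ^ 2) := hexp.comp hcd
  have hs : HasCompactSupport fun y => expNegInvGlue (u y ^ 2 - δ ^ 2) := by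
    have h1 : ∀ᶠ y in cocompact F, |u y| < δ := hinf.eventually_lt_const hδ0
    rw [Filter.eventually_iff, mem_cocompact] at h1
    obtain ⟨K, hK, hKs⟩ := h1
    refine HasCompactSupport.intro hK fun y hy => ?_
    have h2 : |u y| < δ := hKs hy
    apply expNegInvGlue.zero_of_nonpos
    have h3 : u y ^ 2 = |u y| ^ 2 := (sq_abs _).symm
    rw [h3]
    have := abs_nonneg (u y)
    nlinarith
  have hpos : 0 < ∫ y, expNegInvGlue (u y ^ 2 - δ ^ 2) := by
    refine Continuous.integral_pos_of_hasCompactSupport_nonneg_nonzero hG.continuous hs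
      (fun y => expNegInvGlue.nonneg _) (x := y0) ?_
    apply ne_of_gt
    apply expNegInvGlue.pos_of_pos
    have h3 : u y0 ^ 2 = |u y0| ^ 2 := (sq_abs _).symm
    rw [h3, hδ]
    have := abs_pos.mpr h0
    nlinarith
  obtain ⟨b, hb⟩ := bary hG hs hpos
  refine ⟨b, fun e v c hev hX => hb e v c hev fun y => ?_⟩
  have hd1 : DifferentiableAt ℝ expNegInvGlue (u y ^ 2 - δ ^ 2) :=
    hexp.differentiable one_ne_zero _
  have hd2 : DifferentiableAt ℝ u y := hu.differentiable one_ne_zero y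
  have hd3 : HasFDerivAt (fun y => u y ^ 2 - δ ^ 2) ((2 * u y) • fderiv ℝ u y) y := by
    have h := (hd2.hasFDerivAt.pow 2).sub_const (δ ^ 2)
    simpa using h
  have hd4 : HasFDerivAt (fun y => expNegInvGlue (u y ^ 2 - δ ^ 2))
      (deriv expNegInvGlue (u y ^ 2 - δ ^ 2) • ((2 * u y) • fderiv ℝ u y)) y :=
    HasDerivAt.comp_hasFDerivAt (h₂ := expNegInvGlue) y hd1.hasDerivAt hd3
  rw [hd4.fderiv]
  simp only [_root_.smul_apply, smul_eq_mul, hX y, mul_zero]

end

end BAR_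

open BAR_ in
theorem p_BAR (h_RL : T_RL) (h_DIF : T_DIF) (h_INJ : T_INJ) : T_BAR := by
  intro F _ _ _ _ _ hn f hf hre
  have hn1 : 1 ≤ Module.finrank ℝ F := by omega
  obtain ⟨y0, hy0⟩ : ∃ y, E f y ≠ 0 := by
    by_contra hcon
    push Not at hcon
    exact hf (h_INJ F hn1 f hcon)
  have hcd : ContDiff ℝ 1 (E f) := h_DIF F hn1 f
  have hu : ContDiff ℝ 1 fun y => (E f y).re := Complex.reCLM.contDiff.comp hcd
  have hinf : Tendsto (fun y => |(E f y).re|) (cocompact F) (𝓝 0) := by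
    have := h_RL F hn f
    refine this.congr fun y => ?_
    exact hre.norm_eq y
  have h0 : (E f y0).re ≠ 0 := by
    intro h
    exact hy0 (Complex.ext h (hre y0))
  obtain ⟨b, hb⟩ := real_fun hu hinf h0
  refine ⟨b, fun e v c _ hev hX => hb e v c hev fun y => ?_⟩
  have h1 := hX (y - b)
  rw [fderiv_comp_add_right, sub_add_cancel] at h1
  have hd : DifferentiableAt ℝ (E f) y := hcd.differentiable one_ne_zero y
  have h2 : HasFDerivAt (fun y => (E f y).re) (Complex.reCLM.comp (fderiv ℝ (E f) y)) y :=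
    Complex.reCLM.hasFDerivAt.comp y hd.hasFDerivAt
  rw [h2.fderiv, ContinuousLinearMap.comp_apply, h1]
  simp

end Pool.Agent.TRC
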