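import Pool.Agent.TRC.Targets2

/-!
# Project TRC: the endpoint condition in dimension 3
-/

set_option autoImplicit false

noncomputable section

open MeasureTheory Set Filter
open scoped ENNReal RealInnerProductSpace Topology

namespace Pool.Agent.TRC

open Pool.Agent.ExpMax

namespace EN3_

theorem log_lower : (98 / 100 : ℝ) ≤ Real.log (8 / 3) := by
  rw [Real.le_log_iff_exp_le (by norm_num)]
  refine le_trans (Real.exp_bound' (by norm_num) (by norm_num) (n := 7) (by norm_num)) ?_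
  simp only [Finset.sum_range_succ, Finset.sum_range_zero, Nat.factorial]
  norm_num

theorem log_upper : Real.log (8 / 3) ≤ (981 / 1000 : ℝ) := by
  rw [Real.log_le_iff_le_exp (by norm_num)]
  refine le_trans ?_ (Real.sum_le_exp_of_nonneg (by norm_num : (0 : ℝ) ≤ 981 / 1000) 9)
  simp only [Finset.sum_range_succ, Finset.sum_range_zero, Nat.factorial]
  norm_num

theorem exp_up (x : ℝ) (h0 : 0 ≤ x) (h1 : x ≤ 1) :
    Real.exp x ≤ 1 + x + x ^ 2 / 2 + x ^ 3 / 6 + 5 * x ^ 4 / 96 := by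
  refine le_trans (Real.exp_bound' h0 h1 (n := 4) (by norm_num)) (le_of_eq ?_)
  simp only [Finset.sum_range_succ, Finset.sum_range_zero, Nat.factorial]
  norm_num
  ring

theorem exp_lo (x : ℝ) (h0 : 0 ≤ x) : 1 + x + x ^ 2 / 2 + x ^ 3 / 6 ≤ Real.exp x := by
  refine le_trans (le_of_eq ?_) (Real.sum_le_exp_of_nonneg h0 4)
  simp only [Finset.sum_range_succ, Finset.sum_range_zero, Nat.factorial]
  norm_num

/-- the polynomial inequality for `θ ≤ 1/2` -/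
theorem poly1 (θ : ℝ) (h0 : 0 ≤ θ) (h1 : θ ≤ 1 / 2) :
    (1 + 9 / 5 * (1 - θ) ^ 2) * (1 + 981 / 1000 * θ + (981 / 1000 * θ) ^ 2 / 2 +
      (981 / 1000 * θ) ^ 3 / 6 + 5 * (981 / 1000 * θ) ^ 4 / 96) ≤
    1 + 5 / 3 * θ + 9 / 5 * (1 - θ) ^ 2 * (1 + 5 / 8 * θ) := by
  have h2 : 0 ≤ 1 - 2 * θ := by linarith
  have key : 1 + 5 / 3 * θ + 9 / 5 * (1 - θ) ^ 2 * (1 + 5 / 8 * θ) -
      (1 + 9 / 5 * (1 - θ) ^ 2) * (1 + 981 / 1000 * θ + (981 / 1000 * θ) ^ 2 / 2 +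
      (981 / 1000 * θ) ^ 3 / 6 + 5 * (981 / 1000 * θ) ^ 4 / 96) =
      θ * ((673 / 15000) * (2 * θ) ^ 0 * (1 - 2 * θ) ^ 5 +
      (5744419 / 30000000) * (2 * θ) ^ 1 * (1 - 2 * θ) ^ 4 +
      (28798566013 / 60000000000) * (2 * θ) ^ 2 * (1 - 2 * θ) ^ 3 +
      (263181515050153 / 384000000000000) * (2 * θ) ^ 3 * (1 - 2 * θ) ^ 2 +
      (357542182719901 / 768000000000000) * (2 * θ) ^ 4 * (1 - 2 * θ) ^ 1 +
      (340469836495091 / 3072000000000000) * (2 * θ) ^ 5 * (1 - 2 * θ) ^ 0) := by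
    ring
  have h3 : 0 ≤ θ * ((673 / 15000) * (2 * θ) ^ 0 * (1 - 2 * θ) ^ 5 +
      (5744419 / 30000000) * (2 * θ) ^ 1 * (1 - 2 * θ) ^ 4 +
      (28798566013 / 60000000000) * (2 * θ) ^ 2 * (1 - 2 * θ) ^ 3 +
      (263181515050153 / 384000000000000) * (2 * θ) ^ 3 * (1 - 2 * θ) ^ 2 +
      (357542182719901 / 768000000000000) * (2 * θ) ^ 4 * (1 - 2 * θ) ^ 1 +
      (340469836495091 / 3072000000000000) * (2 * θ) ^ 5 * (1 - 2 * θ) ^ 0) := by
    positivity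
  linarith

/-- the polynomial inequality for `v = 1 - θ ≤ 1/2` -/
theorem poly2 (v : ℝ) (h0 : 0 ≤ v) (h1 : v ≤ 1 / 2) :
    1 + 9 / 5 * v ^ 2 ≤ 3 / 8 * (1 + 98 / 100 * v + (98 / 100 * v) ^ 2 / 2 +
      (98 / 100 * v) ^ 3 / 6) * (1 + 5 / 3 * (1 - v) + 9 / 5 * v ^ 2 * (1 + 5 / 8 * (1 - v))) := by
  have h2 : 0 ≤ 1 - 2 * v := by linarith
  have key : 3 / 8 * (1 + 98 / 100 * v + (98 / 100 * v) ^ 2 / 2 +
      (98 / 100 * v) ^ 3 / 6) * (1 + 5 / 3 * (1 - v) + 9 / 5 * v ^ 2 * (1 + 5 / 8 * (1 - v))) -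
      (1 + 9 / 5 * v ^ 2) =
      v * ((71 / 200) * (2 * v) ^ 0 * (1 - 2 * v) ^ 5 +
      (108583 / 80000) * (2 * v) ^ 1 * (1 - 2 * v) ^ 4 +
      (48158417 / 24000000) * (2 * v) ^ 2 * (1 - 2 * v) ^ 3 +
      (274172593 / 192000000) * (2 * v) ^ 3 * (1 - 2 * v) ^ 2 +
      (1875474109 / 3840000000) * (2 * v) ^ 4 * (1 - 2 * v) ^ 1 +
      (481287323 / 7680000000) * (2 * v) ^ 5 * (1 - 2 * v) ^ 0) := by
    ring
  have h3 : 0 ≤ v * ((71 / 200) * (2 * v) ^ 0 * (1 - 2 * v) ^ 5 +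
      (108583 / 80000) * (2 * v) ^ 1 * (1 - 2 * v) ^ 4 +
      (48158417 / 24000000) * (2 * v) ^ 2 * (1 - 2 * v) ^ 3 +
      (274172593 / 192000000) * (2 * v) ^ 3 * (1 - 2 * v) ^ 2 +
      (1875474109 / 3840000000) * (2 * v) ^ 4 * (1 - 2 * v) ^ 1 +
      (481287323 / 7680000000) * (2 * v) ^ 5 * (1 - 2 * v) ^ 0) := by
    positivity
  linarith

end EN3_

/-- EN3. -/
theorem p_EN3 : T_EN3 := by
  intro θ h0 h1 t κ ht hκ
  have hlog : Real.log (3 / 8 : ℝ) = - Real.log (8 / 3) := by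
    rw [← Real.log_inv]
    norm_num
  have ht0 : t = Real.exp (- (Real.log (8 / 3) * θ)) := by
    rw [ht, Real.rpow_def_of_pos (by norm_num), hlog]
    ring_nf
  have htp : 0 < t := by
    rw [ht0]
    exact Real.exp_pos _
  have hL1 := EN3_.log_lower
  have hL2 := EN3_.log_upper
  have hκ0 : 0 ≤ κ := by
    rw [hκ]
    positivity
  have hgoal : t * ((1 - θ) - θ * κ * (3 / 8)) + t * (θ / (3 / 8) + (1 + θ) * κ) =
      t * (1 + 5 / 3 * θ + κ * (1 + 5 / 8 * θ)) := by ring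
  rw [hgoal]
  rcases le_total θ (1 / 2) with h2 | h2
  · -- the small values of `θ`
    have h3 : 1 ≤ t * (1 + 981 / 1000 * θ + (981 / 1000 * θ) ^ 2 / 2 +
        (981 / 1000 * θ) ^ 3 / 6 + 5 * (981 / 1000 * θ) ^ 4 / 96) := by
      have h4 : Real.exp (Real.log (8 / 3) * θ) ≤ Real.exp (981 / 1000 * θ) :=
        Real.exp_le_exp.mpr (mul_le_mul_of_nonneg_right hL2 h0)
      have h5 := EN3_.exp_up (981 / 1000 * θ) (by positivity) (by linarith)
      have h6 : t * Real.exp (Real.log (8 / 3) * θ) = 1 := by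
        rw [ht0, ← Real.exp_add]
        simp
      calc (1 : ℝ) = t * Real.exp (Real.log (8 / 3) * θ) := h6.symm
        _ ≤ _ := mul_le_mul_of_nonneg_left (h4.trans h5) htp.le
    have h4 := EN3_.poly1 θ h0 h2
    rw [← hκ] at h4
    calc 1 + κ = (1 + κ) * 1 := (mul_one _).symm
      _ ≤ (1 + κ) * (t * (1 + 981 / 1000 * θ + (981 / 1000 * θ) ^ 2 / 2 +
        (981 / 1000 * θ) ^ 3 / 6 + 5 * (981 / 1000 * θ) ^ 4 / 96)) :=
          mul_le_mul_of_nonneg_left h3 (by linarith)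
      _ = t * ((1 + κ) * (1 + 981 / 1000 * θ + (981 / 1000 * θ) ^ 2 / 2 +
        (981 / 1000 * θ) ^ 3 / 6 + 5 * (981 / 1000 * θ) ^ 4 / 96)) := by ring
      _ ≤ _ := mul_le_mul_of_nonneg_left h4 htp.le
  · -- the large values of `θ`
    have hv0 : 0 ≤ 1 - θ := by linarith
    have h3 : 3 / 8 * (1 + 98 / 100 * (1 - θ) + (98 / 100 * (1 - θ)) ^ 2 / 2 +
      (98 / 100 * (1 - θ)) ^ 3 / 6) ≤ t := by
      have h4 : t = 3 / 8 * Real.exp (Real.log (8 / 3) * (1 - θ)) := by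
        have h5 : (3 / 8 : ℝ) = Real.exp (- Real.log (8 / 3)) := by
          rw [← hlog, Real.exp_log (by norm_num)]
        rw [h5, ht0, ← Real.exp_add]
        ring_nf
      rw [h4]
      have h5 : Real.exp (98 / 100 * (1 - θ)) ≤ Real.exp (Real.log (8 / 3) * (1 - θ)) :=
        Real.exp_le_exp.mpr (mul_le_mul_of_nonneg_right hL1 hv0)
      have h6 := EN3_.exp_lo (98 / 100 * (1 - θ)) (by positivity)
      exact mul_le_mul_of_nonneg_left (h6.trans h5) (by norm_num)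
    have h4 := EN3_.poly2 (1 - θ) hv0 (by linarith)
    rw [← hκ] at h4
    have h5 : 1 + 5 / 3 * (1 - (1 - θ)) + κ * (1 + 5 / 8 * (1 - (1 - θ))) =
        1 + 5 / 3 * θ + κ * (1 + 5 / 8 * θ) := by ring
    rw [h5] at h4
    exact h4.trans (mul_le_mul_of_nonneg_right h3 (by positivity))

end Pool.Agent.TRC
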