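import Pool.Agent.TRC.Targets
import Pool.Agent.TRC.Lem
import Pool.Agent.SPH4.Targets

/-!
# Project TRC: the exponent 4
-/

set_option autoImplicit false

noncomputable section

open MeasureTheory Set Filter
open scoped ENNReal RealInnerProductSpace Topology

namespace Pool.Agent.TRC

open Pool.Agent.ExpMax

theorem I4_rpow (x : ℝ) : x ^ (4 : ℝ) = x ^ 4 := by
  exact_mod_cast Real.rpow_natCast x 4

theorem I4_abs (x : ℝ) : |x| ^ (4 : ℝ) = x ^ 4 := by
  rw [I4_rpow]
  exact Even.pow_abs (by decide) x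

theorem p_I4 (h : SPH4.T_CORE4) : T_I4 := by
  intro F _ _ _ _ _ hn
  obtain ⟨h1, h2, h3⟩ := h F hn
  have hA : A F 4 = ∫ y : F, u0 y ^ 4 := by
    unfold A
    simp only [I4_abs]
  refine ⟨?_, ?_, ?_⟩
  · intro f
    obtain ⟨h4, h5⟩ := h3 (fun ω => f ω) (Lp.memLp f)
    refine ⟨?_, ?_⟩
    · simp only [I4_rpow]
      exact h4
    · unfold J
      simp only [I4_rpow]
      rw [hA]
      refine h5.trans (le_of_eq ?_)
      rw [← norm_sq_eq]
      ring
  · simp only [I4_abs]
    exact h1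
  · rw [hA]
    exact h2

end Pool.Agent.TRC
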