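import Pool.Agent.TRC.Targets2

/-!
# Project TRC: the moments for `n = 5`
-/

set_option autoImplicit false

noncomputable section

open MeasureTheory Set Filter
open scoped ENNReal RealInnerProductSpace Topology

namespace Pool.Agent.TRC

open Pool.Agent.ExpMax

namespace VA5_

theorem W_eq (n : ℕ) (k : ℕ) : W n k = ((Wn n k : ℕ) : ℝ) := by
  induction k with
  | zero => simp [W, Wn]
  | succ k ih =>
    have h : W n (k + 1) = W n k * ((2 * (k : ℝ) + 2) * ((n : ℝ) + 2 * k)) := by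
      unfold W
      rw [Finset.prod_range_succ]
    rw [h, ih, Wn]
    push_cast
    ring

/-- The Taylor polynomial at a rational point. -/
def Pq (n N : ℕ) (r : ℚ) : ℚ :=
  ∑ k ∈ Finset.range (N + 1), (-1) ^ k * r ^ (2 * k) / (Wn n k : ℚ)

theorem P_eq (n N : ℕ) (r : ℚ) : P n N (r : ℝ) = ((Pq n N r : ℚ) : ℝ) := by
  unfold P Pq
  push_cast
  refine Finset.sum_congr rfl fun k _ => ?_
  rw [W_eq]

theorem i4 : (483876 / 100000 : ℚ) ≤ 10 ^ 5 * itg 5 (powL (cofs 5 10 1 64 26) 4) / 2 ^ 256 ∧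
    10 ^ 5 * itg 5 (powL (cofs 5 10 1 64 26) 4) / 2 ^ 256 ≤ (483877 / 100000 : ℚ) := by
  decide +kernel

theorem i6 : (1924404 / 1000000 : ℚ) ≤ 10 ^ 5 * itg 5 (powL (cofs 5 10 1 64 26) 6) / 2 ^ 384 ∧
    10 ^ 5 * itg 5 (powL (cofs 5 10 1 64 26) 6) / 2 ^ 384 ≤ (1924405 / 1000000 : ℚ) := by
  decide +kernel

theorem i8 : (989756 / 1000000 : ℚ) ≤ 10 ^ 5 * itg 5 (powL (cofs 5 10 1 64 26) 8) / 2 ^ 512 ∧
    10 ^ 5 * itg 5 (powL (cofs 5 10 1 64 26) 8) / 2 ^ 512 ≤ (989757 / 1000000 : ℚ) := by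
  decide +kernel

theorem i10 : (585252 / 1000000 : ℚ) ≤ 10 ^ 5 * itg 5 (powL (cofs 5 10 1 64 26) 10) / 2 ^ 640 ∧
    10 ^ 5 * itg 5 (powL (cofs 5 10 1 64 26) 10) / 2 ^ 640 ≤ (585254 / 1000000 : ℚ) := by
  decide +kernel

theorem w27 : (10 : ℚ) ^ 54 / (Wn 5 27 : ℚ) ≤ 1 / 10 ^ 17 := by decide +kernel

theorem w27' : (10 : ℚ) ^ 54 / (Wn 7 27 : ℚ) ≤ 1 / 10 ^ 17 := by decide +kernel

theorem p5 : (23540082 / 10 ^ 9 : ℚ) ≤ Pq 5 26 10 ∧ Pq 5 26 10 ≤ (23540083 / 10 ^ 9 : ℚ) := by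
  decide +kernel

theorem p7 : (233826580 / 10 ^ 10 : ℚ) ≤ 2 * Pq 7 26 10 ∧
    2 * Pq 7 26 10 ≤ (233826581 / 10 ^ 10 : ℚ) := by
  decide +kernel

/-- The integral on `[0, 10]`. -/
theorem mom (h_ENG : T_ENG) {φ φ' : ℝ → ℝ} (hB : Bes 5 φ φ') (m : ℕ) (hm : m ≤ 10) (lo hi : ℚ)
    (h : lo ≤ 10 ^ 5 * itg 5 (powL (cofs 5 10 1 64 26) m) / 2 ^ (64 * m) ∧
      10 ^ 5 * itg 5 (powL (cofs 5 10 1 64 26) m) / 2 ^ (64 * m) ≤ hi) :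
    (lo : ℝ) - 1 / 10 ^ 7 ≤ (∫ r in (0 : ℝ)..10, φ r ^ m * r ^ (5 - 1)) ∧
      (∫ r in (0 : ℝ)..10, φ r ^ m * r ^ (5 - 1)) ≤ (hi : ℝ) + 1 / 10 ^ 7 := by
  obtain ⟨δ, hδ⟩ : ∃ δ : ℝ, δ = (((26 : ℕ) : ℝ) + 1) / 2 ^ 64 +
    10 ^ (2 * 26 + 2) / W 5 (26 + 1) := ⟨_, rfl⟩
  have h1 := h_ENG 5 φ φ' (by norm_num) hB 10 1 64 26 m (by norm_num) (by norm_num) 10 δ
    (by norm_num) hδ
  have hw : (10 : ℝ) ^ (2 * 26 + 2) / W 5 (26 + 1) ≤ 1 / 10 ^ 17 := by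
    rw [W_eq]
    have h2 := w27
    have h3 : (((10 : ℚ) ^ 54 / (Wn 5 27 : ℚ) : ℚ) : ℝ) ≤ ((1 / 10 ^ 17 : ℚ) : ℝ) := by
      exact_mod_cast h2
    push_cast at h3
    norm_num at h3 ⊢
    exact h3
  have hw0 : (0 : ℝ) ≤ 10 ^ (2 * 26 + 2) / W 5 (26 + 1) := by
    rw [W_eq]
    positivity
  have hδ0 : 0 ≤ δ := by
    rw [hδ]
    positivity
  have hδ1 : δ ≤ 1 / 10 ^ 16 := by
    rw [hδ]
    have h4 : (((26 : ℕ) : ℝ) + 1) / 2 ^ 64 ≤ 1 / 10 ^ 17 * 5 := by norm_num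
    have h5 : (1 : ℝ) / 10 ^ 17 * 5 + 1 / 10 ^ 17 ≤ 1 / 10 ^ 16 := by norm_num
    linarith
  have hpow : (1 + δ) ^ (m - 1) ≤ 2 ^ 9 := by
    calc (1 + δ) ^ (m - 1) ≤ 2 ^ (m - 1) := by
          apply pow_le_pow_left₀ (by linarith)
          have : (1 : ℝ) / 10 ^ 16 ≤ 1 := by norm_num
          linarith
      _ ≤ 2 ^ 9 := pow_le_pow_right₀ (by norm_num) (by omega)
  have hm' : (m : ℝ) ≤ 10 := by exact_mod_cast hm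
  have herr : (10 : ℝ) ^ 5 / ((5 : ℕ) : ℝ) * (m * δ * (1 + δ) ^ (m - 1)) ≤ 1 / 10 ^ 7 := by
    have h6 : (m : ℝ) * δ * (1 + δ) ^ (m - 1) ≤ 10 * (1 / 10 ^ 16) * 2 ^ 9 := by
      apply mul_le_mul _ hpow (by positivity) (by norm_num)
      exact mul_le_mul hm' hδ1 hδ0 (by norm_num)
    calc (10 : ℝ) ^ 5 / ((5 : ℕ) : ℝ) * (m * δ * (1 + δ) ^ (m - 1))
        ≤ (10 : ℝ) ^ 5 / ((5 : ℕ) : ℝ) * (10 * (1 / 10 ^ 16) * 2 ^ 9) :=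
          mul_le_mul_of_nonneg_left h6 (by positivity)
      _ ≤ 1 / 10 ^ 7 := by norm_num
  have h7 := abs_le.mp (h1.trans herr)
  have h8 : (lo : ℝ) ≤ 10 ^ 5 * ((itg 5 (powL (cofs 5 10 1 64 26) m) : ℚ) : ℝ) /
      2 ^ (64 * m) := by
    have := h.1
    have h9 : (lo : ℝ) ≤ ((10 ^ 5 * itg 5 (powL (cofs 5 10 1 64 26) m) / 2 ^ (64 * m) : ℚ) : ℝ) :=
      by exact_mod_cast this
    push_cast at h9
    exact h9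
  have h10 : 10 ^ 5 * ((itg 5 (powL (cofs 5 10 1 64 26) m) : ℚ) : ℝ) /
      2 ^ (64 * m) ≤ (hi : ℝ) := by
    have := h.2
    have h9 : ((10 ^ 5 * itg 5 (powL (cofs 5 10 1 64 26) m) / 2 ^ (64 * m) : ℚ) : ℝ) ≤ (hi : ℝ) :=
      by exact_mod_cast this
    push_cast at h9
    exact h9
  constructor
  · linarith [h7.1]
  · linarith [h7.2]

/-- Values at `10`. -/
theorem val {φ φ' : ℝ → ℝ} (hB : Bes 5 φ φ') :
    0.02354 ≤ φ 10 ∧ φ 10 ≤ 0.0235401 ∧ -0.0233827 ≤ φ' 10 ∧ φ' 10 ≤ -0.0233826 := by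
  have h1 := hB.tay 26 10
  have h2 := hB.tay' 26 10
  have hw : (|10| : ℝ) ^ (2 * 26 + 2) / W 5 (26 + 1) ≤ 1 / 10 ^ 17 := by
    rw [W_eq, abs_of_nonneg (by norm_num : (0 : ℝ) ≤ 10)]
    have h3 : (((10 : ℚ) ^ 54 / (Wn 5 27 : ℚ) : ℚ) : ℝ) ≤ ((1 / 10 ^ 17 : ℚ) : ℝ) := by
      exact_mod_cast w27
    push_cast at h3
    norm_num at h3 ⊢
    exact h3
  have hw' : (|10| : ℝ) ^ (2 * 26 + 2) / W (5 + 2) (26 + 1) ≤ 1 / 10 ^ 17 := by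
    rw [W_eq, abs_of_nonneg (by norm_num : (0 : ℝ) ≤ 10)]
    have h3 : (((10 : ℚ) ^ 54 / (Wn 7 27 : ℚ) : ℚ) : ℝ) ≤ ((1 / 10 ^ 17 : ℚ) : ℝ) := by
      exact_mod_cast w27'
    push_cast at h3
    norm_num at h3 ⊢
    exact h3
  have hP5 : P 5 26 10 = ((Pq 5 26 10 : ℚ) : ℝ) := by
    have := P_eq 5 26 10
    push_cast at this
    exact this
  have hP7 : P (5 + 2) 26 10 = ((Pq 7 26 10 : ℚ) : ℝ) := by
    have := P_eq 7 26 10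
    push_cast at this
    exact this
  have h4 : ((23540082 / 10 ^ 9 : ℚ) : ℝ) ≤ ((Pq 5 26 10 : ℚ) : ℝ) := by exact_mod_cast p5.1
  have h5 : ((Pq 5 26 10 : ℚ) : ℝ) ≤ ((23540083 / 10 ^ 9 : ℚ) : ℝ) := by exact_mod_cast p5.2
  have h6 : ((233826580 / 10 ^ 10 : ℚ) : ℝ) ≤ 2 * ((Pq 7 26 10 : ℚ) : ℝ) := by
    exact_mod_cast p7.1
  have h7 : 2 * ((Pq 7 26 10 : ℚ) : ℝ) ≤ ((233826581 / 10 ^ 10 : ℚ) : ℝ) := by
    exact_mod_cast p7.2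
  push_cast at h4 h5 h6 h7
  rw [hP5] at h1
  rw [hP7] at h2
  have h8 := abs_le.mp (h1.trans hw)
  have h9 : |φ' 10 + 10 / ((5 : ℕ) : ℝ) * ((Pq 7 26 10 : ℚ) : ℝ)| ≤ 1 / 10 ^ 16 := by
    refine h2.trans ?_
    calc |(10 : ℝ)| / ((5 : ℕ) : ℝ) * (|10| ^ (2 * 26 + 2) / W (5 + 2) (26 + 1))
        ≤ |(10 : ℝ)| / ((5 : ℕ) : ℝ) * (1 / 10 ^ 17) :=
          mul_le_mul_of_nonneg_left hw' (by positivity)
      _ ≤ 1 / 10 ^ 16 := by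
          rw [abs_of_nonneg (by norm_num : (0 : ℝ) ≤ 10)]
          norm_num
  have h10 := abs_le.mp h9
  norm_num at h4 h5 h6 h7 h8 h10 ⊢
  refine ⟨by linarith [h8.1], by linarith [h8.2], by linarith [h10.1], by linarith [h10.2]⟩

/-- The constant of the tail. -/
theorem tailD {x y : ℝ} (hx : 0.02354 ≤ x) (hx' : x ≤ 0.0235401) (hy : -0.0233827 ≤ y)
    (hy' : y ≤ -0.0233826) :
    (10 : ℝ) ^ (5 - 1) * ((y + (((5 : ℕ) : ℝ) - 1) / (2 * 10) * x) ^ 2 /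
      (1 - (((5 : ℕ) : ℝ) - 1) * (((5 : ℕ) : ℝ) - 3) / 4 / 10 ^ 2) + x ^ 2) ≤ 9.1001 := by
  have h1 : (y + (((5 : ℕ) : ℝ) - 1) / (2 * 10) * x) ^ 2 ≤ 0.0186747 ^ 2 := by
    apply sq_le_sq'
    · norm_num at *
      linarith
    · norm_num at *
      linarith
  have h2 : x ^ 2 ≤ 0.0235401 ^ 2 := by
    apply sq_le_sq'
    · norm_num at *
      linarith
    · exact hx'
  have h3 : (1 - (((5 : ℕ) : ℝ) - 1) * (((5 : ℕ) : ℝ) - 3) / 4 / 10 ^ 2) = 0.98 := by norm_num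
  rw [h3]
  have h4 : (y + (((5 : ℕ) : ℝ) - 1) / (2 * 10) * x) ^ 2 / 0.98 ≤ 0.0186747 ^ 2 / 0.98 :=
    div_le_div_of_nonneg_right h1 (by norm_num)
  calc (10 : ℝ) ^ (5 - 1) * ((y + (((5 : ℕ) : ℝ) - 1) / (2 * 10) * x) ^ 2 / 0.98 + x ^ 2)
      ≤ (10 : ℝ) ^ (5 - 1) * (0.0186747 ^ 2 / 0.98 + 0.0235401 ^ 2) :=
        mul_le_mul_of_nonneg_left (by linarith) (by positivity)
    _ ≤ 9.1001 := by norm_num

end VA5_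

open VA5_ in
theorem p_VA5 (h_ENG : T_ENG) (h_TLR : T_TLR) : T_VA5 := by
  intro φ φ' hB
  obtain ⟨hx, hx', hy, hy'⟩ := val hB
  have hT : ∀ m : ℕ, 2 ≤ m → (∫ r in (0 : ℝ)..10, φ r ^ (2 * m) * r ^ (5 - 1)) ≤
      a 5 φ (2 * m) ∧ a 5 φ (2 * m) ≤ (∫ r in (0 : ℝ)..10, φ r ^ (2 * m) * r ^ (5 - 1)) +
      9.1001 ^ m / (((m * (5 - 1) - 5 : ℕ) : ℝ) * 10 ^ (m * (5 - 1) - 5)) := fun m hm =>
    h_TLR 5 m φ φ' (by norm_num) hm hB 10 9.1001 (by norm_num) (by norm_num)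
      (tailD hx hx' hy hy')
  have m4 := mom h_ENG hB 4 (by norm_num) _ _ i4
  have m6 := mom h_ENG hB 6 (by norm_num) _ _ i6
  have m8 := mom h_ENG hB 8 (by norm_num) _ _ i8
  have m10 := mom h_ENG hB 10 (by norm_num) _ _ i10
  have t4 := hT 2 (by norm_num)
  have t6 := hT 3 (by norm_num)
  have t8 := hT 4 (by norm_num)
  have t10 := hT 5 (by norm_num)
  have e4 : (2 : ℝ) * ((2 : ℕ) : ℝ) = 4 := by norm_num
  have e6 : (2 : ℝ) * ((3 : ℕ) : ℝ) = 6 := by norm_num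
  have e8 : (2 : ℝ) * ((4 : ℕ) : ℝ) = 8 := by norm_num
  have e10 : (2 : ℝ) * ((5 : ℕ) : ℝ) = 10 := by norm_num
  rw [e4] at t4
  rw [e6] at t6
  rw [e8] at t8
  rw [e10] at t10
  norm_num at m4 m6 m8 m10 t4 t6 t8 t10 ⊢
  refine ⟨by linarith [t4.2, m4.2], by linarith [t6.1, m6.1], by linarith [t6.2, m6.2],
    by linarith [t8.1, m8.1], by linarith [t8.2, m8.2], by linarith [t10.2, m10.2]⟩

end Pool.Agent.TRC
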