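import Pool.Agent.TRC.Defs

/-!
# Project TRC (MP_9044d4_an): targets, part 1 (the sphere)

Goal: for `3 ≤ n ≤ 7` (spheres `S^2, ..., S^6`) and every real `p ≥ 6`, constants are maximizers of
the extension inequality `L^2(S) → L^p(R^n)`. `n = finrank F` always. `M = J p f` is the best
constant if `f` is a maximizer (`IsMx p f`). Elementary facts on `E` are in `TRC/Lem.lean`
(linearity, `‖E g y‖ ≤ ‖g‖`, continuity, the characters `ch y` with `E g y = ⟪ch y, g⟫`).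
-/

set_option autoImplicit false

noncomputable section

open MeasureTheory Set Filter
open scoped ENNReal RealInnerProductSpace Topology

namespace Pool.Agent.TRC

open Pool.Agent.ExpMax

/-! ### Integrability -/

/-- I4. The exponent `4`. Proof: `SPH4.T_CORE4` (theorem `SPH4.p_CORE4` with its hypotheses; take
`(h : SPH4.T_CORE4)` as hypothesis) for `f : H F`: `‖f‖ ^ 4 = (∫ ‖f‖ ^ 2) ^ 2`,
`|x| ^ (4 : ℝ) = |x| ^ 4`. Last part: `J 4` of the constant function `1` is `A F 4`. -/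
def T_I4 : Prop := ∀ (F : Type) [NormedAddCommGroup F] [InnerProductSpace ℝ F]
  [FiniteDimensional ℝ F] [MeasurableSpace F] [BorelSpace F], 3 ≤ Module.finrank ℝ F →
  Sharp F 4 ∧ Integrable (fun y : F => |u0 y| ^ (4 : ℝ)) ∧ 0 < A F 4

/-- IQ. The exponents `q ≥ 4`. Proof: for `‖f‖ ≤ 1` we have `‖E f y‖ ≤ 1`, so
`‖E f y‖ ^ q ≤ ‖E f y‖ ^ 4`; in general divide by `‖f‖` (homogeneity). `|u0| ≤ 1`
(`tBASIC`), `u0 0 = 1` and continuity give `0 < A F q`. `o` is the constant function `1`.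
Hypothesis: T_I4. -/
def T_IQ : Prop := ∀ (F : Type) [NormedAddCommGroup F] [InnerProductSpace ℝ F]
  [FiniteDimensional ℝ F] [MeasurableSpace F] [BorelSpace F], 3 ≤ Module.finrank ℝ F →
  ∀ q : ℝ, 4 ≤ q →
    (∀ f : H F, Integrable (fun y => ‖E f y‖ ^ q) ∧ J q f ≤ A F 4 * ‖f‖ ^ q) ∧
    Integrable (fun y : F => |u0 y| ^ q) ∧ 0 < A F q ∧ ∃ o : H F, ‖o‖ = 1 ∧ J q o = A F q

/-- RL. The extension tends to `0` at infinity. Proof: `E f` is Lipschitz with a constant `L`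
(`tEXTC`). If not, there are `ε > 0` and points `y_k → ∞` with pairwise distance at least `1` and
`‖E f (y_k)‖ ≥ ε`; on the balls of radius `ρ = min (1/2) (ε / (2 L + 1))` around `y_k`, which are
disjoint, `‖E f‖ ^ 4 ≥ (ε / 2) ^ 4`, so the integral of `‖E f‖ ^ 4` is infinite.
Hypothesis: T_IQ. -/
def T_RL : Prop := ∀ (F : Type) [NormedAddCommGroup F] [InnerProductSpace ℝ F]
  [FiniteDimensional ℝ F] [MeasurableSpace F] [BorelSpace F], 3 ≤ Module.finrank ℝ F →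
  ∀ f : H F, Tendsto (fun y => ‖E f y‖) (cocompact F) (𝓝 0)

/-! ### Weak and strong convergence -/

/-- WK. Weak compactness of the unit ball. Proof: `H F` is separable (a countable dense set exists:
`MeasureTheory.Lp.SecondCountableTopology`, the sphere is a second countable space);
`WeakDual.isSeqCompact_closedBall` and the Riesz representation `InnerProductSpace.toDual`. (Or a
diagonal argument over the separable closed span of the sequence.) -/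
def T_WK : Prop := ∀ (F : Type) [NormedAddCommGroup F] [InnerProductSpace ℝ F]
  [FiniteDimensional ℝ F] [MeasurableSpace F] [BorelSpace F], 1 ≤ Module.finrank ℝ F →
  ∀ f : ℕ → H F, (∀ k, ‖f k‖ ≤ 1) → ∃ (g : H F) (m : ℕ → ℕ), StrictMono m ∧ ‖g‖ ≤ 1 ∧
    ∀ h : H F, Tendsto (fun k => inner ℂ h (f (m k))) atTop (𝓝 (inner ℂ h g))

/-- INJ. The extension is injective. Proof: the functions `ω ↦ exp (i ⟪ω, y⟫)` span a star
subalgebra of `C(S, ℂ)` which separates points (products: sums of the `y`), so the span is dense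
in `C(S, ℂ)` (Stone-Weierstrass) and in `L^2`
(`MeasureTheory.Lp.boundedContinuousFunction_dense` or `ContinuousMap.toLp_denseRange`); `g` is
orthogonal to all of them. -/
def T_INJ : Prop := ∀ (F : Type) [NormedAddCommGroup F] [InnerProductSpace ℝ F]
  [FiniteDimensional ℝ F] [MeasurableSpace F] [BorelSpace F], 1 ≤ Module.finrank ℝ F →
  ∀ g : H F, (∀ y, E g y = 0) → g = 0

/-- STR. Pointwise convergence of the extensions and constant norm imply strong convergence. Proof: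
the span of the characters `ch y` is dense (its orthogonal complement is `0` by T_INJ), so
`⟪h, g k⟫ → ⟪h, f⟫` for every `h` (bounded sequence), and
`‖g k - f‖ ^ 2 = ‖g k‖ ^ 2 + ‖f‖ ^ 2 - 2 Re ⟪f, g k⟫ → 0`. Hypothesis: T_INJ. -/
def T_STR : Prop := ∀ (F : Type) [NormedAddCommGroup F] [InnerProductSpace ℝ F]
  [FiniteDimensional ℝ F] [MeasurableSpace F] [BorelSpace F], 1 ≤ Module.finrank ℝ F →
  ∀ (f : H F) (g : ℕ → H F), (∀ k, ‖g k‖ = ‖f‖) →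
    (∀ y, Tendsto (fun k => E (g k) y) atTop (𝓝 (E f y))) → Tendsto g atTop (𝓝 f)

/-- BL. The lemma of Brezis and Lieb. Proof: by Fatou `‖u‖ ^ p` is integrable with integral at most
`C`, and `∫ ‖u_k - u‖ ^ p ≤ 2 ^ p (C + C)`. For every `ε > 0` there is `K` with
`| ‖a + b‖ ^ p - ‖a‖ ^ p - ‖b‖ ^ p | ≤ ε ‖a‖ ^ p + K ‖b‖ ^ p` for all complex `a`, `b` (for
`‖b‖ ≤ ‖a‖`, `|‖a + b‖ ^ p - ‖a‖ ^ p| ≤ p (2 ‖a‖) ^ (p - 1) ‖b‖` and Young's inequality;
for `‖a‖ ≤ ‖b‖` clear). With `a = u_k - u`, `b = u`: the nonnegative functions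
`max 0 (|‖u_k‖ ^ p - ‖u_k - u‖ ^ p - ‖u‖ ^ p| - ε ‖u_k - u‖ ^ p)` are at most `K ‖u‖ ^ p` and tend
to `0` pointwise: dominated convergence. So `limsup |∫ ...| ≤ ε 2 ^ p (2 C)`. -/
def T_BL : Prop := ∀ (X : Type) [MeasurableSpace X] (μ : Measure X) (p C : ℝ), 1 < p →
  ∀ (u : ℕ → X → ℂ) (v : X → ℂ), (∀ k, AEStronglyMeasurable (u k) μ) →
  (∀ k, Integrable (fun x => ‖u k x‖ ^ p) μ) → (∀ k, ∫ x, ‖u k x‖ ^ p ∂μ ≤ C) →
  (∀ x, Tendsto (fun k => u k x) atTop (𝓝 (v x))) →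
    Integrable (fun x => ‖v x‖ ^ p) μ ∧ (∀ k, Integrable (fun x => ‖u k x - v x‖ ^ p) μ) ∧
    Tendsto (fun k => ∫ x, ‖u k x‖ ^ p ∂μ - ∫ x, ‖u k x - v x‖ ^ p ∂μ) atTop
      (𝓝 (∫ x, ‖v x‖ ^ p ∂μ))

/-- MOD. Modulations and isometries. Proof: `g ω = f ω exp (-i ⟪ω, b⟫)`; `g = f ∘ rot R`
(`⟪R ω, R y⟫ = ⟪ω, y⟫`, `tINV`: `rot R` preserves the measure:
`∫ f ω exp (-i ⟪ω, R y⟫) = ∫ f (R ω) exp (-i ⟪R ω, R y⟫)`). -/
def T_MOD : Prop := ∀ (F : Type) [NormedAddCommGroup F] [InnerProductSpace ℝ F]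
  [FiniteDimensional ℝ F] [MeasurableSpace F] [BorelSpace F], 1 ≤ Module.finrank ℝ F →
  ∀ f : H F, (∀ b : F, ∃ g : H F, ‖g‖ = ‖f‖ ∧ ∀ y, E g y = E f (y + b)) ∧
    ∀ R : F ≃ₗᵢ[ℝ] F, ∃ g : H F, ‖g‖ = ‖f‖ ∧ ∀ y, E g y = E f (R y)

/-! ### Maximizers -/

/-- EXI. Existence of a maximizer. Proof: let `M` be the supremum of `J p g` over `‖g‖ = 1`
(`M ≤ A F 4`, `M ≥ A F p > 0`), `J p (g k) → M`, `‖g k‖ = 1`. As
`J p g ≤ (sup ‖E g‖) ^ (p - 4) J 4 g ≤ (sup ‖E g‖) ^ (p - 4) A F 4`, there are `c > 0` and points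
`y_k` with `‖E (g k) y_k‖ ≥ c`; by T_MOD we may assume `y_k = 0`. T_WK: `g k → g` weakly along a
subsequence, `‖g‖ ≤ 1`; `E (g k) y → E g y` for all `y`, so `‖E g 0‖ ≥ c`, `g ≠ 0`. T_BL:
`M = lim J p (g k) = J p g + lim J p (g k - g)`, and `J p h ≤ M ‖h‖ ^ p` for all `h`
(homogeneity), `‖g k - g‖ ^ 2 → 1 - ‖g‖ ^ 2`. With `s = ‖g‖ ^ 2 ∈ (0, 1]`:
`M ≤ M s ^ (p / 2) + M (1 - s) ^ (p / 2)`, so `s = 1` (for `0 < s < 1`, `s ^ (p / 2) < s`). Hence
`lim J p (g k - g) ≤ 0`, `J p g = M`, `‖g‖ = 1`. Hypotheses: T_IQ, T_WK, T_BL, T_MOD. -/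
def T_EXI : Prop := ∀ (F : Type) [NormedAddCommGroup F] [InnerProductSpace ℝ F]
  [FiniteDimensional ℝ F] [MeasurableSpace F] [BorelSpace F], 3 ≤ Module.finrank ℝ F →
  ∀ p : ℝ, 4 < p → ∃ f : H F, IsMx p f

/-- SYR. A maximizer with real valued extension. Proof: let `g ω = (f ω + conj (f (-ω))) / 2`,
`h ω = (f ω - conj (f (-ω))) / (2 i)`. Then `E g = Re (E f)`, `E h = Im (E f)` (the measure is
invariant under `ω ↦ -ω`, `tINV`) and `‖g‖ ^ 2 + ‖h‖ ^ 2 = ‖f‖ ^ 2 = 1`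
(`|a + conj b| ^ 2 + |a - conj b| ^ 2 = 2 |a| ^ 2 + 2 |b| ^ 2`). Let `x = ‖g‖ ^ 2`,
`z = ‖h‖ ^ 2`, `x + z = 1`. If `x = 0` take `h`, if `z = 0` take `g`. Otherwise
`‖E f y‖ ^ p = (x (a ^ 2 / x) + z (b ^ 2 / z)) ^ (p / 2) ≤ x (a ^ 2 / x) ^ (p / 2) +
z (b ^ 2 / z) ^ (p / 2)` with `a = E g y`, `b = E h y` (convexity), so
`M ≤ x ^ (1 - p / 2) J p g + z ^ (1 - p / 2) J p h ≤ x M + z M = M`; equality:
`J p g = M x ^ (p / 2)` and `g / √x` is a maximizer. Hypothesis: T_IQ. -/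
def T_SYR : Prop := ∀ (F : Type) [NormedAddCommGroup F] [InnerProductSpace ℝ F]
  [FiniteDimensional ℝ F] [MeasurableSpace F] [BorelSpace F], 3 ≤ Module.finrank ℝ F →
  ∀ (p : ℝ) (f : H F), 4 ≤ p → IsMx p f → ∃ g : H F, IsMx p g ∧ Rl g ∧ J p g = J p f

/-- EUL. The Euler-Lagrange equation. Proof: let `u = E f` (real), `v = E h`, `M = J p f`,
`L = ∫ |u| ^ (p - 2) u Re v`. The gradient inequality of the convex function `|z| ^ p`:
`‖u + t v‖ ^ p ≥ |u| ^ p + p t |u| ^ (p - 2) u Re v`, so for all real `t`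
`M + p t L ≤ J p (f + t h) ≤ M ‖f + t h‖ ^ p = M (1 + 2 t c + t ^ 2 ‖h‖ ^ 2) ^ (p / 2)`,
`c = Re ⟪h, f⟫`. Derivative at `t = 0` from both sides: `L = M c`. This is the real part of the
claim; the same for `i h` gives the imaginary part. (`|u| ^ (p - 2) |u| |v|` is integrable:
Young's inequality with exponents `p / (p - 1)` and `p`.) Hypothesis: T_IQ. -/
def T_EUL : Prop := ∀ (F : Type) [NormedAddCommGroup F] [InnerProductSpace ℝ F]
  [FiniteDimensional ℝ F] [MeasurableSpace F] [BorelSpace F], 3 ≤ Module.finrank ℝ F →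
  ∀ (p : ℝ) (f : H F), 4 ≤ p → IsMx p f → Rl f → EL p f

/-- REM. The remainder. Proof: with `a = E g y`, `b = E f y` (real, `|a|, |b| ≤ 1`),
`m = max |a| |b|`: `| |a| ^ (p - 2) a - |b| ^ (p - 2) b - (p - 1) |b| ^ (p - 2) (a - b) | ≤
(p - 1) (p - 2) m ^ (p - 3) (a - b) ^ 2 ≤ (p - 1) (p - 2) m (a - b) ^ 2` (Taylor, `p ≥ 4`).
Subtract the equations EL of `g` and `f`; the left side is at most
`(p - 1) (p - 2) ∫ (|E f| + |E g|) |E (g - f)| ^ 2 |E h| ≤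
(p - 1) (p - 2) 2 A F 4 ‖g - f‖ ^ 2 ‖h‖` by Hoelder with four exponents `4` and `J 4 ≤ A F 4 ‖.‖^4`
(or the elementary `x y z w ≤ (x^4 + y^4 + z^4 + w^4) / 4` and homogeneity). Hypothesis:
T_IQ. -/
def T_REM : Prop := ∀ (F : Type) [NormedAddCommGroup F] [InnerProductSpace ℝ F]
  [FiniteDimensional ℝ F] [MeasurableSpace F] [BorelSpace F], 3 ≤ Module.finrank ℝ F →
  ∀ p : ℝ, 6 ≤ p → ∃ C : ℝ, ∀ f g : H F, ‖f‖ = 1 → ‖g‖ = 1 → Rl f → Rl g → EL p f → EL p g →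
    J p g = J p f → ∀ h : H F,
      ‖((J p f : ℝ) : ℂ) * inner ℂ h (g - f) - ((p - 1 : ℝ) : ℂ) * B (p - 2) f h (g - f)‖ ≤
        C * ‖g - f‖ ^ 2 * ‖h‖

/-- LIM. The derivative of a curve of maximizers solves the linearised equation. Proof: `g k → f`
(T_STR). If `g k = f` for infinitely many `k` then `v = 0`, take `ψ = 0`. Otherwise let
`d k = (g k - f) / ‖g k - f‖` for large `k`; along a subsequence `d k → φ` weakly (T_WK). T_REM
divided by `‖g k - f‖`: `‖M ⟪h, d k⟫ - (p - 1) B (p - 2) f h (d k)‖ ≤ C ‖g k - f‖ ‖h‖`. By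
Cauchy-Schwarz `|B (p - 2) f h (d k - φ)| ≤ (∫ |E f| ^ (p - 2) |E h| ^ 2) ^ (1/2)
(∫ |E f| ^ (p - 2) |E (d k - φ)| ^ 2) ^ (1/2)`: the first factor is at most `K ‖h‖`
(`|E h| ≤ ‖h‖`, `K ^ 2 = ∫ |E f| ^ (p - 2)`), the second one tends to `0` by dominated convergence
(`E (d k) y → E φ y`, `|E (d k - φ)| ≤ 2`, `p - 2 ≥ 4`). So
`sup_{‖h‖ ≤ 1} |M ⟪h, d k⟫ - (p - 1) B (p - 2) f h φ| → 0`, hence `d k` converges in norm (`M > 0`),
to `φ`: `‖φ‖ = 1` and `Eig p f φ`. If `v = 0` take `ψ = 0`. Otherwise `v y₀ ≠ 0` for some `y₀`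
and `ρ k = s k / ‖g k - f‖` satisfies `E (d k) y = ρ k ((E (g k) y - E f y) / s k)`, so
`ρ k → ρ = E φ y₀ / v y₀` and `E φ = ρ v`; `ρ ≠ 0` since `φ ≠ 0` (T_INJ). `ψ = φ / ρ`.
Hypotheses: T_IQ, T_WK, T_INJ, T_STR, T_REM. -/
def T_LIM : Prop := ∀ (F : Type) [NormedAddCommGroup F] [InnerProductSpace ℝ F]
  [FiniteDimensional ℝ F] [MeasurableSpace F] [BorelSpace F], 3 ≤ Module.finrank ℝ F →
  ∀ (p : ℝ) (f : H F) (g : ℕ → H F) (s : ℕ → ℝ) (v : F → ℂ), 6 ≤ p → 0 < J p f →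
  ‖f‖ = 1 → Rl f → EL p f → (∀ k, ‖g k‖ = 1 ∧ Rl (g k) ∧ EL p (g k) ∧ J p (g k) = J p f) →
  (∀ k, 0 < s k) → Tendsto s atTop (𝓝 0) →
  (∀ y, Tendsto (fun k => E (g k) y) atTop (𝓝 (E f y))) →
  (∀ y, Tendsto (fun k => (E (g k) y - E f y) / ((s k : ℝ) : ℂ)) atTop (𝓝 (v y))) →
    ∃ ψ : H F, Eig p f ψ ∧ ∀ y, E ψ y = v y

/-! ### Rotations and translations -/

/-- DIF. The extension is continuously differentiable. Proof: differentiation under the integral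
sign (`hasFDerivAt_integral_of_dominated_of_fderiv_le` or `contDiff` of parametric integrals):
the derivative at `y` is `w ↦ Ext (ω ↦ -i ⟪ω, w⟫ f ω) y`; it is continuous in `y` by `tEXTC`. -/
def T_DIF : Prop := ∀ (F : Type) [NormedAddCommGroup F] [InnerProductSpace ℝ F]
  [FiniteDimensional ℝ F] [MeasurableSpace F] [BorelSpace F], 1 ≤ Module.finrank ℝ F →
  ∀ f : H F, ContDiff ℝ 1 (E f)

/-- ROP. Rotations in a plane. Proof: if `v = 0` take the identity. Otherwise let `l = ‖v‖`,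
`v' = v / l`: `R s y = y + (cos (s l) - 1) (⟪e, y⟫ e + ⟪v', y⟫ v') + sin (s l) (⟪v', y⟫ e -
⟪e, y⟫ v')`; it is linear and preserves the norm (the plane of `e, v'` is rotated, its orthogonal
complement is fixed), the inverse is `R (-s)`. The derivative at `0` is
`l (⟪v', y⟫ e - ⟪e, y⟫ v')`. -/
def T_ROP : Prop := ∀ (F : Type) [NormedAddCommGroup F] [InnerProductSpace ℝ F]
  [FiniteDimensional ℝ F] (e v : F), ‖e‖ = 1 → ⟪e, v⟫ = (0 : ℝ) →
  ∃ R : ℝ → (F ≃ₗᵢ[ℝ] F), (∀ y, R 0 y = y) ∧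
    ∀ y, HasDerivAt (fun s => R s y) ((⟪v, y⟫ : ℝ) • e - (⟪e, y⟫ : ℝ) • v) 0

/-- ORB. A curve of maximizers. Proof: `s k = 1 / (k + 1)`, `E (g k) y = E f (R (s k) y + s k c)`
(T_ROP, T_MOD twice). `‖g k‖ = 1`, `J p (g k) = J p f` (isometries and translations preserve the
volume), so `IsMx p (g k)`; `Rl (g k)`. The map `s ↦ R s y + s c` has the derivative
`vf e v c y` at `0` and the value `y`; chain rule (T_DIF), `HasDerivAt.tendsto_slope`.
Hypotheses: T_MOD, T_DIF, T_ROP. -/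
def T_ORB : Prop := ∀ (F : Type) [NormedAddCommGroup F] [InnerProductSpace ℝ F]
  [FiniteDimensional ℝ F] [MeasurableSpace F] [BorelSpace F], 3 ≤ Module.finrank ℝ F →
  ∀ (p : ℝ) (f : H F), IsMx p f → Rl f → ∀ e v c : F, ‖e‖ = 1 → ⟪e, v⟫ = (0 : ℝ) →
  ∃ (g : ℕ → H F) (s : ℕ → ℝ), (∀ k, IsMx p (g k) ∧ Rl (g k) ∧ J p (g k) = J p f) ∧
    (∀ k, 0 < s k) ∧ Tendsto s atTop (𝓝 0) ∧
    (∀ y, Tendsto (fun k => E (g k) y) atTop (𝓝 (E f y))) ∧
    ∀ y, Tendsto (fun k => (E (g k) y - E f y) / ((s k : ℝ) : ℂ)) atTop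
      (𝓝 (fderiv ℝ (E f) y (vf e v c y)))

/-- DRV. The derivatives of `E f` along rotations and translations. Proof: T_ORB, T_EUL, T_LIM;
`J p f ≥ J p o = A F p > 0` (T_IQ). Hypotheses: T_IQ, T_ORB, T_EUL, T_LIM. -/
def T_DRV : Prop := ∀ (F : Type) [NormedAddCommGroup F] [InnerProductSpace ℝ F]
  [FiniteDimensional ℝ F] [MeasurableSpace F] [BorelSpace F], 3 ≤ Module.finrank ℝ F →
  ∀ (p : ℝ) (f : H F), 6 ≤ p → IsMx p f → Rl f → ∀ e v c : F, ‖e‖ = 1 → ⟪e, v⟫ = (0 : ℝ) →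
  ∃ ψ : H F, Eig p f ψ ∧ ∀ y, E ψ y = fderiv ℝ (E f) y (vf e v c y)

/-- BAR. The barycentre. Proof: let `u = Re (E f)` (real valued, `C ^ 1`, tends to `0` at infinity
by T_RL) and let `δ > 0` be such that `|u| > δ` somewhere. `G y = (max 0 (u y ^ 2 - δ ^ 2)) ^ 2` is
`C ^ 1` with compact support, `G ≥ 0`, `∫ G > 0`. Let `b = (∫ G)⁻¹ ∫ G y • y`. If
`fderiv u (y + b) (vf e v c y) = 0` for all `y`, let `X y = vf e v c (y - b)`; so
`fderiv G y (X y) = 0` for all `y`. Integrate against `⟪y, w⟫`: integration by parts in every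
coordinate (`integral_bilinear_hasLineDerivAt_right_eq_neg_left_of_integrable` or
`integral_mul_fderiv_eq_neg_fderiv_mul_of_integrable`) with an orthonormal basis; the
divergence of `X` is `0` (the linear part `y ↦ ⟪v, y⟫ e - ⟪e, y⟫ v` is skew):
`0 = ∫ ⟪y, w⟫ fderiv G y (X y) = - ∫ ⟪X y, w⟫ G y = - (∫ G) ⟪c, w⟫` since
`∫ G y • (y - b) = 0`. So `c = 0`. (`u` is not `0` by T_INJ.) Hypotheses: T_RL, T_DIF, T_INJ. -/
def T_BAR : Prop := ∀ (F : Type) [NormedAddCommGroup F] [InnerProductSpace ℝ F]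
  [FiniteDimensional ℝ F] [MeasurableSpace F] [BorelSpace F], 3 ≤ Module.finrank ℝ F →
  ∀ f : H F, f ≠ 0 → Rl f → ∃ b : F, Cen (fun y => E f (y + b))

/-- GEO. Nonradial functions. Proof: there are `x`, `w` with `⟪x, w⟫ = 0`,
`fderiv u x w ≠ 0`; so `x ≠ 0` or not: if `x = 0` every `w` is allowed, but `Cen u` is not needed:
by continuity of the derivative move to `x' ≠ 0` close to `0` with `⟪x', w⟫ = 0` (choose
`x' = t z`, `z ⊥ w`, `z ≠ 0`, dimension at least `2`). Let `T = {w : ⟪x, w⟫ = 0}` and let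
`e ∈ T`, `‖e‖ = 1`, be such that `fderiv u x w = 0` for all `w ∈ T` with `⟪e, w⟫ = 0` (`e` is the
direction of the orthogonal projection to `T` of the gradient of the real function `Re u`), and
`fderiv u x e ≠ 0`. Suppose `⟪e, v⟫ = 0` and `fderiv u y (vf e v c y) = 0` for all `y`. `Cen`:
`c = 0`. `y = x`: `⟪e, x⟫ = 0`, so `⟪v, x⟫ fderiv u x e = 0` and `⟪v, x⟫ = 0`. `y = x + s v`:
`vf e v 0 (x + s v) = s ‖v‖ ^ 2 e`; if `v ≠ 0` then `fderiv u (x + s v) e = 0` for all `s ≠ 0`, and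
by continuity for `s = 0`, a contradiction. -/
def T_GEO : Prop := ∀ (F : Type) [NormedAddCommGroup F] [InnerProductSpace ℝ F]
  [FiniteDimensional ℝ F], 2 ≤ Module.finrank ℝ F → ∀ u : F → ℂ, ContDiff ℝ 1 u →
  (∀ y, (u y).im = 0) → Cen u → ¬ Rad u → ∃ e : F, ‖e‖ = 1 ∧ ∀ v c : F, ⟪e, v⟫ = (0 : ℝ) →
    (∀ y, fderiv ℝ u y (vf e v c y) = 0) → v = 0 ∧ c = 0

/-- TRA. The trace inequality. Proof: let `M = J p f > 0`. The real vector space
`{(v, c) : ⟪e, v⟫ = 0}` has dimension `2 n - 1`; let `(v_i, c_i)` be a basis and `ψ_i` the functions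
of T_DRV. They are linearly independent over `ℂ`: if `Σ z_i ψ_i = 0` then
`Σ z_i fderiv (E f) y (vf e v_i c_i y) = 0` for all `y`; `fderiv (E f) y w` is real (`Rl f`), so the
same holds for the real and imaginary parts of the `z_i`, and `(v, c) ↦ vf e v c y` is linear: by
the hypothesis `z_i = 0`. The solutions of `Eig p f` form a subspace; let `g_1, .., g_{2n-1}` be an
orthonormal basis of the span of the `ψ_i`. `M = (p - 1) B (p - 2) f g_i g_i` and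
`M = B (p - 2) f f f = J p f`. `f ⊥ g_i`: `M ⟪f, g_i⟫ = (p - 1) B (p - 2) f f g_i` and by T_EUL
`M ⟪g_i, f⟫ = B (p - 2) f g_i f`, the complex conjugate of `B (p - 2) f f g_i`; so
`M ⟪f, g_i⟫ = (p - 1) M ⟪f, g_i⟫`, `p ≠ 2`. Bessel (`Orthonormal.sum_inner_products_le` for
`ch y`): `|E f y| ^ 2 + Σ |E g_i y| ^ 2 ≤ 1`. So `M + (2 n - 1) M / (p - 1) =
∫ |E f| ^ (p - 2) (|E f| ^ 2 + Σ |E g_i| ^ 2) ≤ J (p - 2) f`. Hypotheses: T_IQ, T_EUL, T_DRV,
T_INJ. -/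
def T_TRA : Prop := ∀ (F : Type) [NormedAddCommGroup F] [InnerProductSpace ℝ F]
  [FiniteDimensional ℝ F] [MeasurableSpace F] [BorelSpace F], 3 ≤ Module.finrank ℝ F →
  ∀ (p : ℝ) (f : H F), 6 ≤ p → IsMx p f → Rl f → ∀ e : F, ‖e‖ = 1 →
  (∀ v c : F, ⟪e, v⟫ = (0 : ℝ) → (∀ y, fderiv ℝ (E f) y (vf e v c y) = 0) → v = 0 ∧ c = 0) →
    J p f * (1 + (2 * (Module.finrank ℝ F : ℝ) - 1) / (p - 1)) ≤ J (p - 2) f

/-- RDF. Radial extensions. Proof: if `⟪x, w⟫ = 0` implies `fderiv (E f) x w = 0`, then `E f` is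
constant on every sphere around `0`: two orthogonal points `x`, `z` of the same norm are joined by
the curve `cos t x + sin t z`, whose velocity is orthogonal to the position; two arbitrary points
are joined by such a quarter and a further arc of a great circle (dimension at least `2`). So
`E f y = ∫ E f (‖y‖ ω') dω' = ∫ ∫ f ω exp (-i ‖y‖ ⟪ω, ω'⟫) dω dω' = ∫ f ω u0 (‖y‖ ω) dω =
u0 y ∫ f = u0 y E f 0` (Fubini; `∫ exp (-i ⟪ω', z⟫) dω' = u0 z` and `u0` is radial: `tBASIC`). -/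
def T_RDF : Prop := ∀ (F : Type) [NormedAddCommGroup F] [InnerProductSpace ℝ F]
  [FiniteDimensional ℝ F] [MeasurableSpace F] [BorelSpace F], 2 ≤ Module.finrank ℝ F →
  ∀ f : H F, Rad (E f) → ∀ y, E f y = ((u0 y : ℝ) : ℂ) * E f 0

/-- ALT. The alternative. Proof: T_EXI, T_SYR give a maximizer `f` with real extension; by T_BAR and
T_MOD we may translate it such that `Cen (E f)` (the translate is a maximizer with real
extension). If `Rad (E f)`, T_RDF: `J p f = A F p ‖E f 0‖ ^ p ≤ A F p`. Otherwise T_GEO and T_TRA.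
Hypotheses: T_IQ, T_EXI, T_SYR, T_BAR, T_MOD, T_DIF, T_RDF, T_GEO, T_TRA. -/
def T_ALT : Prop := ∀ (F : Type) [NormedAddCommGroup F] [InnerProductSpace ℝ F]
  [FiniteDimensional ℝ F] [MeasurableSpace F] [BorelSpace F], 3 ≤ Module.finrank ℝ F →
  ∀ p : ℝ, 6 ≤ p → ∃ f : H F, IsMx p f ∧ (J p f ≤ A F p ∨
    J p f * (1 + (2 * (Module.finrank ℝ F : ℝ) - 1) / (p - 1)) ≤ J (p - 2) f)

end Pool.Agent.TRC
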